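import Pool.Agent.H1.TP.Defs

set_option autoImplicit false

/-! TP7 (helper333) -/

namespace Pool.Agent.H1.TP

open Finset Equiv

variable {c : ℕ}

namespace TP7

theorem exists_carry (J A : Finset (Fin c)) (h : J.card = A.card) :
    ∃ e : Perm (Fin c), ∀ j, e j ∈ A ↔ j ∈ J := by
  have e0 : {x // x ∈ J} ≃ {x // x ∈ A} := Finset.equivOfCardEq h
  refine ⟨e0.extendSubtype, fun j => ⟨fun hj => ?_, fun hj => e0.extendSubtype_mem j hj⟩⟩
  by_contra hn
  exact e0.extendSubtype_not_mem j hn hj

/-- the side to which the strand number `j` of the flag `b` leads -/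
def side (J : Finset (Fin c)) (j : Fin c) (b : Bool) : Bool := if j ∈ J then b else !b

theorem side_side (J : Finset (Fin c)) (j : Fin c) (b : Bool) : side J j (side J j b) = b := by
  unfold side
  split_ifs
  · rfl
  · rw [Bool.not_not]

theorem card_true (σ : Perm (Bool × Fin c)) :
    (univ.filter fun j : Fin c => (σ (true, j)).1 = true).card =
      (univ.filter fun j : Fin c => (σ (false, j)).1 = false).card := by
  have h := Equiv.sum_comp σ (fun y : Bool × Fin c => if y.1 = false then (1 : ℕ) else 0)
  rw [Fintype.sum_prod_type, Fintype.sum_prod_type, Fintype.sum_bool, Fintype.sum_bool] at h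
  simp only [if_true, Bool.true_eq_false, if_false, Finset.sum_const_zero, zero_add,
    Finset.sum_const, Finset.card_univ, Fintype.card_fin, smul_eq_mul, mul_one] at h
  rw [← Finset.card_filter, ← Finset.card_filter] at h
  have h2 := Finset.card_filter_add_card_filter_not (s := (univ : Finset (Fin c)))
    (p := fun j => (σ (true, j)).1 = true)
  rw [Finset.card_univ, Fintype.card_fin] at h2
  have h3 : (univ.filter fun j : Fin c => ¬ (σ (true, j)).1 = true) =
      univ.filter fun j : Fin c => (σ (true, j)).1 = false := by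
    refine Finset.filter_congr fun j _ => ?_
    rw [Bool.not_eq_true]
  rw [h3] at h2
  omega

theorem prod_side (J : Finset (Fin c)) :
    ∏ j : Fin c, Perm.sign (if j ∈ J then (1 : Perm Bool) else swap false true) =
      (-1) ^ (c - J.card) := by
  have h1 : ∀ j : Fin c, Perm.sign (if j ∈ J then (1 : Perm Bool) else swap false true) =
      if j ∈ J then 1 else -1 := by
    intro j
    split_ifs
    · exact Perm.sign_one
    · exact Perm.sign_swap (by decide)
  rw [Finset.prod_congr rfl fun j _ => h1 j, Finset.prod_ite, Finset.prod_const_one, one_mul,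
    Finset.prod_const]
  congr 1
  have h2 : (univ.filter fun j : Fin c => j ∉ J) = Jᶜ := by
    ext j
    simp only [Finset.mem_filter, Finset.mem_univ, true_and, Finset.mem_compl]
  rw [h2, Finset.card_compl, Fintype.card_fin]

end TP7

open TP7

theorem tp7_coset (σ : Perm (Bool × Fin c)) (J : Finset (Fin c))
    (hJ : J.card = (univ.filter fun j : Fin c => (σ (false, j)).1 = false).card) :
    ∃ α : Bool → Bool → Perm (Fin c), cross σ = cj α (pJ J) ∧
      ((Perm.sign σ : ℤˣ) : ℤ) = (-1) ^ (c - J.card) * sg4 α := by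
  obtain ⟨e0, he0⟩ := exists_carry J _ hJ
  obtain ⟨e1, he1⟩ := exists_carry J _ (hJ.trans (card_true σ).symm)
  obtain ⟨a0, ha0f, ha0t⟩ : ∃ a0 : Bool → Perm (Fin c), a0 false = e0 ∧ a0 true = e1 :=
    ⟨fun b => if b then e1 else e0, rfl, rfl⟩
  have ha0 : ∀ b j, (σ (b, a0 b j)).1 = side J j b := by
    intro b j
    unfold side
    cases b
    · rw [ha0f]
      have h1 := he0 j
      rw [Finset.mem_filter] at h1
      split_ifs with hj
      · exact (h1.2 hj).2
      · cases h2 : (σ (false, e0 j)).1
        · exact absurd (h1.1 ⟨Finset.mem_univ _, h2⟩) hj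
        · rfl
    · rw [ha0t]
      have h1 := he1 j
      rw [Finset.mem_filter] at h1
      split_ifs with hj
      · exact (h1.2 hj).2
      · cases h2 : (σ (true, e1 j)).1
        · rfl
        · exact absurd (h1.1 ⟨Finset.mem_univ _, h2⟩) hj
  have hinj : ∀ b', Function.Injective fun j : Fin c =>
      (σ (side J j b', a0 (side J j b') j)).2 := by
    intro b' j1 j2 h
    have h1 : σ (side J j1 b', a0 (side J j1 b') j1) = σ (side J j2 b', a0 (side J j2 b') j2) :=
      Prod.ext (by rw [ha0, ha0, side_side, side_side]) h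
    have h2 := σ.injective h1
    have h3 : side J j1 b' = side J j2 b' := congrArg Prod.fst h2
    have h4 : a0 (side J j1 b') j1 = a0 (side J j2 b') j2 := congrArg Prod.snd h2
    rw [h3] at h4
    exact (a0 _).injective h4
  obtain ⟨a1, ha1⟩ : ∃ a1 : Bool → Perm (Fin c), ∀ b' j, a1 b' j =
      (σ (side J j b', a0 (side J j b') j)).2 :=
    ⟨fun b' => Equiv.ofBijective _ (Finite.injective_iff_bijective.1 (hinj b')),
      fun b' j => rfl⟩
  have key : ∀ b j, σ (b, a0 b j) = (side J j b, a1 (side J j b) j) := by
    intro b j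
    refine Prod.ext (ha0 b j) ?_
    show (σ (b, a0 b j)).2 = a1 (side J j b) j
    rw [ha1, side_side]
  obtain ⟨α, hαf, hαt⟩ : ∃ α : Bool → Bool → Perm (Fin c), α false = a0 ∧ α true = a1 :=
    ⟨fun s => if s then a1 else a0, rfl, rfl⟩
  have hpJ : ∀ s b j, (pJ J).1 (s, b, j) = (!s, side J j b, j) := by
    intro s b j
    unfold pJ typ side
    simp only
    split_ifs with hj
    · simp [gN]
    · simp [gX]
  have hblk : ∀ s b j, (blk α).symm (s, b, α s b j) = (s, b, j) := by
    intro s b j
    show (s, b, (α s b).symm (α s b j)) = (s, b, j)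
    rw [Equiv.symm_apply_apply]
  refine ⟨α, ?_, ?_⟩
  · apply Subtype.ext
    funext y
    obtain ⟨s, b, j'⟩ := y
    obtain ⟨j, rfl⟩ := (α s b).surjective j'
    show (cross σ).1 (s, b, α s b j) = blk α ((pJ J).1 ((blk α).symm (s, b, α s b j)))
    rw [hblk, hpJ]
    cases s
    · show (true, σ (b, α false b j)) = (true, side J j b, α true (side J j b) j)
      rw [hαf, hαt, key]
    · show (false, σ.symm (b, α true b j)) = (false, side J j b, α false (side J j b) j)
      rw [hαf, hαt]
      have h1 : σ (side J j b, a0 (side J j b) j) = (b, a1 b j) := by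
        rw [key, side_side]
      rw [← h1, Equiv.symm_apply_apply]
  · have hperm : σ * prodCongrRight a0 = prodCongrRight a1 *
        prodCongrLeft (fun j : Fin c => if j ∈ J then (1 : Perm Bool) else swap false true) := by
      ext1 y
      obtain ⟨b, j⟩ := y
      show σ (b, a0 b j) = prodCongrRight a1
        ((if j ∈ J then (1 : Perm Bool) else swap false true) b, j)
      have h1 : (if j ∈ J then (1 : Perm Bool) else swap false true) b = side J j b := by
        unfold side
        split_ifs
        · rfl
        · cases b <;> decide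
      rw [h1, key]
      rfl
    have h2 := congrArg Perm.sign hperm
    rw [Perm.sign_mul, Perm.sign_mul, Perm.sign_prodCongrRight, Perm.sign_prodCongrRight,
      Perm.sign_prodCongrLeft, prod_side] at h2
    have h3 : Perm.sign σ = (-1) ^ (c - J.card) *
        ((∏ b, Perm.sign (a1 b)) * ∏ b, Perm.sign (a0 b)) := by
      calc Perm.sign σ = Perm.sign σ * (∏ b, Perm.sign (a0 b)) * ∏ b, Perm.sign (a0 b) := by
            rw [mul_assoc, Int.units_mul_self, mul_one]
        _ = (∏ b, Perm.sign (a1 b)) * (-1) ^ (c - J.card) * ∏ b, Perm.sign (a0 b) := by rw [h2]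
        _ = _ := by
          rw [mul_comm (∏ b, Perm.sign (a1 b)) ((-1) ^ (c - J.card)), mul_assoc]
    have h4 : sg4 α = (((∏ b, Perm.sign (a1 b)) * ∏ b, Perm.sign (a0 b) : ℤˣ) : ℤ) := by
      unfold sg4
      rw [Fintype.prod_bool, hαf, hαt]
      push_cast
      rfl
    rw [h3, h4]
    push_cast
    rfl

end Pool.Agent.H1.TP
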