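import Mathlib

/-!
# MP_20b97f_co: the number of permutations with a given crossing number
-/

set_option autoImplicit false

namespace Pool.Agent.H1.TP

open Finset Equiv

namespace TP8

/-- The first block. -/
def blk (c : ℕ) : Finset (Bool × Fin c) := univ.filter (fun y => y.1 = false)

theorem mem_blk {c : ℕ} (y : Bool × Fin c) : y ∈ blk c ↔ y.1 = false := by
  unfold blk
  rw [mem_filter]
  exact ⟨fun h => h.2, fun h => ⟨mem_univ _, h⟩⟩

theorem card_blk (c : ℕ) : (blk c).card = c := by
  have h : blk c = ({false} : Finset Bool) ×ˢ (univ : Finset (Fin c)) := by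
    ext ⟨a, b⟩
    simp [blk]
  rw [h, card_product, card_singleton, card_univ, Fintype.card_fin, one_mul]

/-- The image of the first block. -/
def im {c : ℕ} (σ : Perm (Bool × Fin c)) : Finset (Bool × Fin c) := (blk c).map σ.toEmbedding

theorem card_im {c : ℕ} (σ : Perm (Bool × Fin c)) : (im σ).card = c := by
  unfold im
  rw [card_map, card_blk]

theorem mem_im {c : ℕ} (σ : Perm (Bool × Fin c)) (y : Bool × Fin c) :
    y ∈ im σ ↔ σ.symm y ∈ blk c := by
  unfold im
  exact mem_map_equiv

theorem mem_im_mul {c : ℕ} (τ σ : Perm (Bool × Fin c)) (y : Bool × Fin c) :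
    y ∈ im (τ * σ) ↔ τ.symm y ∈ im σ := by
  rw [mem_im, mem_im]
  rfl

theorem exists_im {c : ℕ} (P : Finset (Bool × Fin c)) (hP : P.card = c) :
    ∃ τ : Perm (Bool × Fin c), im τ = P := by
  have h : Fintype.card {x // x ∈ blk c} = Fintype.card {x // x ∈ P} := by
    rw [Fintype.card_coe, Fintype.card_coe, card_blk, hP]
  obtain ⟨e⟩ := Fintype.card_eq.1 h
  refine ⟨e.extendSubtype, ?_⟩
  refine eq_of_subset_of_card_le ?_ (by rw [hP, card_im])
  intro y hy
  unfold im at hy
  obtain ⟨x, hx, rfl⟩ := mem_map.1 hy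
  exact e.extendSubtype_mem x hx

/-- The fibre of `im`. -/
def fib {c : ℕ} (P : Finset (Bool × Fin c)) : Finset (Perm (Bool × Fin c)) :=
  univ.filter (fun σ => im σ = P)

theorem mem_fib {c : ℕ} (P : Finset (Bool × Fin c)) (σ : Perm (Bool × Fin c)) :
    σ ∈ fib P ↔ im σ = P := by
  unfold fib
  rw [mem_filter]
  exact ⟨fun h => h.2, fun h => ⟨mem_univ _, h⟩⟩

theorem card_fib_eq {c : ℕ} (P : Finset (Bool × Fin c)) (hP : P.card = c) :
    (fib P).card = (fib (blk c)).card := by
  obtain ⟨τ, hτ⟩ := exists_im P hP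
  refine (card_nbij' (fun σ => τ * σ) (fun σ => τ⁻¹ * σ) ?_ ?_ ?_ ?_).symm
  · intro σ hσ
    have hσ := (mem_fib _ _).1 (mem_coe.1 hσ)
    refine mem_coe.2 ((mem_fib _ _).2 ?_)
    ext y
    rw [mem_im_mul, hσ, ← mem_im, hτ]
  · intro σ hσ
    have hσ := (mem_fib _ _).1 (mem_coe.1 hσ)
    refine mem_coe.2 ((mem_fib _ _).2 ?_)
    ext y
    have e : (τ⁻¹ : Perm (Bool × Fin c)).symm y = τ y := rfl
    rw [mem_im_mul, hσ, ← hτ, mem_im, e, Equiv.symm_apply_apply]
  · intro σ _
    simp
  · intro σ _
    simp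

theorem card_fib {c : ℕ} (P : Finset (Bool × Fin c)) (hP : P.card = c) :
    (fib P).card = c.factorial * c.factorial := by
  rw [card_fib_eq P hP]
  have h1 : (univ : Finset (Perm (Bool × Fin c))).card = ∑ P ∈ powersetCard c
      (univ : Finset (Bool × Fin c)), (fib P).card := by
    refine card_eq_sum_card_fiberwise (f := im) ?_
    intro σ _
    exact mem_coe.2 (mem_powersetCard.2 ⟨subset_univ _, card_im σ⟩)
  have h2 : ∑ P ∈ powersetCard c (univ : Finset (Bool × Fin c)), (fib P).card =
      (2 * c).choose c * (fib (blk c)).card := by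
    rw [sum_congr rfl (fun P hP => card_fib_eq P (mem_powersetCard.1 hP).2), sum_const,
      card_powersetCard, card_univ, Fintype.card_prod, Fintype.card_bool, Fintype.card_fin,
      smul_eq_mul]
  rw [h2, card_univ, Fintype.card_perm, Fintype.card_prod, Fintype.card_bool,
    Fintype.card_fin] at h1
  have h3 := Nat.choose_mul_factorial_mul_factorial (show c ≤ 2 * c by omega)
  have h4 : 2 * c - c = c := by omega
  rw [h4, h1, mul_assoc] at h3
  exact (Nat.eq_of_mul_eq_mul_left (Nat.choose_pos (by omega)) h3).symm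

/-- The number of the possible images. -/
theorem card_P (c j : ℕ) :
    ((powersetCard c (univ : Finset (Bool × Fin c))).filter
      (fun P => (P.filter (fun y => y.1 = false)).card = j)).card = (c.choose j) ^ 2 := by
  rcases Nat.lt_or_ge c j with hj | hj
  · rw [Nat.choose_eq_zero_of_lt hj, filter_false_of_mem]
    · simp
    · intro P hP h
      have h1 := card_filter_le P (fun y => y.1 = false)
      rw [(mem_powersetCard.1 hP).2, h] at h1
      omega
  have h0 : (c.choose j) ^ 2 = ((powersetCard j (univ : Finset (Fin c))) ×ˢ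
      (powersetCard (c - j) (univ : Finset (Fin c)))).card := by
    rw [card_product, card_powersetCard, card_powersetCard, card_univ, Fintype.card_fin,
      Nat.choose_symm hj, pow_two]
  rw [h0]
  have hsplit : ∀ P : Finset (Bool × Fin c),
      (P.filter (fun y => y.1 = false)).card = (univ.filter (fun x : Fin c => (false, x) ∈ P)).card ∧
      P.card = (univ.filter (fun x : Fin c => (false, x) ∈ P)).card +
        (univ.filter (fun x : Fin c => (true, x) ∈ P)).card := by
    intro P
    have e : ∀ β : Bool, (P.filter (fun y => y.1 = β)).card =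
        (univ.filter (fun x : Fin c => (β, x) ∈ P)).card := by
      intro β
      refine (card_nbij' (fun y => y.2) (fun x => (β, x)) ?_ ?_ ?_ ?_)
      · intro y hy
        obtain ⟨h1, h2⟩ := mem_filter.1 (mem_coe.1 hy)
        refine mem_coe.2 (mem_filter.2 ⟨mem_univ _, ?_⟩)
        rw [← h2]
        exact h1
      · intro x hx
        exact mem_coe.2 (mem_filter.2 ⟨(mem_filter.1 (mem_coe.1 hx)).2, rfl⟩)
      · intro y hy
        obtain ⟨h1, h2⟩ := mem_filter.1 (mem_coe.1 hy)
        exact Prod.ext h2.symm rfl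
      · intro x _
        rfl
    refine ⟨e false, ?_⟩
    rw [← e false, ← e true, ← card_filter_add_card_filter_not (s := P) (fun y => y.1 = false)]
    congr 2
    ext y
    rw [mem_filter, mem_filter]
    cases y.1 <;> simp
  refine card_nbij'
    (fun P => (univ.filter (fun x : Fin c => (false, x) ∈ P), univ.filter (fun x : Fin c => (true, x) ∈ P)))
    (fun A => univ.filter (fun y : Bool × Fin c => if y.1 = false then y.2 ∈ A.1 else y.2 ∈ A.2))
    ?_ ?_ ?_ ?_
  · intro P hP
    obtain ⟨h1, h2⟩ := mem_filter.1 (mem_coe.1 hP)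
    obtain ⟨h3, h4⟩ := hsplit P
    have h5 := (mem_powersetCard.1 h1).2
    refine mem_coe.2 (mem_product.2 ⟨mem_powersetCard.2 ⟨subset_univ _, ?_⟩,
      mem_powersetCard.2 ⟨subset_univ _, ?_⟩⟩)
    · rw [← h3]
      exact h2
    · change (univ.filter (fun x : Fin c => (true, x) ∈ P)).card = c - j
      omega
  · rintro ⟨A, B⟩ hAB
    obtain ⟨h1, h2⟩ := mem_product.1 (mem_coe.1 hAB)
    have h1 := (mem_powersetCard.1 h1).2
    have h2 := (mem_powersetCard.1 h2).2
    obtain ⟨P, hP⟩ : ∃ P : Finset (Bool × Fin c), P = univ.filter (fun y : Bool × Fin c =>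
      if y.1 = false then y.2 ∈ A else y.2 ∈ B) := ⟨_, rfl⟩
    have hA : univ.filter (fun x : Fin c => (false, x) ∈ P) = A := by
      ext x
      rw [hP]
      simp
    have hB : univ.filter (fun x : Fin c => (true, x) ∈ P) = B := by
      ext x
      rw [hP]
      simp
    obtain ⟨h3, h4⟩ := hsplit P
    rw [hA] at h3 h4
    rw [hB] at h4
    refine mem_coe.2 (mem_filter.2 ⟨mem_powersetCard.2 ⟨subset_univ _, ?_⟩, ?_⟩)
    · change (univ.filter (fun y : Bool × Fin c => if y.1 = false then y.2 ∈ A else y.2 ∈ B)).card = c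
      rw [← hP, h4]
      simp only at h1 h2
      omega
    · change ((univ.filter (fun y : Bool × Fin c =>
        if y.1 = false then y.2 ∈ A else y.2 ∈ B)).filter (fun y => y.1 = false)).card = j
      rw [← hP, h3]
      exact h1
  · intro P _
    ext ⟨β, x⟩
    cases β <;> simp
  · rintro ⟨A, B⟩ _
    refine Prod.ext ?_ ?_
    · ext x
      simp
    · ext x
      simp

end TP8

/-- TP8 -/
theorem tp8_count (c j : ℕ) :
    (univ.filter fun σ : Perm (Bool × Fin c) =>
      (univ.filter fun x : Fin c => (σ (false, x)).1 = false).card = j).card =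
      (c.factorial) ^ 2 * (c.choose j) ^ 2 := by
  have h0 : ∀ σ : Perm (Bool × Fin c),
      (univ.filter fun x : Fin c => (σ (false, x)).1 = false).card =
        ((TP8.im σ).filter (fun y => y.1 = false)).card := by
    intro σ
    refine card_nbij' (fun x => σ (false, x)) (fun y => (σ.symm y).2) ?_ ?_ ?_ ?_
    · intro x hx
      refine mem_coe.2 (mem_filter.2 ⟨?_, (mem_filter.1 (mem_coe.1 hx)).2⟩)
      rw [TP8.mem_im, Equiv.symm_apply_apply, TP8.mem_blk]
    · intro y hy
      obtain ⟨h1, h2⟩ := mem_filter.1 (mem_coe.1 hy)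
      rw [TP8.mem_im, TP8.mem_blk] at h1
      refine mem_coe.2 (mem_filter.2 ⟨mem_univ _, ?_⟩)
      have e : ((false, (σ.symm y).2) : Bool × Fin c) = σ.symm y := Prod.ext h1.symm rfl
      rw [e, Equiv.apply_symm_apply]
      exact h2
    · intro x _
      change (σ.symm (σ (false, x))).2 = x
      rw [Equiv.symm_apply_apply]
    · intro y hy
      obtain ⟨h1, h2⟩ := mem_filter.1 (mem_coe.1 hy)
      rw [TP8.mem_im, TP8.mem_blk] at h1
      have e : ((false, (σ.symm y).2) : Bool × Fin c) = σ.symm y := Prod.ext h1.symm rfl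
      change σ (false, (σ.symm y).2) = y
      rw [e, Equiv.apply_symm_apply]
  obtain ⟨T, hT⟩ : ∃ T, T = (powersetCard c (univ : Finset (Bool × Fin c))).filter
      (fun P => (P.filter (fun y => y.1 = false)).card = j) := ⟨_, rfl⟩
  have h1 : (univ.filter fun σ : Perm (Bool × Fin c) =>
      (univ.filter fun x : Fin c => (σ (false, x)).1 = false).card = j).card =
      ∑ P ∈ T, ((univ.filter fun σ : Perm (Bool × Fin c) =>
      (univ.filter fun x : Fin c => (σ (false, x)).1 = false).card = j).filter
        (fun σ => TP8.im σ = P)).card := by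
    refine card_eq_sum_card_fiberwise (f := TP8.im) ?_
    intro σ hσ
    have h2 := (mem_filter.1 (mem_coe.1 hσ)).2
    rw [h0] at h2
    rw [hT]
    exact mem_coe.2 (mem_filter.2 ⟨mem_powersetCard.2 ⟨subset_univ _, TP8.card_im σ⟩, h2⟩)
  have h2 : ∀ P ∈ T, ((univ.filter fun σ : Perm (Bool × Fin c) =>
      (univ.filter fun x : Fin c => (σ (false, x)).1 = false).card = j).filter
        (fun σ => TP8.im σ = P)).card = c.factorial * c.factorial := by
    intro P hP
    rw [hT] at hP
    obtain ⟨h3, h4⟩ := mem_filter.1 hP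
    rw [← TP8.card_fib P (mem_powersetCard.1 h3).2]
    congr 1
    ext σ
    rw [TP8.mem_fib, mem_filter, mem_filter]
    constructor
    · exact fun h => h.2
    · intro h
      refine ⟨⟨mem_univ _, ?_⟩, h⟩
      rw [h0, h]
      exact h4
  rw [h1, sum_congr rfl h2, sum_const, hT, TP8.card_P, smul_eq_mul]
  ring

end Pool.Agent.H1.TP
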