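import Pool.Agent.H1.TP.Defs

set_option autoImplicit false
set_option linter.unusedVariables false

namespace Pool.Agent.H1.TP

open Finset Equiv

variable {I : Type} [Fintype I] [DecidableEq I] {c : ℕ}

namespace TP9

theorem expand (G : Pairing c → ℤ)
    (h : ∀ (g : Fin c → Ty) (j : Fin c), G (typ (Function.update g j gT)) +
      G (typ (Function.update g j gN)) + G (typ (Function.update g j gX)) = 0)
    (A : Finset (Fin c)) : ∀ g : Fin c → Ty,
    G (typ fun j => if j ∈ A then gT else g j) = (-1) ^ A.card *
      ∑ J ∈ A.powerset, G (typ fun j => if j ∈ A then (if j ∈ J then gN else gX) else g j) := by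
  induction A using Finset.induction_on with
  | empty => simp
  | insert a A ha ih =>
    intro g
    have h1 : ∀ v : Ty, Function.update (fun j => if j ∈ A then gT else g j) a v =
        fun j => if j ∈ A then gT else Function.update g a v j := by
      intro v
      funext j
      by_cases hj : j = a
      · rw [hj, Function.update_self, if_neg ha, Function.update_self]
      · rw [Function.update_of_ne hj, Function.update_of_ne hj]
    have h2 : (fun j => if j ∈ insert a A then gT else g j) =
        Function.update (fun j => if j ∈ A then gT else g j) a gT := by
      funext j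
      by_cases hj : j = a
      · rw [hj, Function.update_self, if_pos (mem_insert_self a A)]
      · rw [Function.update_of_ne hj]
        by_cases hjA : j ∈ A
        · rw [if_pos (mem_insert_of_mem hjA), if_pos hjA]
        · rw [if_neg (fun h => (mem_insert.1 h).elim hj hjA), if_neg hjA]
    have h3 := h (fun j => if j ∈ A then gT else g j) a
    rw [← h2, h1, h1, ih, ih] at h3
    rw [sum_powerset_insert ha, card_insert_of_notMem ha]
    have h4 : ∀ J ∈ A.powerset, (fun j => if j ∈ insert a A then (if j ∈ J then gN else gX) else g j) =
        fun j => if j ∈ A then (if j ∈ J then gN else gX) else Function.update g a gX j := by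
      intro J hJ
      rw [mem_powerset] at hJ
      funext j
      by_cases hj : j = a
      · rw [hj, Function.update_self, if_pos (mem_insert_self a A), if_neg ha,
          if_neg (fun h => ha (hJ h))]
      · rw [Function.update_of_ne hj]
        by_cases hjA : j ∈ A
        · rw [if_pos (mem_insert_of_mem hjA), if_pos hjA]
        · rw [if_neg (fun h => (mem_insert.1 h).elim hj hjA), if_neg hjA]
    have h5 : ∀ J ∈ A.powerset,
        (fun j => if j ∈ insert a A then (if j ∈ insert a J then gN else gX) else g j) =
        fun j => if j ∈ A then (if j ∈ J then gN else gX) else Function.update g a gN j := by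
      intro J hJ
      rw [mem_powerset] at hJ
      funext j
      by_cases hj : j = a
      · rw [hj, Function.update_self, if_pos (mem_insert_self a A), if_neg ha,
          if_pos (mem_insert_self a J)]
      · rw [Function.update_of_ne hj]
        by_cases hjA : j ∈ A
        · rw [if_pos (mem_insert_of_mem hjA), if_pos hjA]
          by_cases hjJ : j ∈ J
          · rw [if_pos (mem_insert_of_mem hjJ), if_pos hjJ]
          · rw [if_neg (fun h => (mem_insert.1 h).elim hj hjJ), if_neg hjJ]
        · rw [if_neg (fun h => (mem_insert.1 h).elim hj hjA), if_neg hjA]
    have h6 : ∑ J ∈ A.powerset, G (typ fun j => if j ∈ insert a A then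
        (if j ∈ J then gN else gX) else g j) =
        ∑ J ∈ A.powerset, G (typ fun j => if j ∈ A then (if j ∈ J then gN else gX) else
          Function.update g a gX j) :=
      sum_congr rfl fun J hJ => by rw [h4 J hJ]
    have h7 : ∑ J ∈ A.powerset, G (typ fun j => if j ∈ insert a A then
        (if j ∈ insert a J then gN else gX) else g j) =
        ∑ J ∈ A.powerset, G (typ fun j => if j ∈ A then (if j ∈ J then gN else gX) else
          Function.update g a gN j) :=
      sum_congr rfl fun J hJ => by rw [h5 J hJ]
    rw [h6, h7, pow_succ]
    linarith

end TP9

/-- TP9 -/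
theorem tp9_turn (G : Pairing c → ℤ)
    (h : ∀ (g : Fin c → Ty) (j : Fin c), G (typ (Function.update g j gT)) +
      G (typ (Function.update g j gN)) + G (typ (Function.update g j gX)) = 0) :
    G pT = (-1) ^ c * ∑ J : Finset (Fin c), G (pJ J) := by
  have h1 := TP9.expand G h univ fun _ => gT
  simp only [mem_univ, if_true] at h1
  rw [card_univ, Fintype.card_fin, powerset_univ] at h1
  exact h1

end Pool.Agent.H1.TP
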