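import Mathlib
import Pool.Agent.H1.TP.TP7
import Pool.Agent.H1.TP.TP8
import Pool.Agent.H1.TP.TP9

set_option autoImplicit false
set_option linter.unusedVariables false

namespace Pool.Agent.H1.TP

open Finset Equiv

variable {I : Type} [Fintype I] [DecidableEq I] {c : ℕ}

namespace TP10

/-- the number of strands which stay on the side `false` -/
def jf (σ : Perm (Bool × Fin c)) : ℕ :=
  (univ.filter fun j : Fin c => (σ (false, j)).1 = false).card

theorem jf_le (σ : Perm (Bool × Fin c)) : jf σ ≤ c := by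
  unfold jf
  refine (Finset.card_le_univ _).trans ?_
  simp

theorem sg4_sq (α : Bool → Bool → Perm (Fin c)) : sg4 α * sg4 α = 1 := by
  unfold sg4
  rw [← Finset.prod_mul_distrib]
  refine Finset.prod_eq_one fun s _ => ?_
  rw [← Finset.prod_mul_distrib]
  refine Finset.prod_eq_one fun b _ => ?_
  rw [← Units.val_mul, Int.units_mul_self]
  rfl

theorem term (G : Pairing c → ℤ) (hG : ∀ α q, G (cj α q) = sg4 α * G q)
    (σ : Perm (Bool × Fin c)) (J : Finset (Fin c)) (hJ : J.card = jf σ) :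
    ((Perm.sign σ : ℤˣ) : ℤ) * G (cross σ) = (-1) ^ (c - J.card) * G (pJ J) := by
  obtain ⟨α, h1, h2⟩ := tp7_coset σ J hJ
  rw [h1, h2, hG]
  calc (-1) ^ (c - J.card) * sg4 α * (sg4 α * G (pJ J)) =
      (-1) ^ (c - J.card) * (sg4 α * sg4 α) * G (pJ J) := by ring
    _ = _ := by rw [sg4_sq, mul_one]

theorem choose_mod (p : ℕ) (hp : p.Prime) (hc : c + 1 = p) (j : ℕ) (hj : j ≤ c) :
    (p : ℤ) ∣ (c.choose j : ℤ) - (-1) ^ j := by
  induction j with
  | zero => simp
  | succ j ih =>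
    have h1 := ih (by omega)
    have h2 : (p : ℤ) ∣ ((c + 1).choose (j + 1) : ℕ) := by
      rw [hc]
      exact_mod_cast hp.dvd_choose_self (by omega) (by omega)
    rw [Nat.choose_succ_succ] at h2
    push_cast at h2
    have h3 : (c.choose (j + 1) : ℤ) - (-1) ^ (j + 1) =
        ((c.choose j : ℤ) + (c.choose (j + 1) : ℤ)) - ((c.choose j : ℤ) - (-1) ^ j) := by
      rw [pow_succ]
      ring
    rw [h3]
    exact dvd_sub h2 h1

theorem coef (p : ℕ) (hp : p.Prime) (hc : c + 1 = p) (j : ℕ) (hj : j ≤ c) :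
    (p : ℤ) ∣ (-1) ^ (c - j) * (c.choose j : ℤ) - (-1) ^ c := by
  have h1 : (-1 : ℤ) ^ c = (-1) ^ (c - j) * (-1) ^ j := by
    rw [← pow_add]
    congr 1
    omega
  rw [h1, ← mul_sub]
  exact (choose_mod p hp hc j hj).mul_left _

theorem total (G : Pairing c → ℤ) (hG : ∀ α q, G (cj α q) = sg4 α * G q) :
    ∑ σ : Perm (Bool × Fin c), ((Perm.sign σ : ℤˣ) : ℤ) * G (cross σ) =
      ∑ J : Finset (Fin c), (c.factorial : ℤ) ^ 2 * ((-1) ^ (c - J.card) * (c.choose J.card : ℤ)) *
        G (pJ J) := by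
  rw [← Finset.sum_fiberwise_of_maps_to (s := univ) (t := range (c + 1)) (g := jf)
    (fun σ _ => mem_range.2 (Nat.lt_succ_of_le (jf_le σ))),
    ← Finset.sum_fiberwise_of_maps_to (s := (univ : Finset (Finset (Fin c)))) (t := range (c + 1))
    (g := Finset.card) (fun J _ => mem_range.2 (Nat.lt_succ_of_le (by
      simpa using Finset.card_le_univ J)))]
  refine Finset.sum_congr rfl fun j hj => ?_
  have hjc : j ≤ c := Nat.lt_succ_iff.1 (mem_range.1 hj)
  obtain ⟨J₀, -, hJ₀⟩ := Finset.exists_subset_card_eq (s := (univ : Finset (Fin c))) (n := j)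
    (by simpa using hjc)
  have hcard : (univ.filter fun σ : Perm (Bool × Fin c) => jf σ = j).card =
      (c.factorial) ^ 2 * (c.choose j) ^ 2 := tp8_count c j
  have hpos : 0 < (univ.filter fun σ : Perm (Bool × Fin c) => jf σ = j).card := by
    rw [hcard]
    have := Nat.factorial_pos c
    have := Nat.choose_pos hjc
    positivity
  obtain ⟨σ₀, hσ₀⟩ := Finset.card_pos.1 hpos
  have hσ₀' : jf σ₀ = j := (mem_filter.1 hσ₀).2
  have hall : ∀ J : Finset (Fin c), J.card = j → G (pJ J) = G (pJ J₀) := by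
    intro J hJ
    have h1 := term G hG σ₀ J (by rw [hJ, hσ₀'])
    have h2 := term G hG σ₀ J₀ (by rw [hJ₀, hσ₀'])
    rw [h1, hJ, hJ₀] at h2
    exact mul_left_cancel₀ (pow_ne_zero _ (by norm_num)) h2
  have e1 : ∑ σ ∈ univ.filter (fun σ : Perm (Bool × Fin c) => jf σ = j),
      ((Perm.sign σ : ℤˣ) : ℤ) * G (cross σ) =
      ((c.factorial ^ 2 * c.choose j ^ 2 : ℕ) : ℤ) * ((-1) ^ (c - j) * G (pJ J₀)) := by
    rw [← hcard, ← nsmul_eq_mul, ← Finset.sum_const]
    refine Finset.sum_congr rfl fun σ hσ => ?_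
    rw [term G hG σ J₀ (by rw [hJ₀, (mem_filter.1 hσ).2]), hJ₀]
  have e2 : ∑ J ∈ univ.filter (fun J : Finset (Fin c) => J.card = j),
      (c.factorial : ℤ) ^ 2 * ((-1) ^ (c - J.card) * (c.choose J.card : ℤ)) * G (pJ J) =
      (c.choose j : ℤ) * ((c.factorial : ℤ) ^ 2 * ((-1) ^ (c - j) * (c.choose j : ℤ)) *
        G (pJ J₀)) := by
    have h3 : (univ.filter fun J : Finset (Fin c) => J.card = j).card = c.choose j := by
      have := Finset.card_powersetCard j (univ : Finset (Fin c))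
      rw [Finset.card_univ, Fintype.card_fin] at this
      rw [← this]
      congr 1
      ext J
      simp [Finset.mem_powersetCard]
    rw [← h3, ← nsmul_eq_mul, ← Finset.sum_const, h3]
    refine Finset.sum_congr rfl fun J hJ => ?_
    have hJ' := (mem_filter.1 hJ).2
    rw [hall J hJ', hJ']
  rw [e1, e2]
  push_cast
  ring

end TP10

/-- TP10 -/
theorem tp10_local (p : ℕ) (hp : p.Prime) (hc : c + 1 = p) :
    ∃ r : Finset (Fin c) → ℤ, ∀ G : Pairing c → ℤ,
      (∀ α q, G (cj α q) = sg4 α * G q) →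
      (∀ (g : Fin c → Ty) (j : Fin c), G (typ (Function.update g j gT)) +
        G (typ (Function.update g j gN)) + G (typ (Function.update g j gX)) = 0) →
      ∑ σ : Perm (Bool × Fin c), ((Perm.sign σ : ℤˣ) : ℤ) * G (cross σ) =
        ((c.factorial : ℤ)) ^ 2 * G pT + p * ∑ J : Finset (Fin c), r J * G (pJ J) := by
  have h1 : ∀ J : Finset (Fin c), ∃ q : ℤ,
      (-1) ^ (c - J.card) * (c.choose J.card : ℤ) - (-1) ^ c = p * q := fun J =>
    TP10.coef p hp hc J.card (by simpa using Finset.card_le_univ J)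
  choose q hq using h1
  refine ⟨fun J => (c.factorial : ℤ) ^ 2 * q J, fun G hG hT => ?_⟩
  rw [TP10.total G hG, tp9_turn G hT, ← mul_assoc, Finset.mul_sum, Finset.mul_sum,
    ← Finset.sum_add_distrib]
  refine Finset.sum_congr rfl fun J _ => ?_
  have h2 : (-1) ^ (c - J.card) * (c.choose J.card : ℤ) = (-1) ^ c + p * q J := by
    rw [← hq]; ring
  rw [h2]
  ring

end Pool.Agent.H1.TP
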