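import Mathlib

set_option autoImplicit false
set_option linter.unusedVariables false

/-!
# TP3: the three pairings of four ports
-/

namespace Pool.Agent.H1.TP

namespace TP3

open Finset

variable {α : Type}

/-- adding one pair to an equivalence relation -/
def add (s : Setoid α) (p q : α) : Setoid α where
  r x y := s x y ∨ (s x p ∧ s q y) ∨ (s x q ∧ s p y)
  iseqv := by
    refine ⟨fun x => Or.inl (s.refl x), ?_, ?_⟩
    · rintro x y (h | ⟨h, h'⟩ | ⟨h, h'⟩)
      · exact Or.inl (s.symm h)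
      · exact Or.inr (Or.inr ⟨s.symm h', s.symm h⟩)
      · exact Or.inr (Or.inl ⟨s.symm h', s.symm h⟩)
    · rintro x y z (h | ⟨h, h'⟩ | ⟨h, h'⟩) (k | ⟨k, k'⟩ | ⟨k, k'⟩)
      · exact Or.inl (s.trans h k)
      · exact Or.inr (Or.inl ⟨s.trans h k, k'⟩)
      · exact Or.inr (Or.inr ⟨s.trans h k, k'⟩)
      · exact Or.inr (Or.inl ⟨h, s.trans h' k⟩)
      · exact Or.inr (Or.inl ⟨h, k'⟩)
      · exact Or.inl (s.trans h k')
      · exact Or.inr (Or.inr ⟨h, s.trans h' k⟩)
      · exact Or.inl (s.trans h k')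
      · exact Or.inr (Or.inr ⟨h, k'⟩)

theorem add_iff (s : Setoid α) (p q x y : α) :
    add s p q x y ↔ s x y ∨ (s x p ∧ s q y) ∨ (s x q ∧ s p y) := Iff.rfl

theorem add_base {s : Setoid α} (p q : α) {x y : α} (h : s x y) : add s p q x y := Or.inl h

theorem add_pair (s : Setoid α) (p q : α) : add s p q p q :=
  Or.inr (Or.inl ⟨s.refl p, s.refl q⟩)

theorem add_le {s t : Setoid α} {p q : α} (h : ∀ x y, s x y → t x y) (hpq : t p q) :
    ∀ x y, add s p q x y → t x y := by
  rintro x y (h1 | ⟨h1, h2⟩ | ⟨h1, h2⟩)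
  · exact h _ _ h1
  · exact t.trans (h _ _ h1) (t.trans hpq (h _ _ h2))
  · exact t.trans (h _ _ h1) (t.trans (t.symm hpq) (h _ _ h2))

theorem card_add_same (s : Setoid α) {p q : α} (h : s p q) :
    Nat.card (Quotient (add s p q)) = Nat.card (Quotient s) := by
  have : add s p q = s := Setoid.ext fun x y =>
    ⟨fun hxy => add_le (fun _ _ h => h) h x y hxy, fun hxy => Or.inl hxy⟩
  rw [this]

open Classical in
theorem card_add_diff [Finite α] (s : Setoid α) {p q : α} (h : ¬ s p q) :
    Nat.card (Quotient (add s p q)) + 1 = Nat.card (Quotient s) := by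
  let F : α → {c : Quotient s // c ≠ Quotient.mk s q} := fun x =>
    if hx : s x q then ⟨Quotient.mk s p, fun e => h (Quotient.exact e)⟩
    else ⟨Quotient.mk s x, fun e => hx (Quotient.exact e)⟩
  have hF : ∀ x y, add s p q x y ↔ F x = F y := by
    intro x y
    simp only [F]
    constructor
    · intro hxy
      split_ifs with h1 h2 h2
      · rfl
      · apply Subtype.ext
        apply Quotient.sound
        rcases hxy with h3 | ⟨h3, h4⟩ | ⟨h3, h4⟩
        · exact absurd (s.trans (s.symm h3) h1) h2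
        · exact absurd (s.symm h4) h2
        · exact h4
      · apply Subtype.ext
        apply Quotient.sound
        rcases hxy with h3 | ⟨h3, h4⟩ | ⟨h3, h4⟩
        · exact absurd (s.trans h3 h2) h1
        · exact h3
        · exact absurd h3 h1
      · apply Subtype.ext
        apply Quotient.sound
        rcases hxy with h3 | ⟨h3, h4⟩ | ⟨h3, h4⟩
        · exact h3
        · exact absurd (s.symm h4) h2
        · exact absurd h3 h1
    · split_ifs with h1 h2 h2
      · intro _
        exact Or.inl (s.trans h1 (s.symm h2))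
      · intro e
        exact Or.inr (Or.inr ⟨h1, Quotient.exact (Subtype.ext_iff.mp e)⟩)
      · intro e
        exact Or.inr (Or.inl ⟨Quotient.exact (Subtype.ext_iff.mp e), s.symm h2⟩)
      · intro e
        exact Or.inl (Quotient.exact (Subtype.ext_iff.mp e))
  have hsurj : Function.Surjective F := by
    rintro ⟨c, hc⟩
    obtain ⟨x, rfl⟩ := Quotient.exists_rep c
    refine ⟨x, ?_⟩
    have hx : ¬ s x q := fun e => hc (Quotient.sound e)
    simp only [F, dif_neg hx]
  have e1 : Nat.card (Quotient (add s p q)) = Nat.card {c : Quotient s // c ≠ Quotient.mk s q} := by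
    refine Nat.card_congr (Equiv.ofBijective
      (Quotient.lift F fun x y hxy => (hF x y).mp hxy) ⟨?_, ?_⟩)
    · intro c d
      refine Quotient.inductionOn₂ c d fun x y hxy => ?_
      exact Quotient.sound ((hF x y).mpr hxy)
    · intro c
      obtain ⟨x, hx⟩ := hsurj c
      exact ⟨Quotient.mk _ x, hx⟩
  rw [e1]
  have : Fintype (Quotient s) := Fintype.ofFinite _
  rw [Nat.card_eq_fintype_card, Nat.card_eq_fintype_card]
  have e2 := Fintype.card_subtype_compl (fun c : Quotient s => c = Quotient.mk s q)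
  rw [Fintype.card_subtype_eq] at e2
  have e3 : 0 < Fintype.card (Quotient s) := Fintype.card_pos_iff.mpr ⟨Quotient.mk s q⟩
  have e4 : Fintype.card {c : Quotient s // c ≠ Quotient.mk s q} =
      Fintype.card {c : Quotient s // ¬ c = Quotient.mk s q} := rfl
  omega

theorem card_quot (r : α → α → Prop) (s : Setoid α) (h1 : ∀ x y, r x y → s x y)
    (h2 : ∀ x y, s x y → Relation.EqvGen r x y) :
    Nat.card (Quot r) = Nat.card (Quotient s) := by
  refine Nat.card_congr ⟨Quot.lift (Quotient.mk s) fun x y h => Quotient.sound (h1 x y h),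
    Quotient.lift (Quot.mk r) fun x y h => Quot.eqvGen_sound (h2 x y h), ?_, ?_⟩
  · intro c
    refine Quot.inductionOn c fun x => rfl
  · intro c
    refine Quotient.inductionOn c fun x => rfl

/-- the relation with the pairs in `D` -/
def RD (f g : α → α) (D : α → Prop) (x y : α) : Prop := y = f x ∨ (D x ∧ y = g x)

/-- the generated equivalence relation -/
def SD (f g : α → α) (D : α → Prop) : Setoid α := Relation.EqvGen.setoid (RD f g D)

theorem SD_f (f g : α → α) (D : α → Prop) (x : α) : SD f g D x (f x) :=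
  Relation.EqvGen.rel _ _ (Or.inl rfl)

theorem SD_g (f g : α → α) (D : α → Prop) {x : α} (h : D x) : SD f g D x (g x) :=
  Relation.EqvGen.rel _ _ (Or.inr ⟨h, rfl⟩)

theorem SD_le {f g : α → α} {D : α → Prop} {t : Setoid α} (h : ∀ x, t x (f x))
    (h' : ∀ x, D x → t x (g x)) : ∀ x y, SD f g D x y → t x y := by
  intro x y hxy
  induction hxy with
  | rel x y hxy =>
    rcases hxy with rfl | ⟨h1, rfl⟩
    · exact h x
    · exact h' x h1
  | refl x => exact t.refl x
  | symm x y _ ih => exact t.symm ih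
  | trans x y z _ _ ih ih' => exact t.trans ih ih'

theorem SD_add (f g : α → α) (hg : ∀ x, g (g x) = x) (D : α → Prop) (p : α) (x y : α) :
    SD f g (fun z => D z ∨ z = p ∨ z = g p) x y ↔ add (SD f g D) p (g p) x y := by
  constructor
  · refine SD_le (fun x => Or.inl (SD_f f g D x)) (fun x hx => ?_) x y
    rcases hx with hx | rfl | rfl
    · exact Or.inl (SD_g f g D hx)
    · exact add_pair _ _ _
    · rw [hg]
      exact (add (SD f g D) p (g p)).symm (add_pair _ _ _)
  · exact add_le (t := SD f g fun z => D z ∨ z = p ∨ z = g p)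
      (SD_le (fun x => SD_f _ _ _ x) fun x hx => SD_g f g (fun z => D z ∨ z = p ∨ z = g p)
        (Or.inl hx))
      (SD_g f g (fun z => D z ∨ z = p ∨ z = g p) (Or.inr (Or.inl rfl))) x y

/-- every point outside of `D` has exactly one partner outside of `D` -/
def Part (s : Setoid α) (D : α → Prop) : Prop :=
  ∀ p, ¬ D p → ∃ p', ¬ D p' ∧ p' ≠ p ∧ s p p' ∧ ∀ q, ¬ D q → s p q → q = p ∨ q = p'

theorem part_empty (f g : α → α) (hf : ∀ x, f (f x) = x) (hf' : ∀ x, f x ≠ x) :
    Part (SD f g fun _ => False) (fun _ => False) := by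
  intro p _
  refine ⟨f p, fun h => h, hf' p, SD_f _ _ _ p, fun q _ hq => ?_⟩
  let t : Setoid α := ⟨fun x y => y = x ∨ y = f x, by
    refine ⟨fun x => Or.inl rfl, ?_, ?_⟩
    · rintro x y (rfl | rfl)
      · exact Or.inl rfl
      · exact Or.inr (hf x).symm
    · rintro x y z (rfl | rfl) (rfl | rfl)
      · exact Or.inl rfl
      · exact Or.inr rfl
      · exact Or.inr rfl
      · exact Or.inl (hf x)⟩
  exact SD_le (t := t) (fun x => Or.inr rfl) (fun x hx => hx.elim) p q hq

theorem part_step {s : Setoid α} {D : α → Prop} (h : Part s D) {x y : α} (hx : ¬ D x)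
    (hy : ¬ D y) (hxy : x ≠ y) : Part (add s x y) (fun z => D z ∨ z = x ∨ z = y) := by
  have key : ∀ x y : α, ¬ D x → ¬ D y → x ≠ y → ∀ p, ¬ D p → p ≠ x → p ≠ y → s p x →
      ∃ p', ¬ D p' ∧ p' ≠ x ∧ p' ≠ y ∧ p' ≠ p ∧ s y p' ∧ ¬ s p y ∧
        ∀ q, ¬ D q → q ≠ x → q ≠ y → (s p q → q = p) ∧ (s y q → q = p') := by
    intro x y hx hy hxy p hp hpx hpy hpsx
    obtain ⟨p1, h1, h2, h3, h4⟩ := h p hp
    have hp1 : x = p1 := (h4 x hx hpsx).resolve_left fun e => hpx e.symm
    have hnpy : ¬ s p y := by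
      intro e
      rcases h4 y hy e with e1 | e1
      · exact hpy e1.symm
      · exact hxy (hp1.trans e1.symm)
    obtain ⟨y1, k1, k2, k3, k4⟩ := h y hy
    refine ⟨y1, k1, ?_, k2, ?_, k3, hnpy, fun q hq hqx hqy => ⟨fun e => ?_, fun e => ?_⟩⟩
    · rintro rfl
      exact hnpy (s.trans hpsx (s.symm k3))
    · rintro rfl
      exact hnpy (s.symm k3)
    · exact (h4 q hq e).resolve_right fun e1 => hqx (e1.trans hp1.symm)
    · exact (k4 q hq e).resolve_left hqy
  intro p hp
  have hpD : ¬ D p := fun e => hp (Or.inl e)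
  have hpx : p ≠ x := fun e => hp (Or.inr (Or.inl e))
  have hpy : p ≠ y := fun e => hp (Or.inr (Or.inr e))
  have out : ∀ q, ¬ (D q ∨ q = x ∨ q = y) → ¬ D q ∧ q ≠ x ∧ q ≠ y := fun q hq =>
    ⟨fun e => hq (Or.inl e), fun e => hq (Or.inr (Or.inl e)), fun e => hq (Or.inr (Or.inr e))⟩
  by_cases hsx : s p x
  · obtain ⟨p', a1, a2, a3, a4, a5, a6, a7⟩ := key x y hx hy hxy p hpD hpx hpy hsx
    refine ⟨p', ?_, a4, Or.inr (Or.inl ⟨hsx, a5⟩), fun q hq hq' => ?_⟩
    · rintro (e | e | e)
      · exact a1 e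
      · exact a2 e
      · exact a3 e
    · obtain ⟨q1, q2, q3⟩ := out q hq
      obtain ⟨b1, b2⟩ := a7 q q1 q2 q3
      rcases hq' with e | ⟨_, e⟩ | ⟨e, _⟩
      · exact Or.inl (b1 e)
      · exact Or.inr (b2 e)
      · exact absurd e a6
  · by_cases hsy : s p y
    · obtain ⟨p', a1, a2, a3, a4, a5, a6, a7⟩ := key y x hy hx hxy.symm p hpD hpy hpx hsy
      refine ⟨p', ?_, a4, Or.inr (Or.inr ⟨hsy, a5⟩), fun q hq hq' => ?_⟩
      · rintro (e | e | e)
        · exact a1 e
        · exact a3 e
        · exact a2 e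
      · obtain ⟨q1, q2, q3⟩ := out q hq
        obtain ⟨b1, b2⟩ := a7 q q1 q3 q2
        rcases hq' with e | ⟨e, _⟩ | ⟨_, e⟩
        · exact Or.inl (b1 e)
        · exact absurd e a6
        · exact Or.inr (b2 e)
    · obtain ⟨p', h1, h2, h3, h4⟩ := h p hpD
      refine ⟨p', ?_, h2, Or.inl h3, fun q hq hq' => ?_⟩
      · rintro (e | e | e)
        · exact h1 e
        · exact hsx (e ▸ h3)
        · exact hsy (e ▸ h3)
      · rcases hq' with e | ⟨e, _⟩ | ⟨e, _⟩
        · exact h4 q (out q hq).1 e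
        · exact absurd e hsx
        · exact absurd e hsy

/-- all closed sets of pairs -/
theorem part_all [DecidableEq α] (f g : α → α) (hf : ∀ x, f (f x) = x) (hf' : ∀ x, f x ≠ x)
    (hg : ∀ x, g (g x) = x) (hg' : ∀ x, g x ≠ x) : ∀ (n : ℕ) (D : Finset α), D.card = n →
    (∀ x ∈ D, g x ∈ D) → Part (SD f g fun z => z ∈ D) (fun z => z ∈ D) := by
  intro n
  induction n using Nat.strong_induction_on with
  | _ n ih =>
    intro D hn hD
    rcases D.eq_empty_or_nonempty with rfl | ⟨x, hx⟩
    · have e : (fun z : α => z ∈ (∅ : Finset α)) = fun _ => False := by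
        funext z
        simp
      rw [e]
      exact part_empty f g hf hf'
    · set E : Finset α := (D.erase x).erase (g x) with hE
      have hgx : g x ∈ D := hD x hx
      have hEx : x ∉ E := by
        intro h
        exact (Finset.mem_erase.mp (Finset.mem_erase.mp h).2).1 rfl
      have hEy : g x ∉ E := fun h => (Finset.mem_erase.mp h).1 rfl
      have hED : ∀ z, z ∈ D ↔ z ∈ E ∨ z = x ∨ z = g x := by
        intro z
        rw [hE, Finset.mem_erase, Finset.mem_erase]
        constructor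
        · intro hz
          by_cases h1 : z = x
          · exact Or.inr (Or.inl h1)
          · by_cases h2 : z = g x
            · exact Or.inr (Or.inr h2)
            · exact Or.inl ⟨h2, h1, hz⟩
        · rintro (h | rfl | rfl)
          · exact h.2.2
          · exact hx
          · exact hgx
      have hcard : E.card < n := by
        rw [← hn]
        refine Finset.card_lt_card ?_
        refine ⟨fun z hz => (hED z).mpr (Or.inl hz), fun h => hEx (h hx)⟩
      have hEg : ∀ z ∈ E, g z ∈ E := by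
        intro z hz
        have h1 := hD z ((hED z).mpr (Or.inl hz))
        rcases (hED (g z)).mp h1 with h2 | h2 | h2
        · exact h2
        · have h3 : z = g x := by rw [← h2, hg]
          exact absurd (h3 ▸ hz) hEy
        · have h3 : z = x := by
            have := congrArg g h2
            rwa [hg, hg] at this
          exact absurd (h3 ▸ hz) hEx
      have hP := part_step (ih E.card hcard E rfl hEg) hEx hEy (hg' x).symm
      have e1 : (fun z => z ∈ D) = fun z => z ∈ E ∨ z = x ∨ z = g x := by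
        funext z
        exact propext (hED z)
      have e2 : SD f g (fun z => z ∈ E ∨ z = x ∨ z = g x) = add (SD f g fun z => z ∈ E) x (g x) :=
        Setoid.ext fun u v => SD_add f g hg (fun z => z ∈ E) x u v
      rw [e1, e2]
      exact hP

theorem three [Finite α] (s : Setoid α) {p q u v : α} (h1 : s p q) (h2 : s u v) (h3 : ¬ s p u) :
    ∃ n : ℕ, Nat.card (Quotient (add (add s p q) u v)) = n + 1 ∧
      Nat.card (Quotient (add (add s p u) q v)) = n ∧
      Nat.card (Quotient (add (add s p v) q u)) = n := by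
  refine ⟨Nat.card (Quotient (add s p u)), ?_, ?_, ?_⟩
  · rw [card_add_same _ (add_base p q h2), card_add_same _ h1, card_add_diff s h3]
  · rw [card_add_same]
    exact Or.inr (Or.inl ⟨s.symm h1, h2⟩)
  · rw [card_add_same]
    · have h4 : ¬ s p v := fun e => h3 (s.trans e (s.symm h2))
      have e1 := card_add_diff s h3
      have e2 := card_add_diff s h4
      omega
    · exact Or.inr (Or.inl ⟨s.symm h1, s.symm h2⟩)

/-- the quotient for a pairing that agrees with `g` off the four points -/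
theorem card_pair (f g g' : α → α) (hg' : ∀ x, g' (g' x) = x)
    (D : α → Prop) (p q u v : α) (hD : ∀ x, ¬ D x → x = p ∨ x = q ∨ x = u ∨ x = v)
    (he : ∀ x, D x → g' x = g x) (h1 : g' p = q) (h2 : g' u = v) :
    Nat.card (Quot fun x y => y = f x ∨ y = g' x) =
      Nat.card (Quotient (add (add (SD f g D) p q) u v)) := by
  refine card_quot _ _ ?_ ?_
  · rintro x y (rfl | rfl)
    · exact add_base _ _ (add_base _ _ (SD_f f g D x))
    · by_cases hx : D x
      · rw [he x hx]
        exact add_base _ _ (add_base _ _ (SD_g f g D hx))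
      · rcases hD x hx with rfl | rfl | rfl | rfl
        · rw [h1]
          exact add_base _ _ (add_pair _ _ _)
        · rw [← h1, hg']
          exact (add (add (SD f g D) p (g' p)) u v).symm (add_base _ _ (add_pair _ _ _))
        · rw [h2]
          exact add_pair _ _ _
        · rw [← h2, hg']
          exact (add (add (SD f g D) p q) u (g' u)).symm (add_pair _ _ _)
  · let t : Setoid α := Relation.EqvGen.setoid fun x y => y = f x ∨ y = g' x
    have t1 : ∀ x, t x (f x) := fun x => Relation.EqvGen.rel _ _ (Or.inl rfl)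
    have t2 : ∀ x, t x (g' x) := fun x => Relation.EqvGen.rel _ _ (Or.inr rfl)
    have t3 : t p q := h1 ▸ t2 p
    have t4 : t u v := h2 ▸ t2 u
    exact fun x y hxy => add_le (t := t) (add_le (SD_le t1 fun x hx => he x hx ▸ t2 x) t3) t4
      x y hxy

end TP3

open TP3 in
theorem tp3_three {α : Type} [Fintype α] [DecidableEq α] (f g₁ g₂ g₃ : α → α)
    (hf : ∀ x, f (f x) = x) (hf' : ∀ x, f x ≠ x)
    (h₁ : ∀ x, g₁ (g₁ x) = x) (h₁' : ∀ x, g₁ x ≠ x)
    (h₂ : ∀ x, g₂ (g₂ x) = x) (h₂' : ∀ x, g₂ x ≠ x)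
    (h₃ : ∀ x, g₃ (g₃ x) = x) (h₃' : ∀ x, g₃ x ≠ x)
    (a b c d : α) (hab : a ≠ b) (hac : a ≠ c) (had : a ≠ d) (hbc : b ≠ c) (hbd : b ≠ d)
    (hcd : c ≠ d) (e1 : g₁ a = b) (e2 : g₁ c = d) (e3 : g₂ a = c) (e4 : g₂ b = d)
    (e5 : g₃ a = d) (e6 : g₃ b = c)
    (he : ∀ x, x ≠ a → x ≠ b → x ≠ c → x ≠ d → g₂ x = g₁ x ∧ g₃ x = g₁ x) :
    (-2 : ℤ) ^ Nat.card (Quot fun x y => y = f x ∨ y = g₁ x) +
      (-2 : ℤ) ^ Nat.card (Quot fun x y => y = f x ∨ y = g₂ x) +
      (-2 : ℤ) ^ Nat.card (Quot fun x y => y = f x ∨ y = g₃ x) = 0 := by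
  set D : Finset α := (({a, b, c, d} : Finset α))ᶜ with hDdef
  have memD : ∀ x, x ∈ D ↔ x ≠ a ∧ x ≠ b ∧ x ≠ c ∧ x ≠ d := by
    intro x
    simp [hDdef]
  have e1' : g₁ b = a := by rw [← e1, h₁]
  have e2' : g₁ d = c := by rw [← e2, h₁]
  have e3' : g₂ c = a := by rw [← e3, h₂]
  have e4' : g₂ d = b := by rw [← e4, h₂]
  have e5' : g₃ d = a := by rw [← e5, h₃]
  have e6' : g₃ c = b := by rw [← e6, h₃]
  have hDg : ∀ x ∈ D, g₁ x ∈ D := by
    intro x hx
    obtain ⟨x1, x2, x3, x4⟩ := (memD x).mp hx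
    refine (memD _).mpr ⟨fun h => x2 ?_, fun h => x1 ?_, fun h => x4 ?_, fun h => x3 ?_⟩
    · rw [← h₁ x, h, e1]
    · rw [← h₁ x, h, e1']
    · rw [← h₁ x, h, e2]
    · rw [← h₁ x, h, e2']
  have hP := part_all f g₁ hf hf' h₁ h₁' D.card D rfl hDg
  set s : Setoid α := SD f g₁ fun z => z ∈ D with hs
  have ha : a ∉ D := fun h => ((memD a).mp h).1 rfl
  have hb : b ∉ D := fun h => ((memD b).mp h).2.1 rfl
  have hc : c ∉ D := fun h => ((memD c).mp h).2.2.1 rfl
  have hd : d ∉ D := fun h => ((memD d).mp h).2.2.2 rfl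
  have hout : ∀ x, x ∉ D → x = a ∨ x = b ∨ x = c ∨ x = d := by
    intro x hx
    by_contra hcon
    push Not at hcon
    exact hx ((memD x).mpr hcon)
  have heq2 : ∀ x, x ∈ D → g₂ x = g₁ x := fun x hx => by
    obtain ⟨x1, x2, x3, x4⟩ := (memD x).mp hx
    exact (he x x1 x2 x3 x4).1
  have heq3 : ∀ x, x ∈ D → g₃ x = g₁ x := fun x hx => by
    obtain ⟨x1, x2, x3, x4⟩ := (memD x).mp hx
    exact (he x x1 x2 x3 x4).2
  have fin : ∀ n : ℕ, (-2 : ℤ) ^ (n + 1) + (-2) ^ n + (-2) ^ n = 0 := by
    intro n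
    rw [pow_succ]
    ring
  obtain ⟨a', ha1, ha2, ha3, ha4⟩ := hP a ha
  rcases hout a' ha1 with rfl | rfl | rfl | rfl
  · exact absurd rfl ha2
  · -- a ~ b
    have nac : ¬ s a c := fun h => (ha4 c hc h).elim (fun e => hac e.symm) fun e => hbc e.symm
    have hcd' : s c d := by
      obtain ⟨c', hc1, hc2, hc3, hc4⟩ := hP c hc
      rcases hout c' hc1 with rfl | rfl | rfl | rfl
      · exact absurd (s.symm hc3) nac
      · exact absurd (s.trans ha3 (s.symm hc3)) nac
      · exact absurd rfl hc2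
      · exact hc3
    obtain ⟨n, n1, n2, n3⟩ := three s ha3 hcd' nac
    rw [card_pair f g₁ g₁ h₁ (fun z => z ∈ D) a _ c d
        (fun x hx => by rcases hout x hx with h | h | h | h <;> simp [h]) (fun _ _ => rfl) e1 e2,
      card_pair f g₁ g₂ h₂ (fun z => z ∈ D) a c _ d
        (fun x hx => by rcases hout x hx with h | h | h | h <;> simp [h]) heq2 e3 e4,
      card_pair f g₁ g₃ h₃ (fun z => z ∈ D) a d _ c
        (fun x hx => by rcases hout x hx with h | h | h | h <;> simp [h]) heq3 e5 e6, n1, n2, n3]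
    exact fin n
  · -- a ~ c
    have nab : ¬ s a b := fun h => (ha4 b hb h).elim (fun e => hab e.symm) fun e => hbc e
    have hbd' : s b d := by
      obtain ⟨c', hc1, hc2, hc3, hc4⟩ := hP b hb
      rcases hout c' hc1 with rfl | rfl | rfl | rfl
      · exact absurd (s.symm hc3) nab
      · exact absurd rfl hc2
      · exact absurd (s.trans ha3 (s.symm hc3)) nab
      · exact hc3
    obtain ⟨n, n1, n2, n3⟩ := three s ha3 hbd' nab
    rw [card_pair f g₁ g₁ h₁ (fun z => z ∈ D) a b _ d
        (fun x hx => by rcases hout x hx with h | h | h | h <;> simp [h]) (fun _ _ => rfl) e1 e2,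
      card_pair f g₁ g₂ h₂ (fun z => z ∈ D) a _ b d
        (fun x hx => by rcases hout x hx with h | h | h | h <;> simp [h]) heq2 e3 e4,
      card_pair f g₁ g₃ h₃ (fun z => z ∈ D) a d _ b
        (fun x hx => by rcases hout x hx with h | h | h | h <;> simp [h]) heq3 e5 e6', n1, n2, n3]
    have := fin n
    linarith
  · -- a ~ d
    have nab : ¬ s a b := fun h => (ha4 b hb h).elim (fun e => hab e.symm) fun e => hbd e
    have hbc' : s b c := by
      obtain ⟨c', hc1, hc2, hc3, hc4⟩ := hP b hb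
      rcases hout c' hc1 with rfl | rfl | rfl | rfl
      · exact absurd (s.symm hc3) nab
      · exact absurd rfl hc2
      · exact hc3
      · exact absurd (s.trans ha3 (s.symm hc3)) nab
    obtain ⟨n, n1, n2, n3⟩ := three s ha3 hbc' nab
    rw [card_pair f g₁ g₁ h₁ (fun z => z ∈ D) a b _ c
        (fun x hx => by rcases hout x hx with h | h | h | h <;> simp [h]) (fun _ _ => rfl) e1 e2',
      card_pair f g₁ g₂ h₂ (fun z => z ∈ D) a c _ b
        (fun x hx => by rcases hout x hx with h | h | h | h <;> simp [h]) heq2 e3 e4',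
      card_pair f g₁ g₃ h₃ (fun z => z ∈ D) a _ b c
        (fun x hx => by rcases hout x hx with h | h | h | h <;> simp [h]) heq3 e5 e6, n1, n2, n3]
    have := fin n
    linarith

end Pool.Agent.H1.TP
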