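import Pool.Agent.H1.TP.Defs
import Pool.Agent.H1.TP.TP3

set_option autoImplicit false
set_option linter.unusedVariables false

namespace Pool.Agent.H1.TP

open Finset Equiv

namespace TP11

variable {I : Type} {c : ℕ}

theorem fl_pt (x : Flag I) (j : Fin c) : fl (pt x j) = x := rfl

theorem pt_fl (a : Port I c) : pt (fl a) a.2.2.2 = a := rfl

theorem strand_invol (ρ : Flag I → Flag I) (hρ : ∀ x, ρ (ρ x) = x) (t : Flag I → Perm (Fin c))
    (a : Port I c) : strand ρ t (strand ρ t a) = a := by
  have h1 : fl (strand ρ t a) = ρ (fl a) := rfl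
  have h2 : (strand ρ t a).2.2.2 = t (ρ (fl a)) ((t (fl a)).symm a.2.2.2) := rfl
  have h3 : strand ρ t (strand ρ t a) = pt (ρ (fl (strand ρ t a)))
    (t (ρ (fl (strand ρ t a))) ((t (fl (strand ρ t a))).symm (strand ρ t a).2.2.2)) := rfl
  rw [h3, h1, h2, hρ, Equiv.symm_apply_apply, Equiv.apply_symm_apply, pt_fl]

theorem strand_ne (ρ : Flag I → Flag I) (hne : ∀ x, ρ x ≠ x) (t : Flag I → Perm (Fin c))
    (a : Port I c) : strand ρ t a ≠ a := by
  intro h
  have h1 : fl (strand ρ t a) = ρ (fl a) := rfl
  rw [h] at h1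
  exact hne _ h1.symm

/-- the pairing step -/
def ps (m : I → Pairing c) (a : Port I c) : Port I c := (a.1, (m a.1).1 a.2)

theorem ps_invol (m : I → Pairing c) (a : Port I c) : ps m (ps m a) = a := by
  show (a.1, (m a.1).1 ((m a.1).1 a.2)) = a
  rw [(m a.1).2.1]

theorem ps_ne (m : I → Pairing c) (a : Port I c) : ps m a ≠ a := by
  intro h
  exact (m a.1).2.2 a.2 (congrArg Prod.snd h)

theorem ps_at [DecidableEq I] (m : I → Pairing c) (i : I) (q : Pairing c) (y : Loc c) :
    ps (Function.update m i q) (i, y) = (i, q.1 y) := by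
  show (i, (Function.update m i q i).1 y) = (i, q.1 y)
  rw [Function.update_self]

theorem ps_off [DecidableEq I] (m : I → Pairing c) (i : I) (q : Pairing c) (x : Port I c)
    (h : x.1 ≠ i) : ps (Function.update m i q) x = ps m x := by
  show (x.1, (Function.update m i q x.1).1 x.2) = (x.1, (m x.1).1 x.2)
  rw [Function.update_of_ne h]

theorem typ_at (g : Fin c → Ty) (j : Fin c) (u : Ty) (s b : Bool) :
    (typ (Function.update g j u)).1 (s, b, j) = (xor u.1.1 s, xor u.1.2 b, j) := by
  show (xor (Function.update g j u j).1.1 s, xor (Function.update g j u j).1.2 b, j) = _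
  rw [Function.update_self]

theorem typ_off (g : Fin c → Ty) (j j' : Fin c) (u : Ty) (s b : Bool) (h : j' ≠ j) :
    (typ (Function.update g j u)).1 (s, b, j') = (typ g).1 (s, b, j') := by
  show (xor (Function.update g j u j').1.1 s, xor (Function.update g j u j').1.2 b, j') =
    (xor (g j').1.1 s, xor (g j').1.2 b, j')
  rw [Function.update_of_ne h]

end TP11

variable {I : Type} [Fintype I] [DecidableEq I] {c : ℕ}

open TP11 in
/-- TP11 -/
theorem tp11_three (ρ : Flag I → Flag I) (hρ : ∀ x, ρ (ρ x) = x) (hne : ∀ x, ρ x ≠ x)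
    (m : I → Pairing c) (i : I) (g : Fin c → Ty) (j : Fin c) :
    Psi ρ (-2) (Function.update m i (typ (Function.update g j gT))) +
      Psi ρ (-2) (Function.update m i (typ (Function.update g j gN))) +
      Psi ρ (-2) (Function.update m i (typ (Function.update g j gX))) = 0 := by
  unfold Psi
  rw [← Finset.sum_add_distrib, ← Finset.sum_add_distrib]
  apply Finset.sum_eq_zero
  intro t _
  rw [← mul_add, ← mul_add]
  have hat : ∀ (u : Ty) (s b : Bool),
      ps (Function.update m i (typ (Function.update g j u))) (i, s, b, j) =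
        (i, xor u.1.1 s, xor u.1.2 b, j) := by
    intro u s b
    rw [ps_at, typ_at]
  have hoff : ∀ (u v : Ty) (x : Port I c), x ≠ (i, false, false, j) → x ≠ (i, false, true, j) →
      x ≠ (i, true, false, j) → x ≠ (i, true, true, j) →
      ps (Function.update m i (typ (Function.update g j u))) x =
        ps (Function.update m i (typ (Function.update g j v))) x := by
    intro u v x h1 h2 h3 h4
    by_cases hx : x.1 = i
    · obtain ⟨i', s, b, j'⟩ := x
      have hi : i' = i := hx
      subst hi
      have hj : j' ≠ j := by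
        rintro rfl
        cases s <;> cases b
        · exact h1 rfl
        · exact h2 rfl
        · exact h3 rfl
        · exact h4 rfl
      rw [ps_at, ps_at, typ_off _ _ _ _ _ _ hj, typ_off _ _ _ _ _ _ hj]
    · rw [ps_off _ _ _ _ hx, ps_off _ _ _ _ hx]
  have hd : ∀ (s b s' b' : Bool), (s, b) ≠ (s', b') →
      ((i, s, b, j) : Port I c) ≠ (i, s', b', j) := by
    intro s b s' b' h h'
    apply h
    rw [Prod.mk.injEq, Prod.mk.injEq, Prod.mk.injEq] at h'
    rw [h'.2.1, h'.2.2.1]
  have key := tp3_three (α := Port I c) (strand ρ t)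
    (ps (Function.update m i (typ (Function.update g j gT))))
    (ps (Function.update m i (typ (Function.update g j gN))))
    (ps (Function.update m i (typ (Function.update g j gX))))
    (strand_invol ρ hρ t) (strand_ne ρ hne t) (ps_invol _) (ps_ne _) (ps_invol _) (ps_ne _)
    (ps_invol _) (ps_ne _)
    (i, false, false, j) (i, false, true, j) (i, true, false, j) (i, true, true, j)
    (hd _ _ _ _ (by decide)) (hd _ _ _ _ (by decide)) (hd _ _ _ _ (by decide))
    (hd _ _ _ _ (by decide)) (hd _ _ _ _ (by decide)) (hd _ _ _ _ (by decide))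
    (hat gT false false) (hat gT true false) (hat gN false false) (hat gN false true)
    (hat gX false false) (hat gX false true)
    (fun x h1 h2 h3 h4 => ⟨hoff gN gT x h1 h2 h3 h4, hoff gX gT x h1 h2 h3 h4⟩)
  have e : ∀ m' : I → Pairing c, loops ρ t m' =
      Nat.card (Quot fun x y => y = strand ρ t x ∨ y = ps m' x) := fun m' => rfl
  rw [e, e, e, key, mul_zero]

end Pool.Agent.H1.TP
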