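import Pool.Agent.H1.TP.Defs

set_option autoImplicit false
set_option linter.unusedVariables false

namespace Pool.Agent.H1.TP

open Finset Equiv

variable {I : Type} [Fintype I] [DecidableEq I] {c : ℕ}

namespace TP12

theorem colour {α : Type} [Fintype α] (r : α → α → Prop) (k : ℕ) :
    k ^ Nat.card (Quot r) = Nat.card {κ : α → Fin k // ∀ a b, r a b → κ b = κ a} := by
  have : Finite (Quot r) := Finite.of_surjective (Quot.mk r) (Quot.mk_surjective)
  have e : (Quot r → Fin k) ≃ {κ : α → Fin k // ∀ a b, r a b → κ b = κ a} :=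
    { toFun := fun f => ⟨fun a => f (Quot.mk r a), fun a b h => by
        show f (Quot.mk r b) = f (Quot.mk r a)
        rw [Quot.sound h]⟩
      invFun := fun κ => Quot.lift κ.1 fun a b h => (κ.2 a b h).symm
      left_inv := fun f => by
        funext q
        induction q using Quot.ind
        rfl
      right_inv := fun κ => rfl }
  rw [← Nat.card_congr e, Nat.card_fun, Nat.card_fin]

/-- the colouring is constant along the steps -/
def V (ρ : Flag I → Flag I) (m : I → Pairing c) {k : ℕ} (t : Flag I → Perm (Fin c))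
    (κ : Port I c → Fin k) : Prop := ∀ a b, Step ρ t m a b → κ b = κ a

omit [Fintype I] [DecidableEq I] in
theorem V_iff (ρ : Flag I → Flag I) (m : I → Pairing c) {k : ℕ} (t : Flag I → Perm (Fin c))
    (κ : Port I c → Fin k) : V ρ m t κ ↔
      (∀ x l, κ (pt (ρ x) (t (ρ x) l)) = κ (pt x (t x l))) ∧
      ∀ i y, κ (i, (m i).1 y) = κ (i, y) := by
  constructor
  · intro h
    refine ⟨fun x l => ?_, fun i y => ?_⟩
    · apply h
      left
      show pt (ρ x) (t (ρ x) l) = pt (ρ x) (t (ρ x) ((t x).symm (t x l)))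
      rw [Equiv.symm_apply_apply]
    · exact h (i, y) _ (Or.inr rfl)
  · rintro ⟨h1, h2⟩ a b (rfl | rfl)
    · have := h1 (fl a) ((t (fl a)).symm a.2.2.2)
      rw [Equiv.apply_symm_apply] at this
      exact this
    · exact h2 a.1 a.2

open Classical in
/-- signed number of the `t` compatible with a colouring -/
noncomputable def F (ρ : Flag I → Flag I) (m : I → Pairing c) {k : ℕ} (κ : Port I c → Fin k) : ℤ :=
  ∑ t : Flag I → Perm (Fin c), if V ρ m t κ then sg t else 0

theorem Psi_eq (ρ : Flag I → Flag I) (m : I → Pairing c) (k : ℕ) :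
    Psi ρ (k : ℤ) m = ∑ κ : Port I c → Fin k, F ρ m κ := by
  classical
  unfold Psi F
  rw [Finset.sum_comm]
  refine Finset.sum_congr rfl fun t _ => ?_
  have h : ((k : ℤ)) ^ loops ρ t m = ((k ^ loops ρ t m : ℕ) : ℤ) := by push_cast; rfl
  rw [h, loops, colour, Nat.card_eq_fintype_card, Fintype.card_subtype,
    ← Finset.sum_filter, Finset.sum_const, nsmul_eq_mul, mul_comm]
  congr 3
  exact Finset.filter_congr fun _ _ => Iff.rfl

/-- act on the colours -/
def act {C : Type} (γ : Flag I → C) {k : ℕ} (π : C → Perm (Fin k)) (κ : Port I c → Fin k) :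
    Port I c → Fin k := fun a => π (γ (fl a)) (κ a)

theorem F_act (ρ : Flag I → Flag I) (m : I → Pairing c) {C : Type} (γ : Flag I → C)
    (hγ : ∀ x, γ (ρ x) = γ x)
    (hm : ∀ i (y : Loc c), γ (fl (i, (m i).1 y)) = γ (fl (i, y))) {k : ℕ}
    (π : C → Perm (Fin k)) (κ : Port I c → Fin k) : F ρ m (act γ π κ) = F ρ m κ := by
  classical
  unfold F
  refine Finset.sum_congr rfl fun t _ => ?_
  have h : V ρ m t (act γ π κ) ↔ V ρ m t κ := by
    refine forall_congr' fun a => forall_congr' fun b => ?_
    refine imp_congr_right fun hs => ?_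
    have hg : γ (fl b) = γ (fl a) := by
      rcases hs with rfl | rfl
      · exact hγ (fl a)
      · exact hm a.1 a.2
    unfold act
    rw [hg]
    exact (π (γ (fl a))).injective.eq_iff
  by_cases hv : V ρ m t κ
  · rw [if_pos hv, if_pos (h.2 hv)]
  · rw [if_neg hv, if_neg fun h' => hv (h.1 h')]

theorem F_zero (ρ : Flag I → Flag I) (m : I → Pairing c) {k : ℕ} (κ : Port I c → Fin k)
    (x : Flag I) (j j' : Fin c) (hj : j ≠ j') (he : κ (pt x j) = κ (pt x j')) : F ρ m κ = 0 := by
  classical
  -- the involution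
  let g : (Flag I → Perm (Fin c)) → (Flag I → Perm (Fin c)) := fun t y =>
    if y = x then swap j j' * t y else t y
  have hgg : ∀ t, g (g t) = t := by
    intro t
    funext y
    by_cases hy : y = x
    · simp only [g, if_pos hy, ← mul_assoc, swap_mul_self, one_mul]
    · simp only [g, if_neg hy]
  have hsg : ∀ t, sg (g t) = - sg t := by
    intro t
    have h1 : ∀ y, ((Perm.sign (g t y) : ℤˣ) : ℤ) =
        (if y = x then (-1 : ℤ) else 1) * ((Perm.sign (t y) : ℤˣ) : ℤ) := by
      intro y
      by_cases hy : y = x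
      · simp only [g, if_pos hy, map_mul, Perm.sign_swap hj]
        push_cast
        rfl
      · simp only [g, if_neg hy, one_mul]
    unfold sg
    rw [Finset.prod_congr rfl fun y _ => h1 y, Finset.prod_mul_distrib,
      Finset.prod_ite_eq' Finset.univ x fun _ => (-1 : ℤ), if_pos (Finset.mem_univ x), neg_one_mul]
  have hk : ∀ t y l, κ (pt y (g t y l)) = κ (pt y (t y l)) := by
    intro t y l
    by_cases hy : y = x
    · subst hy
      simp only [g, if_true, Perm.mul_apply]
      rw [swap_apply_def]
      split_ifs with h1 h2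
      · rw [h1, he]
      · rw [h2, he]
      · rfl
    · simp only [g, if_neg hy]
  have hV : ∀ t, V ρ m (g t) κ ↔ V ρ m t κ := by
    intro t
    rw [V_iff, V_iff]
    simp only [hk]
  have key : F ρ m κ = - F ρ m κ := by
    have h2 : F ρ m κ = ∑ t : Flag I → Perm (Fin c), if V ρ m (g t) κ then sg (g t) else 0 := by
      unfold F
      symm
      exact Fintype.sum_equiv ⟨g, g, hgg, hgg⟩ _ _ fun t => rfl
    rw [h2]
    conv_rhs => rw [← h2]
    unfold F
    rw [← Finset.sum_neg_distrib]
    refine Finset.sum_congr rfl fun t _ => ?_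
    by_cases hv : V ρ m t κ
    · rw [if_pos hv, if_pos ((hV t).2 hv), hsg]
    · rw [if_neg hv, if_neg fun h' => hv ((hV t).1 h'), neg_zero]
  omega

theorem exists_perm {k : ℕ} (f g : Fin c ↪ Fin k) : ∃ π : Perm (Fin k), ∀ j, π (f j) = g j := by
  classical
  let e : {x // x ∈ Set.range f} ≃ {x // x ∈ Set.range g} :=
    (Equiv.ofInjective f f.injective).symm.trans (Equiv.ofInjective g g.injective)
  refine ⟨e.extendSubtype, fun j => ?_⟩
  rw [Equiv.extendSubtype_apply_of_mem e (f j) ⟨j, rfl⟩]
  have : (Equiv.ofInjective f f.injective).symm ⟨f j, ⟨j, rfl⟩⟩ = j := by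
    rw [Equiv.symm_apply_eq]
    rfl
  show (((Equiv.ofInjective g g.injective)
    ((Equiv.ofInjective f f.injective).symm ⟨f j, ⟨j, rfl⟩⟩) : {x // x ∈ Set.range g}) : Fin k) = g j
  rw [this]
  rfl

end TP12

open TP12 in
/-- TP12 -/
theorem tp12_dvd_nat (ρ : Flag I → Flag I) (hρ : ∀ x, ρ (ρ x) = x) (hne : ∀ x, ρ x ≠ x)
    (m : I → Pairing c) {C : Type} [Fintype C] (γ : Flag I → C)
    (hsurj : Function.Surjective γ) (hγ : ∀ x, γ (ρ x) = γ x)
    (hm : ∀ i (y : Loc c), γ (fl (i, (m i).1 y)) = γ (fl (i, y))) (k : ℕ) :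
    ((k.descFactorial c : ℕ) : ℤ) ^ Fintype.card C ∣ Psi ρ (k : ℤ) m := by
  classical
  obtain ⟨rep, hrep⟩ := hsurj.hasRightInverse
  -- the tuples of embeddings
  let N : (C → (Fin c ↪ Fin k)) → ℤ := fun a =>
    ∑ κ : Port I c → Fin k, if ∀ z j, κ (pt (rep z) j) = a z j then F ρ m κ else 0
  have h1 : Psi ρ (k : ℤ) m = ∑ a, N a := by
    rw [Psi_eq]
    simp only [N]
    rw [Finset.sum_comm]
    refine Finset.sum_congr rfl fun κ _ => ?_
    by_cases hinj : ∀ z, Function.Injective fun j => κ (pt (rep z) j)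
    · let a0 : C → (Fin c ↪ Fin k) := fun z => ⟨fun j => κ (pt (rep z) j), hinj z⟩
      rw [Finset.sum_eq_single a0]
      · rw [if_pos]
        intro z j
        rfl
      · intro b _ hb
        rw [if_neg]
        intro h
        apply hb
        funext z
        ext j
        rw [← h z j]
        rfl
      · intro h
        exact absurd (Finset.mem_univ _) h
    · rw [Finset.sum_eq_zero]
      · push Not at hinj
        obtain ⟨z, hz⟩ := hinj
        unfold Function.Injective at hz
        push Not at hz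
        obtain ⟨j, j', he, hj⟩ := hz
        exact F_zero ρ m κ (rep z) j j' hj he
      · intro a _
        rw [if_neg]
        intro h
        apply hinj
        intro z j j' hjj
        simp only [h] at hjj
        exact (a z).injective hjj
  have h2 : ∀ a b, N a = N b := by
    intro a b
    choose π hπ using fun z => exists_perm (a z) (b z)
    choose π' hπ' using fun z => exists_perm (b z) (a z)
    simp only [N]
    refine Fintype.sum_equiv ⟨act γ π, act γ (fun z => (π z).symm), fun κ => ?_, fun κ => ?_⟩ _ _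
      fun κ => ?_
    · funext p
      simp [act]
    · funext p
      simp [act]
    · show (if ∀ z j, κ (pt (rep z) j) = a z j then F ρ m κ else 0) =
        if ∀ z j, act γ π κ (pt (rep z) j) = b z j then F ρ m (act γ π κ) else 0
      rw [F_act ρ m γ hγ hm]
      have e : (∀ z j, κ (pt (rep z) j) = a z j) ↔ ∀ z j, act γ π κ (pt (rep z) j) = b z j := by
        refine forall_congr' fun z => forall_congr' fun j => ?_
        have e1 : act γ π κ (pt (rep z) j) = π z (κ (pt (rep z) j)) := by
          show π (γ (rep z)) (κ (pt (rep z) j)) = _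
          rw [hrep z]
        rw [e1, ← hπ z j, (π z).injective.eq_iff]
      by_cases hv : ∀ z j, κ (pt (rep z) j) = a z j
      · rw [if_pos hv, if_pos (e.1 hv)]
      · rw [if_neg hv, if_neg fun h' => hv (e.2 h')]
  have hcard : ((k.descFactorial c : ℕ) : ℤ) ^ Fintype.card C =
      (Fintype.card (C → (Fin c ↪ Fin k)) : ℤ) := by
    rw [Fintype.card_fun, Fintype.card_embedding_eq, Fintype.card_fin, Fintype.card_fin]
    push_cast
    rfl
  rw [h1, hcard]
  by_cases hA : Nonempty (C → (Fin c ↪ Fin k))
  · obtain ⟨a0⟩ := hA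
    rw [Finset.sum_congr rfl fun a _ => h2 a a0, Finset.sum_const, Finset.card_univ, nsmul_eq_mul]
    exact Dvd.intro _ rfl
  · rw [not_nonempty_iff] at hA
    rw [Finset.univ_eq_empty, Finset.sum_empty]
    exact dvd_zero _

end Pool.Agent.H1.TP
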