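import Mathlib

set_option autoImplicit false

namespace Pool.Agent.H1.TP

open Filter Topology

/-- TP13 -/
theorem tp13_poly (f h : Polynomial ℤ) (hh : h.Monic)
    (hk : ∀ k : ℕ, h.eval (k : ℤ) ∣ f.eval (k : ℤ)) : h ∣ f := by
  rw [← Polynomial.modByMonic_eq_zero_iff_dvd hh]
  obtain ⟨r, hr⟩ : ∃ r : Polynomial ℤ, r = f %ₘ h := ⟨_, rfl⟩
  rw [← hr]
  have hrk : ∀ k : ℕ, h.eval (k : ℤ) ∣ r.eval (k : ℤ) := by
    intro k
    have h1 := congrArg (Polynomial.eval (k : ℤ)) (Polynomial.modByMonic_add_div f h)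
    rw [Polynomial.eval_add, Polynomial.eval_mul, ← hr] at h1
    have h2 : r.eval (k : ℤ) = f.eval (k : ℤ) - h.eval (k : ℤ) * (f /ₘ h).eval (k : ℤ) := by
      linarith
    rw [h2]
    exact dvd_sub (hk k) (Dvd.intro _ rfl)
  have hdeg : r.degree < h.degree := by rw [hr]; exact Polynomial.degree_modByMonic_lt f hh
  have hinj : Function.Injective (Int.castRingHom ℝ) := Int.cast_injective
  have hdeg' : (r.map (Int.castRingHom ℝ)).degree < (h.map (Int.castRingHom ℝ)).degree := by
    rw [Polynomial.degree_map_eq_of_injective hinj, Polynomial.degree_map_eq_of_injective hinj]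
    exact hdeg
  have ht := (Polynomial.div_tendsto_atTop_zero_of_degree_lt _ _ hdeg').comp
    (tendsto_natCast_atTop_atTop (R := ℝ))
  have hev := (Metric.tendsto_nhds.1 ht) 1 one_pos
  obtain ⟨N, hN⟩ := eventually_atTop.1 hev
  have hcast : ∀ (p : Polynomial ℤ) (k : ℕ),
      (p.map (Int.castRingHom ℝ)).eval (k : ℝ) = ((p.eval (k : ℤ) : ℤ) : ℝ) := by
    intro p k
    have := Polynomial.eval_intCast_map (Int.castRingHom ℝ) p (k : ℤ)
    simpa using this
  have hroot : ∀ k : ℕ, N ≤ k → r.eval (k : ℤ) = 0 := by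
    intro k hkN
    by_contra hne
    have h1 := hN k hkN
    simp only [Function.comp_apply] at h1
    rw [hcast, hcast, Real.dist_eq, sub_zero, abs_div] at h1
    have hh0 : h.eval (k : ℤ) ≠ 0 := by
      intro h0
      have := hrk k
      rw [h0, zero_dvd_iff] at this
      exact hne this
    have h2 : |h.eval (k : ℤ)| ≤ |r.eval (k : ℤ)| :=
      Int.le_of_dvd (abs_pos.2 hne) ((abs_dvd_abs _ _).2 (hrk k))
    have h3 : |((h.eval (k : ℤ) : ℤ) : ℝ)| ≤ |((r.eval (k : ℤ) : ℤ) : ℝ)| := by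
      rw [← Int.cast_abs, ← Int.cast_abs]
      exact_mod_cast h2
    have h4 : 0 < |((h.eval (k : ℤ) : ℤ) : ℝ)| := abs_pos.2 (by exact_mod_cast hh0)
    rw [div_lt_one h4] at h1
    linarith
  refine Polynomial.eq_zero_of_infinite_isRoot r ?_
  refine Set.infinite_of_injective_forall_mem (f := fun k : ℕ => ((k + N : ℕ) : ℤ)) ?_ ?_
  · intro a b hab
    dsimp only at hab
    have : a + N = b + N := by exact_mod_cast hab
    omega
  · intro k
    exact hroot (k + N) (by omega)

end Pool.Agent.H1.TP
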