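import Mathlib

set_option autoImplicit false

/-!
TP14: the falling factorial `descPochhammer ℤ c` at `-2` is `(-1)^c (c+1)!`.
-/

namespace Pool.Agent.H1.TP

/-- TP14 -/
theorem tp14_eval (c : ℕ) :
    (descPochhammer ℤ c).eval (-2) = (-1) ^ c * ((c + 1).factorial : ℤ) := by
  induction c with
  | zero => simp
  | succ c ih =>
    rw [descPochhammer_succ_right, Polynomial.eval_mul, ih, Nat.factorial_succ (c + 1)]
    simp only [Polynomial.eval_sub, Polynomial.eval_X, Polynomial.eval_natCast]
    push_cast
    ring

end Pool.Agent.H1.TP
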