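import Pool.Agent.H1.TP.Defs

set_option autoImplicit false
set_option linter.unusedVariables false
set_option linter.unusedSectionVars false

/-! TP15: the signed sum when all strands turn back. -/

namespace Pool.Agent.H1.TP

open Finset Equiv

variable {I : Type} [Fintype I] [DecidableEq I] {c : ℕ}

namespace TP15

/-- invariant functions are functions on the quotient -/
def quotEquiv {α β : Type} (r : α → α → Prop) :
    {κ : α → β // ∀ a b, r a b → κ b = κ a} ≃ (Quot r → β) where
  toFun κ := Quot.lift κ.1 (fun a b h => (κ.2 a b h).symm)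
  invFun f := ⟨fun a => f (Quot.mk r a), fun a b h => congrArg f (Quot.sound h).symm⟩
  left_inv κ := rfl
  right_inv f := by
    funext q
    induction q using Quot.ind
    rfl

/-- the vertex of a flag -/
def vx (x : Flag I) : I × Bool := (x.1, x.2.1)

/-- the condition at the edges outside the matching -/
def cond {k : ℕ} (ρ : Flag I → Flag I) (t : Flag I → Perm (Fin c)) (β : I × Bool → Fin c → Fin k) : Prop :=
  ∀ x, β (vx (ρ x)) ∘ t (ρ x) = β (vx x) ∘ t x

lemma pT_app (s b : Bool) (j : Fin c) : (pT : Pairing c).1 (s, b, j) = (s, !b, j) := by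
  simp [pT, typ, gT]

/-- colourings of the ports are colourings of the strands of the vertices -/
def condEquiv {k : ℕ} (ρ : Flag I → Flag I) (t : Flag I → Perm (Fin c)) :
    {κ : Port I c → Fin k // ∀ a b, Step ρ t (fun _ => (pT : Pairing c)) a b → κ b = κ a} ≃
      {β : I × Bool → Fin c → Fin k // cond ρ t β} where
  toFun κ := ⟨fun v j => κ.1 (v.1, v.2, false, j), by
    have hb : ∀ (i : I) (s b : Bool) (j : Fin c), κ.1 (i, s, b, j) = κ.1 (i, s, false, j) := by
      intro i s b j
      cases b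
      · rfl
      · refine κ.2 (i, s, false, j) (i, s, true, j) (Or.inr ?_)
        show (i, s, true, j) = (i, (pT : Pairing c).1 (s, false, j))
        rw [pT_app]
        rfl
    intro x
    funext j
    have h1 := κ.2 (pt x (t x j)) (strand ρ t (pt x (t x j))) (Or.inl rfl)
    have h2 : strand ρ t (pt x (t x j)) = pt (ρ x) (t (ρ x) j) := by
      show pt (ρ x) (t (ρ x) ((t x).symm (t x j))) = _
      rw [Equiv.symm_apply_apply]
    rw [h2] at h1
    show κ.1 ((vx (ρ x)).1, (vx (ρ x)).2, false, t (ρ x) j) = κ.1 ((vx x).1, (vx x).2, false, t x j)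
    rw [← hb _ _ (ρ x).2.2, ← hb _ _ x.2.2]
    exact h1⟩
  invFun β := ⟨fun a => β.1 (a.1, a.2.1) a.2.2.2, by
    rintro a b (h | h)
    · subst h
      have h1 := congrFun (β.2 (fl a)) ((t (fl a)).symm a.2.2.2)
      simp only [Function.comp_apply, Equiv.apply_symm_apply] at h1
      exact h1
    · subst h
      obtain ⟨i, s, b, j⟩ := a
      show β.1 (i, ((pT : Pairing c).1 (s, b, j)).1) ((pT : Pairing c).1 (s, b, j)).2.2 = β.1 (i, s) j
      rw [pT_app]⟩
  left_inv κ := by
    apply Subtype.ext
    funext a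
    obtain ⟨i, s, b, j⟩ := a
    show κ.1 (i, s, false, j) = κ.1 (i, s, b, j)
    cases b
    · rfl
    · refine (κ.2 (i, s, false, j) (i, s, true, j) (Or.inr ?_)).symm
      show (i, s, true, j) = (i, (pT : Pairing c).1 (s, false, j))
      rw [pT_app]
      rfl
  right_inv β := rfl

lemma pow_loops (k : ℕ) (ρ : Flag I → Flag I) (t : Flag I → Perm (Fin c)) :
    k ^ loops ρ t (fun _ => (pT : Pairing c)) =
      Nat.card {β : I × Bool → Fin c → Fin k // cond ρ t β} := by
  rw [← Nat.card_congr (condEquiv ρ t), Nat.card_congr (quotEquiv _), Nat.card_fun, Nat.card_fin]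
  rfl

open Classical in
lemma pow_loops' (k : ℕ) (ρ : Flag I → Flag I) (t : Flag I → Perm (Fin c)) :
    (k : ℤ) ^ loops ρ t (fun _ => (pT : Pairing c)) =
      ∑ β : I × Bool → Fin c → Fin k, if cond ρ t β then (1 : ℤ) else 0 := by
  have h := pow_loops k ρ t
  rw [Nat.card_eq_fintype_card, Fintype.card_subtype] at h
  rw [Finset.sum_boole, ← h]
  push_cast
  rfl

lemma sg_mul (u t : Flag I → Perm (Fin c)) : sg (u * t) = sg u * sg t := by
  unfold sg
  rw [← Finset.prod_mul_distrib]
  refine Finset.prod_congr rfl fun x _ => ?_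
  rw [Pi.mul_apply, Perm.sign_mul]
  push_cast
  rfl

lemma cond_shift {k : ℕ} (ρ : Flag I → Flag I) (u t : Flag I → Perm (Fin c))
    (β β' : I × Bool → Fin c → Fin k) (hu : ∀ y, β (vx y) ∘ u y = β' (vx y)) :
    cond ρ (u * t) β ↔ cond ρ t β' := by
  have h : ∀ y, β (vx y) ∘ ((u * t) y) = β' (vx y) ∘ t y := by
    intro y
    rw [← hu y]
    rfl
  unfold cond
  simp_rw [h]

open Classical in
lemma sum_shift {k : ℕ} (ρ : Flag I → Flag I) (u : Flag I → Perm (Fin c))
    (β β' : I × Bool → Fin c → Fin k) (hu : ∀ y, β (vx y) ∘ u y = β' (vx y)) :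
    ∑ t : Flag I → Perm (Fin c), sg t * (if cond ρ t β then (1 : ℤ) else 0) =
      sg u * ∑ t : Flag I → Perm (Fin c), sg t * (if cond ρ t β' then (1 : ℤ) else 0) := by
  rw [← Equiv.sum_comp (Equiv.mulLeft u), Finset.mul_sum]
  refine Finset.sum_congr rfl fun t _ => ?_
  rw [Equiv.coe_mulLeft, sg_mul, mul_assoc]
  simp only [cond_shift ρ u t β β' hu]

open Classical in
/-- colourings with a repetition at a vertex do not contribute -/
lemma noninj {k : ℕ} (ρ : Flag I → Flag I) (β : I × Bool → Fin c → Fin k) (v : I × Bool)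
    (hv : ¬ Function.Injective (β v)) :
    ∑ t : Flag I → Perm (Fin c), sg t * (if cond ρ t β then (1 : ℤ) else 0) = 0 := by
  simp only [Function.Injective, not_forall] at hv
  obtain ⟨i, j, hij, hne⟩ := hv
  have h := sum_shift ρ (fun x : Flag I => if x = (v.1, v.2, false) then swap i j else 1) β β (by
    intro y
    by_cases hy : y = (v.1, v.2, false)
    · subst hy
      funext l
      rw [if_pos rfl]
      show β v (swap i j l) = β v l
      by_cases h1 : l = i
      · rw [h1, swap_apply_left, hij]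
      by_cases h2 : l = j
      · rw [h2, swap_apply_right, hij]
      rw [swap_apply_of_ne_of_ne h1 h2]
    · rw [if_neg hy]
      rfl)
  have hs : sg (fun x : Flag I => if x = (v.1, v.2, false) then swap i j else (1 : Perm (Fin c))) = -1 := by
    unfold sg
    have : ∀ x : Flag I, ((Perm.sign (if x = (v.1, v.2, false) then swap i j else (1 : Perm (Fin c))) : ℤˣ) : ℤ) =
        if x = (v.1, v.2, false) then -1 else 1 := by
      intro x
      split_ifs
      · rw [Perm.sign_swap hne]
        rfl
      · simp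
    simp_rw [this]
    rw [Finset.prod_ite_eq']
    simp
  rw [hs] at h
  linarith

/-- the subsets of size `c` -/
abbrev Tk (c k : ℕ) := {s : Finset (Fin k) // s.card = c}

/-- the sorted enumeration -/
def en {k : ℕ} (s : Tk c k) : Fin c → Fin k := s.1.orderEmbOfFin s.2

lemma en_range {k : ℕ} (s : Tk c k) : Set.range (en s) = (s.1 : Set (Fin k)) :=
  Finset.range_orderEmbOfFin s.1 s.2

lemma en_inj {k : ℕ} (s : Tk c k) : Function.Injective (en s) :=
  (s.1.orderEmbOfFin s.2).injective

lemma en_comp {k : ℕ} {s s' : Tk c k} {p p' : Perm (Fin c)} (h : en s ∘ p = en s' ∘ p') :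
    s = s' ∧ p = p' := by
  have h1 : s = s' := by
    apply Subtype.ext
    have e1 := congrArg Set.range h
    rw [Set.range_comp, Set.range_comp, p.range_eq_univ, p'.range_eq_univ, Set.image_univ, Set.image_univ,
      en_range, en_range] at e1
    exact_mod_cast e1
  subst h1
  refine ⟨rfl, Equiv.ext fun j => ?_⟩
  exact en_inj s (congrFun h j)

lemma en_surj {k : ℕ} {u : Fin c → Fin k} (hu : Function.Injective u) :
    ∃ (s : Tk c k) (p : Perm (Fin c)), en s ∘ p = u := by
  let s : Tk c k := ⟨univ.image u, by rw [Finset.card_image_of_injective _ hu, Finset.card_fin]⟩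
  have h1 : ∀ j, ∃ l, en s l = u j := by
    intro j
    have : u j ∈ Set.range (en s) := by
      rw [en_range]
      simp [s]
    exact this
  choose p hp using h1
  have hpi : Function.Injective p := by
    intro a b hab
    apply hu
    rw [← hp, ← hp, hab]
  refine ⟨s, Equiv.ofBijective p (Finite.injective_iff_bijective.1 hpi), ?_⟩
  funext j
  exact hp j

/-- the colouring given by the sets and the orders -/
def Phi {k : ℕ} (q : (I × Bool → Tk c k) × (I × Bool → Perm (Fin c))) : I × Bool → Fin c → Fin k :=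
  fun v => en (q.1 v) ∘ q.2 v

lemma Phi_inj {k : ℕ} : Function.Injective (Phi : (I × Bool → Tk c k) × (I × Bool → Perm (Fin c)) → _) := by
  rintro ⟨S, p⟩ ⟨S', p'⟩ h
  have h1 : ∀ v, S v = S' v ∧ p v = p' v := fun v => en_comp (congrFun h v)
  exact Prod.ext (funext fun v => (h1 v).1) (funext fun v => (h1 v).2)

lemma Phi_range {k : ℕ} (β : I × Bool → Fin c → Fin k)
    (h : β ∉ Set.range (Phi : (I × Bool → Tk c k) × (I × Bool → Perm (Fin c)) → _)) :
    ∃ v, ¬ Function.Injective (β v) := by
  by_contra h1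
  push Not at h1
  apply h
  choose S p hp using fun v => en_surj (h1 v)
  exact ⟨(S, p), funext hp⟩

lemma sg_vx (p : I × Bool → Perm (Fin c)) : sg (fun y : Flag I => (p (vx y))⁻¹) = 1 := by
  unfold sg
  rw [Fintype.prod_prod_type]
  refine Finset.prod_eq_one fun i _ => ?_
  rw [Fintype.prod_prod_type]
  refine Finset.prod_eq_one fun s _ => ?_
  rw [Fintype.prod_bool]
  show ((Perm.sign (p (i, s))⁻¹ : ℤˣ) : ℤ) * ((Perm.sign (p (i, s))⁻¹ : ℤˣ) : ℤ) = 1
  rw [← Units.val_mul, Int.units_mul_self]
  rfl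

lemma sg_inv (ρ : Flag I → Flag I) (hρ : ∀ x, ρ (ρ x) = x) (hne : ∀ x, ρ x ≠ x)
    (t : Flag I → Perm (Fin c)) (h : ∀ x, t (ρ x) = t x) : sg t = 1 := by
  unfold sg
  refine Finset.prod_involution (fun x _ => ρ x) (fun x _ => ?_) (fun x _ _ => hne x)
    (fun x _ => Finset.mem_univ _) (fun x _ => hρ x)
  rw [h, ← Units.val_mul, Int.units_mul_self]
  rfl

lemma cond_en {k : ℕ} (ρ : Flag I → Flag I) (t : Flag I → Perm (Fin c)) (S : I × Bool → Tk c k) :
    cond ρ t (fun v => en (S v)) ↔ (∀ x, S (vx (ρ x)) = S (vx x)) ∧ ∀ x, t (ρ x) = t x := by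
  constructor
  · intro h
    exact ⟨fun x => (en_comp (h x)).1, fun x => (en_comp (h x)).2⟩
  · rintro ⟨h1, h2⟩ x
    show en (S (vx (ρ x))) ∘ t (ρ x) = en (S (vx x)) ∘ t x
    rw [h1, h2]

/-- the number of the pairs of flags -/
lemma card_pairs (ρ : Flag I → Flag I) (hρ : ∀ x, ρ (ρ x) = x) (hne : ∀ x, ρ x ≠ x) :
    Nat.card (Quot fun x y : Flag I => y = ρ x) = 2 * Fintype.card I := by
  classical
  have hmk : ∀ x y : Flag I, Quot.mk (fun x y : Flag I => y = ρ x) x = Quot.mk _ y → y = x ∨ y = ρ x := by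
    intro x y h
    rw [Quot.eq] at h
    induction h with
    | rel x y h => exact Or.inr h
    | refl x => exact Or.inl rfl
    | symm x y _ ih =>
      rcases ih with h | h
      · exact Or.inl h.symm
      · right
        rw [h, hρ]
    | trans x y z _ _ ih1 ih2 =>
      rcases ih1 with h | h <;> rcases ih2 with h' | h'
      · left; rw [h', h]
      · right; rw [h', h]
      · right; rw [h', h]
      · left; rw [h', h, hρ]
  have := Fintype.ofFinite (Quot fun x y : Flag I => y = ρ x)
  rw [Nat.card_eq_fintype_card]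
  have h1 := Finset.card_eq_sum_card_fiberwise (s := (univ : Finset (Flag I)))
    (t := (univ : Finset (Quot fun x y : Flag I => y = ρ x))) (f := fun x => Quot.mk _ x)
    (fun x _ => Finset.mem_coe.2 (Finset.mem_univ _))
  have h2 : ∀ q ∈ (univ : Finset (Quot fun x y : Flag I => y = ρ x)),
      (univ.filter fun x : Flag I => Quot.mk (fun x y : Flag I => y = ρ x) x = q).card = 2 := by
    intro q _
    induction q using Quot.ind with
    | mk x =>
      have : (univ.filter fun y : Flag I => Quot.mk (fun x y : Flag I => y = ρ x) y = Quot.mk _ x) =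
          {x, ρ x} := by
        ext y
        simp only [mem_filter, mem_univ, true_and, mem_insert, mem_singleton]
        constructor
        · intro h
          exact hmk x y h.symm
        · rintro (h | h)
          · rw [h]
          · exact (Quot.sound (r := fun x y : Flag I => y = ρ x) h).symm
      rw [this, Finset.card_pair (hne x).symm]
  rw [Finset.sum_congr rfl h2, Finset.sum_const, Finset.card_univ, Finset.card_univ, smul_eq_mul] at h1
  have h3 : Fintype.card (Flag I) = 4 * Fintype.card I := by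
    rw [Fintype.card_prod, Fintype.card_prod, Fintype.card_bool]
    ring
  rw [h3] at h1
  omega

open Classical in
lemma count_t (ρ : Flag I → Flag I) (hρ : ∀ x, ρ (ρ x) = x) (hne : ∀ x, ρ x ≠ x) :
    (univ.filter fun t : Flag I → Perm (Fin c) => ∀ x, t (ρ x) = t x).card =
      c.factorial ^ (2 * Fintype.card I) := by
  rw [← Fintype.card_subtype, ← Nat.card_eq_fintype_card]
  have e : {t : Flag I → Perm (Fin c) // ∀ x, t (ρ x) = t x} ≃
      {κ : Flag I → Perm (Fin c) // ∀ a b, (fun x y : Flag I => y = ρ x) a b → κ b = κ a} :=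
    Equiv.subtypeEquivRight fun t => ⟨fun h a b hab => by
      have hab' : b = ρ a := hab
      rw [hab', h], fun h x => h x (ρ x) rfl⟩
  rw [Nat.card_congr e, Nat.card_congr (quotEquiv _), Nat.card_fun, card_pairs ρ hρ hne,
    Nat.card_eq_fintype_card, Fintype.card_perm, Fintype.card_fin]

open Classical in
lemma count_S (k : ℕ) (ρ : Flag I → Flag I) :
    (univ.filter fun S : I × Bool → Tk c k => ∀ x, S (vx (ρ x)) = S (vx x)).card =
      k.choose c ^ kap ρ ∅ := by
  rw [← Fintype.card_subtype, ← Nat.card_eq_fintype_card]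
  have e : {S : I × Bool → Tk c k // ∀ x, S (vx (ρ x)) = S (vx x)} ≃
      {κ : Flag I → Tk c k // ∀ a b, HStep ρ ∅ a b → κ b = κ a} := {
    toFun := fun S => ⟨fun x => S.1 (vx x), by
      rintro a b (h | ⟨h1, h2⟩)
      · rw [h]
        exact S.2 a
      · have h3 : vx b = vx a := by
          rcases h2 with h2 | h2
          · exact Prod.ext h1 h2
          · exact absurd h2 (Finset.notMem_empty _)
        show S.1 (vx b) = S.1 (vx a)
        rw [h3]⟩
    invFun := fun κ => ⟨fun v => κ.1 (v.1, v.2, false), by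
      have hb : ∀ y : Flag I, κ.1 (y.1, y.2.1, false) = κ.1 y := fun y =>
        κ.2 y (y.1, y.2.1, false) (Or.inr ⟨rfl, Or.inl rfl⟩)
      intro x
      show κ.1 ((ρ x).1, (ρ x).2.1, false) = κ.1 (x.1, x.2.1, false)
      rw [hb, hb]
      exact κ.2 x (ρ x) (Or.inl rfl)⟩
    left_inv := fun S => rfl
    right_inv := fun κ => by
      apply Subtype.ext
      funext y
      exact κ.2 y (y.1, y.2.1, false) (Or.inr ⟨rfl, Or.inl rfl⟩) }
  rw [Nat.card_congr e, Nat.card_congr (quotEquiv _), Nat.card_fun]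
  have h1 : Nat.card (Tk c k) = k.choose c := by
    rw [Nat.card_eq_fintype_card, Fintype.card_finset_len, Fintype.card_fin]
  rw [h1]
  rfl

end TP15

open TP15 in
/-- TP15 -/
theorem tp15_turn (ρ : Flag I → Flag I) (hρ : ∀ x, ρ (ρ x) = x) (hne : ∀ x, ρ x ≠ x) (k : ℕ) :
    ((c.factorial : ℕ) : ℤ) ^ kap ρ ∅ * Psi ρ (k : ℤ) (fun _ => (pT : Pairing c)) =
      ((c.factorial : ℕ) : ℤ) ^ (4 * Fintype.card I) *
        ((k.descFactorial c : ℕ) : ℤ) ^ kap ρ ∅ := by
  classical
  have h1 : Psi ρ (k : ℤ) (fun _ => (pT : Pairing c)) =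
      ∑ β : I × Bool → Fin c → Fin k, ∑ t : Flag I → Perm (Fin c),
        sg t * (if cond ρ t β then (1 : ℤ) else 0) := by
    unfold Psi
    rw [Finset.sum_comm]
    refine Finset.sum_congr rfl fun t _ => ?_
    rw [pow_loops', Finset.mul_sum]
  have h2 : ∀ q : (I × Bool → Tk c k) × (I × Bool → Perm (Fin c)),
      (if ∀ x, q.1 (vx (ρ x)) = q.1 (vx x) then ((c.factorial ^ (2 * Fintype.card I) : ℕ) : ℤ) else 0) =
        ∑ t : Flag I → Perm (Fin c), sg t * (if cond ρ t (Phi q) then (1 : ℤ) else 0) := by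
    intro q
    rw [sum_shift ρ (fun y => (q.2 (vx y))⁻¹) (Phi q) (fun v => en (q.1 v)) (by
      intro y
      funext j
      show en (q.1 (vx y)) (q.2 (vx y) ((q.2 (vx y))⁻¹ j)) = en (q.1 (vx y)) j
      exact congrArg _ (Equiv.apply_symm_apply _ j)), sg_vx, one_mul]
    simp_rw [cond_en]
    split_ifs with hS
    · simp only [hS, implies_true, true_and]
      rw [← count_t (c := c) ρ hρ hne, Finset.card_filter]
      push_cast
      refine Finset.sum_congr rfl fun t _ => ?_
      split_ifs with ht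
      · rw [sg_inv ρ hρ hne t ht, one_mul]
      · rw [mul_zero]
    · symm
      refine Finset.sum_eq_zero fun t _ => ?_
      rw [if_neg (fun h => hS h.1), mul_zero]
  have h3 := Fintype.sum_of_injective (Phi : (I × Bool → Tk c k) × (I × Bool → Perm (Fin c)) → _) Phi_inj
    (fun q => if ∀ x, q.1 (vx (ρ x)) = q.1 (vx x) then ((c.factorial ^ (2 * Fintype.card I) : ℕ) : ℤ) else 0)
    (fun β => ∑ t : Flag I → Perm (Fin c), sg t * (if cond ρ t β then (1 : ℤ) else 0))
    (fun β hβ => by
      obtain ⟨v, hv⟩ := Phi_range β hβ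
      exact noninj ρ β v hv) h2
  rw [h1, ← h3, Fintype.sum_prod_type]
  have h4 : ∀ S : I × Bool → Tk c k, ∑ p : I × Bool → Perm (Fin c),
      (if ∀ x, S (vx (ρ x)) = S (vx x) then ((c.factorial ^ (2 * Fintype.card I) : ℕ) : ℤ) else 0) =
      ((c.factorial : ℕ) : ℤ) ^ (4 * Fintype.card I) * (if ∀ x, S (vx (ρ x)) = S (vx x) then 1 else 0) := by
    intro S
    rw [Finset.sum_const, Finset.card_univ, Fintype.card_fun, Fintype.card_perm, Fintype.card_fin,
      Fintype.card_prod, Fintype.card_bool]
    split_ifs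
    · rw [nsmul_eq_mul, mul_one]
      push_cast
      rw [← pow_add]
      congr 1
      ring
    · simp
  have h5 : ∀ S : I × Bool → Tk c k, ∑ p : I × Bool → Perm (Fin c),
      (fun q : (I × Bool → Tk c k) × (I × Bool → Perm (Fin c)) =>
        if ∀ x, q.1 (vx (ρ x)) = q.1 (vx x) then ((c.factorial ^ (2 * Fintype.card I) : ℕ) : ℤ) else 0) (S, p) =
      ((c.factorial : ℕ) : ℤ) ^ (4 * Fintype.card I) * (if ∀ x, S (vx (ρ x)) = S (vx x) then 1 else 0) := h4
  rw [Finset.sum_congr rfl fun S _ => h5 S, ← Finset.mul_sum, Finset.sum_boole, count_S,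
    Nat.descFactorial_eq_factorial_mul_choose]
  push_cast
  rw [mul_pow]
  ring

end Pool.Agent.H1.TP
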