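import Mathlib

set_option autoImplicit false

namespace Pool.Agent.H1.TP

open Finset Equiv

variable {I : Type} [Fintype I] [DecidableEq I]

namespace TP16

/-- splitting off one coordinate -/
theorem split {S : Type} [Fintype S] (G : (I → S) → ℤ) (w : I → S → ℤ) (j : I) :
    ∑ m : I → S, (∏ i, w i (m i)) * G m =
      ∑ g : {i // i ≠ j} → S, (∏ i : {i // i ≠ j}, w i.1 (g i)) *
        ∑ s, w j s * G ((Equiv.funSplitAt j S).symm (s, g)) := by
  rw [← (Equiv.funSplitAt j S).symm.sum_comp, Fintype.sum_prod_type_right]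
  refine Finset.sum_congr rfl fun g _ => ?_
  rw [Finset.mul_sum]
  refine Finset.sum_congr rfl fun s _ => ?_
  rw [Fintype.prod_eq_mul_prod_subtype_ne _ j]
  have h1 : (Equiv.funSplitAt j S).symm (s, g) j = s := by simp
  have h2 : ∀ i : {i // i ≠ j}, (Equiv.funSplitAt j S).symm (s, g) i.1 = g i := by
    intro i
    simp [i.2]
  rw [h1]
  have h3 : (∏ i : {i // i ≠ j}, w i.1 ((Equiv.funSplitAt j S).symm (s, g) i.1)) =
      ∏ i : {i // i ≠ j}, w i.1 (g i) :=
    Finset.prod_congr rfl fun i _ => by rw [h2 i]
  rw [h3]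
  ring

omit [Fintype I] in
theorem upd {S : Type} (j : I) (s s' : S) (g : {i // i ≠ j} → S) :
    (Equiv.funSplitAt j S).symm (s, g) =
      Function.update ((Equiv.funSplitAt j S).symm (s', g)) j s := by
  funext i
  by_cases h : i = j
  · subst h
    simp
  · rw [Function.update_of_ne h]
    simp [h]

/-- replacing one coordinate -/
theorem step {S : Type} [Fintype S] (G : (I → S) → ℤ) (w w' : I → S → ℤ) (j : I)
    (hw : ∀ i, i ≠ j → w i = w' i)
    (h : ∀ m : I → S, ∑ s, w j s * G (Function.update m j s) =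
      ∑ s, w' j s * G (Function.update m j s)) :
    ∑ m : I → S, (∏ i, w i (m i)) * G m = ∑ m : I → S, (∏ i, w' i (m i)) * G m := by
  rw [split G w j, split G w' j]
  refine Finset.sum_congr rfl fun g _ => ?_
  have h1 : (∏ i : {i // i ≠ j}, w i.1 (g i)) = ∏ i : {i // i ≠ j}, w' i.1 (g i) :=
    Finset.prod_congr rfl fun i _ => by rw [hw i.1 i.2]
  rw [h1]
  congr 1
  rcases isEmpty_or_nonempty S with hS | ⟨⟨s0⟩⟩
  · rw [Finset.univ_eq_empty, Finset.sum_empty, Finset.sum_empty]
  · have h2 := h ((Equiv.funSplitAt j S).symm (s0, g))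
    have h3 : ∀ v : S → ℤ, ∑ s, v s * G ((Equiv.funSplitAt j S).symm (s, g)) =
        ∑ s, v s * G (Function.update ((Equiv.funSplitAt j S).symm (s0, g)) j s) := fun v =>
      Finset.sum_congr rfl fun s _ => by rw [upd j s s0 g]
    rw [h3, h3]
    exact h2

end TP16

/-- TP16 -/
theorem tp16_replace {S : Type} [Fintype S] [DecidableEq S] (G : (I → S) → ℤ) (α β : S → ℤ)
    (h : ∀ (m : I → S) (i : I), ∑ s, α s * G (Function.update m i s) =
      ∑ s, β s * G (Function.update m i s)) :
    ∑ m : I → S, (∏ i, α (m i)) * G m = ∑ m : I → S, (∏ i, β (m i)) * G m := by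
  have key : ∀ A : Finset I, ∑ m : I → S, (∏ i, α (m i)) * G m =
      ∑ m : I → S, (∏ i, (if i ∈ A then β else α) (m i)) * G m := by
    intro A
    induction A using Finset.induction_on with
    | empty => simp
    | insert j A hj ih =>
      rw [ih]
      refine TP16.step G (fun i => if i ∈ A then β else α) (fun i => if i ∈ insert j A then β else α)
        j ?_ ?_
      · intro i hi
        have : i ∈ insert j A ↔ i ∈ A := by
          rw [Finset.mem_insert]
          exact or_iff_right hi
        simp only [this]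
      · intro m
        simp only [hj, Finset.mem_insert_self, if_true, if_false]
        exact h m j
  rw [key univ]
  simp

end Pool.Agent.H1.TP
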