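import Mathlib

set_option autoImplicit false
set_option linter.unusedVariables false

/-!
# TP17: identifying two points of a quotient
-/

namespace Pool.Agent.H1.TP

theorem tp17_quot {α : Type} [Fintype α] (r : α → α → Prop) (a b : α) :
    Nat.card (Quot r) ≤ Nat.card (Quot fun x y => r x y ∨ (x = a ∧ y = b)) + 1 ∧
    (Quot.mk r a = Quot.mk r b →
      Nat.card (Quot fun x y => r x y ∨ (x = a ∧ y = b)) = Nat.card (Quot r)) := by
  classical
  obtain ⟨F, hF⟩ : ∃ F : Quot (fun x y => r x y ∨ (x = a ∧ y = b)) → Quot r, ∀ x : α,
      F (Quot.mk _ x) = if Quot.mk r x = Quot.mk r b then Quot.mk r a else Quot.mk r x := by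
    refine ⟨Quot.lift (fun x => if Quot.mk r x = Quot.mk r b then Quot.mk r a else Quot.mk r x)
      ?_, fun _ => rfl⟩
    rintro x y (h | ⟨h1, h2⟩)
    · have h3 : Quot.mk r x = Quot.mk r y := Quot.sound h
      show (if Quot.mk r x = Quot.mk r b then Quot.mk r a else Quot.mk r x) =
        if Quot.mk r y = Quot.mk r b then Quot.mk r a else Quot.mk r y
      rw [h3]
    · subst h1
      subst h2
      show (if Quot.mk r x = Quot.mk r y then Quot.mk r x else Quot.mk r x) =
        if Quot.mk r y = Quot.mk r y then Quot.mk r x else Quot.mk r y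
      rw [if_pos rfl, ite_self]
  have hfin : Finite (Quot fun x y => r x y ∨ (x = a ∧ y = b)) :=
    Finite.of_surjective (Quot.mk _) Quot.mk_surjective
  have hfin2 : Finite (Quot r) := Finite.of_surjective (Quot.mk _) Quot.mk_surjective
  constructor
  · have h1 : Function.Surjective (fun o : Option (Quot fun x y => r x y ∨ (x = a ∧ y = b)) =>
        o.elim (Quot.mk r b) F) := by
      intro q
      by_cases hq : q = Quot.mk r b
      · exact ⟨none, hq.symm⟩
      · obtain ⟨x, hx⟩ := Quot.mk_surjective q
        refine ⟨some (Quot.mk _ x), ?_⟩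
        show F (Quot.mk _ x) = q
        rw [hF, hx, if_neg hq]
    have h2 := Nat.card_le_card_of_surjective _ h1
    rw [Finite.card_option] at h2
    exact h2
  · intro hab
    apply le_antisymm
    · have h1 : Function.Surjective (Quot.map (ra := r)
          (rb := fun x y => r x y ∨ (x = a ∧ y = b)) id (fun x y h => Or.inl h)) := by
        intro q
        obtain ⟨x, hx⟩ := Quot.mk_surjective q
        exact ⟨Quot.mk _ x, hx⟩
      exact Nat.card_le_card_of_surjective _ h1
    · have h1 : Function.Surjective F := by
        intro q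
        obtain ⟨x, hx⟩ := Quot.mk_surjective q
        refine ⟨Quot.mk _ x, ?_⟩
        rw [hF, ← hx]
        split_ifs with h
        · rw [h, hab]
        · rfl
      exact Nat.card_le_card_of_surjective _ h1

end Pool.Agent.H1.TP
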