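import Pool.Agent.H1.TP.Defs

set_option autoImplicit false
set_option linter.unusedVariables false

namespace Pool.Agent.H1.TP

open Finset Equiv

variable {I : Type} [Fintype I] [DecidableEq I] {c : ℕ}

namespace TP2

theorem colour {α : Type} [Fintype α] (r : α → α → Prop) (k : ℕ) :
    k ^ Nat.card (Quot r) = Nat.card {κ : α → Fin k // ∀ a b, r a b → κ b = κ a} := by
  have : Finite (Quot r) := Finite.of_surjective (Quot.mk r) Quot.mk_surjective
  have h := Nat.card_fun (α := Quot r) (β := Fin k)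
  rw [Nat.card_fin] at h
  rw [← h]
  exact Nat.card_congr
    { toFun := fun g => ⟨fun a => g (Quot.mk r a), fun a b hab => by
        show g (Quot.mk r b) = g (Quot.mk r a)
        rw [Quot.sound hab]⟩
      invFun := fun κ => Quot.lift κ.1 (fun a b hab => (κ.2 a b hab).symm)
      left_inv := by
        intro g
        funext q
        induction q using Quot.ind
        rfl
      right_inv := by
        intro κ
        rfl }

/-- the condition at a matching edge -/
def C {k : ℕ} (f : Loc c → Fin k) (τ : Perm (Bool × Fin c)) : Prop :=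
  ∀ z : Bool × Fin c, f (true, τ z) = f (false, z)

/-- the condition along the strands -/
def A {k : ℕ} (ρ : Flag I → Flag I) (t : Flag I → Perm (Fin c)) (κ : Port I c → Fin k) : Prop :=
  ∀ a, κ (strand ρ t a) = κ a

theorem step_iff {k : ℕ} (ρ : Flag I → Flag I) (t : Flag I → Perm (Fin c))
    (σ : I → Perm (Bool × Fin c)) (κ : Port I c → Fin k) :
    (∀ a b, Step ρ t (fun i => cross (σ i)) a b → κ b = κ a) ↔
      (A ρ t κ ∧ ∀ i, C (fun y => κ (i, y)) (σ i)) := by
  constructor
  · intro h
    refine ⟨fun a => h a _ (Or.inl rfl), fun i z => ?_⟩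
    exact h (i, (false, z)) (i, (true, σ i z)) (Or.inr rfl)
  · rintro ⟨h1, h2⟩ a b hab
    rcases hab with hab | hab
    · rw [hab]; exact h1 a
    · rw [hab]
      obtain ⟨i, s, z⟩ := a
      cases s with
      | false => exact h2 i z
      | true =>
        show κ (i, (false, (σ i).symm z)) = κ (i, (true, z))
        have := h2 i ((σ i).symm z)
        simp only [Equiv.apply_symm_apply] at this
        exact this.symm

open Classical in
theorem pow_eq {k : ℕ} (ρ : Flag I → Flag I) (t : Flag I → Perm (Fin c))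
    (σ : I → Perm (Bool × Fin c)) :
    ((k : ℤ)) ^ loops ρ t (fun i => cross (σ i)) =
      ∑ κ : Port I c → Fin k, (if A ρ t κ then (1 : ℤ) else 0) *
        ∏ i, (if C (fun y => κ (i, y)) (σ i) then (1 : ℤ) else 0) := by
  have h := colour (Step ρ t (fun i => cross (σ i))) k
  have h2 : ((k : ℤ)) ^ loops ρ t (fun i => cross (σ i)) =
      ((k ^ Nat.card (Quot (Step ρ t (fun i => cross (σ i)))) : ℕ) : ℤ) := by
    unfold loops
    push_cast
    rfl
  rw [h2, h, Nat.card_eq_fintype_card, Fintype.card_subtype, Finset.card_filter]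
  push_cast
  refine Finset.sum_congr rfl fun κ _ => ?_
  rw [Finset.prod_ite_zero]
  simp only [Finset.prod_const_one, Finset.mem_univ, true_implies]
  by_cases hA : A ρ t κ
  · rw [if_pos hA, one_mul]
    refine if_congr ?_ rfl rfl
    rw [step_iff]
    exact ⟨fun h => h.2, fun h => ⟨hA, h⟩⟩
  · rw [if_neg hA, zero_mul, if_neg]
    rw [step_iff]
    exact fun h => hA h.1

open Classical in
theorem inner_zero {k : ℕ} (f : Loc c → Fin k) (z₁ z₂ : Bool × Fin c) (hz : z₁ ≠ z₂)
    (hf : f (false, z₁) = f (false, z₂)) :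
    ∑ τ : Perm (Bool × Fin c), ((Perm.sign τ : ℤˣ) : ℤ) * (if C f τ then (1 : ℤ) else 0) = 0 := by
  have key : ∀ τ : Perm (Bool × Fin c), C f (τ * swap z₁ z₂) ↔ C f τ := by
    have hs : ∀ z, f (false, swap z₁ z₂ z) = f (false, z) := by
      intro z
      by_cases h1 : z = z₁
      · rw [h1, swap_apply_left, hf]
      · by_cases h2 : z = z₂
        · rw [h2, swap_apply_right, hf]
        · rw [swap_apply_of_ne_of_ne h1 h2]
    intro τ
    constructor
    · intro h z
      have := h (swap z₁ z₂ z)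
      rw [Perm.mul_apply, swap_apply_self, hs] at this
      exact this
    · intro h z
      rw [Perm.mul_apply, h, hs]
  have h2 := Equiv.sum_comp (Equiv.mulRight (swap z₁ z₂))
    (fun τ : Perm (Bool × Fin c) => ((Perm.sign τ : ℤˣ) : ℤ) * (if C f τ then (1 : ℤ) else 0))
  have h3 : ∀ τ : Perm (Bool × Fin c),
      (fun τ : Perm (Bool × Fin c) => ((Perm.sign τ : ℤˣ) : ℤ) * (if C f τ then (1 : ℤ) else 0))
        (Equiv.mulRight (swap z₁ z₂) τ) =
      - (((Perm.sign τ : ℤˣ) : ℤ) * (if C f τ then (1 : ℤ) else 0)) := by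
    intro τ
    simp only [Equiv.coe_mulRight, Perm.sign_mul, Perm.sign_swap hz, key]
    push_cast
    ring
  rw [Finset.sum_congr rfl (fun τ _ => h3 τ), Finset.sum_neg_distrib] at h2
  linarith

open Classical in
theorem prod_zero {k : ℕ} (ρ : Flag I → Flag I) (hno : ¬ CoverI ρ c)
    (t : Flag I → Perm (Fin c)) (κ : Port I c → Fin k) (hA : A ρ t κ) :
    ∏ i, ∑ τ : Perm (Bool × Fin c), ((Perm.sign τ : ℤˣ) : ℤ) *
      (if C (fun y => κ (i, y)) τ then (1 : ℤ) else 0) = 0 := by
  by_contra hne
  apply hno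
  rw [Finset.prod_eq_zero_iff] at hne
  push Not at hne
  have hinj : ∀ i, Function.Injective (fun z : Bool × Fin c => κ (i, (false, z))) := by
    intro i z₁ z₂ h
    by_contra hz
    exact hne i (Finset.mem_univ i) (inner_zero (fun y => κ (i, y)) z₁ z₂ hz h)
  have hex : ∀ i, ∃ τ : Perm (Bool × Fin c), C (fun y => κ (i, y)) τ := by
    intro i
    by_contra hcon
    push Not at hcon
    apply hne i (Finset.mem_univ i)
    refine Finset.sum_eq_zero fun τ _ => ?_
    rw [if_neg (hcon τ), mul_zero]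
  choose τ hτ using hex
  have htrue : ∀ i z, κ (i, (true, z)) = κ (i, (false, (τ i).symm z)) := by
    intro i z
    have := hτ i ((τ i).symm z)
    simpa using this
  have hinj2 : ∀ i s, Function.Injective (fun z : Bool × Fin c => κ (i, (s, z))) := by
    intro i s
    cases s with
    | false => exact hinj i
    | true =>
      intro z₁ z₂ h
      simp only [htrue] at h
      exact (τ i).symm.injective (hinj i h)
  have hun : ∀ i s, Finset.univ.image (fun j : Fin c => κ (pt (i, s, false) j)) ∪
      Finset.univ.image (fun j : Fin c => κ (pt (i, s, true) j)) =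
      Finset.univ.image (fun z : Bool × Fin c => κ (i, (s, z))) := by
    intro i s
    ext q
    simp only [Finset.mem_union, Finset.mem_image, Finset.mem_univ, true_and, pt, Prod.exists,
      Bool.exists_bool]
  refine ⟨k, fun x => Finset.univ.image (fun j : Fin c => κ (pt x j)), ?_, ?_, ?_, ?_⟩
  · intro x
    rw [Finset.card_image_of_injective, Finset.card_univ, Fintype.card_fin]
    intro j₁ j₂ h
    have := hinj2 x.1 x.2.1 (a₁ := (x.2.2, j₁)) (a₂ := (x.2.2, j₂)) h
    exact (Prod.mk.inj this).2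
  · intro x
    have e1 : ∀ j, κ (pt (ρ x) (t (ρ x) j)) = κ (pt x (t x j)) := by
      intro j
      have := hA (pt x (t x j))
      simpa [strand, fl, pt] using this
    ext q
    simp only [Finset.mem_image, Finset.mem_univ, true_and]
    constructor
    · rintro ⟨j, rfl⟩
      refine ⟨t x ((t (ρ x)).symm j), ?_⟩
      rw [← e1, Equiv.apply_symm_apply]
    · rintro ⟨j, rfl⟩
      refine ⟨t (ρ x) ((t x).symm j), ?_⟩
      rw [e1, Equiv.apply_symm_apply]
  · intro i s
    rw [Finset.disjoint_left]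
    intro q h1 h2
    simp only [Finset.mem_image, Finset.mem_univ, true_and] at h1 h2
    obtain ⟨j₁, h1⟩ := h1
    obtain ⟨j₂, h2⟩ := h2
    have := hinj2 i s (a₁ := (false, j₁)) (a₂ := (true, j₂)) (h1.trans h2.symm)
    exact absurd (Prod.mk.inj this).1 (by simp)
  · intro i
    rw [hun i false, hun i true]
    ext q
    simp only [Finset.mem_image, Finset.mem_univ, true_and]
    constructor
    · rintro ⟨z, rfl⟩
      exact ⟨τ i z, hτ i z⟩
    · rintro ⟨z, rfl⟩
      exact ⟨(τ i).symm z, (htrue i z).symm⟩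

end TP2

/-- TP2 -/
theorem tp2_core (ρ : Flag I → Flag I) (hρ : ∀ x, ρ (ρ x) = x) (hne : ∀ x, ρ x ≠ x)
    (hno : ¬ CoverI ρ c) (k : ℕ) :
    ∑ σ : I → Perm (Bool × Fin c), (∏ i, ((Perm.sign (σ i) : ℤˣ) : ℤ)) *
      Psi ρ (k : ℤ) (fun i => cross (σ i)) = 0 := by
  classical
  unfold Psi
  simp only [TP2.pow_eq]
  have e : ∀ σ : I → Perm (Bool × Fin c), (∏ i, ((Perm.sign (σ i) : ℤˣ) : ℤ)) *
      (∑ t : Flag I → Perm (Fin c), sg t * ∑ κ : Port I c → Fin k,
        (if TP2.A ρ t κ then (1 : ℤ) else 0) *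
        ∏ i, (if TP2.C (fun y => κ (i, y)) (σ i) then (1 : ℤ) else 0)) =
      ∑ t : Flag I → Perm (Fin c), ∑ κ : Port I c → Fin k,
        (sg t * (if TP2.A ρ t κ then (1 : ℤ) else 0)) *
        ∏ i, (((Perm.sign (σ i) : ℤˣ) : ℤ) *
          (if TP2.C (fun y => κ (i, y)) (σ i) then (1 : ℤ) else 0)) := by
    intro σ
    rw [Finset.mul_sum]
    refine Finset.sum_congr rfl fun t _ => ?_
    rw [Finset.mul_sum, Finset.mul_sum]
    refine Finset.sum_congr rfl fun κ _ => ?_
    rw [Finset.prod_mul_distrib]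
    ring
  rw [Finset.sum_congr rfl (fun σ _ => e σ), Finset.sum_comm]
  refine Finset.sum_eq_zero fun t _ => ?_
  rw [Finset.sum_comm]
  refine Finset.sum_eq_zero fun κ _ => ?_
  rw [← Finset.mul_sum]
  by_cases hA : TP2.A ρ t κ
  · have h0 := TP2.prod_zero ρ hno t κ hA
    rw [Finset.prod_univ_sum] at h0
    rw [Fintype.piFinset_univ] at h0
    rw [h0, mul_zero]
  · rw [if_neg hA, mul_zero, zero_mul]

end Pool.Agent.H1.TP
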