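import Mathlib

set_option autoImplicit false

/-! TP4 (helper1), proved by helper196. -/

namespace Pool.Agent.H1.TP

namespace TP4

theorem even_inv {α : Type} (s : Finset α) (g : α → α) (h1 : ∀ x ∈ s, g x ∈ s)
    (h2 : ∀ x ∈ s, g (g x) = x) (h3 : ∀ x ∈ s, g x ≠ x) : Even s.card := by
  have h : ∑ x ∈ s, (1 : ZMod 2) = 0 := by
    apply Finset.sum_involution (fun x _ => g x)
    · intro x _
      decide
    · intro x hx _
      exact h3 x hx
    · intro x hx
      exact h1 x hx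
    · intro x hx
      exact h2 x hx
  rw [Finset.sum_const, nsmul_one] at h
  exact (ZMod.natCast_eq_zero_iff_even).1 h

end TP4

/-- TP4 -/
theorem tp4_parity {α : Type} [Fintype α] [DecidableEq α] (f g : α → α) (W : Finset α)
    (hf : ∀ x, f (f x) = x) (hf' : ∀ x, f x ≠ x)
    (hg : ∀ x, x ∉ W → g x ∉ W ∧ g (g x) = x ∧ g x ≠ x) (a : α) (ha : a ∈ W) :
    ∃ a' ∈ W, a' ≠ a ∧ Relation.EqvGen (fun x y => y = f x ∨ (x ∉ W ∧ y = g x)) a a' := by
  classical
  set r : α → α → Prop := fun x y => y = f x ∨ (x ∉ W ∧ y = g x) with hr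
  set Z : Finset α := Finset.univ.filter (fun x => Relation.EqvGen r a x) with hZ
  have memZ : ∀ x, x ∈ Z ↔ Relation.EqvGen r a x := by
    intro x; rw [hZ, Finset.mem_filter]; simp
  have e1 : Even Z.card := by
    apply TP4.even_inv Z f
    · intro x hx
      rw [memZ] at hx ⊢
      exact hx.trans _ _ _ (Relation.EqvGen.rel _ _ (Or.inl rfl))
    · intro x _; exact hf x
    · intro x _; exact hf' x
  have e2 : Even (Z \ W).card := by
    apply TP4.even_inv (Z \ W) g
    · intro x hx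
      rw [Finset.mem_sdiff, memZ] at hx ⊢
      exact ⟨hx.1.trans _ _ _ (Relation.EqvGen.rel _ _ (Or.inr ⟨hx.2, rfl⟩)), (hg x hx.2).1⟩
    · intro x hx; exact (hg x (Finset.mem_sdiff.1 hx).2).2.1
    · intro x hx; exact (hg x (Finset.mem_sdiff.1 hx).2).2.2
  have e3 : (Z ∩ W).card + (Z \ W).card = Z.card := by
    rw [add_comm]; exact Finset.card_sdiff_add_card_inter Z W
  have e4 : Even (Z ∩ W).card := by
    rw [← e3, Nat.even_add] at e1
    exact e1.2 e2
  have haZ : a ∈ Z ∩ W := Finset.mem_inter.2 ⟨(memZ a).2 (Relation.EqvGen.refl a), ha⟩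
  have h1 : 1 < (Z ∩ W).card := by
    have h2 : 0 < (Z ∩ W).card := Finset.card_pos.2 ⟨a, haZ⟩
    obtain ⟨k, hk⟩ := e4
    omega
  obtain ⟨a', ha', hne⟩ := Finset.exists_mem_ne h1 a
  rw [Finset.mem_inter, memZ] at ha'
  exact ⟨a', ha'.2, hne, ha'.1⟩

end Pool.Agent.H1.TP
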