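import Pool.Agent.H1.TP.Defs

set_option autoImplicit false
set_option linter.unusedVariables false
set_option linter.unusedSectionVars false

namespace Pool.Agent.H1.TP

open Finset Equiv

namespace TP5

theorem even_of_inv {α : Type} [DecidableEq α] (s : Finset α) (f : α → α)
    (h1 : ∀ x ∈ s, f x ∈ s) (h2 : ∀ x ∈ s, f (f x) = x) (h3 : ∀ x ∈ s, f x ≠ x) :
    Even s.card := by
  have h : ((s.card : ℕ) : ZMod 2) = 0 := by
    have h := Finset.sum_involution (s := s) (f := fun _ => (1 : ZMod 2)) (fun x _ => f x)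
      (fun _ _ => by decide) (fun x hx _ => h3 x hx) h1 h2
    rw [Finset.sum_const, nsmul_eq_mul, mul_one] at h
    exact h
  exact (ZMod.natCast_eq_zero_iff_even).1 h

theorem parity {α : Type} [Fintype α] [DecidableEq α] (f g : α → α) (W : Finset α)
    (hf : ∀ x, f (f x) = x) (hf' : ∀ x, f x ≠ x)
    (hg : ∀ x, x ∉ W → g x ∉ W ∧ g (g x) = x ∧ g x ≠ x) (a : α) (ha : a ∈ W) :
    ∃ a' ∈ W, a' ≠ a ∧ Relation.EqvGen (fun x y => y = f x ∨ (x ∉ W ∧ y = g x)) a a' := by
  classical
  by_contra hcon
  push Not at hcon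
  set R : α → α → Prop := fun x y => y = f x ∨ (x ∉ W ∧ y = g x) with hR
  set K : Finset α := univ.filter fun x => Relation.EqvGen R a x with hK
  have hmem : ∀ x, x ∈ K ↔ Relation.EqvGen R a x := fun x => by simp [hK]
  have e1 : Even K.card := by
    refine even_of_inv K f (fun x hx => ?_) (fun x _ => hf x) (fun x _ => hf' x)
    rw [hmem] at hx ⊢
    exact Relation.EqvGen.trans _ _ _ hx (Relation.EqvGen.rel _ _ (Or.inl rfl))
  have e2 : Even (K.filter fun x => x ∉ W).card := by
    refine even_of_inv _ g (fun x hx => ?_) (fun x hx => ?_) (fun x hx => ?_)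
    · rw [Finset.mem_filter] at hx ⊢
      refine ⟨?_, (hg x hx.2).1⟩
      rw [hmem]
      exact Relation.EqvGen.trans _ _ _ ((hmem x).1 hx.1)
        (Relation.EqvGen.rel _ _ (Or.inr ⟨hx.2, rfl⟩))
    · exact (hg x (Finset.mem_filter.1 hx).2).2.1
    · exact (hg x (Finset.mem_filter.1 hx).2).2.2
  have e3 : (K.filter fun x => x ∈ W) = {a} := by
    ext x
    rw [Finset.mem_filter, Finset.mem_singleton, hmem]
    constructor
    · rintro ⟨h1, h2⟩
      by_contra hne
      exact hcon x h2 hne h1
    · rintro rfl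
      exact ⟨Relation.EqvGen.refl _, ha⟩
  have e4 := Finset.card_filter_add_card_filter_not (s := K) (fun x => x ∈ W)
  rw [e3, Finset.card_singleton] at e4
  rw [← e4] at e1
  have : Odd (1 + (K.filter fun x => x ∉ W).card) := Odd.add_even odd_one e2
  exact (Nat.not_even_iff_odd.2 this) e1

theorem eg_mono {α : Type} {r s : α → α → Prop} (h : ∀ x y, r x y → s x y) {a b : α}
    (hab : Relation.EqvGen r a b) : Relation.EqvGen s a b := by
  induction hab with
  | rel x y hxy => exact Relation.EqvGen.rel _ _ (h x y hxy)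
  | refl x => exact Relation.EqvGen.refl _
  | symm x y _ ih => exact Relation.EqvGen.symm _ _ ih
  | trans x y z _ _ ih1 ih2 => exact Relation.EqvGen.trans _ _ _ ih1 ih2

theorem eg_const {α β : Type*} {r : α → α → Prop} (g : α → β) (h : ∀ x y, r x y → g x = g y)
    {a b : α} (hab : Relation.EqvGen r a b) : g a = g b := by
  induction hab with
  | rel x y hxy => exact h x y hxy
  | refl x => rfl
  | symm x y _ ih => exact ih.symm
  | trans x y z _ _ ih1 ih2 => exact ih1.trans ih2

theorem card_quot {α : Type} (r s : α → α → Prop) (h1 : ∀ a b, r a b → Relation.EqvGen s a b)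
    (h2 : ∀ a b, s a b → Relation.EqvGen r a b) : Nat.card (Quot r) = Nat.card (Quot s) := by
  refine Nat.card_congr
    { toFun := Quot.lift (fun a => Quot.mk s a) fun a b h => Quot.eqvGen_sound (h1 a b h)
      invFun := Quot.lift (fun a => Quot.mk r a) fun a b h => Quot.eqvGen_sound (h2 a b h)
      left_inv := ?_
      right_inv := ?_ }
  · intro x
    induction x using Quot.ind
    rfl
  · intro x
    induction x using Quot.ind
    rfl

variable {I : Type} [Fintype I] [DecidableEq I] {c : ℕ}

theorem fl_pt (x : Flag I) (j : Fin c) : fl (pt x j) = x := rfl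

theorem pt_fl (a : Port I c) : pt (fl a) a.2.2.2 = a := rfl

theorem strand_strand {ρ : Flag I → Flag I} (hρ : ∀ x, ρ (ρ x) = x)
    (t : Flag I → Perm (Fin c)) (a : Port I c) : strand ρ t (strand ρ t a) = a := by
  have h : strand ρ t (strand ρ t a) =
      pt (ρ (ρ (fl a))) (t (ρ (ρ (fl a))) ((t (ρ (fl a))).symm (t (ρ (fl a))
        ((t (fl a)).symm a.2.2.2)))) := rfl
  rw [h, hρ, Equiv.symm_apply_apply, Equiv.apply_symm_apply]
  exact pt_fl a

theorem strand_ne {ρ : Flag I → Flag I} (hne : ∀ x, ρ x ≠ x)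
    (t : Flag I → Perm (Fin c)) (a : Port I c) : strand ρ t a ≠ a := by
  intro h
  have h1 := congrArg fl h
  exact hne (fl a) h1

/-- the two numbers of loops agree -/
theorem loops_swap {ρ : Flag I → Flag I} (t : Flag I → Perm (Fin c)) (m : I → Pairing c) (i : I)
    (z z' : Bool × Fin c)
    (hz : Relation.EqvGen (fun x y : Port I c => y = strand ρ t x ∨
      (x.1 ≠ i ∧ y = (x.1, (m x.1).1 x.2))) (i, false, z) (i, false, z'))
    (σ : Perm (Bool × Fin c)) :
    ∀ a b, Step ρ t (Function.update m i (cross (σ * swap z z'))) a b →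
      Relation.EqvGen (Step ρ t (Function.update m i (cross σ))) a b := by
  set S := Step ρ t (Function.update m i (cross σ)) with hS
  have hrest : ∀ a b : Port I c, Relation.EqvGen (fun x y : Port I c => y = strand ρ t x ∨
      (x.1 ≠ i ∧ y = (x.1, (m x.1).1 x.2))) a b → Relation.EqvGen S a b := by
    intro a b h
    refine eg_mono (fun x y hxy => ?_) h
    rcases hxy with hxy | ⟨h1, h2⟩
    · exact Or.inl hxy
    · right
      rw [Function.update_of_ne h1]
      exact h2
  have hz' := hrest _ _ hz
  have hcr : ∀ w : Bool × Fin c, Relation.EqvGen S (i, false, w) (i, true, σ w) := by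
    intro w
    refine Relation.EqvGen.rel _ _ (Or.inr ?_)
    show (i, true, σ w) = (i, ((Function.update m i (cross σ)) i).1 (false, w))
    rw [Function.update_self]
    rfl
  have hmain : ∀ w : Bool × Fin c,
      Relation.EqvGen S (i, false, w) (i, true, (σ * swap z z') w) := by
    intro w
    rw [Perm.mul_apply]
    by_cases h1 : w = z
    · rw [h1, swap_apply_left]
      exact Relation.EqvGen.trans _ _ _ hz' (hcr z')
    · by_cases h2 : w = z'
      · rw [h2, swap_apply_right]
        exact Relation.EqvGen.trans _ _ _ (Relation.EqvGen.symm _ _ hz') (hcr z)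
      · rw [swap_apply_of_ne_of_ne h1 h2]
        exact hcr w
  intro a b h
  rcases h with h | h
  · exact Relation.EqvGen.rel _ _ (Or.inl h)
  · obtain ⟨i', s, w⟩ := a
    by_cases hi : i' = i
    · subst hi
      have h' : b = (i', ((Function.update m i' (cross (σ * swap z z'))) i').1 (s, w)) := h
      rw [Function.update_self] at h'
      cases s
      · have h3 : b = (i', true, (σ * swap z z') w) := h'
        rw [h3]
        exact hmain w
      · have h3 : b = (i', false, (σ * swap z z').symm w) := h'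
        rw [h3]
        have h4 := hmain ((σ * swap z z').symm w)
        rw [Equiv.apply_symm_apply] at h4
        exact Relation.EqvGen.symm _ _ h4
    · refine Relation.EqvGen.rel _ _ (Or.inr ?_)
      have h' : b = (i', ((Function.update m i (cross (σ * swap z z'))) i').1 (s, w)) := h
      rw [Function.update_of_ne hi] at h'
      show b = (i', ((Function.update m i (cross σ)) i').1 (s, w))
      rw [Function.update_of_ne hi]
      exact h'

end TP5

variable {I : Type} [Fintype I] [DecidableEq I] {c : ℕ}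

/-- TP5 -/
theorem tp5_bridge (hc : 0 < c) (ρ : Flag I → Flag I) (hρ : ∀ x, ρ (ρ x) = x)
    (hne : ∀ x, ρ x ≠ x) (lam : ℤ) (m : I → Pairing c) (i : I) {C : Type} (γ : Flag I → C)
    (hγ : ∀ x, γ (ρ x) = γ x)
    (hm : ∀ i', i' ≠ i → ∀ y : Loc c, γ (fl (i', (m i').1 y)) = γ (fl (i', y)))
    (hs : ∀ b b', γ (i, false, b) ≠ γ (i, true, b')) :
    ∑ σ : Perm (Bool × Fin c), ((Perm.sign σ : ℤˣ) : ℤ) *
      Psi ρ lam (Function.update m i (cross σ)) = 0 := by
  classical
  unfold Psi
  simp_rw [Finset.mul_sum]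
  rw [Finset.sum_comm]
  refine Finset.sum_eq_zero fun t _ => ?_
  -- the connection
  obtain ⟨z', hz', hcon⟩ : ∃ z' : Bool × Fin c, z' ≠ (false, ⟨0, hc⟩) ∧
      Relation.EqvGen (fun x y : Port I c => y = strand ρ t x ∨
        (x.1 ≠ i ∧ y = (x.1, (m x.1).1 x.2))) (i, false, (false, ⟨0, hc⟩)) (i, false, z') := by
    obtain ⟨a', ha', hne', hE⟩ := TP5.parity (strand ρ t)
      (fun a : Port I c => (a.1, (m a.1).1 a.2)) (univ.filter fun a : Port I c => a.1 = i)
      (TP5.strand_strand hρ t) (TP5.strand_ne hne t) (fun x hx => by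
        have hx' : x.1 ≠ i := by simpa using hx
        refine ⟨by simpa using hx', ?_, ?_⟩
        · show (x.1, (m x.1).1 ((m x.1).1 x.2)) = x
          rw [(m x.1).2.1]
        · intro h
          exact (m x.1).2.2 x.2 (congrArg Prod.snd h)) (i, false, (false, ⟨0, hc⟩)) (by simp)
    have hE' : Relation.EqvGen (fun x y : Port I c => y = strand ρ t x ∨
        (x.1 ≠ i ∧ y = (x.1, (m x.1).1 x.2))) (i, false, (false, ⟨0, hc⟩)) a' := by
      refine TP5.eg_mono (fun x y hxy => ?_) hE
      rcases hxy with hxy | ⟨h1, h2⟩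
      · exact Or.inl hxy
      · exact Or.inr ⟨by simpa using h1, h2⟩
    have hcol : γ (fl (i, false, ((false, ⟨0, hc⟩) : Bool × Fin c))) = γ (fl a') := by
      refine TP5.eg_const (fun a => γ (fl a)) (fun x y hxy => ?_) hE'
      rcases hxy with hxy | ⟨h1, h2⟩
      · rw [hxy]
        exact (hγ (fl x)).symm
      · rw [h2]
        exact (hm x.1 h1 x.2).symm
    have hi : a'.1 = i := by simpa using ha'
    obtain ⟨i', s, z'⟩ := a'
    simp only at hi
    subst hi
    cases s
    · refine ⟨z', fun h => hne' (by rw [h]), hE'⟩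
    · exact absurd hcol (hs false z'.1)
  set z : Bool × Fin c := (false, ⟨0, hc⟩) with hz
  have hloops : ∀ σ : Perm (Bool × Fin c),
      loops ρ t (Function.update m i (cross (σ * swap z z'))) =
        loops ρ t (Function.update m i (cross σ)) := by
    intro σ
    refine TP5.card_quot _ _ (TP5.loops_swap t m i z z' hcon σ) ?_
    have h := TP5.loops_swap t m i z z' hcon (σ * swap z z')
    rw [mul_assoc, swap_mul_self, mul_one] at h
    exact h
  refine Finset.sum_involution (fun σ _ => σ * swap z z') ?_ ?_ (fun σ _ => Finset.mem_univ _) ?_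
  · intro σ _
    rw [hloops, Perm.sign_mul, Perm.sign_swap hz'.symm]
    push_cast
    ring
  · intro σ _ _ h
    have h1 : swap z z' = 1 := mul_left_cancel (a := σ) (by rw [h, mul_one])
    exact hz'.symm (swap_eq_one_iff.1 h1)
  · intro σ _
    show σ * swap z z' * swap z z' = σ
    rw [mul_assoc, swap_mul_self, mul_one]

end Pool.Agent.H1.TP
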