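import Pool.Agent.H1.TP.Defs

set_option autoImplicit false
set_option linter.unusedVariables false

/-!
TP6: antisymmetry of the signed sum under the permutations of the strands of the local flags.
-/

namespace Pool.Agent.H1.TP

open Finset Equiv

variable {I : Type} [Fintype I] [DecidableEq I] {c : ℕ}

namespace TP6

/-- the family of permutations: `α` at the matching edge `i`, and the identity elsewhere -/
def fam (i : I) (α : Bool → Bool → Perm (Fin c)) : Flag I → Perm (Fin c) :=
  fun x => if x.1 = i then α x.2.1 x.2.2 else 1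

omit [Fintype I] in
theorem fam_same (i : I) (α : Bool → Bool → Perm (Fin c)) (y : Bool × Bool) :
    fam i α (i, y) = α y.1 y.2 := by
  unfold fam
  rw [if_pos rfl]

omit [Fintype I] in
theorem fam_ne {i j : I} (h : j ≠ i) (α : Bool → Bool → Perm (Fin c)) (y : Bool × Bool) :
    fam i α (j, y) = 1 := by
  unfold fam
  rw [if_neg h]

omit [DecidableEq I] in
theorem sg_mul (A t : Flag I → Perm (Fin c)) : sg (A * t) = sg A * sg t := by
  unfold sg
  rw [← Finset.prod_mul_distrib]
  refine Finset.prod_congr rfl fun x _ => ?_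
  rw [Pi.mul_apply, Perm.sign_mul, Units.val_mul]

theorem sg_fam (i : I) (α : Bool → Bool → Perm (Fin c)) : sg (fam i α) = sg4 α := by
  unfold sg
  rw [Fintype.prod_prod_type]
  have h1 : ∀ j : I, ∏ y : Bool × Bool, ((Perm.sign (fam i α (j, y)) : ℤˣ) : ℤ) =
      if j = i then sg4 α else 1 := by
    intro j
    by_cases h : j = i
    · rw [if_pos h, h, Fintype.prod_prod_type]
      unfold sg4
      refine Finset.prod_congr rfl fun s _ => Finset.prod_congr rfl fun b _ => ?_
      rw [fam_same]
    · rw [if_neg h]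
      refine Finset.prod_eq_one fun y _ => ?_
      rw [fam_ne h, Perm.sign_one, Units.val_one]
  rw [Finset.prod_congr rfl fun j _ => h1 j, Finset.prod_ite_eq' Finset.univ i,
    if_pos (Finset.mem_univ i)]

/-- the permutation of the ports -/
def ph (A : Flag I → Perm (Fin c)) : Perm (Port I c) where
  toFun a := pt (fl a) (A (fl a) a.2.2.2)
  invFun a := pt (fl a) ((A (fl a)).symm a.2.2.2)
  left_inv := by
    rintro ⟨j, s, b, z⟩
    simp [pt, fl]
  right_inv := by
    rintro ⟨j, s, b, z⟩
    simp [pt, fl]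

omit [Fintype I] [DecidableEq I] in
theorem ph_apply (A : Flag I → Perm (Fin c)) (a : Port I c) :
    ph A a = pt (fl a) (A (fl a) a.2.2.2) := rfl

omit [Fintype I] [DecidableEq I] in
theorem ph_fst (A : Flag I → Perm (Fin c)) (a : Port I c) : (ph A a).1 = a.1 := rfl

omit [Fintype I] [DecidableEq I] in
theorem ph_pt (A : Flag I → Perm (Fin c)) (x : Flag I) (z : Fin c) :
    ph A (pt x z) = pt x (A x z) := rfl

omit [Fintype I] [DecidableEq I] in
theorem strand_ph (ρ : Flag I → Flag I) (A t : Flag I → Perm (Fin c)) (a : Port I c) :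
    strand ρ (A * t) (ph A a) = ph A (strand ρ t a) := by
  have h1 : fl (ph A a) = fl a := rfl
  have h2 : (ph A a).2.2.2 = A (fl a) a.2.2.2 := rfl
  unfold strand
  rw [h1, h2, ph_pt, Pi.mul_apply, Pi.mul_apply]
  congr 1
  have h3 : (A (fl a) * t (fl a)).symm (A (fl a) a.2.2.2) = (t (fl a)).symm a.2.2.2 := by
    rw [Equiv.symm_apply_eq, Perm.mul_apply, Equiv.apply_symm_apply]
  rw [h3, Perm.mul_apply]

omit [Fintype I] in
theorem snd_same (i : I) (α : Bool → Bool → Perm (Fin c)) (y : Loc c) :
    ph (fam i α) (i, y) = (i, blk α y) := by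
  obtain ⟨s, b, z⟩ := y
  have h : fam i α (i, s, b) = α s b := fam_same i α (s, b)
  show pt (i, s, b) (fam i α (i, s, b) z) = (i, s, b, α s b z)
  rw [h]
  rfl

omit [Fintype I] in
theorem snd_ne {i j : I} (h : j ≠ i) (α : Bool → Bool → Perm (Fin c)) (y : Loc c) :
    ph (fam i α) (j, y) = (j, y) := by
  obtain ⟨s, b, z⟩ := y
  have h : fam i α (j, s, b) = 1 := fam_ne h α (s, b)
  show pt (j, s, b) (fam i α (j, s, b) z) = (j, s, b, z)
  rw [h]
  rfl

omit [Fintype I] in
theorem pair_ph (m : I → Pairing c) (i : I) (q : Pairing c) (α : Bool → Bool → Perm (Fin c))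
    (a : Port I c) :
    ((ph (fam i α) a).1,
      (Function.update m i (cj α q) (ph (fam i α) a).1).1 (ph (fam i α) a).2) =
    ph (fam i α) (a.1, (Function.update m i q a.1).1 a.2) := by
  obtain ⟨j, y⟩ := a
  by_cases h : j = i
  · subst h
    rw [snd_same]
    simp only [Function.update_self]
    rw [snd_same]
    show (j, blk α (q.1 ((blk α).symm (blk α y)))) = _
    rw [Equiv.symm_apply_apply]
  · rw [snd_ne h]
    simp only [Function.update_of_ne h]
    rw [snd_ne h]

omit [Fintype I] in
theorem step_iff (ρ : Flag I → Flag I) (m : I → Pairing c) (i : I) (q : Pairing c)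
    (α : Bool → Bool → Perm (Fin c)) (t : Flag I → Perm (Fin c)) (a b : Port I c) :
    Step ρ t (Function.update m i q) a b ↔
      Step ρ (fam i α * t) (Function.update m i (cj α q)) (ph (fam i α) a) (ph (fam i α) b) := by
  unfold Step
  rw [strand_ph, pair_ph, (ph (fam i α)).injective.eq_iff, (ph (fam i α)).injective.eq_iff]

omit [Fintype I] in
theorem loops_eq (ρ : Flag I → Flag I) (m : I → Pairing c) (i : I) (q : Pairing c)
    (α : Bool → Bool → Perm (Fin c)) (t : Flag I → Perm (Fin c)) :
    loops ρ (fam i α * t) (Function.update m i (cj α q)) =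
      loops ρ t (Function.update m i q) :=
  (Nat.card_congr (Quot.congr (ph (fam i α)) fun a b => step_iff ρ m i q α t a b)).symm

end TP6

/-- TP6 -/
theorem tp6_antisymm (ρ : Flag I → Flag I) (hρ : ∀ x, ρ (ρ x) = x) (hne : ∀ x, ρ x ≠ x)
    (lam : ℤ) (m : I → Pairing c) (i : I) (q : Pairing c) (α : Bool → Bool → Perm (Fin c)) :
    Psi ρ lam (Function.update m i (cj α q)) =
      sg4 α * Psi ρ lam (Function.update m i q) := by
  unfold Psi
  rw [Finset.mul_sum, ← Equiv.sum_comp (Equiv.mulLeft (TP6.fam i α))]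
  refine Finset.sum_congr rfl fun t _ => ?_
  rw [Equiv.coe_mulLeft, TP6.sg_mul, TP6.sg_fam, TP6.loops_eq, mul_assoc]

end Pool.Agent.H1.TP
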