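import Pool.Agent.H1.TP.TP1
import Pool.Agent.H1.TP.TP2
import Pool.Agent.H1.TP.TP3
import Pool.Agent.H1.TP.TP4
import Pool.Agent.H1.TP.TP5
import Pool.Agent.H1.TP.TP6
import Pool.Agent.H1.TP.TP7
import Pool.Agent.H1.TP.TP8
import Pool.Agent.H1.TP.TP9
import Pool.Agent.H1.TP.TP10
import Pool.Agent.H1.TP.TP11
import Pool.Agent.H1.TP.TP12
import Pool.Agent.H1.TP.TP13
import Pool.Agent.H1.TP.TP14
import Pool.Agent.H1.TP.TP15
import Pool.Agent.H1.TP.TP16
import Pool.Agent.H1.TP.TP17

set_option autoImplicit false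
set_option linter.unusedVariables false
set_option linter.unusedSectionVars false

namespace Pool.Agent.H1.TP

open Finset Equiv Polynomial

variable {I : Type} [Fintype I] [DecidableEq I] {c : ℕ}

/-- the alternating number of forests -/
noncomputable def tau (ρ : Flag I → Flag I) : ℤ :=
  ∑ K ∈ (univ : Finset (Finset I)).filter (fun K => kap ρ K + K.card = kap ρ ∅), (-1 : ℤ) ^ K.card

/-- `Psi` as a polynomial -/
noncomputable def PsiP (ρ : Flag I → Flag I) (m : I → Pairing c) : ℤ[X] :=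
  ∑ t : Flag I → Perm (Fin c), C (sg t) * X ^ loops ρ t m

lemma PsiP_eval (ρ : Flag I → Flag I) (m : I → Pairing c) (lam : ℤ) :
    (PsiP ρ m).eval lam = Psi ρ lam m := by
  unfold PsiP Psi
  rw [eval_finsetSum]
  refine sum_congr rfl fun t _ => ?_
  simp

lemma poly_zero (f : ℤ[X]) (h : ∀ k : ℕ, f.eval (k : ℤ) = 0) : f = 0 := by
  refine Polynomial.eq_zero_of_infinite_isRoot f ?_
  refine Set.infinite_of_injective_forall_mem (f := fun k : ℕ => (k : ℤ)) ?_ ?_
  · intro a b hab
    have hab' : (a : ℤ) = (b : ℤ) := hab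
    exact_mod_cast hab'
  · intro k; exact h k

/-- the signed sum over all crossings vanishes at `-2` -/
lemma sum_cross_zero (ρ : Flag I → Flag I) (hρ : ∀ x, ρ (ρ x) = x) (hne : ∀ x, ρ x ≠ x)
    (hno : ¬ CoverI ρ c) :
    ∑ σ : I → Perm (Bool × Fin c), (∏ i, ((Perm.sign (σ i) : ℤˣ) : ℤ)) *
      Psi ρ (-2) (fun i => cross (σ i)) = 0 := by
  let f : ℤ[X] := ∑ σ : I → Perm (Bool × Fin c), C (∏ i, ((Perm.sign (σ i) : ℤˣ) : ℤ)) *
      PsiP ρ (fun i => cross (σ i))
  have hf : f = 0 := by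
    refine poly_zero f fun k => ?_
    have := tp2_core ρ hρ hne hno k
    rw [← this]
    show eval _ f = _
    simp only [f]
    rw [eval_finsetSum]
    refine sum_congr rfl fun σ _ => ?_
    rw [eval_mul, eval_C, PsiP_eval]
  have h2 : f.eval (-2) = 0 := by rw [hf]; simp
  rw [← h2]
  simp only [f]
  rw [eval_finsetSum]
  refine sum_congr rfl fun σ _ => ?_
  rw [eval_mul, eval_C, PsiP_eval]

/-- push forward of weights -/
lemma push {A S : Type} [Fintype A] [Fintype S] [DecidableEq S] (φ : A → S) (w : A → ℤ)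
    (G : (I → S) → ℤ) :
    ∑ a : I → A, (∏ i, w (a i)) * G (fun i => φ (a i)) =
      ∑ m : I → S, (∏ i, ∑ a : A, if φ a = m i then w a else 0) * G m := by
  classical
  have h1 : ∀ m : I → S, (∏ i, ∑ a : A, if φ a = m i then w a else 0) =
      ∑ a : I → A, ∏ i, (if φ (a i) = m i then w (a i) else 0) := by
    intro m
    rw [Finset.prod_univ_sum]
    simp
  simp_rw [h1, sum_mul]
  rw [sum_comm]
  refine sum_congr rfl fun a _ => ?_
  rw [sum_eq_single (fun i => φ (a i))]
  · congr 1
    refine prod_congr rfl fun i _ => ?_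
    simp
  · intro m _ hm
    obtain ⟨i, hi⟩ : ∃ i, φ (a i) ≠ m i := by
      by_contra hcon
      push Not at hcon
      exact hm (funext fun i => (hcon i).symm)
    rw [prod_eq_zero (mem_univ i), zero_mul]
    rw [if_neg hi]
  · intro h; exact absurd (mem_univ _) h

/-- the second set of states -/
def phi2 : Option (Finset (Fin c)) → Pairing c
  | none => pT
  | some J => pJ J

def w2 (p : ℕ) (r : Finset (Fin c) → ℤ) : Option (Finset (Fin c)) → ℤ
  | none => ((c.factorial : ℤ)) ^ 2
  | some J => p * r J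

lemma local_id (ρ : Flag I → Flag I) (hρ : ∀ x, ρ (ρ x) = x) (hne : ∀ x, ρ x ≠ x)
    (p : ℕ) (hp : p.Prime) (hc : c + 1 = p) :
    ∃ r : Finset (Fin c) → ℤ, ∀ (m : I → Pairing c) (i : I),
      ∑ σ : Perm (Bool × Fin c), ((Perm.sign σ : ℤˣ) : ℤ) *
        Psi ρ (-2) (Function.update m i (cross σ)) =
      ∑ b : Option (Finset (Fin c)), w2 p r b * Psi ρ (-2) (Function.update m i (phi2 b)) := by
  obtain ⟨r, hr⟩ := tp10_local p hp hc
  refine ⟨r, fun m i => ?_⟩
  rw [hr (fun q => Psi ρ (-2) (Function.update m i q))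
    (fun α q => tp6_antisymm ρ hρ hne (-2) m i q α)
    (fun g j => tp11_three ρ hρ hne m i g j)]
  rw [Fintype.sum_option]
  simp only [w2, phi2]
  rw [mul_sum]
  congr 1
  refine sum_congr rfl fun J _ => ?_
  ring

lemma total_zero (ρ : Flag I → Flag I) (hρ : ∀ x, ρ (ρ x) = x) (hne : ∀ x, ρ x ≠ x)
    (hno : ¬ CoverI ρ c) (p : ℕ) (r : Finset (Fin c) → ℤ)
    (hr : ∀ (m : I → Pairing c) (i : I),
      ∑ σ : Perm (Bool × Fin c), ((Perm.sign σ : ℤˣ) : ℤ) *
        Psi ρ (-2) (Function.update m i (cross σ)) =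
      ∑ b : Option (Finset (Fin c)), w2 p r b * Psi ρ (-2) (Function.update m i (phi2 b))) :
    ∑ b : I → Option (Finset (Fin c)), (∏ i, w2 p r (b i)) * Psi ρ (-2) (fun i => phi2 (b i)) =
      0 := by
  classical
  rw [← sum_cross_zero ρ hρ hne hno]
  rw [push (phi2 (c := c)) (w2 p r) (fun m => Psi ρ (-2) m)]
  rw [push (cross (c := c)) (fun σ => ((Perm.sign σ : ℤˣ) : ℤ)) (fun m => Psi ρ (-2) m)]
  symm
  refine tp16_replace (fun m => Psi ρ (-2) m) (fun s => ∑ a, if cross a = s then
    ((Perm.sign a : ℤˣ) : ℤ) else 0) (fun s => ∑ a, if phi2 a = s then w2 p r a else 0) ?_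
  intro m i
  have key : ∀ {A : Type} [Fintype A] (φ : A → Pairing c) (w : A → ℤ),
      ∑ s, (∑ a, if φ a = s then w a else 0) * Psi ρ (-2) (Function.update m i s) =
      ∑ a, w a * Psi ρ (-2) (Function.update m i (φ a)) := by
    intro A _ φ w
    simp_rw [sum_mul]
    rw [sum_comm]
    refine sum_congr rfl fun a _ => ?_
    rw [sum_eq_single (φ a)]
    · rw [if_pos rfl]
    · intro s _ hs
      rw [if_neg (Ne.symm hs), zero_mul]
    · intro h; exact absurd (mem_univ _) h
  rw [key, key]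
  exact hr m i

/-- the support -/
def supp (b : I → Option (Finset (Fin c))) : Finset I := univ.filter fun i => b i ≠ none

noncomputable def WK (ρ : Flag I → Flag I) (p : ℕ) (r : Finset (Fin c) → ℤ) (K : Finset I) : ℤ :=
  ∑ b ∈ univ.filter (fun b : I → Option (Finset (Fin c)) => supp b = K),
    (∏ i, w2 p r (b i)) * Psi ρ (-2) (fun i => phi2 (b i))

lemma sum_WK (ρ : Flag I → Flag I) (p : ℕ) (r : Finset (Fin c) → ℤ) :
    ∑ K : Finset I, WK ρ p r K =
      ∑ b : I → Option (Finset (Fin c)), (∏ i, w2 p r (b i)) * Psi ρ (-2) (fun i => phi2 (b i)) := by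
  unfold WK
  rw [← sum_fiberwise univ (fun b : I → Option (Finset (Fin c)) => supp b)]

lemma WK_empty (ρ : Flag I → Flag I) (p : ℕ) (r : Finset (Fin c) → ℤ) :
    WK ρ p r ∅ = ((c.factorial : ℤ)) ^ (2 * Fintype.card I) * Psi ρ (-2) (fun _ => (pT : Pairing c)) := by
  unfold WK
  rw [sum_eq_single (fun _ => none)]
  · simp only [w2, phi2]
    rw [prod_const, card_univ, ← pow_mul]
  · intro b hb hne
    exfalso
    apply hne
    rw [mem_filter] at hb
    funext i
    by_contra hi
    have : i ∈ supp b := by simp [supp, hi]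
    rw [hb.2] at this
    exact absurd this (notMem_empty i)
  · intro h
    exfalso
    apply h
    rw [mem_filter]
    refine ⟨mem_univ _, ?_⟩
    ext i
    simp [supp]


lemma quot_card_congr {α : Type} (r r' : α → α → Prop)
    (h : ∀ x y, r x y → Quot.mk r' x = Quot.mk r' y)
    (h' : ∀ x y, r' x y → Quot.mk r x = Quot.mk r y) :
    Nat.card (Quot r) = Nat.card (Quot r') :=
  Nat.card_congr ⟨Quot.lift (Quot.mk r') h, Quot.lift (Quot.mk r) h', by rintro ⟨x⟩; rfl,
    by rintro ⟨x⟩; rfl⟩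

lemma same_side (ρ : Flag I → Flag I) (K : Finset I) (i : I) (s b b' : Bool) :
    Quot.mk (HStep ρ K) (i, s, b) = Quot.mk (HStep ρ K) (i, s, b') :=
  Quot.sound (Or.inr ⟨rfl, Or.inl rfl⟩)

lemma kap_insert_eq (ρ : Flag I → Flag I) (K : Finset I) (i : I) :
    kap ρ (insert i K) = Nat.card (Quot fun x y : Flag I => HStep ρ K x y ∨
      (x = (i, false, false) ∧ y = (i, true, false))) := by
  unfold kap
  refine quot_card_congr _ _ ?_ ?_
  · intro x y hxy
    have hs : ∀ s b b' : Bool, Quot.mk (fun x y : Flag I => HStep ρ K x y ∨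
        (x = (i, false, false) ∧ y = (i, true, false))) (i, s, b) =
        Quot.mk _ (i, s, b') := fun s b b' => Quot.sound (Or.inl (Or.inr ⟨rfl, Or.inl rfl⟩))
    have hp : Quot.mk (fun x y : Flag I => HStep ρ K x y ∨
        (x = (i, false, false) ∧ y = (i, true, false))) (i, false, false) =
        Quot.mk _ (i, true, false) := Quot.sound (Or.inr ⟨rfl, rfl⟩)
    rcases hxy with h | ⟨h1, h2 | h2⟩
    · exact Quot.sound (Or.inl (Or.inl h))
    · exact Quot.sound (Or.inl (Or.inr ⟨h1, Or.inl h2⟩))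
    · rw [mem_insert] at h2
      rcases h2 with h2 | h2
      · obtain ⟨i1, s1, b1⟩ := x
        obtain ⟨i2, s2, b2⟩ := y
        simp only at h1 h2
        subst h1
        subst h2
        cases s1 <;> cases s2
        · exact hs _ _ _
        · exact ((hs false b1 false).trans hp).trans (hs true false b2)
        · exact ((hs true b1 false).trans hp.symm).trans (hs false false b2)
        · exact hs _ _ _
      · exact Quot.sound (Or.inl (Or.inr ⟨h1, Or.inr h2⟩))
  · rintro x y (h | ⟨rfl, rfl⟩)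
    · refine Quot.sound ?_
      rcases h with h | ⟨h1, h2 | h2⟩
      · exact Or.inl h
      · exact Or.inr ⟨h1, Or.inl h2⟩
      · exact Or.inr ⟨h1, Or.inr (mem_insert_of_mem h2)⟩
    · exact Quot.sound (Or.inr ⟨rfl, Or.inr (mem_insert_self _ _)⟩)

lemma kap_insert (ρ : Flag I → Flag I) (K : Finset I) (i : I) :
    kap ρ K ≤ kap ρ (insert i K) + 1 ∧
    (Quot.mk (HStep ρ K) (i, false, false) = Quot.mk (HStep ρ K) (i, true, false) →
      kap ρ (insert i K) = kap ρ K) := by
  rw [kap_insert_eq]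
  exact tp17_quot (HStep ρ K) (i, false, false) (i, true, false)

lemma kap_le (ρ : Flag I → Flag I) (K : Finset I) : kap ρ ∅ ≤ kap ρ K + K.card := by
  induction K using Finset.induction with
  | empty => simp
  | insert i K hi ih =>
    rw [card_insert_of_notMem hi]
    have := (kap_insert ρ K i).1
    omega

lemma forest_insert (ρ : Flag I → Flag I) (K : Finset I) (i : I) (hi : i ∉ K)
    (h : kap ρ (insert i K) + (insert i K).card = kap ρ ∅) :
    kap ρ K + K.card = kap ρ ∅ ∧
      Quot.mk (HStep ρ K) (i, false, false) ≠ Quot.mk (HStep ρ K) (i, true, false) := by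
  rw [card_insert_of_notMem hi] at h
  have h1 := kap_insert ρ K i
  have h2 := kap_le ρ K
  refine ⟨by omega, fun hcon => ?_⟩
  have := h1.2 hcon
  omega

/-- the terms -/
noncomputable def FF (ρ : Flag I → Flag I) (p : ℕ) (r : Finset (Fin c) → ℤ)
    (b : I → Option (Finset (Fin c))) : ℤ :=
  (∏ i, w2 p r (b i)) * Psi ρ (-2) (fun i => phi2 (b i))

lemma phi2_update (b : I → Option (Finset (Fin c))) (i : I) (o : Option (Finset (Fin c))) :
    (fun i' => phi2 (Function.update b i o i')) =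
      Function.update (fun i' => phi2 (b i')) i (phi2 o) := by
  funext i'
  by_cases h : i' = i
  · subst h; simp
  · rw [Function.update_of_ne h, Function.update_of_ne h]

lemma bridge_zero (hc0 : 0 < c) (ρ : Flag I → Flag I) (hρ : ∀ x, ρ (ρ x) = x)
    (hne : ∀ x, ρ x ≠ x) (p : ℕ) (r : Finset (Fin c) → ℤ)
    (hr : ∀ (m : I → Pairing c) (i : I),
      ∑ σ : Perm (Bool × Fin c), ((Perm.sign σ : ℤˣ) : ℤ) *
        Psi ρ (-2) (Function.update m i (cross σ)) =
      ∑ b : Option (Finset (Fin c)), w2 p r b * Psi ρ (-2) (Function.update m i (phi2 b)))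
    (K : Finset I) (i : I) (hi : i ∉ K)
    (hbr : Quot.mk (HStep ρ K) (i, false, false) ≠ Quot.mk (HStep ρ K) (i, true, false))
    (b : I → Option (Finset (Fin c))) (hb : supp b = K) :
    ∑ o : Option (Finset (Fin c)), FF ρ p r (Function.update b i o) = 0 := by
  have h5 := tp5_bridge hc0 ρ hρ hne (-2) (fun i' => phi2 (b i')) i
    (γ := fun x => Quot.mk (HStep ρ K) x) (fun x => (show Quot.mk (HStep ρ K) x = Quot.mk (HStep ρ K) (ρ x) from
      Quot.sound (Or.inl rfl)).symm) ?_ ?_
  · rw [hr] at h5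
    have : ∀ o, FF ρ p r (Function.update b i o) = (∏ i' ∈ univ.erase i, w2 p r (b i')) *
        (w2 p r o * Psi ρ (-2) (Function.update (fun i' => phi2 (b i')) i (phi2 o))) := by
      intro o
      unfold FF
      rw [phi2_update]
      rw [← mul_prod_erase univ _ (mem_univ i)]
      rw [Function.update_self]
      have : ∏ x ∈ univ.erase i, w2 p r (Function.update b i o x) =
          ∏ x ∈ univ.erase i, w2 p r (b x) := by
        refine prod_congr rfl fun x hx => ?_
        rw [Function.update_of_ne (ne_of_mem_erase hx)]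
      rw [this]
      ring
    simp_rw [this]
    rw [← mul_sum, h5, mul_zero]
  · intro i' hi' y
    by_cases hK : i' ∈ K
    · exact Quot.sound (Or.inr ⟨rfl, Or.inr hK⟩)
    · have hn : b i' = none := by
        by_contra hcon
        apply hK
        rw [← hb]
        simp [supp, hcon]
      rw [hn]
      obtain ⟨s, b0, j⟩ := y
      refine Quot.sound (Or.inr ⟨rfl, Or.inl ?_⟩)
      simp [phi2, pT, typ, gT, fl]
  · intro b0 b1 h
    apply hbr
    rw [same_side ρ K i false false b0, h, same_side ρ K i true b1 false]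

lemma WK_insert (hc0 : 0 < c) (ρ : Flag I → Flag I) (hρ : ∀ x, ρ (ρ x) = x)
    (hne : ∀ x, ρ x ≠ x) (p : ℕ) (r : Finset (Fin c) → ℤ)
    (hr : ∀ (m : I → Pairing c) (i : I),
      ∑ σ : Perm (Bool × Fin c), ((Perm.sign σ : ℤˣ) : ℤ) *
        Psi ρ (-2) (Function.update m i (cross σ)) =
      ∑ b : Option (Finset (Fin c)), w2 p r b * Psi ρ (-2) (Function.update m i (phi2 b)))
    (K : Finset I) (i : I) (hi : i ∉ K)
    (hbr : Quot.mk (HStep ρ K) (i, false, false) ≠ Quot.mk (HStep ρ K) (i, true, false)) :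
    WK ρ p r (insert i K) = - WK ρ p r K := by
  have h1 : WK ρ p r (insert i K) = ∑ b ∈ univ.filter
      (fun b : I → Option (Finset (Fin c)) => supp b = K),
      ∑ J : Finset (Fin c), FF ρ p r (Function.update b i (some J)) := by
    rw [← sum_product']
    unfold WK
    symm
    refine sum_bij' (fun x _ => Function.update x.1 i (some x.2))
      (fun b _ => (Function.update b i none, (b i).getD ∅)) ?_ ?_ ?_ ?_ ?_
    · rintro ⟨b, J⟩ hx
      rw [mem_product, mem_filter] at hx
      rw [mem_filter]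
      refine ⟨mem_univ _, ?_⟩
      ext i'
      simp only [supp, mem_filter, mem_univ, true_and, mem_insert]
      by_cases h : i' = i
      · subst h; simp
      · rw [Function.update_of_ne h]
        rw [← hx.1.2]
        simp [supp, h]
    · intro b hb
      rw [mem_filter] at hb
      rw [mem_product, mem_filter]
      refine ⟨⟨mem_univ _, ?_⟩, mem_univ _⟩
      ext i'
      simp only [supp, mem_filter, mem_univ, true_and]
      by_cases h : i' = i
      · subst h; simp [hi]
      · rw [Function.update_of_ne h]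
        have : i' ∈ supp b ↔ i' ∈ insert i K := by rw [hb.2]
        rw [mem_insert] at this
        simp only [supp, mem_filter, mem_univ, true_and] at this
        rw [this]
        simp [h]
    · rintro ⟨b, J⟩ hx
      rw [mem_product, mem_filter] at hx
      have hn : b i = none := by
        by_contra hcon
        apply hi
        rw [← hx.1.2]
        simp [supp, hcon]
      simp only [Function.update_self, Option.getD_some, Function.update_idem]
      rw [Prod.mk.injEq]
      refine ⟨?_, rfl⟩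
      rw [← hn, Function.update_eq_self]
    · intro b hb
      rw [mem_filter] at hb
      have hs : b i ≠ none := by
        have : i ∈ supp b := by rw [hb.2]; exact mem_insert_self _ _
        simpa [supp] using this
      obtain ⟨J, hJ⟩ := Option.ne_none_iff_exists'.1 hs
      simp only [Function.update_idem]
      rw [hJ, Option.getD_some, ← hJ, Function.update_eq_self]
    · rintro ⟨b, J⟩ hx
      rfl
  rw [h1, eq_neg_iff_add_eq_zero]
  unfold WK
  rw [← sum_add_distrib]
  refine sum_eq_zero fun b hb => ?_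
  rw [mem_filter] at hb
  have h2 := bridge_zero hc0 ρ hρ hne p r hr K i hi hbr b hb.2
  rw [Fintype.sum_option] at h2
  have hn : b i = none := by
    by_contra hcon
    apply hi
    rw [← hb.2]
    simp [supp, hcon]
  rw [← hn, Function.update_eq_self] at h2
  rw [add_comm]
  exact h2

lemma WK_forest (hc0 : 0 < c) (ρ : Flag I → Flag I) (hρ : ∀ x, ρ (ρ x) = x)
    (hne : ∀ x, ρ x ≠ x) (p : ℕ) (r : Finset (Fin c) → ℤ)
    (hr : ∀ (m : I → Pairing c) (i : I),
      ∑ σ : Perm (Bool × Fin c), ((Perm.sign σ : ℤˣ) : ℤ) *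
        Psi ρ (-2) (Function.update m i (cross σ)) =
      ∑ b : Option (Finset (Fin c)), w2 p r b * Psi ρ (-2) (Function.update m i (phi2 b)))
    (K : Finset I) (hK : kap ρ K + K.card = kap ρ ∅) :
    WK ρ p r K = (-1) ^ K.card * (((c.factorial : ℤ)) ^ (2 * Fintype.card I) *
      Psi ρ (-2) (fun _ => (pT : Pairing c))) := by
  induction K using Finset.induction with
  | empty => rw [WK_empty]; simp
  | insert i K hi ih =>
    obtain ⟨h1, h2⟩ := forest_insert ρ K i hi hK
    rw [WK_insert hc0 ρ hρ hne p r hr K i hi h2, ih h1, card_insert_of_notMem hi]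
    ring

lemma psi_dvd (ρ : Flag I → Flag I) (hρ : ∀ x, ρ (ρ x) = x) (hne : ∀ x, ρ x ≠ x)
    (K : Finset I) (b : I → Option (Finset (Fin c))) (hb : supp b = K) :
    (((c + 1).factorial : ℤ)) ^ kap ρ K ∣ Psi ρ (-2) (fun i => phi2 (b i)) := by
  classical
  haveI : Finite (Quot (HStep ρ K)) := Quot.finite _
  haveI : Fintype (Quot (HStep ρ K)) := Fintype.ofFinite _
  have h12 := tp12_dvd_nat ρ hρ hne (fun i => phi2 (b i)) (fun x => Quot.mk (HStep ρ K) x)
    (by rintro ⟨x⟩; exact ⟨x, rfl⟩) (fun x => (show Quot.mk (HStep ρ K) x = Quot.mk (HStep ρ K) (ρ x) from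
      Quot.sound (Or.inl rfl)).symm) (by
      intro i y
      by_cases hK : i ∈ K
      · exact Quot.sound (Or.inr ⟨rfl, Or.inr hK⟩)
      · have hn : b i = none := by
          by_contra hcon
          apply hK
          rw [← hb]
          simp [supp, hcon]
        rw [hn]
        obtain ⟨s, b0, j⟩ := y
        refine Quot.sound (Or.inr ⟨rfl, Or.inl ?_⟩)
        simp [phi2, pT, typ, gT, fl])
  have h13 := tp13_poly (PsiP ρ (fun i => phi2 (b i)))
    ((descPochhammer ℤ c) ^ Fintype.card (Quot (HStep ρ K)))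
    ((monic_descPochhammer ℤ c).pow _) (by
      intro k
      rw [PsiP_eval, eval_pow, descPochhammer_eval_eq_descFactorial]
      exact h12 k)
  have h14 := eval_dvd (x := (-2 : ℤ)) h13
  rw [eval_pow, tp14_eval, PsiP_eval, mul_pow] at h14
  rw [kap, Nat.card_eq_fintype_card]
  exact (Dvd.intro_left _ rfl).trans h14

lemma WK_dvd (ρ : Flag I → Flag I) (hρ : ∀ x, ρ (ρ x) = x) (hne : ∀ x, ρ x ≠ x)
    (p : ℕ) (hc : c + 1 = p) (r : Finset (Fin c) → ℤ) (K : Finset I) :
    (p : ℤ) ^ (K.card + kap ρ K) ∣ WK ρ p r K := by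
  unfold WK
  refine dvd_sum fun b hb => ?_
  rw [mem_filter] at hb
  rw [pow_add]
  refine mul_dvd_mul ?_ ?_
  · have h1 : ∏ i ∈ K, w2 p r (b i) ∣ ∏ i, w2 p r (b i) :=
      prod_dvd_prod_of_subset _ _ _ (subset_univ _)
    refine dvd_trans ?_ h1
    rw [← prod_const]
    refine prod_dvd_prod_of_dvd _ _ fun i hi => ?_
    rw [← hb.2] at hi
    have hs : b i ≠ none := by simpa [supp] using hi
    obtain ⟨J, hJ⟩ := Option.ne_none_iff_exists'.1 hs
    rw [hJ]
    exact dvd_mul_right _ _
  · refine dvd_trans ?_ (psi_dvd ρ hρ hne K b hb.2)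
    refine pow_dvd_pow_of_dvd ?_ _
    rw [← hc]
    exact_mod_cast Nat.dvd_factorial (Nat.succ_pos c) le_rfl

lemma turn_neg_two (ρ : Flag I → Flag I) (hρ : ∀ x, ρ (ρ x) = x) (hne : ∀ x, ρ x ≠ x) :
    ((c.factorial : ℕ) : ℤ) ^ kap ρ ∅ * Psi ρ (-2) (fun _ => (pT : Pairing c)) =
      ((c.factorial : ℕ) : ℤ) ^ (4 * Fintype.card I) *
        ((-1) ^ c * ((c + 1).factorial : ℤ)) ^ kap ρ ∅ := by
  have h : C (((c.factorial : ℕ) : ℤ) ^ kap ρ ∅) * PsiP ρ (fun _ => (pT : Pairing c)) -
      C (((c.factorial : ℕ) : ℤ) ^ (4 * Fintype.card I)) * (descPochhammer ℤ c) ^ kap ρ ∅ = 0 := by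
    refine poly_zero _ fun k => ?_
    rw [eval_sub, eval_mul, eval_mul, eval_C, eval_C, PsiP_eval, eval_pow,
      descPochhammer_eval_eq_descFactorial, tp15_turn ρ hρ hne k]
    ring
  have h2 := congrArg (fun f => eval (-2) f) h
  simp only [eval_sub, eval_mul, eval_C, PsiP_eval, eval_pow, tp14_eval, eval_zero] at h2
  linarith

/-- the core theorem -/
theorem core (ρ : Flag I → Flag I) (hρ : ∀ x, ρ (ρ x) = x) (hne : ∀ x, ρ x ≠ x) (p : ℕ)
    (hp : p.Prime) (hc : c + 1 = p) (hτ : ¬ (p : ℤ) ∣ tau ρ) : CoverI ρ c := by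
  classical
  by_contra hno
  have hc0 : 0 < c := by
    have := hp.two_le
    omega
  obtain ⟨r, hr⟩ := local_id (I := I) ρ hρ hne p hp hc
  have h0 : ∑ K : Finset I, WK ρ p r K = 0 := by
    rw [sum_WK]
    exact total_zero ρ hρ hne hno p r hr
  have hpZ : Prime (p : ℤ) := Nat.prime_iff_prime_int.1 hp
  set A : ℤ := ((c.factorial : ℤ)) ^ (2 * Fintype.card I) with hA
  set P : ℤ := Psi ρ (-2) (fun _ => (pT : Pairing c)) with hP
  -- split the sum
  have h1 : (p : ℤ) ^ (kap ρ ∅ + 1) ∣ A * P * tau ρ := by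
    have hsplit := sum_filter_add_sum_filter_not (univ : Finset (Finset I))
      (fun K => kap ρ K + K.card = kap ρ ∅) (fun K => WK ρ p r K)
    rw [h0] at hsplit
    have hfor : ∑ K ∈ (univ : Finset (Finset I)).filter (fun K => kap ρ K + K.card = kap ρ ∅),
        WK ρ p r K = A * P * tau ρ := by
      unfold tau
      rw [mul_sum]
      refine sum_congr rfl fun K hK => ?_
      rw [mem_filter] at hK
      rw [WK_forest hc0 ρ hρ hne p r hr K hK.2]
      ring
    rw [hfor] at hsplit
    have hrest : (p : ℤ) ^ (kap ρ ∅ + 1) ∣ ∑ K ∈ (univ : Finset (Finset I)).filter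
        (fun K => ¬ (kap ρ K + K.card = kap ρ ∅)), WK ρ p r K := by
      refine dvd_sum fun K hK => ?_
      rw [mem_filter] at hK
      refine dvd_trans (pow_dvd_pow _ ?_) (WK_dvd ρ hρ hne p hc r K)
      have := kap_le ρ K
      have := hK.2
      omega
    have : A * P * tau ρ = - ∑ K ∈ (univ : Finset (Finset I)).filter
        (fun K => ¬ (kap ρ K + K.card = kap ρ ∅)), WK ρ p r K := by linarith
    rw [this]
    exact (dvd_neg).2 hrest
  have h2 := turn_neg_two (c := c) ρ hρ hne
  rw [← hP] at h2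
  have h3 : (p : ℤ) ^ (kap ρ ∅ + 1) ∣ A * (((c.factorial : ℕ) : ℤ) ^ (4 * Fintype.card I) *
        ((-1) ^ c * ((c + 1).factorial : ℤ)) ^ kap ρ ∅) * tau ρ := by
    rw [← h2]
    obtain ⟨z, hz⟩ := h1
    refine ⟨((c.factorial : ℕ) : ℤ) ^ kap ρ ∅ * z, ?_⟩
    linear_combination (((c.factorial : ℕ) : ℤ) ^ kap ρ ∅) * hz
  have hfac : ((c + 1).factorial : ℤ) = p * (c.factorial : ℤ) := by
    rw [Nat.factorial_succ, ← hc]; push_cast; ring
  rw [hfac] at h3
  have hcop : ¬ (p : ℤ) ∣ (c.factorial : ℤ) := by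
    intro h
    have h' : p ∣ c.factorial := by exact_mod_cast h
    have := (hp.dvd_factorial).1 h'
    omega
  have hp0 : (p : ℤ) ^ kap ρ ∅ ≠ 0 := pow_ne_zero _ (by exact_mod_cast hp.ne_zero)
  have h4 : (p : ℤ) ∣ A * ((c.factorial : ℤ) ^ (4 * Fintype.card I) *
      ((-1) ^ c * (c.factorial : ℤ)) ^ kap ρ ∅) * tau ρ := by
    have e : A * (((c.factorial : ℕ) : ℤ) ^ (4 * Fintype.card I) *
        ((-1) ^ c * (p * (c.factorial : ℤ))) ^ kap ρ ∅) * tau ρ =
        (p : ℤ) ^ kap ρ ∅ * (A * ((c.factorial : ℤ) ^ (4 * Fintype.card I) *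
      ((-1) ^ c * (c.factorial : ℤ)) ^ kap ρ ∅) * tau ρ) := by
      rw [show (-1 : ℤ) ^ c * (p * (c.factorial : ℤ)) = p * ((-1) ^ c * (c.factorial : ℤ)) by ring,
        mul_pow (p : ℤ)]
      ring
    rw [e, pow_succ] at h3
    exact (mul_dvd_mul_iff_left hp0).1 h3
  rcases hpZ.dvd_or_dvd h4 with h5 | h5
  · rcases hpZ.dvd_or_dvd h5 with h6 | h6
    · exact hcop (hpZ.dvd_of_dvd_pow h6)
    · rcases hpZ.dvd_or_dvd h6 with h7 | h7
      · exact hcop (hpZ.dvd_of_dvd_pow h7)
      · have h8 := hpZ.dvd_of_dvd_pow h7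
        rcases hpZ.dvd_or_dvd h8 with h9 | h9
        · have := hpZ.dvd_of_dvd_pow h9
          have h10 : IsUnit (p : ℤ) := isUnit_of_dvd_one ((dvd_neg).1 this)
          exact hpZ.not_isUnit h10
        · exact hcop h9
  · exact hτ h5

end Pool.Agent.H1.TP
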