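import Mathlib

set_option autoImplicit false
set_option linter.unusedVariables false

/-!
Signed counts of matchings of strands.  `I` is the set of edges of a perfect matching `M` of a
cubic graph, the vertices are the pairs `(i, s)` (`s : Bool` the end of the matching edge `i`), the
flags are the triples `(i, s, b)` (`b : Bool` one of the two other edge ends at the vertex
`(i, s)`), and `ρ : Flag I → Flag I` exchanges the two flags of an edge outside `M`.  Every flag
carries `c` strands.
-/

namespace Pool.Agent.H1.TP

open Finset Equiv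

/-- local ports at a matching edge: side, which flag on this side, strand -/
abbrev Loc (c : ℕ) := Bool × Bool × Fin c
/-- flags: (matching edge, side, which) -/
abbrev Flag (I : Type) := I × Bool × Bool
/-- ports: (matching edge, local port) -/
abbrev Port (I : Type) (c : ℕ) := I × Loc c

/-- fixed-point-free involutions of the local ports -/
abbrev Pairing (c : ℕ) := {f : Loc c → Loc c // (∀ y, f (f y) = y) ∧ ∀ y, f y ≠ y}

variable {I : Type} [Fintype I] [DecidableEq I] {c : ℕ}

/-- the flag of a port -/
def fl (a : Port I c) : Flag I := (a.1, a.2.1, a.2.2.1)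

/-- the port with strand `j` at the flag `x` -/
def pt (x : Flag I) (j : Fin c) : Port I c := (x.1, x.2.1, x.2.2, j)

/-- the other end of the strand at a port: the strand `j` of the flag `x` is attached to the port
`(x, t x j)` and leads to the port `(ρ x, t (ρ x) j)` -/
def strand (ρ : Flag I → Flag I) (t : Flag I → Perm (Fin c)) (a : Port I c) : Port I c :=
  pt (ρ (fl a)) (t (ρ (fl a)) ((t (fl a)).symm a.2.2.2))

/-- one step: along a strand, or along the pairing at a matching edge -/
def Step (ρ : Flag I → Flag I) (t : Flag I → Perm (Fin c)) (m : I → Pairing c)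
    (a b : Port I c) : Prop :=
  b = strand ρ t a ∨ b = (a.1, (m a.1).1 a.2)

/-- the number of closed strands -/
noncomputable def loops (ρ : Flag I → Flag I) (t : Flag I → Perm (Fin c)) (m : I → Pairing c) :
    ℕ := Nat.card (Quot (Step ρ t m))

/-- the product of the signs -/
def sg (t : Flag I → Perm (Fin c)) : ℤ := ∏ x, ((Perm.sign (t x) : ℤˣ) : ℤ)

/-- the signed sum over the permutations at the flags -/
noncomputable def Psi (ρ : Flag I → Flag I) (lam : ℤ) (m : I → Pairing c) : ℤ :=
  ∑ t : Flag I → Perm (Fin c), sg t * lam ^ loops ρ t m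

/-- all strands lead from side `false` to side `true`, according to `σ` -/
def cross (σ : Perm (Bool × Fin c)) : Pairing c :=
  ⟨fun y => if y.1 then (false, σ.symm y.2) else (true, σ y.2), by
    refine ⟨?_, ?_⟩
    · rintro ⟨s, z⟩
      cases s <;> simp
    · rintro ⟨s, z⟩
      cases s <;> simp⟩

/-- the three types of a strand: `T = (false, true)` (turn back), `N = (true, false)`,
`X = (true, true)` -/
abbrev Ty := {g : Bool × Bool // g ≠ (false, false)}
def gT : Ty := ⟨(false, true), by decide⟩
def gN : Ty := ⟨(true, false), by decide⟩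
def gX : Ty := ⟨(true, true), by decide⟩

/-- the pairing in which the strand number `j` has type `g j` -/
def typ (g : Fin c → Ty) : Pairing c :=
  ⟨fun y => (xor (g y.2.2).1.1 y.1, xor (g y.2.2).1.2 y.2.1, y.2.2), by
    refine ⟨?_, ?_⟩
    · rintro ⟨s, b, j⟩
      simp
    · rintro ⟨s, b, j⟩ h
      have h1 := congrArg Prod.fst h
      have h2 := congrArg (fun z => z.2.1) h
      simp only [] at h1 h2
      rcases hg : (g j) with ⟨⟨u, v⟩, huv⟩
      rw [hg] at h1 h2
      simp only [] at h1 h2
      cases u <;> cases v
      · exact absurd rfl huv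
      all_goals cases s <;> cases b <;> simp_all⟩

/-- all strands turn back -/
def pT : Pairing c := typ fun _ => gT
/-- the strands in `J` have type `N`, the others type `X` -/
def pJ (J : Finset (Fin c)) : Pairing c := typ fun j => if j ∈ J then gN else gX

/-- permute the strands of the four local flags -/
def blk (α : Bool → Bool → Perm (Fin c)) : Perm (Loc c) where
  toFun y := (y.1, y.2.1, α y.1 y.2.1 y.2.2)
  invFun y := (y.1, y.2.1, (α y.1 y.2.1).symm y.2.2)
  left_inv := by rintro ⟨s, b, j⟩; simp
  right_inv := by rintro ⟨s, b, j⟩; simp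

/-- conjugate a pairing by a permutation of the strands of the four local flags -/
def cj (α : Bool → Bool → Perm (Fin c)) (q : Pairing c) : Pairing c :=
  ⟨fun y => blk α (q.1 ((blk α).symm y)), by
    refine ⟨fun y => ?_, fun y h => ?_⟩
    · show blk α (q.1 ((blk α).symm (blk α (q.1 ((blk α).symm y))))) = y
      rw [Equiv.symm_apply_apply, q.2.1, Equiv.apply_symm_apply]
    · exact q.2.2 ((blk α).symm y) ((Equiv.eq_symm_apply _).2 h)⟩

/-- the product of the four signs -/
def sg4 (α : Bool → Bool → Perm (Fin c)) : ℤ :=
  ∏ s, ∏ b, ((Perm.sign (α s b) : ℤˣ) : ℤ)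

/-- flags joined by an edge outside `M`, flags at the same vertex, and flags at the ends of a
matching edge of `K` -/
def HStep (ρ : Flag I → Flag I) (K : Finset I) (x y : Flag I) : Prop :=
  y = ρ x ∨ (y.1 = x.1 ∧ (y.2.1 = x.2.1 ∨ x.1 ∈ K))

/-- the number of components of the subgraph `F ∪ K` -/
noncomputable def kap (ρ : Flag I → Flag I) (K : Finset I) : ℕ := Nat.card (Quot (HStep ρ K))

/-- a `c`-fold cover: `S x` is the set of the members containing the edge of the flag `x` -/
def CoverI (ρ : Flag I → Flag I) (c : ℕ) : Prop :=
  ∃ (k : ℕ) (S : Flag I → Finset (Fin k)), (∀ x, (S x).card = c) ∧ (∀ x, S (ρ x) = S x) ∧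
    (∀ i s, Disjoint (S (i, s, false)) (S (i, s, true))) ∧
    ∀ i, S (i, false, false) ∪ S (i, false, true) = S (i, true, false) ∪ S (i, true, true)

end Pool.Agent.H1.TP
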