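import Pool.Agent.H1.TP.GDefs

set_option autoImplicit false
set_option linter.unusedVariables false

namespace Pool.Agent.H1.TP

open Finset Equiv

namespace TG4

/-! ### The number of classes after adding one pair -/

section quot

variable {α : Type}

/-- the relation with one more pair -/
def ad (R : α → α → Prop) (u v : α) (x y : α) : Prop := R x y ∨ (x = u ∧ y = v)

/-- the projection -/
def pr (R : α → α → Prop) (u v : α) : Quot R → Quot (ad R u v) :=
  Quot.map (fun x => x) fun _ _ h => Or.inl h

theorem pr_mk (R : α → α → Prop) (u v x : α) : pr R u v (Quot.mk R x) = Quot.mk _ x := rfl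

theorem pr_eq (R : α → α → Prop) (u v : α) :
    pr R u v (Quot.mk R u) = pr R u v (Quot.mk R v) := Quot.sound (Or.inr ⟨rfl, rfl⟩)

theorem card_same {R : α → α → Prop} {u v : α} (h : Quot.mk R u = Quot.mk R v) :
    Nat.card (Quot (ad R u v)) = Nat.card (Quot R) := by
  refine Nat.card_congr ⟨Quot.lift (fun x => Quot.mk R x) ?_, pr R u v, ?_, ?_⟩
  · rintro x y (h1 | ⟨rfl, rfl⟩)
    · exact Quot.sound h1
    · exact h
  · rintro ⟨x⟩
    rfl
  · rintro ⟨x⟩
    rfl

open Classical in
/-- replace the class of `v` by the class of `u` -/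
noncomputable def gg (R : α → α → Prop) (u v : α) (q : Quot R) : Quot R :=
  if q = Quot.mk R v then Quot.mk R u else q

theorem pr_gg (R : α → α → Prop) (u v : α) (q : Quot R) : pr R u v (gg R u v q) = pr R u v q := by
  unfold gg
  split_ifs with h
  · rw [h, pr_eq]
  · rfl

theorem gg_ne {R : α → α → Prop} {u v : α} (h : Quot.mk R u ≠ Quot.mk R v) (q : Quot R) :
    gg R u v q ≠ Quot.mk R v := by
  unfold gg
  split_ifs with h1
  · exact h
  · exact h1

/-- the section -/
noncomputable def hh (R : α → α → Prop) {u v : α} (h : Quot.mk R u ≠ Quot.mk R v) :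
    Quot (ad R u v) → Quot R :=
  Quot.lift (fun x => gg R u v (Quot.mk R x)) (by
    rintro x y (h1 | ⟨rfl, rfl⟩)
    · show gg R u v (Quot.mk R x) = gg R u v (Quot.mk R y)
      rw [Quot.sound h1]
    · show gg R x y (Quot.mk R x) = gg R x y (Quot.mk R y)
      unfold gg
      rw [if_neg h, if_pos rfl])

theorem pr_hh (R : α → α → Prop) {u v : α} (h : Quot.mk R u ≠ Quot.mk R v)
    (q : Quot (ad R u v)) : pr R u v (hh R h q) = q := by
  obtain ⟨x⟩ := q
  exact pr_gg R u v (Quot.mk R x)

theorem hh_ne (R : α → α → Prop) {u v : α} (h : Quot.mk R u ≠ Quot.mk R v)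
    (q : Quot (ad R u v)) : hh R h q ≠ Quot.mk R v := by
  obtain ⟨x⟩ := q
  exact gg_ne h (Quot.mk R x)

theorem hh_pr (R : α → α → Prop) {u v : α} (h : Quot.mk R u ≠ Quot.mk R v)
    (q : Quot R) (hq : q ≠ Quot.mk R v) : hh R h (pr R u v q) = q := by
  obtain ⟨x⟩ := q
  show gg R u v (Quot.mk R x) = Quot.mk R x
  unfold gg
  rw [if_neg hq]

theorem card_diff [Finite α] {R : α → α → Prop} {u v : α} (h : Quot.mk R u ≠ Quot.mk R v) :
    Nat.card (Quot (ad R u v)) + 1 = Nat.card (Quot R) := by
  classical
  have : Finite (Quot (ad R u v)) := inferInstance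
  rw [← Finite.card_option]
  refine Nat.card_congr ⟨fun o => o.elim (Quot.mk R v) (hh R h),
    fun q => if q = Quot.mk R v then none else some (pr R u v q), ?_, ?_⟩
  · rintro (_ | q)
    · exact if_pos rfl
    · show (if hh R h q = Quot.mk R v then none else some (pr R u v (hh R h q))) = some q
      rw [if_neg (hh_ne R h q), pr_hh]
  · intro q
    by_cases hq : q = Quot.mk R v
    · simp only [if_pos hq]
      exact hq.symm
    · simp only [if_neg hq]
      exact hh_pr R h q hq

end quot

/-! ### The abstract induction -/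

section abs

variable {J : Type} [DecidableEq J]

/-- the axioms -/
structure Rk (f : Finset J → ℕ) : Prop where
  step : ∀ i K, f (insert i K) = f K ∨ f (insert i K) + 1 = f K
  loop : ∀ i K K', K ⊆ K' → f (insert i K) = f K → f (insert i K') = f K'

theorem Rk.con {f : Finset J → ℕ} (h : Rk f) (i : J) : Rk fun K => f (insert i K) where
  step j K := by
    show f (insert i (insert j K)) = f (insert i K) ∨ f (insert i (insert j K)) + 1 = f (insert i K)
    rw [Finset.insert_comm]
    exact h.step j (insert i K)
  loop j K K' hK hj := by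
    show f (insert i (insert j K')) = f (insert i K')
    have h1 : f (insert i (insert j K)) = f (insert i K) := hj
    rw [Finset.insert_comm] at h1 ⊢
    exact h.loop j _ _ (Finset.insert_subset_insert i hK) h1

theorem Rk.low {f : Finset J → ℕ} (h : Rk f) (K : Finset J) : f ∅ ≤ f K + K.card := by
  induction K using Finset.induction_on with
  | empty => simp
  | insert i K hi ih =>
    rw [Finset.card_insert_of_notMem hi]
    rcases h.step i K with h1 | h1 <;> omega

theorem Rk.le {f : Finset J → ℕ} (h : Rk f) (K : Finset J) : f K ≤ f ∅ := by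
  induction K using Finset.induction_on with
  | empty => exact le_rfl
  | insert i K hi ih => rcases h.step i K with h1 | h1 <;> omega

/-- the alternating sum over the forests -/
def tt (f : Finset J → ℕ) (S : Finset J) : ℤ :=
  ∑ K ∈ S.powerset.filter (fun K => f K + K.card = f ∅), (-1 : ℤ) ^ K.card

theorem tt_insert {f : Finset J → ℕ} {i : J} {S : Finset J} (hi : i ∉ S) :
    tt f (insert i S) = tt f S +
      ∑ K ∈ S.powerset.filter (fun K => f (insert i K) + (K.card + 1) = f ∅),
        (-1 : ℤ) ^ (K.card + 1) := by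
  unfold tt
  rw [Finset.sum_filter, Finset.sum_powerset_insert hi, ← Finset.sum_filter]
  congr 1
  rw [Finset.sum_filter]
  refine Finset.sum_congr rfl fun K hK => ?_
  have hiK : i ∉ K := fun h => hi (Finset.mem_powerset.1 hK h)
  rw [Finset.card_insert_of_notMem hiK]

theorem tt_loop {f : Finset J → ℕ} (h : Rk f) {i : J} {S : Finset J} (hi : i ∉ S)
    (hl : f {i} = f ∅) : tt f (insert i S) = tt f S := by
  rw [tt_insert hi, Finset.sum_eq_zero, add_zero]
  intro K hK
  exfalso
  rw [Finset.mem_filter] at hK
  have h1 := h.loop i ∅ K (Finset.empty_subset K) (by simpa using hl)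
  have h2 := h.low K
  omega

theorem tt_con {f : Finset J → ℕ} {i : J} {S : Finset J} (hi : i ∉ S)
    (hl : f {i} + 1 = f ∅) :
    tt f (insert i S) = tt f S - tt (fun K => f (insert i K)) S := by
  rw [tt_insert hi, sub_eq_add_neg]
  congr 1
  unfold tt
  rw [← Finset.sum_neg_distrib]
  refine Finset.sum_congr ?_ fun K _ => ?_
  · refine Finset.filter_congr fun K _ => ?_
    show _ ↔ f (insert i K) + K.card = f (insert i ∅)
    rw [insert_empty_eq]
    omega
  · rw [pow_succ]
    ring

theorem tt_bridge {f : Finset J → ℕ} (h : Rk f) {i : J} {S : Finset J} (hi : i ∉ S)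
    (hb : f (insert i S) ≠ f S) : tt f (insert i S) = 0 := by
  have hK : ∀ K ⊆ S, f (insert i K) + 1 = f K := by
    intro K hK
    rcases h.step i K with h1 | h1
    · exact absurd (h.loop i K S hK h1) hb
    · exact h1
  have hl : f {i} + 1 = f ∅ := by
    have := hK ∅ (Finset.empty_subset S)
    rwa [insert_empty_eq] at this
  rw [tt_con hi hl, sub_eq_zero]
  unfold tt
  refine Finset.sum_congr ?_ fun K _ => rfl
  refine Finset.filter_congr fun K hKS => ?_
  have h1 := hK K (Finset.mem_powerset.1 hKS)
  show _ ↔ f (insert i K) + K.card = f (insert i ∅)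
  rw [insert_empty_eq]
  omega

theorem main (n : ℕ) : ∀ (f : Finset J → ℕ), Rk f → ∀ S : Finset J, S.card = n →
    0 ≤ (-1 : ℤ) ^ (f ∅ - f S) * tt f S ∧
    ((∀ i ∈ S, f (S.erase i) = f S) → 0 < (-1 : ℤ) ^ (f ∅ - f S) * tt f S) := by
  induction n with
  | zero =>
    intro f _ S hS
    rw [Finset.card_eq_zero] at hS
    subst hS
    have h1 : tt f ∅ = 1 := by
      unfold tt
      rw [Finset.powerset_empty, Finset.filter_true_of_mem, Finset.sum_singleton,
        Finset.card_empty, pow_zero]
      intro K hK
      rw [Finset.mem_singleton.1 hK, Finset.card_empty, add_zero]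
    rw [h1]
    simp
  | succ n ih =>
    intro f hf S hS
    obtain ⟨i, T, hi, rfl, hT⟩ := Finset.card_eq_succ.1 hS
    have ihf := ih f hf T hT
    by_cases hl : f {i} = f ∅
    · have h1 : f (insert i T) = f T :=
        hf.loop i ∅ T (Finset.empty_subset T) (by simpa using hl)
      rw [tt_loop hf hi hl, h1]
      refine ⟨ihf.1, fun hS2 => ihf.2 fun j hj => ?_⟩
      have hji : j ≠ i := fun h => hi (h ▸ hj)
      have h2 := hS2 j (Finset.mem_insert_of_mem hj)
      rw [Finset.erase_insert_of_ne hji.symm] at h2
      rwa [hf.loop i ∅ (T.erase j) (Finset.empty_subset _) (by simpa using hl)] at h2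
    · have hl1 : f {i} + 1 = f ∅ := by
        rcases hf.step i ∅ with h1 | h1
        · rw [insert_empty_eq] at h1
          exact absurd h1 hl
        · rwa [insert_empty_eq] at h1
      by_cases hb : f (insert i T) = f T
      · have ihc := ih (fun K => f (insert i K)) (hf.con i) T hT
        have e1 : f (insert i ∅) = f {i} := by rw [insert_empty_eq]
        have hle : f (insert i T) ≤ f (insert i ∅) := (hf.con i).le T
        rw [e1] at hle
        have hsgn : (-1 : ℤ) ^ (f ∅ - f T) = -(-1 : ℤ) ^ (f {i} - f (insert i T)) := by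
          have e2 : f ∅ - f T = (f {i} - f (insert i T)) + 1 := by omega
          rw [e2, pow_succ]
          ring
        have key : (-1 : ℤ) ^ (f ∅ - f (insert i T)) * tt f (insert i T) =
            (-1 : ℤ) ^ (f ∅ - f T) * tt f T +
              (-1 : ℤ) ^ (f {i} - f (insert i T)) * tt (fun K => f (insert i K)) T := by
          rw [tt_con hi hl1, hb, mul_sub, hsgn, hb]
          ring
        rw [key]
        have ihc1 : 0 ≤ (-1 : ℤ) ^ (f {i} - f (insert i T)) * tt (fun K => f (insert i K)) T := by
          have := ihc.1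
          simp only [e1] at this
          exact this
        refine ⟨add_nonneg ihf.1 ihc1, fun hS2 => ?_⟩
        have ihc2 : 0 < (-1 : ℤ) ^ (f {i} - f (insert i T)) * tt (fun K => f (insert i K)) T := by
          have := ihc.2 fun j hj => ?_
          · simp only [e1] at this
            exact this
          · have hji : j ≠ i := fun h => hi (h ▸ hj)
            have h2 := hS2 j (Finset.mem_insert_of_mem hj)
            rwa [Finset.erase_insert_of_ne hji.symm] at h2
        exact add_pos_of_nonneg_of_pos ihf.1 ihc2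
      · rw [tt_bridge hf hi hb, mul_zero]
        refine ⟨le_rfl, fun hS2 => ?_⟩
        exfalso
        have h2 := hS2 i (Finset.mem_insert_self i T)
        rw [Finset.erase_insert hi] at h2
        exact hb h2.symm

end abs

theorem kq_insert {α J : Type} [DecidableEq J] (r : α → α → Prop)
    (a b : J → α) (i : J) (K : Finset J) :
    kq r a b (insert i K) =
      Nat.card (Quot (ad (fun x y => r x y ∨ ∃ j ∈ K, x = a j ∧ y = b j) (a i) (b i))) := by
  unfold kq
  have h : (fun x y => r x y ∨ ∃ j ∈ insert i K, x = a j ∧ y = b j) =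
      ad (fun x y => r x y ∨ ∃ j ∈ K, x = a j ∧ y = b j) (a i) (b i) := by
    funext x y
    apply propext
    unfold ad
    constructor
    · rintro (h | ⟨j, hj, h⟩)
      · exact Or.inl (Or.inl h)
      · rcases Finset.mem_insert.1 hj with rfl | hj
        · exact Or.inr h
        · exact Or.inl (Or.inr ⟨j, hj, h⟩)
    · rintro ((h | ⟨j, hj, h⟩) | h)
      · exact Or.inl h
      · exact Or.inr ⟨j, Finset.mem_insert_of_mem hj, h⟩
      · exact Or.inr ⟨i, Finset.mem_insert_self i K, h⟩
  rw [h]

theorem kq_rk {α J : Type} [Fintype α] [DecidableEq J] (r : α → α → Prop) (a b : J → α) :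
    Rk (kq r a b) where
  step i K := by
    rw [kq_insert]
    by_cases h : Quot.mk (fun x y => r x y ∨ ∃ j ∈ K, x = a j ∧ y = b j) (a i) = Quot.mk _ (b i)
    · left
      exact card_same h
    · right
      exact card_diff h
  loop i K K' hK h := by
    rw [kq_insert] at h ⊢
    have h1 : Quot.mk (fun x y => r x y ∨ ∃ j ∈ K, x = a j ∧ y = b j) (a i) =
        Quot.mk _ (b i) := by
      by_contra hne
      have h2 := card_diff hne
      have h3 : Nat.card (Quot (ad (fun x y => r x y ∨ ∃ j ∈ K, x = a j ∧ y = b j) (a i) (b i))) =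
        Nat.card (Quot fun x y => r x y ∨ ∃ j ∈ K, x = a j ∧ y = b j) := h
      omega
    have h2 : Quot.mk (fun x y => r x y ∨ ∃ j ∈ K', x = a j ∧ y = b j) (a i) =
        Quot.mk _ (b i) := by
      have h4 := congrArg (Quot.map (rb := fun x y => r x y ∨ ∃ j ∈ K', x = a j ∧ y = b j)
        (fun x => x) (by
          rintro x y (h | ⟨j, hj, h⟩)
          · exact Or.inl h
          · exact Or.inr ⟨j, hK hj, h⟩)) h1
      exact h4
    exact card_same h2

end TG4

/-- TG4 -/
theorem tg4_pos {α J : Type} [Fintype α] [Fintype J] [DecidableEq J] (r : α → α → Prop)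
    (a b : J → α) (S : Finset J) (hS : ∀ i ∈ S, kq r a b (S.erase i) = kq r a b S) :
    0 < (-1 : ℤ) ^ (kq r a b ∅ - kq r a b S) *
      ∑ K ∈ S.powerset.filter (fun K => kq r a b K + K.card = kq r a b ∅), (-1 : ℤ) ^ K.card :=
  (TG4.main S.card (kq r a b) (TG4.kq_rk r a b) S rfl).2 hS

end Pool.Agent.H1.TP
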