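import Pool.Agent.H1.TP.GDefs

set_option autoImplicit false

namespace Pool.Agent.H1.TP

open Finset Equiv
open Pool.Agent.H126R2.CDC (MGraph)

variable {V E : Type} [Fintype V] [DecidableEq V] [Fintype E] [DecidableEq E]

namespace TG5

theorem sum_both (G : MGraph V E) (K : Finset V) (f : E) {u w : V} (h : G.ends f = s(u, w))
    (huw : u ∈ K ↔ w ∈ K) : Even (∑ v ∈ K, G.ep f v) := by
  by_cases hu : u ∈ K
  · have hw := huw.1 hu
    have h1 : ∑ v ∈ K, G.ep f v = ∑ v, G.ep f v := by
      refine Finset.sum_subset (Finset.subset_univ _) fun v _ hv => ?_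
      refine G.ep_eq_zero fun h2 => hv ?_
      rw [h, Sym2.mem_iff] at h2
      rcases h2 with rfl | rfl
      · exact hu
      · exact hw
    rw [h1, G.sum_ep]
    exact even_two
  · have hw : w ∉ K := fun h1 => hu (huw.2 h1)
    have h1 : ∑ v ∈ K, G.ep f v = 0 := by
      refine Finset.sum_eq_zero fun v hv => ?_
      refine G.ep_eq_zero fun h2 => ?_
      rw [h, Sym2.mem_iff] at h2
      rcases h2 with rfl | rfl
      · exact hu hv
      · exact hw hv
    rw [h1]
    exact ⟨0, rfl⟩

theorem sum_one (G : MGraph V E) (K : Finset V) (f : E) {u w : V} (h : G.ends f = s(u, w))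
    (hu : u ∈ K) (hw : w ∉ K) : ∑ v ∈ K, G.ep f v = 1 := by
  have hne : u ≠ w := fun h1 => hw (h1 ▸ hu)
  rw [Finset.sum_eq_single u]
  · have h1 : u ∈ G.ends f := by
      rw [h]
      exact Sym2.mem_mk_left u w
    have h2 : ¬ G.ends f = s(u, u) := by
      intro h3
      rw [h, Sym2.eq_iff] at h3
      rcases h3 with ⟨-, h3⟩ | ⟨-, h3⟩ <;> exact hne h3.symm
    unfold MGraph.ep
    rw [if_pos h1, if_neg h2]
  · intro v hv hvu
    refine G.ep_eq_zero fun h2 => ?_
    rw [h, Sym2.mem_iff] at h2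
    rcases h2 with rfl | rfl
    · exact hvu rfl
    · exact hw hv
  · intro h1
    exact absurd hu h1

/-- the ends of an edge of a circuit are connected without this edge -/
theorem key (G : MGraph V E) (e : E) (C : Finset E) (hC : G.IsCircuit C) (he : e ∈ C) {x y : V}
    (h : G.ends e = s(x, y)) :
    Quot.mk (fun u v : V => ∃ f ∈ univ.erase e, G.ends f = s(u, v)) x =
      Quot.mk (fun u v : V => ∃ f ∈ univ.erase e, G.ends f = s(u, v)) y := by
  classical
  by_contra hcon
  let K : Finset V := univ.filter fun v =>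
    Quot.mk (fun u v : V => ∃ f ∈ univ.erase e, G.ends f = s(u, v)) v =
      Quot.mk (fun u v : V => ∃ f ∈ univ.erase e, G.ends f = s(u, v)) x
  have hK : ∀ v, v ∈ K ↔ Quot.mk (fun u v : V => ∃ f ∈ univ.erase e, G.ends f = s(u, v)) v =
      Quot.mk (fun u v : V => ∃ f ∈ univ.erase e, G.ends f = s(u, v)) x := by
    intro v
    simp only [K, Finset.mem_filter, Finset.mem_univ, true_and]
  have hx : x ∈ K := (hK x).2 rfl
  have hy : y ∉ K := fun h1 => hcon ((hK y).1 h1).symm
  have h1 : Even (∑ v ∈ K, G.deg C v) := by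
    refine Finset.even_sum _ fun v _ => ?_
    exact hC.isEven v
  have h2 : ∑ v ∈ K, G.deg C v = ∑ v ∈ K, G.ep e v + ∑ f ∈ C.erase e, ∑ v ∈ K, G.ep f v := by
    rw [Finset.sum_congr rfl fun v _ => G.deg_eq_sum C v, Finset.sum_comm,
      ← Finset.add_sum_erase _ _ he]
  have h3 : Even (∑ f ∈ C.erase e, ∑ v ∈ K, G.ep f v) := by
    refine Finset.even_sum _ fun f hf => ?_
    obtain ⟨hfe, -⟩ := Finset.mem_erase.1 hf
    induction hf2 : G.ends f using Sym2.ind with
    | _ u w =>
      refine sum_both G K f hf2 ?_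
      have h4 : Quot.mk (fun u v : V => ∃ f ∈ univ.erase e, G.ends f = s(u, v)) u =
          Quot.mk (fun u v : V => ∃ f ∈ univ.erase e, G.ends f = s(u, v)) w :=
        Quot.sound ⟨f, Finset.mem_erase.2 ⟨hfe, Finset.mem_univ _⟩, hf2⟩
      rw [hK, hK, h4]
  rw [h2, sum_one G K e h hx hy] at h1
  have h4 : Even (1 : ℕ) := (Nat.even_add.1 h1).2 h3
  exact absurd h4 (by decide)

end TG5

/-- TG5 -/
theorem tg5_bridge (G : MGraph V E) (e : E) (C : Finset E) (hC : G.IsCircuit C) (he : e ∈ C) :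
    comps G (univ.erase e) = comps G univ := by
  unfold comps
  refine Nat.card_congr
    { toFun := Quot.map id fun u v => fun ⟨f, _, hf⟩ => ⟨f, Finset.mem_univ _, hf⟩
      invFun := Quot.lift (Quot.mk _) ?_
      left_inv := ?_
      right_inv := ?_ }
  · rintro u v ⟨f, -, hf⟩
    by_cases hfe : f = e
    · subst hfe
      exact TG5.key G f C hC he hf
    · exact Quot.sound ⟨f, Finset.mem_erase.2 ⟨hfe, Finset.mem_univ _⟩, hf⟩
  · rintro ⟨u⟩
    rfl
  · rintro ⟨u⟩
    rfl

end Pool.Agent.H1.TP
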