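import Pool.Agent.H1.TP.GDefs

set_option autoImplicit false
set_option linter.unusedVariables false

namespace Pool.Agent.H1.TP

/-- TG6 -/
theorem tg6_prime (n : ℕ) (t : ℤ) (ht : t ≠ 0) (hle : t.natAbs ≤ 2 ^ n) :
    ∃ p, p.Prime ∧ p ≠ 2 ∧ p ≤ Nat.nth Nat.Prime (n + 1) ∧ ¬ (p : ℤ) ∣ t := by
  classical
  by_contra hcon
  push Not at hcon
  have hmono := Nat.nth_strictMono Nat.infinite_setOfPred_prime
  have hpr : ∀ i, (Nat.nth Nat.Prime i).Prime := fun i => Nat.prime_nth_prime i
  have h3 : ∀ i, 3 ≤ Nat.nth Nat.Prime (i + 1) := by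
    intro i
    have h1 := hmono (Nat.succ_pos i)
    rw [Nat.nth_prime_zero_eq_two] at h1
    exact h1
  have hdvd : (∏ p ∈ (Finset.range (n + 1)).image (fun i => Nat.nth Nat.Prime (i + 1)), p) ∣
      t.natAbs := by
    apply Finset.prod_primes_dvd
    · intro p hp
      obtain ⟨i, _, rfl⟩ := Finset.mem_image.mp hp
      exact (hpr _).prime
    · intro p hp
      obtain ⟨i, hi, rfl⟩ := Finset.mem_image.mp hp
      have hi' := Finset.mem_range.mp hi
      have h1 := hcon (Nat.nth Nat.Prime (i + 1)) (hpr _) (by have := h3 i; omega)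
        (hmono.monotone (by omega))
      exact Int.natCast_dvd.mp h1
  have hle2 := Nat.le_of_dvd (Int.natAbs_pos.mpr ht) hdvd
  have hinj : Function.Injective (fun i => Nat.nth Nat.Prime (i + 1)) := by
    intro i j hij
    have := hmono.injective hij
    omega
  rw [Finset.prod_image (fun i _ j _ h => hinj h)] at hle2
  have h4 : 3 ^ (n + 1) ≤ ∏ i ∈ Finset.range (n + 1), Nat.nth Nat.Prime (i + 1) := by
    calc 3 ^ (n + 1) = ∏ _i ∈ Finset.range (n + 1), 3 := by
          rw [Finset.prod_const, Finset.card_range]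
      _ ≤ _ := Finset.prod_le_prod' fun i _ => h3 i
  have h5 : 2 ^ n < 3 ^ (n + 1) := by
    calc 2 ^ n ≤ 3 ^ n := Nat.pow_le_pow_left (by norm_num) n
      _ < 3 ^ (n + 1) := Nat.pow_lt_pow_right (by norm_num) (Nat.lt_succ_self n)
  omega

end Pool.Agent.H1.TP
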