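import Mathlib

set_option autoImplicit false
set_option linter.unusedVariables false

namespace Pool.Agent.H1.TP

open Finset Equiv

namespace TH1

theorem even_of_inv {D : Type} (s : Finset D) (g : D → D) (h1 : ∀ x ∈ s, g x ∈ s)
    (h2 : ∀ x ∈ s, g (g x) = x) (h3 : ∀ x ∈ s, g x ≠ x) : Even s.card := by
  have h := Finset.sum_involution (s := s) (f := fun _ => (1 : ZMod 2)) (fun a _ => g a)
    (fun a ha => by decide) (fun a ha _ => h3 a ha) (fun a ha => h1 a ha) (fun a ha => h2 a ha)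
  rw [sum_const, nsmul_eq_mul, mul_one] at h
  exact (ZMod.natCast_eq_zero_iff_even).1 h

theorem exists_inv {D : Type} (s : Finset D) (h : Even s.card) :
    ∃ f : D → D, ∀ x ∈ s, f x ∈ s ∧ f (f x) = x ∧ f x ≠ x := by
  classical
  obtain ⟨m, hm⟩ := h
  let e : s ≃ Fin m ⊕ Fin m :=
    (s.equivFin.trans (finCongr hm)).trans finSumFinEquiv.symm
  refine ⟨fun x => if hx : x ∈ s then (e.symm (e ⟨x, hx⟩).swap).1 else x, fun x hx => ?_⟩
  have hmem : (e.symm (e ⟨x, hx⟩).swap).1 ∈ s := (e.symm (e ⟨x, hx⟩).swap).2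
  dsimp only
  rw [dif_pos hx]
  refine ⟨hmem, ?_, ?_⟩
  · rw [dif_pos hmem, Subtype.coe_eta, Equiv.apply_symm_apply, Sum.swap_swap,
      Equiv.symm_apply_apply]
  · intro h
    have h1 : e.symm (e ⟨x, hx⟩).swap = ⟨x, hx⟩ := Subtype.ext h
    have h2 : (e ⟨x, hx⟩).swap = e ⟨x, hx⟩ := by
      rw [← Equiv.symm_apply_eq]; exact h1
    rcases hh : e ⟨x, hx⟩ with a | a
    · rw [hh] at h2; simp at h2
    · rw [hh] at h2; simp at h2

/-- one exchange step -/
theorem step {D W : Type} [Fintype D] (ν : D → W)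
    (flip : D → D) (hf : ∀ d, flip (flip d) = d) (hf' : ∀ d, flip d ≠ d)
    (π : D → D) (h1 : ∀ d, π (π d) = d) (h2 : ∀ d, π d ≠ d) (h3 : ∀ d, ν (π d) = ν d)
    (d d' : D) (hν : ν d = ν d')
    (hn : ¬ Relation.EqvGen (fun x y => y = flip x ∨ y = π x) d d') :
    ∃ π' : D → D, (∀ d, π' (π' d) = d) ∧ (∀ d, π' d ≠ d) ∧ (∀ d, ν (π' d) = ν d) ∧
      (∀ x y, Relation.EqvGen (fun x y => y = flip x ∨ y = π x) x y →
        Relation.EqvGen (fun x y => y = flip x ∨ y = π' x) x y) ∧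
      Relation.EqvGen (fun x y => y = flip x ∨ y = π' x) d d' := by
  classical
  have hπ : ∀ x, Relation.EqvGen (fun x y => y = flip x ∨ y = π x) x (π x) :=
    fun x => Relation.EqvGen.rel _ _ (Or.inr rfl)
  have n1 : d ≠ d' := fun h => hn (h ▸ Relation.EqvGen.refl _)
  have n2 : d ≠ π d := fun h => h2 d h.symm
  have n3 : d' ≠ π d' := fun h => h2 d' h.symm
  have n4 : d' ≠ π d := fun h => hn (h ▸ hπ d)
  have n5 : d ≠ π d' := by
    intro h
    apply hn
    have h5 := hπ d'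
    rw [← h] at h5
    exact h5.symm
  have n6 : π d ≠ π d' := by
    intro h
    apply n1
    rw [← h1 d, ← h1 d', h]
  set π' : D → D := fun x => if x = d then d' else if x = d' then d else
    if x = π d then π d' else if x = π d' then π d else π x with hπ'
  have e1 : π' d = d' := by simp [hπ']
  have e2 : π' d' = d := by simp [hπ', n1.symm]
  have e3 : π' (π d) = π d' := by
    rw [hπ']
    show (if π d = d then d' else if π d = d' then d else
      if π d = π d then π d' else if π d = π d' then π d else π (π d)) = π d'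
    rw [if_neg n2.symm, if_neg n4.symm, if_pos rfl]
  have e4 : π' (π d') = π d := by
    rw [hπ']
    show (if π d' = d then d' else if π d' = d' then d else
      if π d' = π d then π d' else if π d' = π d' then π d else π (π d')) = π d
    rw [if_neg n5.symm, if_neg n3.symm, if_neg n6.symm, if_pos rfl]
  have e5 : ∀ x, x ≠ d → x ≠ d' → x ≠ π d → x ≠ π d' → π' x = π x := by
    intro x a b c e
    simp only [hπ']
    rw [if_neg a, if_neg b, if_neg c, if_neg e]
  have q1 : ∀ x, π x = d → x = π d := fun x h => by rw [← h, h1]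
  have q2 : ∀ x, π x = d' → x = π d' := fun x h => by rw [← h, h1]
  have q3 : ∀ x, π x = π d → x = d := fun x h => by rw [← h1 x, h, h1]
  have q4 : ∀ x, π x = π d' → x = d' := fun x h => by rw [← h1 x, h, h1]
  have key : ∀ x, x = d ∨ x = d' ∨ x = π d ∨ x = π d' ∨
      (x ≠ d ∧ x ≠ d' ∧ x ≠ π d ∧ x ≠ π d') := by
    intro x
    by_cases a : x = d
    · exact Or.inl a
    by_cases b : x = d'
    · exact Or.inr (Or.inl b)
    by_cases c : x = π d
    · exact Or.inr (Or.inr (Or.inl c))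
    by_cases e : x = π d'
    · exact Or.inr (Or.inr (Or.inr (Or.inl e)))
    exact Or.inr (Or.inr (Or.inr (Or.inr ⟨a, b, c, e⟩)))
  -- connectivity of `d` and `π d` outside of the four points
  let R0 : D → D → Prop := fun x y => y = flip x ∨
    ((x ≠ d ∧ x ≠ d' ∧ x ≠ π d ∧ x ≠ π d') ∧ y = π x)
  have hR0 : ∀ x y, Relation.EqvGen R0 x y →
      Relation.EqvGen (fun x y => y = flip x ∨ y = π' x) x y := by
    intro x y h
    refine Relation.EqvGen.mono (r := R0) ?_ _ _ h
    intro a b hab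
    rcases hab with hab | ⟨⟨a1, a2, a3, a4⟩, hab⟩
    · exact Or.inl hab
    · exact Or.inr (by rw [e5 a a1 a2 a3 a4]; exact hab)
  have hR1 : ∀ x y, Relation.EqvGen R0 x y →
      Relation.EqvGen (fun x y => y = flip x ∨ y = π x) x y := by
    intro x y h
    refine Relation.EqvGen.mono (r := R0) ?_ _ _ h
    intro a b hab
    rcases hab with hab | ⟨_, hab⟩
    · exact Or.inl hab
    · exact Or.inr hab
  let Z : Finset D := univ.filter fun x => Relation.EqvGen R0 (π d) x
  have hZ : ∀ x, x ∈ Z ↔ Relation.EqvGen R0 (π d) x := fun x => by simp [Z]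
  have hZ1 : Even Z.card := even_of_inv Z flip
    (fun x hx => (hZ _).2 (((hZ x).1 hx).trans _ _ _ (Relation.EqvGen.rel _ _ (Or.inl rfl))))
    (fun x _ => hf x) (fun x _ => hf' x)
  let Q : Finset D := {d, d', π d, π d'}
  have hQ : ∀ x, x ∉ Q ↔ (x ≠ d ∧ x ≠ d' ∧ x ≠ π d ∧ x ≠ π d') := by
    intro x
    simp [Q]
  have hZ2 : Even (Z \ Q).card := by
    refine even_of_inv (Z \ Q) π (fun x hx => ?_) (fun x _ => h1 x) (fun x _ => h2 x)
    rw [mem_sdiff] at hx ⊢
    have hxQ := (hQ x).1 hx.2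
    refine ⟨(hZ _).2 (((hZ x).1 hx.1).trans _ _ _
      (Relation.EqvGen.rel _ _ (Or.inr ⟨hxQ, rfl⟩))), (hQ _).2 ⟨?_, ?_, ?_, ?_⟩⟩
    · exact fun h => hxQ.2.2.1 (q1 x h)
    · exact fun h => hxQ.2.2.2 (q2 x h)
    · exact fun h => hxQ.1 (q3 x h)
    · exact fun h => hxQ.2.1 (q4 x h)
  have hZ3 : Even (Z ∩ Q).card := by
    have h := card_sdiff_add_card_inter Z Q
    rw [← h] at hZ1
    exact (Nat.even_add.1 hZ1).1 hZ2
  have hmem : π d ∈ Z ∩ Q := mem_inter.2 ⟨(hZ _).2 (Relation.EqvGen.refl _), by simp [Q]⟩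
  have hdZ : Relation.EqvGen R0 (π d) d := by
    by_contra hc
    have hsub : Z ∩ Q = {π d} := by
      refine Finset.eq_singleton_iff_unique_mem.2 ⟨hmem, fun x hx => ?_⟩
      rw [mem_inter] at hx
      have hx1 := (hZ x).1 hx.1
      have hx2 : x = d ∨ x = d' ∨ x = π d ∨ x = π d' := by
        have := hx.2
        simpa [Q] using this
      rcases hx2 with rfl | rfl | rfl | rfl
      · exact absurd hx1 hc
      · exact absurd ((hπ d).trans _ _ _ (hR1 _ _ hx1)) hn
      · rfl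
      · exact absurd (((hπ d).trans _ _ _ (hR1 _ _ hx1)).trans _ _ _ (hπ d').symm) hn
    rw [hsub, card_singleton] at hZ3
    exact absurd hZ3 (by decide)
  have c1 : Relation.EqvGen (fun x y => y = flip x ∨ y = π' x) d (π d) := (hR0 _ _ hdZ).symm
  have c2 : Relation.EqvGen (fun x y => y = flip x ∨ y = π' x) d d' :=
    Relation.EqvGen.rel _ _ (Or.inr e1.symm)
  have c3 : Relation.EqvGen (fun x y => y = flip x ∨ y = π' x) (π d) (π d') :=
    Relation.EqvGen.rel _ _ (Or.inr e3.symm)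
  have c4 : Relation.EqvGen (fun x y => y = flip x ∨ y = π' x) d' (π d') :=
    (c2.symm.trans _ _ _ c1).trans _ _ _ c3
  have c5 : ∀ x, Relation.EqvGen (fun x y => y = flip x ∨ y = π' x) x (π x) := by
    intro x
    rcases key x with rfl | rfl | rfl | rfl | ⟨a1, a2, a3, a4⟩
    · exact c1
    · exact c4
    · rw [h1]; exact c1.symm
    · rw [h1]; exact c4.symm
    · exact Relation.EqvGen.rel _ _ (Or.inr (e5 x a1 a2 a3 a4).symm)
  refine ⟨π', ?_, ?_, ?_, ?_, c2⟩
  · intro x
    rcases key x with h | h | h | h | ⟨a1, a2, a3, a4⟩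
    · rw [h, e1, e2]
    · rw [h, e2, e1]
    · rw [h, e3, e4]
    · rw [h, e4, e3]
    · rw [e5 x a1 a2 a3 a4, e5 (π x) (fun h => a3 (q1 x h)) (fun h => a4 (q2 x h))
        (fun h => a1 (q3 x h)) (fun h => a2 (q4 x h)), h1]
  · intro x
    rcases key x with h | h | h | h | ⟨a1, a2, a3, a4⟩
    · rw [h, e1]; exact n1.symm
    · rw [h, e2]; exact n1
    · rw [h, e3]; exact n6.symm
    · rw [h, e4]; exact n6
    · rw [e5 x a1 a2 a3 a4]; exact h2 x
  · intro x
    rcases key x with h | h | h | h | ⟨a1, a2, a3, a4⟩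
    · rw [h, e1]; exact hν.symm
    · rw [h, e2]; exact hν
    · rw [h, e3, h3, h3]; exact hν.symm
    · rw [h, e4, h3, h3]; exact hν
    · rw [e5 x a1 a2 a3 a4]; exact h3 x
  · intro x y h
    induction h with
    | rel x y h =>
      rcases h with h | h
      · exact Relation.EqvGen.rel _ _ (Or.inl h)
      · rw [h]; exact c5 x
    | refl x => exact Relation.EqvGen.refl _
    | symm x y _ ih => exact ih.symm
    | trans x y z _ _ ih1 ih2 => exact ih1.trans _ _ _ ih2

end TH1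

/-- TH1 -/
theorem th1_euler {D W : Type} [Fintype D] [DecidableEq D] [DecidableEq W] (ν : D → W)
    (flip : D → D) (hf : ∀ d, flip (flip d) = d) (hf' : ∀ d, flip d ≠ d)
    (hev : ∀ v, Even (univ.filter fun d => ν d = v).card) :
    ∃ π : D → D, (∀ d, π (π d) = d) ∧ (∀ d, π d ≠ d) ∧ (∀ d, ν (π d) = ν d) ∧
      ∀ d d', ν d = ν d' → Relation.EqvGen (fun x y => y = flip x ∨ y = π x) d d' := by
  classical
  -- an admissible involution
  have hex : ∃ π : D → D, (∀ d, π (π d) = d) ∧ (∀ d, π d ≠ d) ∧ (∀ d, ν (π d) = ν d) := by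
    choose f hf1 using fun v => TH1.exists_inv _ (hev v)
    have hf2 : ∀ d, ν (f (ν d) d) = ν d := fun d => by
      have := (hf1 (ν d) d (by simp)).1
      simpa using this
    refine ⟨fun d => f (ν d) d, fun d => ?_, fun d => ?_, fun d => hf2 d⟩
    · show f (ν (f (ν d) d)) (f (ν d) d) = d
      rw [hf2 d]
      exact (hf1 (ν d) d (by simp)).2.1
    · exact (hf1 (ν d) d (by simp)).2.2
  let S : Finset (D → D) := univ.filter fun π : D → D =>
    (∀ d, π (π d) = d) ∧ (∀ d, π d ≠ d) ∧ (∀ d, ν (π d) = ν d)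
  let m : (D → D) → ℕ := fun π => (univ.filter fun p : D × D =>
    Relation.EqvGen (fun x y => y = flip x ∨ y = π x) p.1 p.2).card
  have hS : S.Nonempty := by
    obtain ⟨π, hπ⟩ := hex
    exact ⟨π, mem_filter.2 ⟨mem_univ _, hπ⟩⟩
  obtain ⟨π, hπS, hmax⟩ := exists_max_image S m hS
  have hπ := (mem_filter.1 hπS).2
  refine ⟨π, hπ.1, hπ.2.1, hπ.2.2, fun d d' hdd => ?_⟩
  by_contra hn
  obtain ⟨π', g1, g2, g3, g4, g5⟩ := TH1.step ν flip hf hf' π hπ.1 hπ.2.1 hπ.2.2 d d' hdd hn
  have hle := hmax π' (mem_filter.2 ⟨mem_univ _, g1, g2, g3⟩)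
  have hlt : m π < m π' := by
    refine card_lt_card ?_
    rw [Finset.ssubset_iff_of_subset]
    · exact ⟨(d, d'), mem_filter.2 ⟨mem_univ _, g5⟩, fun h => hn (mem_filter.1 h).2⟩
    · intro p hp
      exact mem_filter.2 ⟨mem_univ _, g4 _ _ (mem_filter.1 hp).2⟩
  omega

end Pool.Agent.H1.TP
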