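import Pool.Agent.H1.TP.GDefs2

set_option autoImplicit false
set_option linter.unusedVariables false

/-!
# TH2: a class of the relation meets the free points in two points
-/

namespace Pool.Agent.H1.TP

namespace TH2

open Finset

variable {α : Type}

/-- adding one pair to an equivalence relation -/
def add (s : Setoid α) (p q : α) : Setoid α where
  r x y := s x y ∨ (s x p ∧ s q y) ∨ (s x q ∧ s p y)
  iseqv := by
    refine ⟨fun x => Or.inl (s.refl x), ?_, ?_⟩
    · rintro x y (h | ⟨h, h'⟩ | ⟨h, h'⟩)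
      · exact Or.inl (s.symm h)
      · exact Or.inr (Or.inr ⟨s.symm h', s.symm h⟩)
      · exact Or.inr (Or.inl ⟨s.symm h', s.symm h⟩)
    · rintro x y z (h | ⟨h, h'⟩ | ⟨h, h'⟩) (k | ⟨k, k'⟩ | ⟨k, k'⟩)
      · exact Or.inl (s.trans h k)
      · exact Or.inr (Or.inl ⟨s.trans h k, k'⟩)
      · exact Or.inr (Or.inr ⟨s.trans h k, k'⟩)
      · exact Or.inr (Or.inl ⟨h, s.trans h' k⟩)
      · exact Or.inr (Or.inl ⟨h, k'⟩)
      · exact Or.inl (s.trans h k')
      · exact Or.inr (Or.inr ⟨h, s.trans h' k⟩)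
      · exact Or.inl (s.trans h k')
      · exact Or.inr (Or.inr ⟨h, k'⟩)

theorem add_iff (s : Setoid α) (p q x y : α) :
    add s p q x y ↔ s x y ∨ (s x p ∧ s q y) ∨ (s x q ∧ s p y) := Iff.rfl

theorem add_base {s : Setoid α} (p q : α) {x y : α} (h : s x y) : add s p q x y := Or.inl h

theorem add_pair (s : Setoid α) (p q : α) : add s p q p q :=
  Or.inr (Or.inl ⟨s.refl p, s.refl q⟩)

theorem add_le {s t : Setoid α} {p q : α} (h : ∀ x y, s x y → t x y) (hpq : t p q) :
    ∀ x y, add s p q x y → t x y := by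
  rintro x y (h1 | ⟨h1, h2⟩ | ⟨h1, h2⟩)
  · exact h _ _ h1
  · exact t.trans (h _ _ h1) (t.trans hpq (h _ _ h2))
  · exact t.trans (h _ _ h1) (t.trans (t.symm hpq) (h _ _ h2))

/-- the relation with the pairs in `D` -/
def RD (f g : α → α) (D : α → Prop) (x y : α) : Prop := y = f x ∨ (D x ∧ y = g x)

/-- the generated equivalence relation -/
def SD (f g : α → α) (D : α → Prop) : Setoid α := Relation.EqvGen.setoid (RD f g D)

theorem SD_f (f g : α → α) (D : α → Prop) (x : α) : SD f g D x (f x) :=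
  Relation.EqvGen.rel _ _ (Or.inl rfl)

theorem SD_g (f g : α → α) (D : α → Prop) {x : α} (h : D x) : SD f g D x (g x) :=
  Relation.EqvGen.rel _ _ (Or.inr ⟨h, rfl⟩)

theorem SD_le {f g : α → α} {D : α → Prop} {t : Setoid α} (h : ∀ x, t x (f x))
    (h' : ∀ x, D x → t x (g x)) : ∀ x y, SD f g D x y → t x y := by
  intro x y hxy
  induction hxy with
  | rel x y hxy =>
    rcases hxy with rfl | ⟨h1, rfl⟩
    · exact h x
    · exact h' x h1
  | refl x => exact t.refl x
  | symm x y _ ih => exact t.symm ih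
  | trans x y z _ _ ih ih' => exact t.trans ih ih'

theorem SD_add (f g : α → α) (D : α → Prop) (p : α) (hg : g (g p) = p) (x y : α) :
    SD f g (fun z => D z ∨ z = p ∨ z = g p) x y ↔ add (SD f g D) p (g p) x y := by
  constructor
  · refine SD_le (fun x => Or.inl (SD_f f g D x)) (fun x hx => ?_) x y
    rcases hx with hx | rfl | rfl
    · exact Or.inl (SD_g f g D hx)
    · exact add_pair _ _ _
    · rw [hg]
      exact (add (SD f g D) p (g p)).symm (add_pair _ _ _)
  · exact add_le (t := SD f g fun z => D z ∨ z = p ∨ z = g p)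
      (SD_le (fun x => SD_f _ _ _ x) fun x hx => SD_g f g (fun z => D z ∨ z = p ∨ z = g p)
        (Or.inl hx))
      (SD_g f g (fun z => D z ∨ z = p ∨ z = g p) (Or.inr (Or.inl rfl))) x y

/-- every point outside of `D` has exactly one partner outside of `D` -/
def Part (s : Setoid α) (D : α → Prop) : Prop :=
  ∀ p, ¬ D p → ∃ p', ¬ D p' ∧ p' ≠ p ∧ s p p' ∧ ∀ q, ¬ D q → s p q → q = p ∨ q = p'

theorem part_empty (f g : α → α) (hf : ∀ x, f (f x) = x) (hf' : ∀ x, f x ≠ x) :
    Part (SD f g fun _ => False) (fun _ => False) := by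
  intro p _
  refine ⟨f p, fun h => h, hf' p, SD_f _ _ _ p, fun q _ hq => ?_⟩
  let t : Setoid α := ⟨fun x y => y = x ∨ y = f x, by
    refine ⟨fun x => Or.inl rfl, ?_, ?_⟩
    · rintro x y (rfl | rfl)
      · exact Or.inl rfl
      · exact Or.inr (hf x).symm
    · rintro x y z (rfl | rfl) (rfl | rfl)
      · exact Or.inl rfl
      · exact Or.inr rfl
      · exact Or.inr rfl
      · exact Or.inl (hf x)⟩
  exact SD_le (t := t) (fun x => Or.inr rfl) (fun x hx => hx.elim) p q hq

theorem part_step {s : Setoid α} {D : α → Prop} (h : Part s D) {x y : α} (hx : ¬ D x)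
    (hy : ¬ D y) (hxy : x ≠ y) : Part (add s x y) (fun z => D z ∨ z = x ∨ z = y) := by
  have key : ∀ x y : α, ¬ D x → ¬ D y → x ≠ y → ∀ p, ¬ D p → p ≠ x → p ≠ y → s p x →
      ∃ p', ¬ D p' ∧ p' ≠ x ∧ p' ≠ y ∧ p' ≠ p ∧ s y p' ∧ ¬ s p y ∧
        ∀ q, ¬ D q → q ≠ x → q ≠ y → (s p q → q = p) ∧ (s y q → q = p') := by
    intro x y hx hy hxy p hp hpx hpy hpsx
    obtain ⟨p1, h1, h2, h3, h4⟩ := h p hp
    have hp1 : x = p1 := (h4 x hx hpsx).resolve_left fun e => hpx e.symm
    have hnpy : ¬ s p y := by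
      intro e
      rcases h4 y hy e with e1 | e1
      · exact hpy e1.symm
      · exact hxy (hp1.trans e1.symm)
    obtain ⟨y1, k1, k2, k3, k4⟩ := h y hy
    refine ⟨y1, k1, ?_, k2, ?_, k3, hnpy, fun q hq hqx hqy => ⟨fun e => ?_, fun e => ?_⟩⟩
    · rintro rfl
      exact hnpy (s.trans hpsx (s.symm k3))
    · rintro rfl
      exact hnpy (s.symm k3)
    · exact (h4 q hq e).resolve_right fun e1 => hqx (e1.trans hp1.symm)
    · exact (k4 q hq e).resolve_left hqy
  intro p hp
  have hpD : ¬ D p := fun e => hp (Or.inl e)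
  have hpx : p ≠ x := fun e => hp (Or.inr (Or.inl e))
  have hpy : p ≠ y := fun e => hp (Or.inr (Or.inr e))
  have out : ∀ q, ¬ (D q ∨ q = x ∨ q = y) → ¬ D q ∧ q ≠ x ∧ q ≠ y := fun q hq =>
    ⟨fun e => hq (Or.inl e), fun e => hq (Or.inr (Or.inl e)), fun e => hq (Or.inr (Or.inr e))⟩
  by_cases hsx : s p x
  · obtain ⟨p', a1, a2, a3, a4, a5, a6, a7⟩ := key x y hx hy hxy p hpD hpx hpy hsx
    refine ⟨p', ?_, a4, Or.inr (Or.inl ⟨hsx, a5⟩), fun q hq hq' => ?_⟩
    · rintro (e | e | e)
      · exact a1 e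
      · exact a2 e
      · exact a3 e
    · obtain ⟨q1, q2, q3⟩ := out q hq
      obtain ⟨b1, b2⟩ := a7 q q1 q2 q3
      rcases hq' with e | ⟨_, e⟩ | ⟨e, _⟩
      · exact Or.inl (b1 e)
      · exact Or.inr (b2 e)
      · exact absurd e a6
  · by_cases hsy : s p y
    · obtain ⟨p', a1, a2, a3, a4, a5, a6, a7⟩ := key y x hy hx hxy.symm p hpD hpy hpx hsy
      refine ⟨p', ?_, a4, Or.inr (Or.inr ⟨hsy, a5⟩), fun q hq hq' => ?_⟩
      · rintro (e | e | e)
        · exact a1 e
        · exact a3 e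
        · exact a2 e
      · obtain ⟨q1, q2, q3⟩ := out q hq
        obtain ⟨b1, b2⟩ := a7 q q1 q3 q2
        rcases hq' with e | ⟨e, _⟩ | ⟨_, e⟩
        · exact Or.inl (b1 e)
        · exact absurd e a6
        · exact Or.inr (b2 e)
    · obtain ⟨p', h1, h2, h3, h4⟩ := h p hpD
      refine ⟨p', ?_, h2, Or.inl h3, fun q hq hq' => ?_⟩
      · rintro (e | e | e)
        · exact h1 e
        · exact hsx (e ▸ h3)
        · exact hsy (e ▸ h3)
      · rcases hq' with e | ⟨e, _⟩ | ⟨e, _⟩
        · exact h4 q (out q hq).1 e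
        · exact absurd e hsx
        · exact absurd e hsy

/-- all closed sets of pairs -/
theorem part_all [DecidableEq α] (f g : α → α) (hf : ∀ x, f (f x) = x) (hf' : ∀ x, f x ≠ x) :
    ∀ (n : ℕ) (D : Finset α), D.card = n →
    (∀ x ∈ D, g x ∈ D ∧ g (g x) = x ∧ g x ≠ x) →
    Part (SD f g fun z => z ∈ D) (fun z => z ∈ D) := by
  intro n
  induction n using Nat.strong_induction_on with
  | _ n ih =>
    intro D hn hD
    rcases D.eq_empty_or_nonempty with rfl | ⟨x, hx⟩
    · have e : (fun z : α => z ∈ (∅ : Finset α)) = fun _ => False := by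
        funext z
        simp
      rw [e]
      exact part_empty f g hf hf'
    · set E : Finset α := (D.erase x).erase (g x) with hE
      have hgx : g x ∈ D := (hD x hx).1
      have hgg : g (g x) = x := (hD x hx).2.1
      have hgn : g x ≠ x := (hD x hx).2.2
      have hEx : x ∉ E := by
        intro h
        exact (Finset.mem_erase.mp (Finset.mem_erase.mp h).2).1 rfl
      have hEy : g x ∉ E := fun h => (Finset.mem_erase.mp h).1 rfl
      have hED : ∀ z, z ∈ D ↔ z ∈ E ∨ z = x ∨ z = g x := by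
        intro z
        rw [hE, Finset.mem_erase, Finset.mem_erase]
        constructor
        · intro hz
          by_cases h1 : z = x
          · exact Or.inr (Or.inl h1)
          · by_cases h2 : z = g x
            · exact Or.inr (Or.inr h2)
            · exact Or.inl ⟨h2, h1, hz⟩
        · rintro (h | rfl | rfl)
          · exact h.2.2
          · exact hx
          · exact hgx
      have hcard : E.card < n := by
        rw [← hn]
        refine Finset.card_lt_card ?_
        refine ⟨fun z hz => (hED z).mpr (Or.inl hz), fun h => hEx (h hx)⟩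
      have hEg : ∀ z ∈ E, g z ∈ E ∧ g (g z) = z ∧ g z ≠ z := by
        intro z hz
        obtain ⟨h1, hz1, hz2⟩ := hD z ((hED z).mpr (Or.inl hz))
        refine ⟨?_, hz1, hz2⟩
        rcases (hED (g z)).mp h1 with h2 | h2 | h2
        · exact h2
        · have h3 : z = g x := by rw [← h2, hz1]
          exact absurd (h3 ▸ hz) hEy
        · have h3 : z = x := by
            have := congrArg g h2
            rwa [hz1, hgg] at this
          exact absurd (h3 ▸ hz) hEx
      have hP := part_step (ih E.card hcard E rfl hEg) hEx hEy hgn.symm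
      have e1 : (fun z => z ∈ D) = fun z => z ∈ E ∨ z = x ∨ z = g x := by
        funext z
        exact propext (hED z)
      have e2 : SD f g (fun z => z ∈ E ∨ z = x ∨ z = g x) = add (SD f g fun z => z ∈ E) x (g x) :=
        Setoid.ext fun u v => SD_add f g (fun z => z ∈ E) x hgg u v
      rw [e1, e2]
      exact hP

end TH2

/-- TH2 -/
theorem th2_two {D : Type} [Fintype D] [DecidableEq D] (f g : D → D) (W : Finset D)
    (hf : ∀ x, f (f x) = x) (hf' : ∀ x, f x ≠ x)
    (hg : ∀ x, x ∉ W → g x ∉ W ∧ g (g x) = x ∧ g x ≠ x) (a : D) (ha : a ∈ W) :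
    ∃! a', a' ∈ W ∧ a' ≠ a ∧
      Relation.EqvGen (fun x y => y = f x ∨ (x ∉ W ∧ y = g x)) a a' := by
  have hP := TH2.part_all f g hf hf' (Wᶜ).card Wᶜ rfl (fun x hx => by
    have h1 := hg x (Finset.mem_compl.1 hx)
    exact ⟨Finset.mem_compl.2 h1.1, h1.2⟩)
  have e : (fun z => z ∈ Wᶜ) = fun z => z ∉ W := by
    funext z
    exact propext Finset.mem_compl
  rw [e] at hP
  obtain ⟨p, h1, h2, h3, h4⟩ := hP a (fun h => h ha)
  refine ⟨p, ⟨not_not.1 h1, h2, h3⟩, ?_⟩
  rintro q ⟨q1, q2, q3⟩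
  exact (h4 q (fun h => h q1) q3).resolve_left q2

end Pool.Agent.H1.TP
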