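import Pool.Agent.H1.TP.GDefs2
import Pool.Agent.H1.TP.TH1
import Pool.Agent.H1.TP.TH2

set_option autoImplicit false
set_option linter.unusedVariables false
set_option linter.unusedSectionVars false

namespace Pool.Agent.H1.TP

open Finset Equiv
open Pool.Agent.H126R2.CDC (MGraph)

namespace TH3

variable {V E : Type} [Fintype V] [DecidableEq V] [Fintype E] [DecidableEq E]

/-- the two ends of an edge -/
theorem exists_ends (G : MGraph V E) : ∃ x : E → Bool → V, ∀ e, G.ends e = s(x e false, x e true) := by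
  have h : ∀ e, ∃ p : V × V, G.ends e = s(p.1, p.2) := by
    intro e
    induction h : G.ends e using Sym2.ind with
    | _ a b => exact ⟨(a, b), rfl⟩
  choose p hp using h
  exact ⟨fun e b => if b then (p e).2 else (p e).1, fun e => by simpa using hp e⟩

theorem ep_eq (G : MGraph V E) {x : E → Bool → V} (hx : ∀ e, G.ends e = s(x e false, x e true))
    (e : E) (v : V) : G.ep e v = ∑ b : Bool, if x e b = v then 1 else 0 := by
  unfold MGraph.ep
  rw [Fintype.sum_bool, hx]
  by_cases h0 : x e false = v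
  · by_cases h1 : x e true = v
    · simp [h0, h1]
    · have h2 : ¬ s(x e false, x e true) = s(v, v) := by
        intro h3
        rw [Sym2.eq_iff] at h3
        rcases h3 with ⟨_, h3⟩ | ⟨_, h3⟩ <;> exact h1 h3
      simp [h0, h1]
  · by_cases h1 : x e true = v
    · simp [h0, h1]
    · have h2 : ¬ s(x e false, x e true) = s(v, v) := by
        intro h3
        rw [Sym2.eq_iff] at h3
        rcases h3 with ⟨_, h3⟩ | ⟨_, h3⟩ <;> exact h1 h3
      have h3 : v ∉ s(x e false, x e true) := by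
        rw [Sym2.mem_iff]
        rintro (h | h)
        · exact h0 h.symm
        · exact h1 h.symm
      simp [h0, h1, h2, h3]

/-- the edge ends and the flags -/
abbrev DD (F : Finset E) : Type := ({e // e ∈ F} × Bool) ⊕ Flag {e // e ∉ F}

variable (F : Finset E) (x : E → Bool → V)

/-- the vertex -/
def nu : DD F → V
  | Sum.inl (f, b) => x f.1 b
  | Sum.inr (i, s, _) => x i.1 s

/-- the other end -/
def fp : DD F → DD F
  | Sum.inl (f, b) => Sum.inl (f, !b)
  | Sum.inr (i, s, b) => Sum.inr (i, s, !b)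

theorem fp_fp (d : DD F) : fp F (fp F d) = d := by
  rcases d with ⟨f, b⟩ | ⟨i, s, b⟩ <;> simp [fp]

theorem fp_ne (d : DD F) : fp F d ≠ d := by
  rcases d with ⟨f, b⟩ | ⟨i, s, b⟩ <;> simp [fp]

/-- parity of a set of elements of `D` which is closed under a matching -/
theorem even_count {D : Type} [Fintype D] [DecidableEq D] (π : D → D) (h1 : ∀ d, π (π d) = d)
    (h2 : ∀ d, π d ≠ d) (P : D → Prop) [DecidablePred P] (hP : ∀ d, P d → P (π d)) :
    Even (univ.filter P).card := by
  have h3 : ((univ.filter P).card : ZMod 2) = 0 := by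
    rw [Finset.card_eq_sum_ones, Nat.cast_sum]
    refine Finset.sum_involution (fun d _ => π d) ?_ ?_ ?_ ?_
    · intro d _
      decide
    · intro d _ _
      exact h2 d
    · intro d hd
      rw [mem_filter] at hd ⊢
      exact ⟨mem_univ _, hP d hd.2⟩
    · intro d _
      exact h1 d
  exact (ZMod.natCast_eq_zero_iff_even).1 h3

/-- counting the elements of `D` over `v` -/
theorem count_eq (G : MGraph V E) (hx : ∀ e, G.ends e = s(x e false, x e true))
    (P : DD F → Prop) [DecidablePred P] (T : Finset E) (hT : T ⊆ F)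
    (hPT : ∀ (f : {e // e ∈ F}) (b : Bool), P (Sum.inl (f, b)) ↔ f.1 ∈ T) (v : V) :
    (univ.filter fun d : DD F => P d ∧ nu F x d = v).card = G.deg T v +
      (univ.filter fun y : Flag {e // e ∉ F} => P (Sum.inr y) ∧ x y.1.1 y.2.1 = v).card := by
  rw [Finset.card_filter, Fintype.sum_sum_type, Finset.card_filter, G.deg_eq_sum]
  congr 1
  rw [Fintype.sum_prod_type]
  have h1 : ∀ f : {e // e ∈ F}, (∑ b : Bool, if P (Sum.inl (f, b)) ∧ nu F x (Sum.inl (f, b)) = v
      then 1 else 0) = if f.1 ∈ T then G.ep f.1 v else 0 := by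
    intro f
    rw [ep_eq G hx]
    by_cases hf : f.1 ∈ T
    · rw [if_pos hf]
      refine Finset.sum_congr rfl fun b _ => ?_
      have h2 := (hPT f b).2 hf
      simp only [h2, true_and]
      rfl
    · rw [if_neg hf]
      refine Finset.sum_eq_zero fun b _ => ?_
      rw [if_neg]
      rintro ⟨h2, _⟩
      exact hf ((hPT f b).1 h2)
  rw [Finset.sum_congr rfl fun f _ => h1 f]
  have h2 : ∑ f : {e // e ∈ F}, (if f.1 ∈ T then G.ep f.1 v else 0) =
      ∑ f ∈ F, if f ∈ T then G.ep f v else 0 :=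
    Finset.sum_coe_sort F (fun f => if f ∈ T then G.ep f v else 0)
  rw [h2, ← Finset.sum_filter]
  congr 1
  ext e
  rw [mem_filter]
  exact ⟨fun h => h.2, fun h => ⟨hT h, h⟩⟩

/-- the edge ends and the flags form a set which is even over all vertices -/
theorem even_all (G : MGraph V E) (hx : ∀ e, G.ends e = s(x e false, x e true))
    (hF : ∀ v, Even (G.deg F v)) (v : V) :
    Even (univ.filter fun d : DD F => nu F x d = v).card := by
  have h1 := count_eq F x G hx (fun _ => True) F (Finset.Subset.refl _)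
    (fun f b => ⟨fun _ => f.2, fun _ => trivial⟩) v
  simp only [true_and] at h1
  rw [h1]
  refine (hF v).add ?_
  refine even_count (fun y : Flag {e // e ∉ F} => (y.1, y.2.1, !y.2.2)) ?_ ?_ _ ?_
  · rintro ⟨i, s, b⟩; simp
  · rintro ⟨i, s, b⟩; simp
  · rintro ⟨i, s, b⟩ h; exact h

/-- flag or edge end -/
def isF (d : DD F) : Prop := d.isRight = true

instance : DecidablePred (isF F) := fun d => by unfold isF; infer_instance

/-- the relation -/
def RR (π : DD F → DD F) : DD F → DD F → Prop :=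
  Relation.EqvGen (fun z y => y = π z ∨ (z ∉ (univ.filter (isF F)) ∧ y = fp F z))

variable {F x}

theorem RR.refl' {π : DD F → DD F} (d : DD F) : RR F π d d := Relation.EqvGen.refl d
theorem RR.symm' {π : DD F → DD F} {d d' : DD F} (h : RR F π d d') : RR F π d' d :=
  Relation.EqvGen.symm _ _ h
theorem RR.trans' {π : DD F → DD F} {d d' d'' : DD F} (h : RR F π d d') (h' : RR F π d' d'') :
    RR F π d d'' := Relation.EqvGen.trans _ _ _ h h'

theorem RR.pi {π : DD F → DD F} (d : DD F) : RR F π d (π d) := Relation.EqvGen.rel _ _ (Or.inl rfl)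

theorem not_mem_W (f : {e // e ∈ F}) (b : Bool) :
    (Sum.inl (f, b) : DD F) ∉ (univ.filter (isF F)) := by
  rw [mem_filter]
  rintro ⟨_, h⟩
  simp [isF] at h

theorem mem_W (y : Flag {e // e ∉ F}) : (Sum.inr y : DD F) ∈ (univ.filter (isF F)) := by
  rw [mem_filter]
  exact ⟨mem_univ _, by simp [isF]⟩

theorem RR.fp {π : DD F → DD F} (f : {e // e ∈ F}) (b b' : Bool) :
    RR F π (Sum.inl (f, b)) (Sum.inl (f, b')) := by
  by_cases h : b' = b
  · subst h; exact RR.refl' _
  · have h1 : b' = !b := by cases b <;> cases b' <;> simp_all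
    subst h1
    exact Relation.EqvGen.rel _ _ (Or.inr ⟨not_mem_W f b, rfl⟩)

/-- connectivity by edges of `F` -/
theorem RR.conn {G : MGraph V E} (hx : ∀ e, G.ends e = s(x e false, x e true))
    {π : DD F → DD F} (hν : ∀ d, nu F x (π d) = nu F x d) {d d' : DD F} (h : RR F π d d') :
    Relation.EqvGen (fun u v : V => ∃ e ∈ F, G.ends e = s(u, v)) (nu F x d) (nu F x d') := by
  induction h with
  | rel z y h =>
    rcases h with rfl | ⟨hz, rfl⟩
    · rw [hν]; exact Relation.EqvGen.refl _
    · rcases z with ⟨f, b⟩ | y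
      · refine Relation.EqvGen.rel _ _ ⟨f.1, f.2, ?_⟩
        cases b
        · exact hx f.1
        · exact (hx f.1).trans Sym2.eq_swap
      · exact absurd (mem_W y) hz
  | refl z => exact Relation.EqvGen.refl _
  | symm z y _ ih => exact Relation.EqvGen.symm _ _ ih
  | trans z y w _ _ ih1 ih2 => exact Relation.EqvGen.trans _ _ _ ih1 ih2

/-- `F`-connected vertices -/
theorem conn_Q {G : MGraph V E} (hx : ∀ e, G.ends e = s(x e false, x e true))
    {π : DD F → DD F}
    (hQ : ∀ d d', nu F x d = nu F x d' → Relation.EqvGen (fun z y => y = fp F z ∨ y = π z) d d')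
    {u v : V} (h : Relation.EqvGen (fun u v : V => ∃ e ∈ F, G.ends e = s(u, v)) u v) :
    u = v ∨ ((∃ d, nu F x d = u) ∧ (∃ d, nu F x d = v) ∧ ∀ d d', nu F x d = u → nu F x d' = v →
      Relation.EqvGen (fun z y => y = fp F z ∨ y = π z) d d') := by
  induction h with
  | rel u v h =>
    right
    obtain ⟨e, he, h⟩ := h
    rw [hx] at h
    obtain ⟨b, h1, h2⟩ : ∃ b : Bool, x e b = u ∧ x e (!b) = v := by
      rw [Sym2.eq_iff] at h
      rcases h with ⟨h1, h2⟩ | ⟨h1, h2⟩
      · exact ⟨false, h1, h2⟩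
      · exact ⟨true, h2, h1⟩
    have e1 : nu F x (Sum.inl (⟨e, he⟩, b)) = u := h1
    have e2 : nu F x (Sum.inl (⟨e, he⟩, !b)) = v := h2
    refine ⟨⟨_, e1⟩, ⟨_, e2⟩, fun d d' hd hd' => ?_⟩
    refine Relation.EqvGen.trans _ _ _ (hQ d _ (hd.trans e1.symm)) ?_
    refine Relation.EqvGen.trans _ _ _ (Relation.EqvGen.rel _ _ (Or.inl rfl)) ?_
    exact hQ _ _ (e2.trans hd'.symm)
  | refl u => exact Or.inl rfl
  | symm u v _ ih =>
    rcases ih with h | ⟨h1, h2, h3⟩
    · exact Or.inl h.symm
    · exact Or.inr ⟨h2, h1, fun d d' hd hd' => Relation.EqvGen.symm _ _ (h3 d' d hd' hd)⟩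
  | trans u v w _ _ ih1 ih2 =>
    rcases ih1 with rfl | ⟨h1, h2, h3⟩
    · exact ih2
    · rcases ih2 with rfl | ⟨h4, h5, h6⟩
      · exact Or.inr ⟨h1, h2, h3⟩
      · obtain ⟨d'', hd''⟩ := h2
        exact Or.inr ⟨h1, h5, fun d d' hd hd' =>
          Relation.EqvGen.trans _ _ _ (h3 d d'' hd hd'') (h6 d'' d' hd'' hd')⟩

end TH3

open TH3 in
/-- TH3 -/
theorem th3_premodel {V E : Type} [Fintype V] [DecidableEq V] [Fintype E] [DecidableEq E]
    (G : MGraph V E) (F : Finset E) (hF : ∀ v, Even (G.deg F v)) :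
    Nonempty (PreModel G F) := by
  classical
  obtain ⟨x, hx⟩ := exists_ends G
  obtain ⟨π, hπ1, hπ2, hπ3, hπ4⟩ := th1_euler (nu F x) (fp F) (fp_fp F) (fp_ne F)
    (even_all F x G hx hF)
  have hR := th2_two π (fp F) (univ.filter (isF F)) hπ1 hπ2 (by
    rintro (⟨f, b⟩ | y) hz
    · exact ⟨not_mem_W f _, fp_fp F _, fp_ne F _⟩
    · exact absurd (mem_W y) hz)
  have hR2 : ∀ a : Flag {e // e ∉ F}, ∃ y : Flag {e // e ∉ F}, y ≠ a ∧
      RR F π (Sum.inr a) (Sum.inr y) ∧
      ∀ z : Flag {e // e ∉ F}, z ≠ a → RR F π (Sum.inr a) (Sum.inr z) → z = y := by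
    intro a
    obtain ⟨a', ⟨h1, h2, h3⟩, h4⟩ := hR (Sum.inr a) (mem_W a)
    rcases a' with ⟨f, b⟩ | y
    · exact absurd h1 (not_mem_W f b)
    · refine ⟨y, fun h => h2 (by rw [h]), h3, fun z hz1 hz2 => ?_⟩
      have := h4 (Sum.inr z) ⟨mem_W z, fun h => hz1 (Sum.inr.inj h), hz2⟩
      exact Sum.inr.inj this
  choose rho hne hrr huni using hR2
  have hcls : ∀ a y, RR F π (Sum.inr a) (Sum.inr y) → y = a ∨ y = rho a := by
    intro a y h
    by_cases h1 : y = a
    · exact Or.inl h1
    · exact Or.inr (huni a y h1 h)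
  have hrho : ∀ a, rho (rho a) = a := fun a =>
    (huni (rho a) a (hne a).symm (hrr a).symm').symm
  -- the segments
  obtain ⟨seg, hseg⟩ : ∃ seg : Flag {e // e ∉ F} → Finset E, ∀ a e, e ∈ seg a ↔
      ∃ h : e ∈ F, RR F π (Sum.inr a) (Sum.inl (⟨e, h⟩, false)) :=
    ⟨fun a => univ.filter fun e => ∃ h : e ∈ F, RR F π (Sum.inr a) (Sum.inl (⟨e, h⟩, false)),
      fun a e => by rw [mem_filter]; exact ⟨fun h => h.2, fun h => ⟨mem_univ _, h⟩⟩⟩
  have hsegP : ∀ a (f : {e // e ∈ F}) (b : Bool),
      RR F π (Sum.inr a) (Sum.inl (f, b)) ↔ f.1 ∈ seg a := by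
    intro a f b
    rw [hseg]
    constructor
    · intro h
      exact ⟨f.2, h.trans' (RR.fp f b false)⟩
    · rintro ⟨_, h⟩
      exact h.trans' (RR.fp f false b)
  have hsegF : ∀ a, seg a ⊆ F := fun a e he => ((hseg a e).1 he).1
  -- the components without flags
  obtain ⟨F0, hF0⟩ : ∃ F0 : Finset E, ∀ e, e ∈ F0 ↔ e ∈ F ∧ ∀ a, e ∉ seg a :=
    ⟨F.filter fun e => ∀ a, e ∉ seg a, fun e => mem_filter⟩
  refine ⟨{
    vt := fun p => x p.1.1 p.2
    ends_vt := fun i => hx i.1
    rho := rho
    rho_rho := hrho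
    rho_ne := hne
    seg := seg
    seg_rho := ?_
    seg_disj := ?_
    seg_deg := ?_
    F0 := F0
    F0_even := ?_
    F0_disj := ?_
    mem_F := ?_
    conn := ?_
    conn' := ?_ }⟩
  · intro a
    ext e
    rw [hseg, hseg]
    constructor
    · rintro ⟨h, h1⟩
      exact ⟨h, (hrr a).trans' h1⟩
    · rintro ⟨h, h1⟩
      exact ⟨h, (hrr a).symm'.trans' h1⟩
  · intro a y h1 h2
    rw [Finset.disjoint_left]
    intro e he he'
    obtain ⟨h3, h4⟩ := (hseg a e).1 he
    obtain ⟨_, h5⟩ := (hseg y e).1 he'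
    rcases hcls a y (h4.trans' h5.symm') with h | h
    · exact h1 h
    · exact h2 h
  · intro a v
    have e1 := even_count π hπ1 hπ2 (fun d => RR F π (Sum.inr a) d ∧ nu F x d = v)
      (fun d hd => ⟨hd.1.trans' (RR.pi d), (hπ3 d).trans hd.2⟩)
    have e2 := count_eq F x G hx (fun d => RR F π (Sum.inr a) d) (seg a) (hsegF a)
      (fun f b => hsegP a f b) v
    rw [e2] at e1
    have e3 : (univ.filter fun y : Flag {e // e ∉ F} => RR F π (Sum.inr a) (Sum.inr y) ∧
        x y.1.1 y.2.1 = v).card =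
        (if x a.1.1 a.2.1 = v then 1 else 0) + (if x (rho a).1.1 (rho a).2.1 = v then 1 else 0) := by
      have e4 : (univ.filter fun y : Flag {e // e ∉ F} => RR F π (Sum.inr a) (Sum.inr y) ∧
        x y.1.1 y.2.1 = v) = ({a, rho a} : Finset (Flag {e // e ∉ F})).filter
          (fun y => x y.1.1 y.2.1 = v) := by
        ext y
        rw [mem_filter, mem_filter, mem_insert, mem_singleton]
        constructor
        · rintro ⟨_, h1, h2⟩
          exact ⟨hcls a y h1, h2⟩
        · rintro ⟨h1 | h1, h2⟩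
          · subst h1
            exact ⟨mem_univ _, RR.refl' _, h2⟩
          · subst h1
            exact ⟨mem_univ _, hrr a, h2⟩
      rw [e4, Finset.card_filter, Finset.sum_pair (hne a).symm]
    rw [e3] at e1
    change G.deg (seg a) v % 2 = ((if x a.1.1 a.2.1 = v then 1 else 0) +
      (if x (rho a).1.1 (rho a).2.1 = v then 1 else 0)) % 2
    have e5 := Nat.even_iff.1 e1
    omega
  · intro v
    have e1 := even_count π hπ1 hπ2 (fun d => (∀ a, ¬ RR F π (Sum.inr a) d) ∧ nu F x d = v)
      (fun d hd => ⟨fun a h => hd.1 a (h.trans' (RR.pi d).symm'), (hπ3 d).trans hd.2⟩)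
    have e2 := count_eq F x G hx (fun d => ∀ a, ¬ RR F π (Sum.inr a) d) F0
      (fun e he => ((hF0 e).1 he).1) (fun f b => by
        rw [hF0]
        constructor
        · intro h
          exact ⟨f.2, fun a h1 => h a ((hsegP a f b).2 h1)⟩
        · rintro ⟨_, h⟩ a h1
          exact h a ((hsegP a f b).1 h1)) v
    rw [e2] at e1
    have e3 : (univ.filter fun y : Flag {e // e ∉ F} => (∀ a, ¬ RR F π (Sum.inr a) (Sum.inr y)) ∧
        x y.1.1 y.2.1 = v) = ∅ := by
      rw [Finset.filter_eq_empty_iff]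
      rintro y _ ⟨h, _⟩
      exact h y (RR.refl' _)
    rw [e3, Finset.card_empty, Nat.add_zero] at e1
    exact e1
  · intro a
    rw [Finset.disjoint_left]
    intro e he he'
    exact ((hF0 e).1 he).2 a he'
  · intro e
    constructor
    · intro he
      by_cases h : ∃ a, e ∈ seg a
      · exact Or.inr h
      · exact Or.inl ((hF0 e).2 ⟨he, fun a ha => h ⟨a, ha⟩⟩)
    · rintro (h | ⟨a, h⟩)
      · exact ((hF0 e).1 h).1
      · exact hsegF a h
  · intro a
    exact RR.conn (G := G) hx hπ3 (hrr a)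
  · intro a y hay
    -- the labelling of the classes
    have hsound : ∀ a, (Quot.mk (HStep rho ∅) (rho a)) = Quot.mk (HStep rho ∅) a := by
      intro a
      have h1 : HStep rho ∅ a (rho a) := Or.inl rfl
      exact (Quot.sound h1).symm
    obtain ⟨lab, hlab⟩ : ∃ lab : DD F → Option (Quot (HStep rho ∅)), ∀ d,
        (∀ a, RR F π (Sum.inr a) d → lab d = some (Quot.mk _ a)) ∧
        ((∀ a, ¬ RR F π (Sum.inr a) d) → lab d = none) := by
      refine ⟨fun d => if H : ∃ a, RR F π (Sum.inr a) d then some (Quot.mk _ H.choose) else none,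
        fun d => ⟨fun a ha => ?_, fun h => ?_⟩⟩
      · have H : ∃ a, RR F π (Sum.inr a) d := ⟨a, ha⟩
        simp only [dif_pos H]
        congr 1
        rcases hcls a H.choose (ha.trans' H.choose_spec.symm') with h | h
        · rw [h]
        · rw [h]; exact hsound a
      · have H : ¬ ∃ a, RR F π (Sum.inr a) d := fun ⟨a, ha⟩ => h a ha
        simp only [dif_neg H]
    have hRlab : ∀ d d', RR F π d d' → lab d = lab d' := by
      intro d d' h
      by_cases H : ∃ a, RR F π (Sum.inr a) d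
      · obtain ⟨a, ha⟩ := H
        rw [(hlab d).1 a ha, (hlab d').1 a (ha.trans' h)]
      · rw [(hlab d).2 (fun a ha => H ⟨a, ha⟩), (hlab d').2 (fun a ha => H ⟨a, ha.trans' h.symm'⟩)]
    have hQlab : ∀ d d', Relation.EqvGen (fun z y => y = fp F z ∨ y = π z) d d' →
        lab d = lab d' := by
      intro d d' h
      induction h with
      | rel z y h =>
        rcases h with rfl | rfl
        · rcases z with ⟨f, b⟩ | ⟨i, s, b⟩
          · exact hRlab _ _ (RR.fp f b (!b))
          · change lab (Sum.inr (i, s, b)) = lab (Sum.inr (i, s, !b))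
            rw [(hlab _).1 (i, s, b) (RR.refl' _), (hlab _).1 (i, s, !b) (RR.refl' _)]
            congr 1
            exact Quot.sound (Or.inr ⟨rfl, Or.inl rfl⟩)
        · exact hRlab _ _ (RR.pi z)
      | refl z => rfl
      | symm z y _ ih => exact ih.symm
      | trans z y w _ _ ih1 ih2 => exact ih1.trans ih2
    have hQ : Relation.EqvGen (fun z y => y = fp F z ∨ y = π z) (Sum.inr a : DD F) (Sum.inr y) := by
      rcases conn_Q (G := G) hx hπ4 hay with h | ⟨_, _, h⟩
      · exact hπ4 _ _ h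
      · exact h _ _ rfl rfl
    have h1 := hQlab _ _ hQ
    rw [(hlab _).1 a (RR.refl' _), (hlab _).1 y (RR.refl' _)] at h1
    exact Quot.eqvGen_exact (Option.some.inj h1)

end Pool.Agent.H1.TP
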