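import Pool.Agent.H1.TP.GDefs2

set_option autoImplicit false
set_option linter.unusedVariables false
set_option linter.unusedSectionVars false

namespace Pool.Agent.H1.TP

open Finset Equiv
open Pool.Agent.H126R2.CDC (MGraph)

namespace TH4

variable {V E : Type} [Fintype V] [DecidableEq V] [Fintype E] [DecidableEq E]

theorem ep_eq (G : MGraph V E) (e : E) (a b v : V) (h : G.ends e = s(a, b)) :
    G.ep e v = (if a = v then 1 else 0) + (if b = v then 1 else 0) := by
  unfold MGraph.ep
  rw [h]
  have e1 : (v ∈ s(a, b)) ↔ (a = v ∨ b = v) := by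
    rw [Sym2.mem_iff]
    constructor
    · rintro (h1 | h1)
      · exact Or.inl h1.symm
      · exact Or.inr h1.symm
    · rintro (h1 | h1)
      · exact Or.inl h1.symm
      · exact Or.inr h1.symm
  have e2 : (s(a, b) = s(v, v)) ↔ (a = v ∧ b = v) := by
    rw [Sym2.eq_iff]
    tauto
  by_cases ha : a = v
  · by_cases hb : b = v
    · rw [if_pos (e1.2 (Or.inl ha)), if_pos (e2.2 ⟨ha, hb⟩), if_pos ha, if_pos hb]
    · rw [if_pos (e1.2 (Or.inl ha)), if_neg (fun h => hb (e2.1 h).2), if_pos ha, if_neg hb]
  · by_cases hb : b = v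
    · rw [if_pos (e1.2 (Or.inr hb)), if_neg (fun h => ha (e2.1 h).1), if_neg ha, if_pos hb]
    · rw [if_neg (fun h => (e1.1 h).elim ha hb), if_neg (fun h => ha (e2.1 h).1), if_neg ha,
        if_neg hb]

/-- representatives of the pairs of an involution without fixed points -/
theorem exists_reps {X : Type} [Fintype X] [DecidableEq X] (r : X → X) (h1 : ∀ x, r (r x) = x)
    (h2 : ∀ x, r x ≠ x) : ∃ P : Finset X, (∀ x, x ∈ P ↔ r x ∉ P) := by
  classical
  let φ := Fintype.equivFin X
  refine ⟨univ.filter fun x => φ x < φ (r x), fun x => ?_⟩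
  simp only [mem_filter, mem_univ, true_and, h1, not_lt]
  constructor
  · intro h; exact h.le
  · intro h
    rcases lt_or_eq_of_le h with h3 | h3
    · exact h3
    · exact absurd (φ.injective h3).symm (h2 x)

theorem sum_reps {X : Type} [Fintype X] [DecidableEq X] (r : X → X) (h1 : ∀ x, r (r x) = x)
    (P : Finset X) (hP : ∀ x, x ∈ P ↔ r x ∉ P) (Q : X → Prop) [DecidablePred Q]
    (hQ : ∀ x, Q (r x) ↔ Q x) (f : X → ℕ) :
    ∑ x ∈ univ.filter Q, f x = ∑ x ∈ P.filter Q, (f x + f (r x)) := by
  classical
  rw [sum_add_distrib]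
  have e1 : univ.filter Q = P.filter Q ∪ (P.filter Q).image r := by
    ext x
    simp only [mem_filter, mem_univ, true_and, mem_union, mem_image]
    constructor
    · intro hx
      by_cases hxP : x ∈ P
      · exact Or.inl ⟨hxP, hx⟩
      · right
        refine ⟨r x, ⟨?_, (hQ x).2 hx⟩, h1 x⟩
        rw [hP, h1]
        exact hxP
    · rintro (⟨_, hx⟩ | ⟨y, ⟨_, hy⟩, rfl⟩)
      · exact hx
      · exact (hQ y).2 hy
  rw [e1, sum_union]
  · congr 1
    rw [sum_image]
    intro x _ y _ hxy
    have := congrArg r hxy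
    rwa [h1, h1] at this
  · rw [disjoint_left]
    intro x hx hx'
    rw [mem_image] at hx'
    obtain ⟨y, hy, rfl⟩ := hx'
    exact (hP y).1 (mem_filter.1 hy).1 (mem_filter.1 hx).1

end TH4

open TH4

variable {V E : Type} [Fintype V] [DecidableEq V] [Fintype E] [DecidableEq E]

/-- TH4 -/
theorem th4_cover (G : MGraph V E) (F : Finset E) (A : GModel G F) (c : ℕ)
    (h : CoverI A.rho c) :
    ∃ Fam : Multiset (Finset E), (∀ C ∈ Fam, G.IsCircuit C) ∧
      ∀ e, Fam.countP (fun C => e ∈ C) = if e ∈ F then c else 2 * c := by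
  classical
  obtain ⟨k, S, hc, hrho, hdisj, hun⟩ := h
  set R : {e // e ∉ F} → Finset (Fin k) := fun i => S (i, false, false) ∪ S (i, false, true)
    with hR
  set M : Fin k → Finset E := fun j =>
    (univ.filter fun i : {e // e ∉ F} => j ∈ R i).map (Function.Embedding.subtype _) with hM
  set T : Fin k → Finset E := fun j =>
    (univ.filter fun x : Flag {e // e ∉ F} => j ∈ S x).biUnion A.seg with hT
  have hsegF : ∀ x e, e ∈ A.seg x → e ∈ F := fun x e he => (A.mem_F e).2 (Or.inr ⟨x, he⟩)
  have hMF : ∀ j e, e ∈ M j → e ∉ F := by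
    intro j e he
    rw [hM, mem_map] at he
    obtain ⟨i, _, rfl⟩ := he
    exact i.2
  have hTF : ∀ j e, e ∈ T j → e ∈ F := by
    intro j e he
    rw [hT, mem_biUnion] at he
    obtain ⟨x, _, hx⟩ := he
    exact hsegF x e hx
  have hMT : ∀ j, Disjoint (M j) (T j) := by
    intro j
    rw [disjoint_left]
    intro e h1 h2
    exact hMF j e h1 (hTF j e h2)
  -- representatives
  obtain ⟨P, hP⟩ := exists_reps A.rho A.rho_rho A.rho_ne
  have hTP : ∀ j, T j = (P.filter fun x => j ∈ S x).biUnion A.seg := by
    intro j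
    ext e
    simp only [hT, mem_biUnion, mem_filter, mem_univ, true_and]
    constructor
    · rintro ⟨x, hx, hxe⟩
      by_cases hxP : x ∈ P
      · exact ⟨x, ⟨hxP, hx⟩, hxe⟩
      · refine ⟨A.rho x, ⟨?_, ?_⟩, ?_⟩
        · rw [hP, A.rho_rho]
          exact hxP
        · rw [hrho]
          exact hx
        · rw [A.seg_rho]
          exact hxe
    · rintro ⟨x, ⟨_, hx⟩, hxe⟩
      exact ⟨x, hx, hxe⟩
  have hdegT : ∀ j v, G.deg (T j) v = ∑ x ∈ P.filter (fun x => j ∈ S x), G.deg (A.seg x) v := by
    intro j v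
    rw [G.deg_eq_sum, hTP, sum_biUnion]
    · exact sum_congr rfl fun x _ => (G.deg_eq_sum _ _).symm
    · intro x hx y hy hxy
      have hx' := (mem_filter.1 (mem_coe.1 hx)).1
      have hy' := (mem_filter.1 (mem_coe.1 hy)).1
      apply A.seg_disj x y (Ne.symm hxy)
      intro h3
      rw [h3] at hy'
      exact (hP x).1 hx' hy'
  have hflag : ∀ j v, (∑ x ∈ univ.filter (fun x : Flag {e // e ∉ F} => j ∈ S x),
      (if A.vt (x.1, x.2.1) = v then 1 else 0)) = G.deg (M j) v := by
    intro j v
    rw [G.deg_eq_sum, hM, sum_map, sum_filter, sum_filter, Fintype.sum_prod_type]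
    apply sum_congr rfl
    intro i _
    rw [Fintype.sum_prod_type, Fintype.sum_bool, Fintype.sum_bool, Fintype.sum_bool]
    have hep := ep_eq G i.1 _ _ v (A.ends_vt i)
    have hi : (Function.Embedding.subtype fun e => e ∉ F) i = i.1 := rfl
    rw [hi, hep]
    have d1 := disjoint_left.1 (hdisj i false)
    have d2 := disjoint_left.1 (hdisj i true)
    have d1j := @d1 j
    have d2j := @d2 j
    have u1 := Finset.ext_iff.1 (hun i) j
    have hRi : j ∈ R i ↔ (j ∈ S (i, false, false) ∨ j ∈ S (i, false, true)) := by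
      rw [hR, mem_union]
    rw [mem_union, mem_union] at u1
    rw [if_congr hRi rfl rfl]
    clear hRi hep hi d1 d2
    dsimp only
    generalize (if A.vt (i, false) = v then 1 else 0) = α
    generalize (if A.vt (i, true) = v then 1 else 0) = β
    by_cases a1 : j ∈ S (i, false, false)
    · have a2 := d1j a1
      by_cases a3 : j ∈ S (i, true, false)
      · have a4 := d2j a3
        rw [if_pos a1, if_neg a2, if_pos a3, if_neg a4, if_pos (Or.inl a1)]
        omega
      · have a4 : j ∈ S (i, true, true) := (u1.1 (Or.inl a1)).resolve_left a3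
        rw [if_pos a1, if_neg a2, if_neg a3, if_pos a4, if_pos (Or.inl a1)]
        omega
    · by_cases a2 : j ∈ S (i, false, true)
      · by_cases a3 : j ∈ S (i, true, false)
        · have a4 := d2j a3
          rw [if_neg a1, if_pos a2, if_pos a3, if_neg a4, if_pos (Or.inr a2)]
          omega
        · have a4 : j ∈ S (i, true, true) := (u1.1 (Or.inr a2)).resolve_left a3
          rw [if_neg a1, if_pos a2, if_neg a3, if_pos a4, if_pos (Or.inr a2)]
          omega
      · have a3 : j ∉ S (i, true, false) := fun h => (u1.2 (Or.inl h)).elim a1 a2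
        have a4 : j ∉ S (i, true, true) := fun h => (u1.2 (Or.inr h)).elim a1 a2
        rw [if_neg a1, if_neg a2, if_neg a3, if_neg a4, if_neg (fun h => h.elim a1 a2)]
        rfl
  have hev : ∀ j, G.IsEven (M j ∪ T j) := by
    intro j v
    have e1 : G.deg (M j ∪ T j) v = G.deg (M j) v + G.deg (T j) v := by
      rw [G.deg_eq_sum, sum_union (hMT j), ← G.deg_eq_sum, ← G.deg_eq_sum]
    have e2 := sum_reps A.rho A.rho_rho P hP (fun x => j ∈ S x) (fun x => by rw [hrho])
      (fun x => if A.vt (x.1, x.2.1) = v then 1 else 0)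
    rw [e1, ← hflag j v, e2, hdegT, ← sum_add_distrib]
    rw [Nat.even_iff, Finset.sum_nat_mod]
    have e3 : ∀ x ∈ P.filter (fun x => j ∈ S x),
        (((if A.vt (x.1, x.2.1) = v then 1 else 0) +
          (if A.vt ((A.rho x).1, (A.rho x).2.1) = v then 1 else 0)) + G.deg (A.seg x) v) % 2
          = 0 := by
      intro x _
      have := A.seg_deg x v
      omega
    rw [sum_congr rfl e3]
    simp
  have hF0 : G.IsEven A.F0 := A.F0_even
  have hd : ∀ j, ∃ Fj : Multiset (Finset E), (∀ C ∈ Fj, G.IsCircuit C) ∧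
      ∀ e, Fj.countP (fun C => e ∈ C) = if e ∈ M j ∪ T j then 1 else 0 := fun j =>
    G.decompose _ (M j ∪ T j) rfl (hev j)
  choose Fm hFm1 hFm2 using hd
  obtain ⟨Q0, hQ1, hQ2⟩ := G.decompose _ A.F0 rfl hF0
  refine ⟨(∑ j, Fm j) + c • Q0, ?_, ?_⟩
  · intro C hC
    rw [Multiset.mem_add] at hC
    rcases hC with hC | hC
    · rw [Multiset.mem_sum] at hC
      obtain ⟨j, _, hj⟩ := hC
      exact hFm1 j C hj
    · exact hQ1 C (Multiset.mem_of_mem_nsmul hC)
  · intro e
    have e1 : (∑ j, Fm j).countP (fun C => e ∈ C) =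
        ∑ j, (Fm j).countP (fun C => e ∈ C) :=
      map_sum (Multiset.countPAddMonoidHom (fun C : Finset E => e ∈ C)) Fm univ
    rw [Multiset.countP_add, Multiset.countP_nsmul, e1, hQ2]
    have e2 : (∑ j, (Fm j).countP (fun C => e ∈ C)) =
        (univ.filter fun j => e ∈ M j ∪ T j).card := by
      rw [card_filter]
      exact sum_congr rfl fun j _ => hFm2 j e
    rw [e2]
    by_cases heF : e ∈ F
    · rw [if_pos heF]
      rcases (A.mem_F e).1 heF with h0 | ⟨x0, hx0⟩
      · rw [if_pos h0]
        have e3 : (univ.filter fun j => e ∈ M j ∪ T j) = ∅ := by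
          rw [filter_eq_empty_iff]
          intro j _ hj
          rw [mem_union] at hj
          rcases hj with hj | hj
          · exact hMF j e hj heF
          · rw [hT, mem_biUnion] at hj
            obtain ⟨x, _, hx⟩ := hj
            exact disjoint_left.1 (A.F0_disj x) h0 hx
        rw [e3]
        simp
      · have h0 : e ∉ A.F0 := fun h0 => disjoint_left.1 (A.F0_disj x0) h0 hx0
        rw [if_neg h0]
        have e3 : (univ.filter fun j => e ∈ M j ∪ T j) = S x0 := by
          ext j
          rw [mem_filter, mem_union]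
          constructor
          · rintro ⟨_, hj | hj⟩
            · exact absurd heF (hMF j e hj)
            · rw [hT, mem_biUnion] at hj
              obtain ⟨x, hx, hxe⟩ := hj
              have hx' := (mem_filter.1 hx).2
              by_cases c1 : x = x0
              · rw [← c1]; exact hx'
              · by_cases c2 : x = A.rho x0
                · rw [c2, hrho] at hx'
                  exact hx'
                · exact absurd hxe (disjoint_left.1 (A.seg_disj x0 x c1 c2) hx0)
          · intro hj
            refine ⟨mem_univ _, Or.inr ?_⟩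
            rw [hT, mem_biUnion]
            exact ⟨x0, mem_filter.2 ⟨mem_univ _, hj⟩, hx0⟩
        rw [e3, hc]
        simp
    · rw [if_neg heF]
      have h0 : e ∉ A.F0 := fun h0 => heF ((A.mem_F e).2 (Or.inl h0))
      rw [if_neg h0]
      have e3 : (univ.filter fun j => e ∈ M j ∪ T j) = R ⟨e, heF⟩ := by
        ext j
        rw [mem_filter, mem_union]
        constructor
        · rintro ⟨_, hj | hj⟩
          · rw [hM, mem_map] at hj
            obtain ⟨i, hi, hie⟩ := hj
            have : i = ⟨e, heF⟩ := Subtype.ext hie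
            rw [← this]
            exact (mem_filter.1 hi).2
          · exact absurd (hTF j e hj) heF
        · intro hj
          refine ⟨mem_univ _, Or.inl ?_⟩
          rw [hM, mem_map]
          exact ⟨⟨e, heF⟩, mem_filter.2 ⟨mem_univ _, hj⟩, rfl⟩
      rw [e3, hR]
      simp only []
      rw [card_union_of_disjoint (hdisj _ _), hc, hc]
      omega

end Pool.Agent.H1.TP
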