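import Pool.Agent.H1.TP.GDefs2

set_option autoImplicit false
set_option linter.unusedVariables false

/-!
# Project TP (helper1), task TH5: the number of components of `F ∪ K`
-/

namespace Pool.Agent.H1.TP

open Finset Equiv
open Pool.Agent.H126R2.CDC (MGraph)

variable {V E : Type} [Fintype V] [DecidableEq V] [Fintype E] [DecidableEq E]

namespace TH5

/-- adjacency by an edge of `F` -/
def RF (G : MGraph V E) (F : Finset E) (u v : V) : Prop := ∃ e ∈ F, G.ends e = s(u, v)

/-- adjacency by an edge of `F ∪ K` -/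
def RK (G : MGraph V E) (F : Finset E) (K : Finset {e // e ∉ F}) (u v : V) : Prop :=
  ∃ e ∈ F ∪ K.map (Function.Embedding.subtype _), G.ends e = s(u, v)

variable {G : MGraph V E} {F : Finset E}

/-- the vertex of a flag -/
def fv (A : PreModel G F) (x : Flag {e // e ∉ F}) : V := A.vt (x.1, x.2.1)

/-- the classes without a flag -/
abbrev N0 (A : PreModel G F) : Type :=
  {q : Quot (RF G F) // ¬ ∃ x, Quot.mk (RF G F) (fv A x) = q}

/-- from `F`-classes to `F ∪ K`-classes -/
def up (K : Finset {e // e ∉ F}) (q : Quot (RF G F)) : Quot (RK G F K) :=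
  Quot.lift (fun u => Quot.mk (RK G F K) u) (fun u v h => by
    obtain ⟨e, he, h2⟩ := h
    exact Quot.sound ⟨e, Finset.mem_union_left _ he, h2⟩) q

theorem up_mk (K : Finset {e // e ∉ F}) (u : V) :
    up K (Quot.mk (RF G F) u) = Quot.mk (RK G F K) u := rfl

theorem hk_mono (ρ : Flag {e // e ∉ F} → Flag {e // e ∉ F}) (K : Finset {e // e ∉ F})
    {x y : Flag {e // e ∉ F}} (h : Relation.EqvGen (HStep ρ ∅) x y) :
    Quot.mk (HStep ρ K) x = Quot.mk (HStep ρ K) y := by
  induction h with
  | rel x y h =>
    apply Quot.sound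
    rcases h with h | ⟨h1, h2 | h2⟩
    · exact Or.inl h
    · exact Or.inr ⟨h1, Or.inl h2⟩
    · exact absurd h2 (Finset.notMem_empty _)
  | refl x => rfl
  | symm x y _ ih => exact ih.symm
  | trans x y z _ _ ih1 ih2 => exact ih1.trans ih2

/-- the map on the `F`-classes -/
noncomputable def ph (A : PreModel G F) (K : Finset {e // e ∉ F}) (q : Quot (RF G F)) :
    Quot (HStep A.rho K) ⊕ N0 A :=
  haveI := Classical.propDecidable (∃ x, Quot.mk (RF G F) (fv A x) = q)
  if h : ∃ x, Quot.mk (RF G F) (fv A x) = q then Sum.inl (Quot.mk _ h.choose)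
  else Sum.inr ⟨q, h⟩

theorem ph_fv (A : PreModel G F) (K : Finset {e // e ∉ F}) (x : Flag {e // e ∉ F}) :
    ph A K (Quot.mk (RF G F) (fv A x)) = Sum.inl (Quot.mk _ x) := by
  have h : ∃ y, Quot.mk (RF G F) (fv A y) = Quot.mk (RF G F) (fv A x) := ⟨x, rfl⟩
  unfold ph
  rw [dif_pos h]
  congr 1
  apply hk_mono
  apply A.conn'
  have h1 := h.choose_spec
  exact Quot.eqvGen_exact h1

theorem ph_neg (A : PreModel G F) (K : Finset {e // e ∉ F}) (q : Quot (RF G F))
    (h : ¬ ∃ x, Quot.mk (RF G F) (fv A x) = q) : ph A K q = Sum.inr ⟨q, h⟩ := by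
  unfold ph
  rw [dif_neg h]

/-- the map on the `F ∪ K`-classes -/
noncomputable def Ph (A : PreModel G F) (K : Finset {e // e ∉ F}) (q : Quot (RK G F K)) :
    Quot (HStep A.rho K) ⊕ N0 A :=
  Quot.lift (fun u => ph A K (Quot.mk (RF G F) u)) (fun u v h => by
    obtain ⟨e, he, h2⟩ := h
    rcases Finset.mem_union.1 he with he | he
    · have h3 : Quot.mk (RF G F) u = Quot.mk (RF G F) v := Quot.sound ⟨e, he, h2⟩
      change ph A K (Quot.mk (RF G F) u) = ph A K (Quot.mk (RF G F) v)
      rw [h3]
    · obtain ⟨i, hi, rfl⟩ := Finset.mem_map.1 he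
      change G.ends i.1 = s(u, v) at h2
      rw [A.ends_vt i] at h2
      have h4 : ph A K (Quot.mk (RF G F) (A.vt (i, false))) =
          ph A K (Quot.mk (RF G F) (A.vt (i, true))) := by
        have h5 := ph_fv A K (i, false, false)
        have h6 := ph_fv A K (i, true, false)
        have h7 : Quot.mk (HStep A.rho K) (i, false, false) =
            Quot.mk (HStep A.rho K) (i, true, false) := Quot.sound (Or.inr ⟨rfl, Or.inr hi⟩)
        change ph A K (Quot.mk (RF G F) (A.vt (i, false))) = _ at h5
        change ph A K (Quot.mk (RF G F) (A.vt (i, true))) = _ at h6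
        rw [h5, h6, h7]
      change ph A K (Quot.mk (RF G F) u) = ph A K (Quot.mk (RF G F) v)
      rcases Sym2.eq_iff.1 h2 with ⟨h5, h6⟩ | ⟨h5, h6⟩
      · rw [← h5, ← h6]; exact h4
      · rw [← h5, ← h6]; exact h4.symm) q

/-- the inverse map -/
def Ps (A : PreModel G F) (K : Finset {e // e ∉ F}) :
    Quot (HStep A.rho K) ⊕ N0 A → Quot (RK G F K)
  | Sum.inl q => Quot.lift (fun x => Quot.mk (RK G F K) (fv A x)) (fun x y h => by
      change Quot.mk (RK G F K) (fv A x) = Quot.mk (RK G F K) (fv A y)
      rcases h with h | ⟨h1, h2 | h2⟩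
      · subst h
        have h3 := A.conn x
        have h4 : Quot.mk (RF G F) (fv A x) = Quot.mk (RF G F) (fv A (A.rho x)) :=
          Quot.eqvGen_sound h3
        rw [← up_mk, ← up_mk, h4]
      · have h3 : fv A y = fv A x := by
          unfold fv
          rw [h1, h2]
        rw [h3]
      · by_cases h3 : y.2.1 = x.2.1
        · have h4 : fv A y = fv A x := by
            unfold fv
            rw [h1, h3]
          rw [h4]
        · apply Quot.sound
          refine ⟨x.1.1, Finset.mem_union_right _ (Finset.mem_map.2 ⟨x.1, h2, rfl⟩), ?_⟩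
          rw [A.ends_vt x.1]
          unfold fv
          rw [h1]
          rcases hx : x.2.1 with _ | _
          · rcases hy : y.2.1 with _ | _
            · exact absurd (hy.trans hx.symm) h3
            · rfl
          · rcases hy : y.2.1 with _ | _
            · exact Sym2.eq_swap
            · exact absurd (hy.trans hx.symm) h3) q
  | Sum.inr q => up K q.1

theorem left_inv (A : PreModel G F) (K : Finset {e // e ∉ F}) (q : Quot (RK G F K)) :
    Ps A K (Ph A K q) = q := by
  induction q using Quot.ind with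
  | mk u =>
    change Ps A K (ph A K (Quot.mk (RF G F) u)) = _
    by_cases h : ∃ x, Quot.mk (RF G F) (fv A x) = Quot.mk (RF G F) u
    · obtain ⟨x, hx⟩ := h
      rw [← hx, ph_fv]
      change Quot.mk (RK G F K) (fv A x) = _
      rw [← up_mk, ← up_mk, hx]
    · rw [ph_neg A K _ h]
      exact up_mk K u

theorem right_inv (A : PreModel G F) (K : Finset {e // e ∉ F})
    (q : Quot (HStep A.rho K) ⊕ N0 A) : Ph A K (Ps A K q) = q := by
  rcases q with q | ⟨q, hq⟩
  · induction q using Quot.ind with
    | mk x => exact ph_fv A K x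
  · induction q using Quot.ind with
    | mk u => exact ph_neg A K _ hq

theorem card_eq (A : PreModel G F) (K : Finset {e // e ∉ F}) :
    comps G (F ∪ K.map (Function.Embedding.subtype _)) = kap A.rho K + Nat.card (N0 A) := by
  have h1 : comps G (F ∪ K.map (Function.Embedding.subtype _)) = Nat.card (Quot (RK G F K)) := rfl
  have h2 : Nat.card (Quot (RK G F K)) = Nat.card (Quot (HStep A.rho K) ⊕ N0 A) :=
    Nat.card_congr ⟨Ph A K, Ps A K, left_inv A K, right_inv A K⟩
  rw [h1, h2, Nat.card_sum]
  rfl

end TH5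

/-- TH5 -/
theorem th5_model (G : MGraph V E) (F : Finset E) (A : PreModel G F) :
    ∃ B : GModel G F, B.rho = A.rho :=
  ⟨{ vt := A.vt
     ends_vt := A.ends_vt
     rho := A.rho
     rho_rho := A.rho_rho
     rho_ne := A.rho_ne
     seg := A.seg
     seg_rho := A.seg_rho
     seg_disj := A.seg_disj
     seg_deg := A.seg_deg
     F0 := A.F0
     F0_even := A.F0_even
     F0_disj := A.F0_disj
     mem_F := A.mem_F
     n0 := Nat.card (TH5.N0 A)
     comps_eq := TH5.card_eq A }, rfl⟩

end Pool.Agent.H1.TP
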