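import Pool.Agent.H1.TP.Core
import Pool.Agent.H1.TP.TH3
import Pool.Agent.H1.TP.TH4
import Pool.Agent.H1.TP.TH5
import Pool.Agent.H1.TP.TG4
import Pool.Agent.H1.TP.TG5
import Pool.Agent.H1.TP.TG6

set_option autoImplicit false
set_option linter.unusedVariables false
set_option linter.unusedSectionVars false

namespace Pool.Agent.H1.TP

open Finset Equiv
open Pool.Agent.H126R2.CDC (MGraph)

variable {V E : Type} [Fintype V] [DecidableEq V] [Fintype E] [DecidableEq E]

/-- `c` times the weight one on `F` and two off `F` has a circuit cover -/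
def Cov (G : MGraph V E) (F : Finset E) (c : ℕ) : Prop :=
  ∃ Fam : Multiset (Finset E), (∀ C ∈ Fam, G.IsCircuit C) ∧
    ∀ e, Fam.countP (fun C => e ∈ C) = if e ∈ F then c else 2 * c

lemma Cov.add {G : MGraph V E} {F : Finset E} {a b : ℕ} (ha : Cov G F a) (hb : Cov G F b) :
    Cov G F (a + b) := by
  obtain ⟨A, hA, hA'⟩ := ha
  obtain ⟨B, hB, hB'⟩ := hb
  refine ⟨A + B, ?_, fun e => ?_⟩
  · intro C hC
    rcases Multiset.mem_add.1 hC with h | h
    · exact hA C h
    · exact hB C h
  · rw [Multiset.countP_add, hA', hB']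
    split_ifs <;> ring

lemma Cov.zero (G : MGraph V E) (F : Finset E) : Cov G F 0 := by
  refine ⟨0, by simp, fun e => ?_⟩
  simp

lemma Cov.mul {G : MGraph V E} {F : Finset E} {a : ℕ} (ha : Cov G F a) (n : ℕ) :
    Cov G F (n * a) := by
  induction n with
  | zero => simpa using Cov.zero G F
  | succ n ih => rw [Nat.succ_mul]; exact ih.add ha

lemma tau_eq (G : MGraph V E) (F : Finset E) (B : GModel G F) :
    tauG G (univ \ F) = tau B.rho := by
  classical
  have hFF : (univ : Finset E) \ (univ \ F) = F := by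
    ext e; simp
  unfold tauG tau
  rw [hFF]
  symm
  refine sum_nbij' (fun K => K.map (Function.Embedding.subtype _))
    (fun K => K.subtype (fun e => e ∉ F)) ?_ ?_ ?_ ?_ ?_
  · intro K hK
    simp only [mem_filter, mem_univ, true_and] at hK
    rw [mem_filter, mem_powerset]
    refine ⟨?_, ?_⟩
    · intro e he
      rw [mem_map] at he
      obtain ⟨a, ha, rfl⟩ := he
      simpa using a.2
    · have h0 := B.comps_eq ∅
      rw [map_empty, union_empty] at h0
      rw [B.comps_eq K, card_map, h0]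
      omega
  · intro K hK
    rw [mem_filter, mem_powerset] at hK
    simp only [mem_filter, mem_univ, true_and]
    have hK' : (K.subtype (fun e => e ∉ F)).map (Function.Embedding.subtype _) = K := by
      rw [subtype_map]
      refine filter_true_of_mem ?_
      intro e he
      have := hK.1 he
      simpa using this
    have h0 := B.comps_eq ∅
    rw [map_empty, union_empty] at h0
    have h1 := B.comps_eq (K.subtype (fun e => e ∉ F))
    rw [hK'] at h1
    have h2 : (K.subtype (fun e => e ∉ F)).card = K.card := by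
      rw [← card_map (Function.Embedding.subtype _), hK']
    have h3 := hK.2
    rw [h1, h0] at h3
    rw [h2]
    omega
  · intro K hK
    ext e
    simp only [mem_subtype, mem_map, Function.Embedding.subtype_apply, Subtype.exists,
      exists_and_right, exists_eq_right]
    constructor
    · rintro ⟨x, hx⟩
      exact hx
    · intro he
      exact ⟨e.2, he⟩
  · intro K hK
    rw [mem_filter, mem_powerset] at hK
    show (K.subtype (fun e => e ∉ F)).map (Function.Embedding.subtype _) = K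
    rw [subtype_map]
    refine filter_true_of_mem ?_
    intro e he
    have := hK.1 he
    simpa using this
  · intro K hK
    rw [card_map]

/-- the main theorem -/
theorem main1 (G : MGraph V E) (F : Finset E) (hF : ∀ v, Even (G.deg F v)) (p : ℕ)
    (hp : p.Prime) (ht : ¬ (p : ℤ) ∣ tauG G (univ \ F)) : Cov G F (p - 1) := by
  obtain ⟨A⟩ := th3_premodel G F hF
  obtain ⟨B, hB⟩ := th5_model G F A
  rw [tau_eq G F B] at ht
  have hpc : (p - 1) + 1 = p := Nat.sub_add_cancel hp.one_le
  exact th4_cover G F B (p - 1) (core B.rho B.rho_rho B.rho_ne p hp hpc ht)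

lemma kq_comps (G : MGraph V E) (F : Finset E) (a b : E → V)
    (hab : ∀ e, G.ends e = s(a e, b e)) (K : Finset E) :
    kq (fun u v : V => ∃ e ∈ F, G.ends e = s(u, v)) a b K = comps G (F ∪ K) := by
  classical
  unfold kq comps
  apply quot_card_congr
  · intro u v h
    rcases h with ⟨e, he, h⟩ | ⟨i, hi, rfl, rfl⟩
    · exact Quot.sound ⟨e, mem_union_left _ he, h⟩
    · exact Quot.sound ⟨i, mem_union_right _ hi, hab i⟩
  · rintro u v ⟨e, he, h⟩
    rcases mem_union.1 he with he | he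
    · exact Quot.sound (Or.inl ⟨e, he, h⟩)
    · have h3 : s(a e, b e) = s(u, v) := by rw [← hab e]; exact h
      rcases Sym2.eq_iff.1 h3 with ⟨rfl, rfl⟩ | ⟨rfl, rfl⟩
      · exact Quot.sound (Or.inr ⟨e, he, rfl, rfl⟩)
      · refine Eq.symm (Quot.sound ?_)
        exact Or.inr ⟨e, he, rfl, rfl⟩

lemma exists_ends (G : MGraph V E) : ∃ a b : E → V, ∀ e, G.ends e = s(a e, b e) := by
  have h : ∀ e, ∃ x : V × V, G.ends e = s(x.1, x.2) := by
    intro e
    induction' h : G.ends e with x y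
    exact ⟨(x, y), rfl⟩
  choose f hf using h
  exact ⟨fun e => (f e).1, fun e => (f e).2, hf⟩

/-- in a bridgeless graph the number is not zero -/
theorem tau_ne (G : MGraph V E) (hG : G.Bridgeless) (F : Finset E) :
    tauG G (univ \ F) ≠ 0 := by
  classical
  obtain ⟨a, b, hab⟩ := exists_ends G
  have hFF : (univ : Finset E) \ (univ \ F) = F := by
    ext e; simp
  have hk := kq_comps G F a b hab
  have hpos := tg4_pos (fun u v : V => ∃ e ∈ F, G.ends e = s(u, v)) a b (univ \ F) (by
    intro i hi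
    obtain ⟨C, hC, hiC⟩ := hG i
    have h5 := tg5_bridge G i C hC hiC
    rw [hk, hk]
    have hiF : i ∉ F := by simpa using hi
    have e1 : F ∪ (univ \ F).erase i = univ.erase i := by
      ext e
      simp only [mem_union, mem_erase, mem_sdiff, mem_univ, true_and, and_true]
      constructor
      · rintro (h | h)
        · rintro rfl; exact hiF h
        · exact h.1
      · intro h
        by_cases he : e ∈ F
        · exact Or.inl he
        · exact Or.inr ⟨h, he⟩
    have e2 : F ∪ (univ \ F) = univ := by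
      ext e; simp [em]
    rw [e1, e2, h5])
  intro h0
  unfold tauG at h0
  rw [hFF] at h0
  have e3 : ∑ K ∈ (univ \ F).powerset.filter (fun K =>
      kq (fun u v : V => ∃ e ∈ F, G.ends e = s(u, v)) a b K + K.card =
        kq (fun u v : V => ∃ e ∈ F, G.ends e = s(u, v)) a b ∅), (-1 : ℤ) ^ K.card = 0 := by
    rw [← h0]
    refine sum_congr ?_ (fun _ _ => rfl)
    refine filter_congr fun K _ => ?_
    rw [hk, hk, union_empty]
  rw [e3, mul_zero] at hpos
  exact lt_irrefl _ hpos

lemma tau_le (G : MGraph V E) (F : Finset E) :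
    (tauG G (univ \ F)).natAbs ≤ 2 ^ (univ \ F).card := by
  unfold tauG
  have h1 : ∀ s : Finset (Finset E), (∑ K ∈ s, (-1 : ℤ) ^ K.card).natAbs ≤ s.card := by
    intro s
    have h2 : |∑ K ∈ s, (-1 : ℤ) ^ K.card| ≤ ∑ K ∈ s, |(-1 : ℤ) ^ K.card| :=
      abs_sum_le_sum_abs _ _
    have h3 : ∑ K ∈ s, |(-1 : ℤ) ^ K.card| = s.card := by
      rw [sum_congr rfl (fun K _ => by rw [abs_pow, abs_neg, abs_one, one_pow])]
      simp
    rw [h3] at h2
    have h4 : ((∑ K ∈ s, (-1 : ℤ) ^ K.card).natAbs : ℤ) ≤ (s.card : ℤ) := by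
      rw [Int.natCast_natAbs]; exact h2
    exact_mod_cast h4
  refine (h1 _).trans ?_
  refine (card_filter_le _ _).trans ?_
  rw [card_powerset]

/-- the second part -/
theorem main2 (G : MGraph V E) (hG : G.Bridgeless) (F : Finset E)
    (hF : ∀ v, Even (G.deg F v)) :
    ∃ p, p.Prime ∧ p ≠ 2 ∧ p ≤ Nat.nth Nat.Prime ((univ \ F).card + 1) ∧ Cov G F (p - 1) := by
  obtain ⟨p, hp, h2, hle, hnd⟩ := tg6_prime (univ \ F).card _ (tau_ne G hG F) (tau_le G F)
  exact ⟨p, hp, h2, hle, main1 G F hF p hp hnd⟩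

theorem main3 (G : MGraph V E) (F : Finset E) (hF : ∀ v, Even (G.deg F v))
    (h6 : ¬ (6 : ℤ) ∣ tauG G (univ \ F)) : Cov G F 2 := by
  by_cases h2 : (2 : ℤ) ∣ tauG G (univ \ F)
  · have h3 : ¬ (3 : ℤ) ∣ tauG G (univ \ F) := by
      intro h3
      apply h6
      omega
    exact main1 G F hF 3 Nat.prime_three (by exact_mod_cast h3)
  · have := main1 G F hF 2 Nat.prime_two (by exact_mod_cast h2)
    exact this.mul 2

/-- two primes not dividing `t` whose predecessors have greatest common divisor two -/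
lemma two_primes (t : ℤ) (ht : t ≠ 0) : ∃ p q : ℕ, p.Prime ∧ q.Prime ∧ ¬ (p : ℤ) ∣ t ∧
    ¬ (q : ℤ) ∣ t ∧ Nat.gcd (p - 1) (q - 1) = 2 := by
  have hbig : ∀ p : ℕ, p.Prime → t.natAbs < p → ¬ (p : ℤ) ∣ t := by
    intro p hp hlt hd
    have := Int.natAbs_dvd_natAbs.2 hd
    rw [Int.natAbs_natCast] at this
    have h0 : 0 < t.natAbs := Int.natAbs_pos.2 ht
    exact absurd (Nat.le_of_dvd h0 this) (not_le.2 hlt)
  obtain ⟨p, hpn, hp⟩ := Nat.exists_infinite_primes (t.natAbs + 5)
  have hp5 : 5 ≤ p := by omega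
  haveI : NeZero (p - 1) := ⟨by omega⟩
  have hu : IsUnit (-1 : ZMod (p - 1)) := isUnit_one.neg
  obtain ⟨q, hq1, hq, hq2⟩ := Nat.forall_exists_prime_gt_and_eq_mod hu (t.natAbs + 5)
  refine ⟨p, q, hp, hq, hbig p hp (by omega), hbig q hq (by omega), ?_⟩
  have hd : (p - 1) ∣ q + 1 := by
    have : ((q + 1 : ℕ) : ZMod (p - 1)) = 0 := by
      push_cast
      rw [hq2]
      ring
    exact (ZMod.natCast_eq_zero_iff _ _).1 this
  have hpodd : p % 2 = 1 := Nat.odd_iff.1 (hp.odd_of_ne_two (by omega))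
  have hqodd : q % 2 = 1 := Nat.odd_iff.1 (hq.odd_of_ne_two (by omega))
  apply Nat.dvd_antisymm
  · have h1 : Nat.gcd (p - 1) (q - 1) ∣ q + 1 := (Nat.gcd_dvd_left _ _).trans hd
    have h2 : Nat.gcd (p - 1) (q - 1) ∣ q - 1 := Nat.gcd_dvd_right _ _
    have h3 := Nat.dvd_sub h1 h2
    have h4 : q + 1 - (q - 1) = 2 := by omega
    rwa [h4] at h3
  · apply Nat.dvd_gcd
    · omega
    · omega

theorem main4 (m : ℕ) : ∃ N : ℕ, ∀ (V E : Type) [Fintype V] [DecidableEq V] [Fintype E]
    [DecidableEq E] (G : MGraph V E) (F : Finset E), G.Bridgeless → (∀ v, Even (G.deg F v)) →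
    (univ \ F).card ≤ m → ∀ k, N ≤ k → Cov G F (2 * k) := by
  classical
  have h : ∀ t : ℤ, ∃ n : ℕ, t ≠ 0 → ∀ (V E : Type) [Fintype V] [DecidableEq V] [Fintype E]
    [DecidableEq E] (G : MGraph V E) (F : Finset E), (∀ v, Even (G.deg F v)) →
    tauG G (univ \ F) = t → ∀ k, n ≤ k → Cov G F (2 * k) := by
    intro t
    by_cases ht : t = 0
    · exact ⟨0, fun h => absurd ht h⟩
    obtain ⟨p, q, hp, hq, hpt, hqt, hg⟩ := two_primes t ht
    refine ⟨(p - 1).pred * (q - 1).pred, fun _ V E _ _ _ _ G F hF htau k hk => ?_⟩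
    obtain ⟨a, b, hab⟩ := Nat.exists_add_mul_eq_of_gcd_dvd_of_mul_pred_le (p - 1) (q - 1) (2 * k)
      (by rw [hg]; exact Dvd.intro _ rfl) (by omega)
    rw [← hab]
    exact ((main1 G F hF p hp (by rw [htau]; exact hpt)).mul a).add
      ((main1 G F hF q hq (by rw [htau]; exact hqt)).mul b)
  choose f hf using h
  refine ⟨∑ t ∈ Icc (-(2 ^ m : ℤ)) (2 ^ m), f t, fun V E _ _ _ _ G F hG hF hm k hk => ?_⟩
  have h1 : tauG G (univ \ F) ∈ Icc (-(2 ^ m : ℤ)) (2 ^ m) := by
    have h2 := tau_le G F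
    have h3 : (tauG G (univ \ F)).natAbs ≤ 2 ^ m := h2.trans (Nat.pow_le_pow_right (by norm_num) hm)
    rw [mem_Icc]
    have h4 : ((2 ^ m : ℕ) : ℤ) = (2 : ℤ) ^ m := by push_cast; rfl
    rw [← h4]
    omega
  have h5 : f (tauG G (univ \ F)) ≤ k :=
    (single_le_sum (f := f) (fun _ _ => Nat.zero_le _) h1).trans hk
  exact hf _ (tau_ne G hG F) V E G F hF rfl k h5

end Pool.Agent.H1.TP
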