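import Mathlib

/-! # A small odd prime not dividing an integer at most `2 ^ m` (helper51) -/

set_option autoImplicit false

namespace Pool.Agent.H1.TP

namespace TB1

open Finset

/-- the odd primes up to 809 -/
def pl : List ℕ :=
  [3, 5, 7, 11, 13, 17, 19, 23, 29, 31, 37, 41, 43, 47, 53, 59, 61, 67, 71, 73, 79, 83, 89, 97,
    101, 103, 107, 109, 113, 127, 131, 137, 139, 149, 151, 157, 163, 167, 173, 179, 181, 191,
    193, 197, 199, 211, 223, 227, 229, 233, 239, 241, 251, 257, 263, 269, 271, 277, 281, 283,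
    293, 307, 311, 313, 317, 331, 337, 347, 349, 353, 359, 367, 373, 379, 383, 389, 397, 401,
    409, 419, 421, 431, 433, 439, 443, 449, 457, 461, 463, 467, 479, 487, 491, 499, 503, 509,
    521, 523, 541, 547, 557, 563, 569, 571, 577, 587, 593, 599, 601, 607, 613, 617, 619, 631,
    641, 643, 647, 653, 659, 661, 673, 677, 683, 691, 701, 709, 719, 727, 733, 739, 743, 751,
    757, 761, 769, 773, 787, 797, 809]

theorem pl_prime : ∀ p ∈ pl, p.Prime ∧ p ≠ 2 := by
  have h : ∀ p ∈ pl, 3 ≤ p ∧ p < 1024 ∧ ∀ d ∈ List.range 32, 2 ≤ d → d < p → p % d ≠ 0 := by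
    decide +kernel
  intro p hp
  obtain ⟨h1, h2, h3⟩ := h p hp
  refine ⟨Nat.prime_def_le_sqrt.2 ⟨by omega, ?_⟩, by omega⟩
  intro d hd1 hd2 hd3
  have h4 : d * d ≤ p := Nat.le_sqrt.1 hd2
  have h5 : d < 32 := by
    by_contra hc
    have : 32 * 32 ≤ d * d := Nat.mul_le_mul (by omega) (by omega)
    omega
  have h6 : d < p := by nlinarith
  exact h3 d (List.mem_range.2 h5) hd1 h6 (Nat.mod_eq_zero_of_dvd hd3)

theorem pl_nodup : pl.Nodup := by
  decide +kernel

theorem chk (k x M : ℕ) (hx : ∀ p ∈ pl.take k, p ≤ x) (hp : 2 ^ M < (pl.take k).prod)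
    (m : ℕ) (t : ℤ) (ht : t ≠ 0) (hle : t.natAbs ≤ 2 ^ m) (h1 : x ≤ 2 * m + 3) (h2 : m ≤ M) :
    ∃ p, p.Prime ∧ p ≠ 2 ∧ p ≤ 2 * m + 3 ∧ ¬ (p : ℤ) ∣ t := by
  by_contra hc
  push Not at hc
  have hnd : (pl.take k).Nodup := pl_nodup.sublist (List.take_sublist k pl)
  have h3 : ∏ p ∈ (pl.take k).toFinset, p ∣ t.natAbs := by
    apply Finset.prod_primes_dvd
    · intro p hp'
      rw [List.mem_toFinset] at hp'
      exact (pl_prime p (List.mem_of_mem_take hp')).1.prime
    · intro p hp'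
      rw [List.mem_toFinset] at hp'
      obtain ⟨h4, h5⟩ := pl_prime p (List.mem_of_mem_take hp')
      exact Int.natCast_dvd.1 (hc p h4 h5 ((hx p hp').trans h1))
  have h4 : (pl.take k).prod = ∏ p ∈ (pl.take k).toFinset, p := by
    rw [List.prod_toFinset _ hnd, List.map_id']
  rw [← h4] at h3
  have h5 := Nat.le_of_dvd (Int.natAbs_pos.2 ht) h3
  have h6 : 2 ^ m ≤ 2 ^ M := Nat.pow_le_pow_right (by norm_num) h2
  omega

theorem small (m : ℕ) (t : ℤ) (ht : t ≠ 0) (hle : t.natAbs ≤ 2 ^ m) (hm : m ≤ 1102) :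
    ∃ p, p.Prime ∧ p ≠ 2 ∧ p ≤ 2 * m + 3 ∧ ¬ (p : ℤ) ∣ t := by
  by_cases h0 : m ≤ 1
  · exact chk 1 3 1 (by decide +kernel) (by decide +kernel) m t ht hle (by omega) h0
  by_cases h1 : m ≤ 6
  · exact chk 3 7 6 (by decide +kernel) (by decide +kernel) m t ht hle (by omega) h1
  by_cases h2 : m ≤ 17
  · exact chk 6 17 17 (by decide +kernel) (by decide +kernel) m t ht hle (by omega) h2
  by_cases h3 : m ≤ 41
  · exact chk 11 37 41 (by decide +kernel) (by decide +kernel) m t ht hle (by omega) h3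
  by_cases h4 : m ≤ 106
  · exact chk 22 83 106 (by decide +kernel) (by decide +kernel) m t ht hle (by omega) h4
  by_cases h5 : m ≤ 278
  · exact chk 46 211 278 (by decide +kernel) (by decide +kernel) m t ht hle (by omega) h5
  by_cases h6 : m ≤ 746
  · exact chk 101 557 746 (by decide +kernel) (by decide +kernel) m t ht hle (by omega) h6
  exact chk 139 809 1102 (by decide +kernel) (by decide +kernel) m t ht hle (by omega) hm

theorem ineq (s : ℝ) (hs : 47 ≤ s) :
    Real.log (s ^ 2 + 1) + 2 * s * Real.log (s ^ 2) < (s ^ 2 + 1) / 2 * Real.log 2 := by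
  have h1 := Real.log_two_gt_d9
  have h2 := Real.log_two_lt_d9
  have hs0 : 0 < s := by linarith
  have h3 : Real.log s ≤ s / 32 + 5 * Real.log 2 - 1 := by
    have h4 := Real.log_le_sub_one_of_pos (x := s / 32) (by positivity)
    rw [Real.log_div hs0.ne' (by norm_num)] at h4
    have h5 : Real.log 32 = 5 * Real.log 2 := by
      rw [show (32 : ℝ) = 2 ^ 5 by norm_num, Real.log_pow]
      norm_num
    rw [h5] at h4
    linarith
  have h4 : Real.log (s ^ 2) = 2 * Real.log s := by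
    rw [Real.log_pow]
    norm_num
  have h5 : Real.log (s ^ 2 + 1) ≤ Real.log 2 + 2 * Real.log s := by
    rw [← h4, ← Real.log_mul (by norm_num) (by positivity)]
    apply Real.log_le_log (by positivity)
    nlinarith
  have h6 : Real.log s ≤ s / 32 + 2.465737 := by
    linarith
  rw [h4]
  have h7 : s * Real.log s ≤ s * (s / 32 + 2.465737) := mul_le_mul_of_nonneg_left h6 hs0.le
  have h8 : (s ^ 2 + 1) / 2 * 0.6931471803 ≤ (s ^ 2 + 1) / 2 * Real.log 2 :=
    mul_le_mul_of_nonneg_left h1.le (by positivity)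
  nlinarith

theorem large (m : ℕ) (t : ℤ) (ht : t ≠ 0) (hle : t.natAbs ≤ 2 ^ m) (hm : 1103 ≤ m) :
    ∃ p, p.Prime ∧ p ≠ 2 ∧ p ≤ 2 * m + 3 ∧ ¬ (p : ℤ) ∣ t := by
  by_contra hc
  push Not at hc
  obtain ⟨n, hn⟩ : ∃ n, n = 2 * m + 3 := ⟨_, rfl⟩
  have h2mem : 2 ∈ (range (n + 1)).filter Nat.Prime := by
    rw [mem_filter, mem_range]
    exact ⟨by omega, Nat.prime_two⟩
  have h3 : ∏ p ∈ ((range (n + 1)).filter Nat.Prime).erase 2, p ∣ t.natAbs := by
    apply Finset.prod_primes_dvd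
    · intro p hp'
      rw [mem_erase, mem_filter] at hp'
      exact hp'.2.2.prime
    · intro p hp'
      rw [mem_erase, mem_filter, mem_range] at hp'
      exact Int.natCast_dvd.1 (hc p hp'.2.2 hp'.1 (by omega))
  have h4 := Nat.le_of_dvd (Int.natAbs_pos.2 ht) h3
  have h5 : primorial n = 2 * ∏ p ∈ ((range (n + 1)).filter Nat.Prime).erase 2, p := by
    unfold primorial
    exact (mul_prod_erase _ (fun p => p) h2mem).symm
  have h6 : primorial n ≤ 2 ^ (m + 1) := by
    rw [h5, pow_succ]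
    omega
  have h7 := Chebyshev.theta_ge n
  rw [Chebyshev.theta_eq_log_primorial, Nat.floor_natCast] at h7
  have h8 : Real.log (primorial n) ≤ (m + 1) * Real.log 2 := by
    have : ((primorial n : ℕ) : ℝ) ≤ (2 : ℝ) ^ (m + 1) := by exact_mod_cast h6
    have h9 := Real.log_le_log (by exact_mod_cast primorial_pos n) this
    rw [Real.log_pow] at h9
    push_cast at h9
    exact h9
  have hs : (47 : ℝ) ≤ √(n : ℝ) := by
    apply Real.le_sqrt_of_sq_le
    have : (2209 : ℝ) ≤ (n : ℝ) := by exact_mod_cast (by omega : 2209 ≤ n)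
    linarith
  have h10 := ineq (√(n : ℝ)) hs
  rw [Real.sq_sqrt (Nat.cast_nonneg n)] at h10
  have h11 : (n : ℝ) = 2 * m + 3 := by
    rw [hn]
    push_cast
    ring
  have h12 : ((n : ℝ) + 1) / 2 * Real.log 2 = n * Real.log 2 - (m + 1) * Real.log 2 := by
    rw [h11]
    ring
  linarith

end TB1

theorem tb1_prime (m : ℕ) (t : ℤ) (ht : t ≠ 0) (hle : t.natAbs ≤ 2 ^ m) :
    ∃ p, p.Prime ∧ p ≠ 2 ∧ p ≤ 2 * m + 3 ∧ ¬ (p : ℤ) ∣ t := by
  by_cases hm : m ≤ 1102
  · exact TB1.small m t ht hle hm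
  · exact TB1.large m t ht hle (by omega)

end Pool.Agent.H1.TP
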