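import Pool.Agent.H1.TP.Fin1
import Pool.Agent.H1.TP.TB1

set_option autoImplicit false
set_option linter.unusedVariables false
set_option linter.unusedSectionVars false

namespace Pool.Agent.H1.TP

open Finset Equiv
open Pool.Agent.H126R2.CDC (MGraph)

variable {V E : Type} [Fintype V] [DecidableEq V] [Fintype E] [DecidableEq E]

/-- the exponent in the sign: the number of components decreases by at most the number of edges -/
lemma comps_anti (G : MGraph V E) {S S' : Finset E} (h : S ⊆ S') : comps G S' ≤ comps G S := by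
  classical
  unfold comps
  haveI : Finite (Quot fun u v : V => ∃ e ∈ S, G.ends e = s(u, v)) :=
    Finite.of_surjective (Quot.mk _) Quot.mk_surjective
  refine Nat.card_le_card_of_surjective
    (Quot.map id (fun u v ⟨e, he, h1⟩ => ⟨e, h he, h1⟩)) ?_
  rintro ⟨x⟩
  exact ⟨Quot.mk _ x, rfl⟩

/-- the evaluation of the Tutte polynomial of `G / F` at `(0, 1)` -/
noncomputable def tuttG (G : MGraph V E) (F : Finset E) : ℤ :=
  ∑ K ∈ (univ \ F).powerset.filter (fun K => comps G (F ∪ K) + K.card = comps G F),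
    (-1 : ℤ) ^ (comps G F - comps G univ - K.card)

lemma tuttG_eq (G : MGraph V E) (F : Finset E) :
    tuttG G F = (-1) ^ (comps G F - comps G univ) * tauG G (univ \ F) := by
  classical
  have hFF : (univ : Finset E) \ (univ \ F) = F := by
    ext e; simp
  unfold tuttG tauG
  rw [hFF, mul_sum]
  refine sum_congr rfl fun K hK => ?_
  rw [mem_filter] at hK
  have h1 : comps G univ ≤ comps G (F ∪ K) := comps_anti G (subset_univ _)
  have h2 := hK.2
  obtain ⟨a, ha⟩ : ∃ a, comps G F - comps G univ = a + K.card :=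
    ⟨comps G F - comps G univ - K.card, by omega⟩
  rw [ha, Nat.add_sub_cancel, pow_add, mul_assoc, ← mul_pow]
  simp

theorem tutt_pos (G : MGraph V E) (hG : G.Bridgeless) (F : Finset E) : 0 < tuttG G F := by
  classical
  obtain ⟨a, b, hab⟩ := exists_ends G
  have hFF : (univ : Finset E) \ (univ \ F) = F := by
    ext e; simp
  have hk := kq_comps G F a b hab
  have e2 : F ∪ (univ \ F) = univ := by
    ext e; simp
  have hpos := tg4_pos (fun u v : V => ∃ e ∈ F, G.ends e = s(u, v)) a b (univ \ F) (by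
    intro i hi
    obtain ⟨C, hC, hiC⟩ := hG i
    have h5 := tg5_bridge G i C hC hiC
    rw [hk, hk]
    have hiF : i ∉ F := by simpa using hi
    have e1 : F ∪ (univ \ F).erase i = univ.erase i := by
      ext e
      simp only [mem_union, mem_erase, mem_sdiff, mem_univ, true_and, and_true]
      constructor
      · rintro (h | h)
        · rintro rfl; exact hiF h
        · exact h.1
      · intro h
        by_cases he : e ∈ F
        · exact Or.inl he
        · exact Or.inr ⟨h, he⟩
    rw [e1, e2, h5])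
  rw [tuttG_eq]
  unfold tauG
  rw [hFF]
  have e3 : ∑ K ∈ (univ \ F).powerset.filter (fun K =>
      kq (fun u v : V => ∃ e ∈ F, G.ends e = s(u, v)) a b K + K.card =
        kq (fun u v : V => ∃ e ∈ F, G.ends e = s(u, v)) a b ∅), (-1 : ℤ) ^ K.card =
      ∑ K ∈ (univ \ F).powerset.filter (fun K => comps G (F ∪ K) + K.card = comps G F),
        (-1 : ℤ) ^ K.card := by
    refine sum_congr ?_ (fun _ _ => rfl)
    refine filter_congr fun K _ => ?_
    rw [hk, hk, union_empty]
  rw [e3, hk, hk, union_empty, e2] at hpos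
  exact hpos

theorem tutt_le (G : MGraph V E) (F : Finset E) :
    (tuttG G F).natAbs ≤ 2 ^ (univ \ F).card := by
  rw [tuttG_eq, Int.natAbs_mul, Int.natAbs_pow]
  simpa using tau_le G F

theorem tutt_dvd (G : MGraph V E) (F : Finset E) (p : ℤ) :
    p ∣ tuttG G F ↔ p ∣ tauG G (univ \ F) := by
  rw [tuttG_eq]
  constructor
  · intro h
    have := h.mul_left ((-1) ^ (comps G F - comps G univ))
    rw [← mul_assoc, ← mul_pow] at this
    simpa using this
  · intro h
    exact h.mul_left _

/-- the final theorem -/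
theorem final (G : MGraph V E) (F : Finset E) (hF : ∀ v, Even (G.deg F v)) :
    (∀ p : ℕ, p.Prime → ¬ (p : ℤ) ∣ tuttG G F → Cov G F (p - 1)) ∧
    (G.Bridgeless → 0 < tuttG G F ∧ tuttG G F ≤ 2 ^ (univ \ F).card ∧
      ∃ c : ℕ, c ≠ 0 ∧ Even c ∧ c ≤ 2 * (univ \ F).card + 2 ∧ Cov G F c) := by
  refine ⟨fun p hp h => main1 G F hF p hp (fun h' => h ((tutt_dvd G F p).2 h')), fun hG => ?_⟩
  have hpos := tutt_pos G hG F
  have hle := tutt_le G F
  refine ⟨hpos, ?_, ?_⟩
  · have h1 : (((tuttG G F).natAbs : ℕ) : ℤ) ≤ ((2 ^ (univ \ F).card : ℕ) : ℤ) := by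
      exact_mod_cast hle
    rw [Int.natCast_natAbs, abs_of_pos hpos] at h1
    push_cast at h1
    exact h1
  · obtain ⟨p, hp, h2, hpm, hnd⟩ := tb1_prime (univ \ F).card _ hpos.ne' hle
    have hodd : p % 2 = 1 := Nat.odd_iff.1 (hp.odd_of_ne_two h2)
    have hp2 := hp.two_le
    refine ⟨p - 1, by omega, ?_, by omega,
      main1 G F hF p hp (fun h' => hnd ((tutt_dvd G F p).2 h'))⟩
    rw [Nat.even_iff]
    omega

end Pool.Agent.H1.TP
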