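import Mathlib
import Pool.Agent.H1.TP.TB1

/-! # A numerical semigroup generated by the numbers `p - 1` (helper164) -/

set_option autoImplicit false

namespace Pool.Agent.H1.TP

namespace TB2

/-- a subset of `ZMod a` closed under adding `B`, where `a` and `B` are coprime -/
theorem closed_univ (a : ℕ) (ha : 1 ≤ a) (B : Set ℕ)
    (hB : ∀ r : ℕ, r.Prime → r ∣ a → ∃ b ∈ B, ¬ r ∣ b) (Q : Set (ZMod a)) (h0 : (0 : ZMod a) ∈ Q)
    (hQ : ∀ x ∈ Q, ∀ b ∈ B, x + (b : ZMod a) ∈ Q) (c : ZMod a) : c ∈ Q := by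
  have : NeZero a := ⟨by omega⟩
  -- the stabiliser
  let H₀ : AddSubmonoid (ZMod a) :=
    { carrier := {h | ∀ x ∈ Q, x + h ∈ Q}
      zero_mem' := fun x hx => by simpa using hx
      add_mem' := fun {h h'} h1 h2 x hx => by
        have := h2 _ (h1 x hx)
        rwa [add_assoc] at this }
  have hneg : ∀ h ∈ H₀, -h ∈ H₀ := by
    intro h hh
    have h1 : -h = (a - 1 : ℕ) • h := by
      have h2 : a • h = 0 := by
        rw [nsmul_eq_mul]; simp
      have h3 : (a - 1) • h + h = 0 := by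
        rw [← succ_nsmul, Nat.sub_add_cancel ha]; exact h2
      exact (eq_neg_of_add_eq_zero_left h3).symm
    rw [h1]
    exact H₀.nsmul_mem hh _
  let H : AddSubgroup (ZMod a) := { H₀ with neg_mem' := fun {h} hh => hneg h hh }
  have hHB : ∀ b ∈ B, (b : ZMod a) ∈ H := fun b hb x hx => hQ x hx b hb
  obtain ⟨d, hd⟩ := Int.subgroup_cyclic (H.comap (Int.castAddHom (ZMod a)))
  have hmem : ∀ z : ℤ, (z : ZMod a) ∈ H ↔ d ∣ z := by
    intro z
    have h1 : z ∈ H.comap (Int.castAddHom (ZMod a)) ↔ (z : ZMod a) ∈ H := by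
      simp [AddSubgroup.mem_comap]
    rw [← h1, hd, AddSubgroup.mem_closure_singleton]
    constructor
    · rintro ⟨n, rfl⟩
      exact ⟨n, by rw [smul_eq_mul, mul_comm]⟩
    · rintro ⟨n, rfl⟩
      exact ⟨n, by rw [smul_eq_mul, mul_comm]⟩
  have hda : d ∣ (a : ℤ) := by
    rw [← hmem]
    have : ((a : ℤ) : ZMod a) = 0 := by simp
    rw [this]; exact H.zero_mem
  have hd1 : d.natAbs = 1 := by
    by_contra hne
    obtain ⟨r, hr, hrd⟩ := Nat.exists_prime_and_dvd hne
    have h1 : r ∣ a := by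
      have : d.natAbs ∣ a := by simpa using Int.natAbs_dvd_natAbs.2 hda
      exact hrd.trans this
    obtain ⟨b, hb, hrb⟩ := hB r hr h1
    apply hrb
    have h2 : d ∣ (b : ℤ) := by
      rw [← hmem]
      simpa using hHB b hb
    have : d.natAbs ∣ b := by simpa using Int.natAbs_dvd_natAbs.2 h2
    exact hrd.trans this
  have hall : ∀ z : ℤ, (z : ZMod a) ∈ H := by
    intro z
    rw [hmem]
    rcases Int.natAbs_eq d with h | h
    · rw [h, hd1]; simp
    · rw [h, hd1]; simp
  have hc : c ∈ H := by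
    obtain ⟨z, rfl⟩ := ZMod.intCast_surjective c
    exact hall z
  have := hc 0 h0
  simpa using this

/-- the numerical semigroup generated by `a` and `B` -/
theorem semigroup (a M : ℕ) (ha : 1 ≤ a) (B : Set ℕ) (hBM : ∀ b ∈ B, b ≤ M)
    (hB : ∀ r : ℕ, r.Prime → r ∣ a → ∃ b ∈ B, ¬ r ∣ b) (T : Set ℕ) (h0 : 0 ∈ T)
    (hadd : ∀ x ∈ T, ∀ y ∈ T, x + y ∈ T) (haT : a ∈ T) (hBT : B ⊆ T) (k : ℕ)
    (hk : (a - 1) * M ≤ k) : k ∈ T := by
  classical
  have : NeZero a := ⟨by omega⟩
  let P : ℕ → Finset (ZMod a) := fun j =>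
    Finset.univ.filter fun c => ∃ s ∈ T, s ≤ j * M ∧ (s : ZMod a) = c
  have hP : ∀ j c, c ∈ P j ↔ ∃ s ∈ T, s ≤ j * M ∧ (s : ZMod a) = c := by
    intro j c; simp [P]
  have hmono : ∀ j, P j ⊆ P (j + 1) := by
    intro j c hc
    rw [hP] at hc ⊢
    obtain ⟨s, hs, hsM, hc⟩ := hc
    exact ⟨s, hs, hsM.trans (Nat.mul_le_mul_right _ (Nat.le_succ _)), hc⟩
  have hP0 : ∀ j, (0 : ZMod a) ∈ P j := by
    intro j; rw [hP]; exact ⟨0, h0, Nat.zero_le _, by simp⟩
  have hstep : ∀ j, ∀ x ∈ P j, ∀ b ∈ B, x + (b : ZMod a) ∈ P (j + 1) := by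
    intro j x hx b hb
    rw [hP] at hx ⊢
    obtain ⟨s, hs, hsM, rfl⟩ := hx
    refine ⟨s + b, hadd _ hs _ (hBT hb), ?_, by push_cast; rfl⟩
    have := hBM b hb
    calc s + b ≤ j * M + M := Nat.add_le_add hsM this
      _ = (j + 1) * M := by ring
  have hcard : ∀ j, min (j + 1) a ≤ (P j).card := by
    intro j
    induction j with
    | zero =>
      have : 0 < (P 0).card := Finset.card_pos.2 ⟨0, hP0 0⟩
      omega
    | succ j ih =>
      by_cases heq : P (j + 1) = P j
      · have huniv : P j = Finset.univ := by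
          ext c
          simp only [Finset.mem_univ, iff_true]
          have := closed_univ a ha B hB (fun c => c ∈ P j) (hP0 j)
            (fun x hx b hb => by
              have h1 := hstep j x hx b hb
              rw [heq] at h1; exact h1) c
          exact this
        rw [heq, huniv, Finset.card_univ, ZMod.card]
        exact min_le_right _ _
      · have h1 : (P j).card < (P (j + 1)).card :=
          Finset.card_lt_card ((hmono j).ssubset_of_ne (Ne.symm heq))
        omega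
  have hfull : P (a - 1) = Finset.univ := by
    have h1 := hcard (a - 1)
    rw [Nat.sub_add_cancel ha, min_self] at h1
    apply Finset.eq_univ_of_card
    rw [ZMod.card]
    exact le_antisymm (by simpa [ZMod.card] using Finset.card_le_univ (P (a - 1))) h1
  have hk' : (k : ZMod a) ∈ P (a - 1) := by rw [hfull]; exact Finset.mem_univ _
  rw [hP] at hk'
  obtain ⟨s, hs, hsM, hsk⟩ := hk'
  have hsk' : s ≤ k := hsM.trans hk
  have hdvd : a ∣ k - s := by
    rw [ZMod.natCast_eq_natCast_iff] at hsk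
    exact (Nat.modEq_iff_dvd' hsk').1 hsk
  obtain ⟨j, hj⟩ := hdvd
  have hja : ∀ j : ℕ, j * a ∈ T := by
    intro j
    induction j with
    | zero => simpa using h0
    | succ j ih =>
      rw [Nat.succ_mul]; exact hadd _ ih _ haT
  have : k = s + j * a := by
    have : k - s = j * a := by rw [hj, mul_comm]
    omega
  rw [this]
  exact hadd _ hs _ (hja j)

theorem prod_modEq (N : ℕ) : ∀ l : List ℕ, (∀ x ∈ l, x ≡ 1 [MOD N]) → l.prod ≡ 1 [MOD N] := by
  intro l
  induction l with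
  | nil => intro _; exact Nat.ModEq.refl _
  | cons x l ih =>
    intro h
    rw [List.prod_cons]
    have h1 := h x (by simp)
    have h2 := ih fun y hy => h y (by simp [hy])
    simpa using h1.mul h2

end TB2

open TB2

theorem tb2_semigroup (m : ℕ) (t : ℤ) (ht : t ≠ 0) (hle : t.natAbs ≤ 2 ^ m) (S : Set ℕ)
    (h0 : 0 ∈ S) (hadd : ∀ a ∈ S, ∀ b ∈ S, a + b ∈ S)
    (hp : ∀ p : ℕ, p.Prime → ¬ (p : ℤ) ∣ t → p - 1 ∈ S) (k : ℕ)
    (hk : m * (m + 1) * 2 ^ m ≤ k) : 2 * k ∈ S := by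
  by_cases h2 : (2 : ℤ) ∣ t
  swap
  · have h1 : 1 ∈ S := by simpa using hp 2 Nat.prime_two (by simpa using h2)
    have : ∀ j : ℕ, j ∈ S := by
      intro j
      induction j with
      | zero => exact h0
      | succ j ih => exact hadd _ ih _ h1
    exact this _
  obtain ⟨p, hpp, hp2, hpm, hpt⟩ := tb1_prime m t ht hle
  have hodd : Odd p := hpp.odd_of_ne_two hp2
  obtain ⟨a, ha⟩ := hodd
  have hpge : 2 ≤ p := hpp.two_le
  have ha1 : 1 ≤ a := by omega
  have ham : a ≤ m + 1 := by omega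
  have haS : 2 * a ∈ S := by
    have := hp p hpp hpt
    rwa [ha, Nat.add_sub_cancel] at this
  set τ := t.natAbs with hτ
  have hτ0 : 0 < τ := Int.natAbs_pos.2 ht
  have hτ2 : 2 ∣ τ := by
    have := Int.natAbs_dvd_natAbs.2 h2
    simpa using this
  have hτge : 2 ≤ τ := Nat.le_of_dvd hτ0 hτ2
  have hprod : 2 ≤ τ * a := by nlinarith
  -- the number `n`
  set n := τ * (2 * a) - 1 with hn
  have hn1 : n + 1 = τ * (2 * a) := by
    have : 1 ≤ τ * (2 * a) := by nlinarith
    omega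
  have hnpos : n ≠ 0 := by
    intro h; rw [h] at hn1; nlinarith
  have hfac : ∀ q : ℕ, q.Prime → q ∣ n → q - 1 ∈ S ∧ ∃ b, q = 2 * b + 1 := by
    intro q hq hqn
    have hqt : ¬ (q : ℤ) ∣ t := by
      intro h
      have h1 : q ∣ τ := by
        have := Int.natAbs_dvd_natAbs.2 h
        simpa using this
      have h3 : q ∣ n + 1 := by rw [hn1]; exact h1.mul_right _
      have h4 : q ∣ 1 := (Nat.dvd_add_right hqn).1 h3
      exact hq.one_lt.ne' (Nat.dvd_one.1 h4)
    refine ⟨hp q hq hqt, ?_⟩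
    have hq2 : q ≠ 2 := by
      intro h
      apply hqt
      rw [h]; exact_mod_cast h2
    obtain ⟨b, hb⟩ := hq.odd_of_ne_two hq2
    exact ⟨b, hb⟩
  -- apply the semigroup lemma
  have key := semigroup a (τ * a - 1) ha1 {b | (2 * b + 1).Prime ∧ 2 * b + 1 ∣ n} ?_ ?_
    {x | 2 * x ∈ S} (by simpa using h0) ?_ haS ?_ k ?_
  · exact key
  · rintro b ⟨hb1, hb2⟩
    have := Nat.le_of_dvd (Nat.pos_of_ne_zero hnpos) hb2
    have h3 : n + 1 = 2 * (τ * a) := by rw [hn1]; ring
    omega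
  · intro r hr hra
    by_contra hcon
    push Not at hcon
    have hall : ∀ q ∈ n.primeFactorsList, q ≡ 1 [MOD 2 * r] := by
      intro q hq
      have hq1 := Nat.prime_of_mem_primeFactorsList hq
      have hq2 := Nat.dvd_of_mem_primeFactorsList hq
      obtain ⟨_, b, hb⟩ := hfac q hq1 hq2
      have h3 := hcon b ⟨hb ▸ hq1, hb ▸ hq2⟩
      have h4 : 2 * r ∣ q - 1 := by
        rw [hb, Nat.add_sub_cancel]; exact Nat.mul_dvd_mul_left 2 h3
      exact ((Nat.modEq_iff_dvd' hq1.one_lt.le).2 h4).symm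
    have h5 := prod_modEq (2 * r) n.primeFactorsList hall
    rw [Nat.prod_primeFactorsList hnpos] at h5
    have h6 : 2 * r ∣ n - 1 := (Nat.modEq_iff_dvd' (by omega)).1 h5.symm
    have h7 : 2 * r ∣ n + 1 := by
      rw [hn1]; exact (Nat.mul_dvd_mul_left 2 hra).mul_left _
    have h8 : 2 * r ∣ 2 := by
      have h9 : n + 1 = (n - 1) + 2 := by omega
      rw [h9] at h7
      exact (Nat.dvd_add_right h6).1 h7
    have h10 : r ∣ 1 := Nat.dvd_of_mul_dvd_mul_left (by norm_num : 0 < 2) (by simpa using h8)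
    exact hr.one_lt.ne' (Nat.dvd_one.1 h10)
  · intro x hx y hy
    change 2 * (x + y) ∈ S
    rw [mul_add]; exact hadd _ hx _ hy
  · rintro b ⟨hb1, hb2⟩
    have := (hfac _ hb1 hb2).1
    simpa using this
  · calc (a - 1) * (τ * a - 1) ≤ m * (2 ^ m * (m + 1)) := by
          apply Nat.mul_le_mul (by omega)
          exact (Nat.sub_le _ _).trans (Nat.mul_le_mul hle ham)
      _ = m * (m + 1) * 2 ^ m := by ring
      _ ≤ k := hk

end Pool.Agent.H1.TP
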