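import Pool.Agent.H1.TP.Fin2
import Pool.Agent.H1.TP.TB2

set_option autoImplicit false
set_option linter.unusedVariables false
set_option linter.unusedSectionVars false

namespace Pool.Agent.H1.TP

open Finset Equiv
open Pool.Agent.H126R2.CDC (MGraph)

variable {V E : Type} [Fintype V] [DecidableEq V] [Fintype E] [DecidableEq E]

/-- the final theorem -/
theorem final3 (G : MGraph V E) (F : Finset E) (hF : ∀ v, Even (G.deg F v)) :
    (∀ p : ℕ, p.Prime → ¬ (p : ℤ) ∣ tuttG G F → Cov G F (p - 1)) ∧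
    (G.Bridgeless → 0 < tuttG G F ∧ tuttG G F ≤ 2 ^ (univ \ F).card ∧
      (∃ c : ℕ, c ≠ 0 ∧ Even c ∧ c ≤ 2 * (univ \ F).card + 2 ∧ Cov G F c) ∧
      ∀ c : ℕ, Even c → (univ \ F).card * ((univ \ F).card + 1) * 2 ^ ((univ \ F).card + 1) ≤ c →
        Cov G F c) := by
  obtain ⟨h1, h2⟩ := final G F hF
  refine ⟨h1, fun hG => ?_⟩
  obtain ⟨h3, h4, h5⟩ := h2 hG
  refine ⟨h3, h4, h5, fun c hc hle => ?_⟩
  obtain ⟨k, hk⟩ := hc
  have h6 : (univ \ F).card * ((univ \ F).card + 1) * 2 ^ (univ \ F).card ≤ k := by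
    have : (univ \ F).card * ((univ \ F).card + 1) * 2 ^ ((univ \ F).card + 1) =
      2 * ((univ \ F).card * ((univ \ F).card + 1) * 2 ^ (univ \ F).card) := by
      rw [pow_succ]; ring
    rw [this] at hle
    omega
  have h7 := tb2_semigroup (univ \ F).card (tuttG G F) h3.ne' (tutt_le G F) {a | Cov G F a}
    (Cov.zero G F) (fun a ha b hb => Cov.add ha hb) (fun p hp hd => h1 p hp hd) k h6
  have h8 : c = 2 * k := by omega
  rw [h8]
  exact h7

end Pool.Agent.H1.TP
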