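import Pool.Agent.H1.TP.Fin3
import Pool.Agent.H1.SC.Main
import Pool.Graph.R_seed8.H126R2.CDC.Main

set_option autoImplicit false
set_option linter.unusedVariables false
set_option linter.unusedSectionVars false

namespace Pool.Agent.H1.TP

open Finset Equiv
open Pool.Agent.H126R2.CDC (MGraph)
open Pool.Agent.H126R2.NC (InCone InLat InIntCone cone_lat_of_intCone)
open Pool.Agent.TH399.CC (intCone_add)

variable {V E : Type} [Fintype V] [DecidableEq V] [Fintype E] [DecidableEq E]

lemma intCone_mul (G : MGraph V E) {p r : E → ℕ} (n : ℕ) (hp : InIntCone G p)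
    (h : ∀ e, r e = n * p e) : InIntCone G r := by
  have h1 : ∀ k : ℕ, InIntCone G (fun e => k * p e) := by
    intro k
    induction k with
    | zero => exact ⟨0, by simp, fun e => by simp⟩
    | succ k ih => exact intCone_add G ih hp (fun e => by ring)
  have h2 : r = fun e => n * p e := funext h
  rw [h2]
  exact h1 n

lemma inCone_div (G : MGraph V E) {p : E → ℕ} (n : ℕ) (hn : n ≠ 0)
    (h : InCone G (fun e => n * p e)) : InCone G p := by
  obtain ⟨w, h1, h2, h3⟩ := h
  have hn' : (0 : ℝ) < n := by exact_mod_cast Nat.pos_of_ne_zero hn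
  refine ⟨fun C => w C / n, fun C => div_nonneg (h1 C) hn'.le, fun C hC => ?_, fun e => ?_⟩
  · show w C / n = 0
    rw [h2 C hC, zero_div]
  · have h4 := h3 e
    push_cast at h4
    have h5 : (p e : ℝ) = (∑ C : Finset E, w C * (if e ∈ C then 1 else 0)) / n := by
      rw [← h4]
      field_simp
    rw [h5, sum_div]
    refine sum_congr rfl fun C _ => ?_
    ring

lemma intCone_const (G : MGraph V E) (hG : G.Bridgeless) (a : ℕ) (ha : Even a) :
    InIntCone G (fun _ => a) := by
  obtain ⟨Q, hQ1, hQ2⟩ := G.exists_cdc hG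
  obtain ⟨k, hk⟩ := ha
  refine intCone_mul G (p := fun _ => 2) k ⟨Q, hQ1, hQ2⟩ (fun e => ?_)
  omega

lemma intCone_even (G : MGraph V E) (F : Finset E) (hF : ∀ v, Even (G.deg F v)) (k : ℕ) :
    InIntCone G (fun e => if e ∈ F then k else 0) := by
  obtain ⟨Q, hQ1, hQ2⟩ := G.decompose _ F rfl hF
  refine intCone_mul G (p := fun e => if e ∈ F then 1 else 0) k ⟨Q, hQ1, hQ2⟩ (fun e => ?_)
  split_ifs <;> simp

theorem two_valued (G : MGraph V E) (hG : G.Bridgeless) (F : Finset E)
    (hF : ∀ v, Even (G.deg F v)) (N : ℕ) (hN : ∀ c : ℕ, Even c → N ≤ c → Cov G F c)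
    (x y : ℕ) (hx : Even x) (hy : Even y) (hxy : y ≤ 2 * x) (hxN : 3 * N + 39 ≤ x) :
    InIntCone G (fun e => if e ∈ F then x else y) := by
  have hN' : ∀ c : ℕ, Even c → N ≤ c → InIntCone G (fun e => if e ∈ F then c else 2 * c) := hN
  rcases le_or_gt y x with h | h
  · refine intCone_add G (intCone_const G hG y hy) (intCone_even G F hF (x - y)) (fun e => ?_)
    split_ifs <;> omega
  have hd : Even (y - x) := (Nat.even_sub h.le).2 (by simp [hx, hy])
  have h2 : Even (2 * x - y) := (Nat.even_sub hxy).2 (by simp [hy])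
  by_cases hbig : N ≤ y - x
  · refine intCone_add G (intCone_const G hG (2 * x - y) h2) (hN' (y - x) hd hbig) (fun e => ?_)
    split_ifs <;> omega
  · push Not at hbig
    refine (Pool.Agent.H1.SC.ratio_four_thirds G _ (fun e f => ?_)).2 ⟨?_, ?_⟩
    · split_ifs <;> omega
    · have hc0 : Even (2 * (N + 1)) := even_two_mul _
      have h3 := hN' (2 * (N + 1)) hc0 (by omega)
      apply inCone_div G (2 * (N + 1)) (by omega)
      refine (cone_lat_of_intCone G _ ?_).1
      refine intCone_add G (intCone_const G hG (2 * (N + 1) * (2 * x - y)) (hc0.mul_right _))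
        (intCone_mul G (y - x) h3 (fun e => rfl)) (fun e => ?_)
      obtain ⟨d, hd'⟩ : ∃ d, y = x + d := ⟨y - x, by omega⟩
      obtain ⟨a, ha'⟩ : ∃ a, x = d + a := ⟨x - d, by omega⟩
      have e1 : y - x = d := by omega
      have e2 : 2 * x - y = a := by omega
      rw [e1, e2]
      split_ifs
      · rw [ha']; ring
      · rw [hd', ha']; ring
    · have hc0 : Even (2 * (N + 1)) := even_two_mul _
      have h3 := (cone_lat_of_intCone G _ (hN' (2 * (N + 1)) hc0 (by omega))).2
      have h4 := hN' (2 * (N + 1) + (y - x)) (hc0.add hd) (by omega)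
      have h5 := (cone_lat_of_intCone G _ (intCone_add G (intCone_const G hG (2 * x - y) h2) h4
        (fun e => rfl))).2
      have h6 := AddSubgroup.sub_mem _ h5 h3
      unfold InLat
      convert h6 using 1
      funext e
      simp only [Pi.sub_apply]
      split_ifs
      · have : x = (2 * x - y) + (2 * (N + 1) + (y - x)) - 2 * (N + 1) := by omega
        push_cast
        omega
      · push_cast
        omega

/-- the final theorem -/
theorem final4 (G : MGraph V E) (F : Finset E) (hF : ∀ v, Even (G.deg F v)) :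
    (∀ p : ℕ, p.Prime → ¬ (p : ℤ) ∣ tuttG G F → Cov G F (p - 1)) ∧
    (G.Bridgeless → 0 < tuttG G F ∧ tuttG G F ≤ 2 ^ (univ \ F).card ∧
      (∃ c : ℕ, c ≠ 0 ∧ Even c ∧ c ≤ 2 * (univ \ F).card + 2 ∧ Cov G F c) ∧
      (∀ c : ℕ, Even c → (univ \ F).card * ((univ \ F).card + 1) * 2 ^ ((univ \ F).card + 1) ≤ c →
        Cov G F c) ∧
      ∀ x y : ℕ, Even x → Even y → y ≤ 2 * x →
        3 * ((univ \ F).card * ((univ \ F).card + 1) * 2 ^ ((univ \ F).card + 1)) + 39 ≤ x →
        InIntCone G (fun e => if e ∈ F then x else y)) := by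
  obtain ⟨h1, h2⟩ := final3 G F hF
  refine ⟨h1, fun hG => ?_⟩
  obtain ⟨h3, h4, h5, h6⟩ := h2 hG
  exact ⟨h3, h4, h5, h6, fun x y hx hy hxy hxN => two_valued G hG F hF _ h6 x y hx hy hxy hxN⟩

end Pool.Agent.H1.TP
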