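import Mathlib
import Pool.Agent.H1.TP.TP3

set_option autoImplicit false
set_option linter.unusedVariables false

/-!
# TQ1: the parity of the number of classes
-/

namespace Pool.Agent.H1.TP

namespace TQ1

open Finset Pool.Agent.H1.TP.TP3

/-- two special points in a class have different colours -/
theorem color {α : Type} [Fintype α] [DecidableEq α] (f g : α → α) (o : α → Bool)
    (hf : ∀ x, f (f x) = x) (hof : ∀ x, o (f x) = !(o x))
    (hg : ∀ x, g (g x) = x) (hog : ∀ x, o (g x) = !(o x)) (D : Finset α)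
    (hD : ∀ x ∈ D, g x ∈ D) (a d : α) (had : a ≠ d) (ha : a ∉ D) (hd : d ∉ D)
    (had' : SD f g (fun z => z ∈ D) a d)
    (hout : ∀ x, x ∉ D → SD f g (fun z => z ∈ D) a x → x = a ∨ x = d) : o d ≠ o a := by
  classical
  intro ho
  set s : Setoid α := SD f g fun z => z ∈ D with hs
  set Z : Finset α := univ.filter fun x => s a x with hZ
  have memZ : ∀ x, x ∈ Z ↔ s a x := fun x => by rw [hZ, mem_filter]; simp
  have hZf : ∀ x ∈ Z, f x ∈ Z := fun x hx => by
    rw [memZ] at hx ⊢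
    exact s.trans hx (SD_f f g _ x)
  have hZg : ∀ x ∈ Z, x ∈ D → g x ∈ Z := fun x hx hxD => by
    rw [memZ] at hx ⊢
    exact s.trans hx (SD_g f g (fun z => z ∈ D) hxD)
  have h1 : (Z.filter fun x => o x = o a).card = (Z.filter fun x => o x ≠ o a).card := by
    refine card_nbij' f f ?_ ?_ (fun x _ => hf x) (fun x _ => hf x)
    · intro x hx
      simp only [coe_filter, Set.mem_ofPred_eq] at hx ⊢
      refine ⟨hZf x hx.1, ?_⟩
      rw [hof, hx.2]
      simp
    · intro x hx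
      simp only [coe_filter, Set.mem_ofPred_eq] at hx ⊢
      refine ⟨hZf x hx.1, ?_⟩
      rw [hof]
      cases h1 : o x <;> cases h2 : o a <;> simp_all
  have h2 : ((Z.filter fun x => x ∈ D).filter fun x => o x = o a).card =
      ((Z.filter fun x => x ∈ D).filter fun x => o x ≠ o a).card := by
    refine card_nbij' g g ?_ ?_ (fun x _ => hg x) (fun x _ => hg x)
    · intro x hx
      simp only [coe_filter, Set.mem_ofPred_eq, mem_filter] at hx ⊢
      refine ⟨⟨hZg x hx.1.1 hx.1.2, hD x hx.1.2⟩, ?_⟩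
      rw [hog, hx.2]
      simp
    · intro x hx
      simp only [coe_filter, Set.mem_ofPred_eq, mem_filter] at hx ⊢
      refine ⟨⟨hZg x hx.1.1 hx.1.2, hD x hx.1.2⟩, ?_⟩
      rw [hog]
      cases h1 : o x <;> cases h2 : o a <;> simp_all
  have h3 : (Z.filter fun x => o x ≠ o a) = ((Z.filter fun x => x ∈ D).filter fun x => o x ≠ o a) := by
    ext x
    simp only [mem_filter]
    constructor
    · rintro ⟨hx, hox⟩
      refine ⟨⟨hx, ?_⟩, hox⟩
      by_contra hxD
      rcases hout x hxD ((memZ x).1 hx) with rfl | rfl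
      · exact hox rfl
      · exact hox ho
    · rintro ⟨⟨hx, _⟩, hox⟩
      exact ⟨hx, hox⟩
  have h4 : (Z.filter fun x => o x = o a) =
      insert a (insert d ((Z.filter fun x => x ∈ D).filter fun x => o x = o a)) := by
    ext x
    simp only [mem_filter, mem_insert]
    constructor
    · rintro ⟨hx, hox⟩
      by_cases hxD : x ∈ D
      · exact Or.inr (Or.inr ⟨⟨hx, hxD⟩, hox⟩)
      · rcases hout x hxD ((memZ x).1 hx) with h | h
        · exact Or.inl h
        · exact Or.inr (Or.inl h)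
    · rintro (rfl | rfl | ⟨⟨hx, _⟩, hox⟩)
      · exact ⟨(memZ _).2 (s.refl _), rfl⟩
      · exact ⟨(memZ _).2 had', ho⟩
      · exact ⟨hx, hox⟩
  rw [h3, ← h2, h4, card_insert_of_notMem, card_insert_of_notMem] at h1
  · omega
  · intro h
    simp only [mem_filter] at h
    exact hd h.1.2
  · intro h
    simp only [mem_insert, mem_filter] at h
    rcases h with h | h
    · exact had h
    · exact ha h.1.2

end TQ1

open TP3 in
theorem tq1_parity {α : Type} [Fintype α] [DecidableEq α] (f g₁ g₂ : α → α) (o : α → Bool)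
    (hf : ∀ x, f (f x) = x) (hf' : ∀ x, f x ≠ x) (hof : ∀ x, o (f x) = !(o x))
    (h₁ : ∀ x, g₁ (g₁ x) = x) (h₁' : ∀ x, g₁ x ≠ x) (ho₁ : ∀ x, o (g₁ x) = !(o x))
    (h₂ : ∀ x, g₂ (g₂ x) = x) (h₂' : ∀ x, g₂ x ≠ x) (ho₂ : ∀ x, o (g₂ x) = !(o x))
    (a b c d : α) (hab : a ≠ b) (hac : a ≠ c) (had : a ≠ d) (hbc : b ≠ c) (hbd : b ≠ d)
    (hcd : c ≠ d) (e1 : g₁ a = b) (e2 : g₁ c = d) (e3 : g₂ a = c) (e4 : g₂ b = d)
    (he : ∀ x, x ≠ a → x ≠ b → x ≠ c → x ≠ d → g₂ x = g₁ x) :
    (Nat.card (Quot fun x y => y = f x ∨ y = g₁ x) +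
      Nat.card (Quot fun x y => y = f x ∨ y = g₂ x)) % 2 = 1 := by
  set D : Finset α := (({a, b, c, d} : Finset α))ᶜ with hDdef
  have memD : ∀ x, x ∈ D ↔ x ≠ a ∧ x ≠ b ∧ x ≠ c ∧ x ≠ d := by
    intro x
    simp [hDdef]
  have e1' : g₁ b = a := by rw [← e1, h₁]
  have e2' : g₁ d = c := by rw [← e2, h₁]
  have e3' : g₂ c = a := by rw [← e3, h₂]
  have e4' : g₂ d = b := by rw [← e4, h₂]
  have hDg : ∀ x ∈ D, g₁ x ∈ D := by
    intro x hx
    obtain ⟨x1, x2, x3, x4⟩ := (memD x).mp hx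
    refine (memD _).mpr ⟨fun h => x2 ?_, fun h => x1 ?_, fun h => x4 ?_, fun h => x3 ?_⟩
    · rw [← h₁ x, h, e1]
    · rw [← h₁ x, h, e1']
    · rw [← h₁ x, h, e2]
    · rw [← h₁ x, h, e2']
  have hP := part_all f g₁ hf hf' h₁ h₁' D.card D rfl hDg
  set s : Setoid α := SD f g₁ fun z => z ∈ D with hs
  have ha : a ∉ D := fun h => ((memD a).mp h).1 rfl
  have hb : b ∉ D := fun h => ((memD b).mp h).2.1 rfl
  have hc : c ∉ D := fun h => ((memD c).mp h).2.2.1 rfl
  have hd : d ∉ D := fun h => ((memD d).mp h).2.2.2 rfl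
  have hout : ∀ x, x ∉ D → x = a ∨ x = b ∨ x = c ∨ x = d := by
    intro x hx
    by_contra hcon
    push Not at hcon
    exact hx ((memD x).mpr hcon)
  have heq2 : ∀ x, x ∈ D → g₂ x = g₁ x := fun x hx => by
    obtain ⟨x1, x2, x3, x4⟩ := (memD x).mp hx
    exact he x x1 x2 x3 x4
  obtain ⟨a', ha1, ha2, ha3, ha4⟩ := hP a ha
  rcases hout a' ha1 with rfl | rfl | rfl | rfl
  · exact absurd rfl ha2
  · -- a ~ b
    have nac : ¬ s a c := fun h => (ha4 c hc h).elim (fun e => hac e.symm) fun e => hbc e.symm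
    have hcd' : s c d := by
      obtain ⟨c', hc1, hc2, hc3, hc4⟩ := hP c hc
      rcases hout c' hc1 with rfl | rfl | rfl | rfl
      · exact absurd (s.symm hc3) nac
      · exact absurd (s.trans ha3 (s.symm hc3)) nac
      · exact absurd rfl hc2
      · exact hc3
    obtain ⟨n, n1, n2, n3⟩ := three s ha3 hcd' nac
    rw [card_pair f g₁ g₁ h₁ (fun z => z ∈ D) a _ c d
        (fun x hx => by rcases hout x hx with h | h | h | h <;> simp [h]) (fun _ _ => rfl) e1 e2,
      card_pair f g₁ g₂ h₂ (fun z => z ∈ D) a c _ d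
        (fun x hx => by rcases hout x hx with h | h | h | h <;> simp [h]) heq2 e3 e4, n1, n2]
    omega
  · -- a ~ c
    have nab : ¬ s a b := fun h => (ha4 b hb h).elim (fun e => hab e.symm) fun e => hbc e
    have hbd' : s b d := by
      obtain ⟨c', hc1, hc2, hc3, hc4⟩ := hP b hb
      rcases hout c' hc1 with rfl | rfl | rfl | rfl
      · exact absurd (s.symm hc3) nab
      · exact absurd rfl hc2
      · exact absurd (s.trans ha3 (s.symm hc3)) nab
      · exact hc3
    obtain ⟨n, n1, n2, n3⟩ := three s ha3 hbd' nab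
    rw [card_pair f g₁ g₁ h₁ (fun z => z ∈ D) a b _ d
        (fun x hx => by rcases hout x hx with h | h | h | h <;> simp [h]) (fun _ _ => rfl) e1 e2,
      card_pair f g₁ g₂ h₂ (fun z => z ∈ D) a _ b d
        (fun x hx => by rcases hout x hx with h | h | h | h <;> simp [h]) heq2 e3 e4, n1, n2]
    omega
  · -- a ~ d
    exfalso
    refine TQ1.color f g₁ o hf hof h₁ ho₁ D hDg a _ had ha hd ha3 (fun x hx hx' => ha4 x hx hx') ?_
    rw [← e4, ho₂, ← e1, ho₁, Bool.not_not]

end Pool.Agent.H1.TP
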