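import Mathlib

/-! The union of two perfect matchings is bipartite. -/

namespace Pool.Agent.H1.TP

namespace TQ2

open Equiv Equiv.Perm

variable {α : Type}

/-- an involution as a permutation -/
def pm (f : α → α) (hf : ∀ x, f (f x) = x) : Perm α := ⟨f, f, hf, hf⟩

theorem pm_apply (f : α → α) (hf : ∀ x, f (f x) = x) (x : α) : pm f hf x = f x := rfl

theorem pm_inv (f : α → α) (hf : ∀ x, f (f x) = x) : (pm f hf)⁻¹ = pm f hf := by
  ext x
  rfl

theorem conj_zpow (f g : α → α) (hf : ∀ x, f (f x) = x) (hg : ∀ x, g (g x) = x) (n : ℤ) (x : α) :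
    f (((pm g hg * pm f hf) ^ n) x) = ((pm g hg * pm f hf) ^ (-n)) (f x) := by
  have h1 : pm f hf * (pm g hg * pm f hf) * (pm f hf)⁻¹ = (pm g hg * pm f hf)⁻¹ := by
    rw [mul_inv_rev, pm_inv, pm_inv]
    ext x
    simp only [Perm.mul_apply, pm_apply, hf]
  have h2 : pm f hf * (pm g hg * pm f hf) ^ n * (pm f hf)⁻¹ = (pm g hg * pm f hf) ^ (-n) := by
    rw [← _root_.conj_zpow, h1, inv_zpow, zpow_neg]
  have h3 : pm f hf * (pm g hg * pm f hf) ^ n = (pm g hg * pm f hf) ^ (-n) * pm f hf := by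
    rw [← h2, inv_mul_cancel_right]
  exact congrArg (fun p : Perm α => p x) h3

theorem not_same (f g : α → α) (hf : ∀ x, f (f x) = x) (hf' : ∀ x, f x ≠ x)
    (hg : ∀ x, g (g x) = x) (hg' : ∀ x, g x ≠ x) (x : α) :
    ¬ SameCycle (pm g hg * pm f hf) x (f x) := by
  rintro ⟨n, hn⟩
  rcases Int.even_or_odd' n with ⟨k, hk | hk⟩
  · have h1 := TQ2.conj_zpow f g hf hg k x
    rw [← hn, hk, ← Perm.mul_apply, ← zpow_add] at h1
    have h2 : -k + 2 * k = k := by ring
    rw [h2] at h1
    exact hf' _ h1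
  · have h1 := TQ2.conj_zpow f g hf hg k x
    rw [← hn, hk, ← Perm.mul_apply, ← zpow_add] at h1
    have h2 : -k + (2 * k + 1) = 1 + k := by ring
    rw [h2, zpow_add, zpow_one, Perm.mul_apply, Perm.mul_apply, pm_apply, pm_apply] at h1
    exact hg' _ h1.symm

end TQ2

open Equiv Equiv.Perm TQ2 in
theorem tq2_orient {α : Type} [Fintype α] [DecidableEq α] (f g : α → α)
    (hf : ∀ x, f (f x) = x) (hf' : ∀ x, f x ≠ x) (hg : ∀ x, g (g x) = x) (hg' : ∀ x, g x ≠ x) :
    ∃ o : α → Bool, (∀ x, o (f x) = !(o x)) ∧ ∀ x, o (g x) = !(o x) := by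
  classical
  obtain ⟨r, hr⟩ : ∃ r : Perm α, r = pm g hg * pm f hf := ⟨_, rfl⟩
  have : Finite (Quotient (SameCycle.setoid r)) := inferInstance
  obtain ⟨n, ⟨e⟩⟩ := Finite.exists_equiv_fin (Quotient (SameCycle.setoid r))
  let q : α → Fin n := fun x => e (Quotient.mk (SameCycle.setoid r) x)
  have hq : ∀ x y, q x = q y ↔ SameCycle r x y := by
    intro x y
    constructor
    · intro h
      exact Quotient.exact (e.injective h)
    · intro h
      exact congrArg e (Quotient.sound h)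
  have hne : ∀ x, q x ≠ q (f x) := by
    intro x h
    have h1 := (hq _ _).mp h
    rw [hr] at h1
    exact not_same f g hf hf' hg hg' x h1
  have hr1 : ∀ x, q (r x) = q x := by
    intro x
    rw [hq]
    exact ⟨-1, by rw [zpow_neg_one]; exact r.symm_apply_apply x⟩
  have hr2 : ∀ x, q (f (r x)) = q (f x) := by
    intro x
    rw [hq]
    refine ⟨1, ?_⟩
    have h1 := TQ2.conj_zpow f g hf hg 1 x
    rw [← hr, zpow_one] at h1
    rw [h1, zpow_one, zpow_neg_one]
    exact r.apply_symm_apply (f x)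
  have hof : ∀ x, decide (q (f x) < q (f (f x))) = !(decide (q x < q (f x))) := by
    intro x
    rw [hf x]
    have h1 := hne x
    rcases lt_trichotomy (q x) (q (f x)) with h | h | h
    · rw [decide_eq_true h, decide_eq_false (not_lt.mpr h.le)]
      rfl
    · exact absurd h h1
    · rw [decide_eq_true h, decide_eq_false (not_lt.mpr h.le)]
      rfl
  refine ⟨fun x => decide (q x < q (f x)), hof, ?_⟩
  intro x
  have h1 : g x = r (f x) := by
    rw [hr, Perm.mul_apply, pm_apply, pm_apply, hf]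
  have h2 := hr1 (f x)
  have h3 := hr2 (f x)
  simp only
  rw [h1, h2, h3]
  exact hof x

end Pool.Agent.H1.TP
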