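import Pool.Agent.H1.TP.Core
import Pool.Agent.H1.TP.TQ1
import Pool.Agent.H1.TP.TQ2

set_option autoImplicit false
set_option linter.unusedVariables false
set_option linter.unusedSectionVars false

namespace Pool.Agent.H1.TP

open Finset Equiv Polynomial

variable {I : Type} [Fintype I] [DecidableEq I]

/-- the local coefficients for `p = 2` -/
def r2 (J : Finset (Fin 1)) : ℤ := if J = univ then 1 else 0

/-- the pairings with all strands of type `N` on `K`, of type `T` elsewhere -/
def mN (K : Finset I) (i : I) : Pairing 1 := if i ∈ K then pJ univ else pT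

lemma psi_one (ρ : Flag I → Flag I) (lam : ℤ) (m : I → Pairing 1) :
    Psi ρ lam m = lam ^ loops ρ (fun _ => 1) m := by
  unfold Psi
  rw [Fintype.sum_unique]
  have h : (default : Flag I → Perm (Fin 1)) = fun _ => 1 := Subsingleton.elim _ _
  rw [h]
  simp [sg]

lemma local_two (ρ : Flag I → Flag I) (hρ : ∀ x, ρ (ρ x) = x) (hne : ∀ x, ρ x ≠ x)
    (m : I → Pairing 1) (i : I) :
      ∑ σ : Perm (Bool × Fin 1), ((Perm.sign σ : ℤˣ) : ℤ) *
        Psi ρ (-2) (Function.update m i (cross σ)) =
      ∑ b : Option (Finset (Fin 1)), w2 2 r2 b * Psi ρ (-2) (Function.update m i (phi2 b)) := by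
  have h3 := tp11_three ρ hρ hne m i (fun _ => gT) 0
  have hN : (cross (1 : Perm (Bool × Fin 1)) : Pairing 1) = pJ univ := by
    apply Subtype.ext
    funext y
    obtain ⟨s, b, j⟩ := y
    have hj : j = 0 := Subsingleton.elim _ _
    subst hj
    cases s <;> cases b <;> simp [cross, pJ, typ, gN] <;> rfl
  have hX : (cross (Equiv.swap (false, 0) (true, 0) : Perm (Bool × Fin 1)) : Pairing 1) = pJ ∅ := by
    apply Subtype.ext
    funext y
    obtain ⟨s, b, j⟩ := y
    have hj : j = 0 := Subsingleton.elim _ _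
    subst hj
    cases s <;> cases b <;> simp [cross, pJ, typ, gX]
  have hT : (typ (Function.update (fun _ : Fin 1 => gT) 0 gT) : Pairing 1) = pT := by
    unfold pT
    congr 1
    funext j
    have hj : j = 0 := Subsingleton.elim _ _
    subst hj
    simp
  have hN' : (typ (Function.update (fun _ : Fin 1 => gT) 0 gN) : Pairing 1) = pJ univ := by
    unfold pJ
    congr 1
    funext j
    have hj : j = 0 := Subsingleton.elim _ _
    subst hj
    simp
  have hX' : (typ (Function.update (fun _ : Fin 1 => gT) 0 gX) : Pairing 1) = pJ ∅ := by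
    unfold pJ
    congr 1
    funext j
    have hj : j = 0 := Subsingleton.elim _ _
    subst hj
    simp
  rw [hT, hN', hX'] at h3
  have huniv : (univ : Finset (Perm (Bool × Fin 1))) = {1, Equiv.swap (false, 0) (true, 0)} := by
    symm
    apply eq_univ_of_card
    rw [card_pair]
    · rw [Fintype.card_perm, Fintype.card_prod, Fintype.card_bool, Fintype.card_fin]
      rfl
    · intro h
      have := congrArg (fun σ : Perm (Bool × Fin 1) => σ (false, 0)) h
      simp at this
  have hne1 : (1 : Perm (Bool × Fin 1)) ≠ Equiv.swap (false, 0) (true, 0) := by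
    intro h
    have := congrArg (fun σ : Perm (Bool × Fin 1) => σ (false, 0)) h
    simp at this
  rw [huniv, sum_pair hne1, hN, hX, Fintype.sum_option]
  have hs : ((Perm.sign (Equiv.swap ((false, 0) : Bool × Fin 1) (true, 0)) : ℤˣ) : ℤ) = -1 := by
    rw [Perm.sign_swap (by simp)]
    simp
  have huniv2 : (univ : Finset (Finset (Fin 1))) = {univ, ∅} := by
    decide
  rw [hs, huniv2, sum_pair (by decide)]
  simp only [w2, phi2, r2, Perm.sign_one]
  have e0 : ¬ ((∅ : Finset (Fin 1)) = univ) := by decide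
  rw [if_neg e0]
  simp only [Nat.factorial_one, if_true]
  push_cast
  linarith

lemma WK_two (ρ : Flag I → Flag I) (K : Finset I) :
    WK ρ 2 r2 K = 2 ^ K.card * (-2) ^ loops ρ (fun _ => 1) (mN K) := by
  unfold WK
  rw [sum_eq_single (fun i => if i ∈ K then some univ else none)]
  · rw [psi_one]
    congr 1
    · rw [← prod_const, ← Finset.prod_filter_mul_prod_filter_not univ (fun i => i ∈ K)]
      have h1 : ∏ i ∈ univ.filter (fun i => i ∈ K),
          w2 2 r2 (if i ∈ K then some univ else none) = ∏ i ∈ K, (2 : ℤ) := by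
        rw [filter_mem_eq_inter, univ_inter]
        refine prod_congr rfl fun i hi => ?_
        rw [if_pos hi]
        simp [w2, r2]
      have h2 : ∏ i ∈ univ.filter (fun i => ¬ i ∈ K),
          w2 2 r2 (if i ∈ K then some univ else none) = 1 := by
        refine prod_eq_one fun i hi => ?_
        rw [mem_filter] at hi
        rw [if_neg hi.2]
        simp [w2]
      rw [h1, h2, mul_one]
    · congr 2
      funext i
      unfold mN
      by_cases hi : i ∈ K
      · simp only [hi, if_true]
        rfl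
      · simp only [hi, if_false]
        rfl
  · intro b hb hne
    rw [mem_filter] at hb
    have : ∃ i ∈ K, b i = some ∅ := by
      by_contra hcon
      push Not at hcon
      apply hne
      funext i
      by_cases hi : i ∈ K
      · rw [if_pos hi]
        have h1 : b i ≠ none := by
          rw [← hb.2] at hi
          simpa [supp] using hi
        obtain ⟨J, hJ⟩ := Option.ne_none_iff_exists'.1 h1
        have h2 : J = univ ∨ J = ∅ := by
          clear hJ
          revert J
          decide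
        rcases h2 with h2 | h2
        · rw [hJ, h2]
        · exact absurd (by rw [hJ, h2]) (hcon i hi)
      · rw [if_neg hi]
        by_contra h1
        apply hi
        rw [← hb.2]
        simp [supp, h1]
    obtain ⟨i, hi, hbi⟩ := this
    rw [prod_eq_zero (mem_univ i), zero_mul]
    rw [hbi]
    simp only [w2, r2]
    rw [if_neg (by decide), mul_zero]
  · intro h
    exfalso
    apply h
    rw [mem_filter]
    refine ⟨mem_univ _, ?_⟩
    ext i
    simp [supp]

/-- the loops respect the components -/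
lemma kap_le_loops (ρ : Flag I → Flag I) (K : Finset I) :
    kap ρ K ≤ loops ρ (fun _ => 1) (mN K) := by
  classical
  unfold kap loops
  haveI : Finite (Quot (Step ρ (fun _ => (1 : Perm (Fin 1))) (mN K))) := Quot.finite _
  refine Nat.card_le_card_of_surjective
    (Quot.lift (fun a => Quot.mk (HStep ρ K) (fl a)) ?_) ?_
  · rintro ⟨i, s, b, j⟩ y (h | h)
    · subst h
      exact Quot.sound (Or.inl rfl)
    · subst h
      refine Quot.sound (Or.inr ⟨rfl, ?_⟩)
      by_cases hi : i ∈ K
      · exact Or.inr hi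
      · refine Or.inl ?_
        simp [mN, hi, fl, pT, typ, gT]
  · rintro ⟨x⟩
    exact ⟨Quot.mk _ (pt x 0), rfl⟩

lemma loops_parity (ρ : Flag I → Flag I) (hρ : ∀ x, ρ (ρ x) = x) (hne : ∀ x, ρ x ≠ x)
    (ho : ∀ x, xor (ρ x).2.2 (ρ x).2.1 = !(xor x.2.2 x.2.1)) (K : Finset I) (i : I)
    (hi : i ∉ K) :
    (loops ρ (fun _ => 1) (mN K) + loops ρ (fun _ => 1) (mN (insert i K))) % 2 = 1 := by
  classical
  have hoo : ∀ (K' : Finset I) (a : Port I 1),
      xor ((mN K' a.1).1 a.2).2.1 ((mN K' a.1).1 a.2).1 = !(xor a.2.2.1 a.2.1) := by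
    rintro K' ⟨i', s, b, j⟩
    have hj : j = 0 := Subsingleton.elim _ _
    subst hj
    unfold mN
    split_ifs
    · cases s <;> cases b <;> simp [pJ, typ, gN]
    · cases s <;> cases b <;> simp [pT, typ, gT]
  refine tq1_parity (α := Port I 1) (strand ρ (fun _ => 1))
    (fun a => (a.1, (mN K a.1).1 a.2)) (fun a => (a.1, (mN (insert i K) a.1).1 a.2))
    (fun a => xor a.2.2.1 a.2.1) ?_ ?_ ?_ ?_ ?_ ?_ ?_ ?_ ?_
    (i, false, false, 0) (i, false, true, 0) (i, true, false, 0) (i, true, true, 0)
    ?_ ?_ ?_ ?_ ?_ ?_ ?_ ?_ ?_ ?_ ?_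
  · intro a
    simp only [strand, fl, pt]
    obtain ⟨i', s, b, j⟩ := a
    simp [hρ]
  · intro a h
    have h1 := congrArg fl h
    simp only [strand, fl, pt] at h1
    exact hne _ h1
  · intro a
    exact ho (fl a)
  · intro a
    simp only [(mN K a.1).2.1]
  · intro a h
    have h1 := congrArg Prod.snd h
    exact (mN K a.1).2.2 _ h1
  · exact hoo K
  · intro a
    simp only [(mN (insert i K) a.1).2.1]
  · intro a h
    have h1 := congrArg Prod.snd h
    exact (mN (insert i K) a.1).2.2 _ h1
  · exact hoo (insert i K)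
  · simp
  · simp
  · simp
  · simp
  · simp
  · simp
  · simp [mN, hi, pT, typ, gT]
  · simp [mN, hi, pT, typ, gT]
  · simp [mN, pJ, typ, gN]
  · simp [mN, pJ, typ, gN]
  · rintro ⟨i', s, b, j⟩ h1 h2 h3 h4
    have hj : j = 0 := Subsingleton.elim _ _
    subst hj
    have hii : i' ≠ i := by
      rintro rfl
      cases s <;> cases b <;> simp_all
    simp [mN, hii]

lemma loops_parity_all (ρ : Flag I → Flag I) (hρ : ∀ x, ρ (ρ x) = x) (hne : ∀ x, ρ x ≠ x)
    (ho : ∀ x, xor (ρ x).2.2 (ρ x).2.1 = !(xor x.2.2 x.2.1)) (K : Finset I) :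
    (loops ρ (fun _ => 1) (mN K) + K.card) % 2 = loops ρ (fun _ => 1) (mN (∅ : Finset I)) % 2 := by
  classical
  induction K using Finset.induction with
  | empty => simp
  | insert i K hi ih =>
    have := loops_parity ρ hρ hne ho K i hi
    rw [card_insert_of_notMem hi]
    omega

lemma loops_empty (ρ : Flag I → Flag I) (hρ : ∀ x, ρ (ρ x) = x) (hne : ∀ x, ρ x ≠ x) :
    loops ρ (fun _ => 1) (mN (∅ : Finset I)) = kap ρ ∅ := by
  have h := turn_neg_two (c := 1) ρ hρ hne
  have h1 : (fun _ : I => (pT : Pairing 1)) = mN ∅ := by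
    funext i; simp [mN]
  rw [h1, psi_one] at h
  simp only [Nat.factorial_one, Nat.cast_one, one_pow, one_mul, pow_one] at h
  have h2 : ((-1 : ℤ) * (((1 + 1).factorial : ℕ) : ℤ)) = -2 := by
    norm_num [Nat.factorial]
  rw [h2] at h
  have h3 := congrArg Int.natAbs h
  rw [Int.natAbs_pow, Int.natAbs_pow] at h3
  exact Nat.pow_right_injective (le_refl 2) h3

/-- the core theorem for `p = 2`, oriented case -/
theorem core_two_aux (ρ : Flag I → Flag I) (hρ : ∀ x, ρ (ρ x) = x) (hne : ∀ x, ρ x ≠ x)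
    (ho : ∀ x, xor (ρ x).2.2 (ρ x).2.1 = !(xor x.2.2 x.2.1))
    (hτ : ¬ (4 : ℤ) ∣ tau ρ) : CoverI ρ 1 := by
  classical
  by_contra hno
  have hr := fun (m : I → Pairing 1) (i : I) => local_two ρ hρ hne m i
  have h0 : ∑ K : Finset I, WK ρ 2 r2 K = 0 := by
    rw [sum_WK]
    exact total_zero ρ hρ hne hno 2 r2 hr
  have h1 : (2 : ℤ) ^ (kap ρ ∅ + 2) ∣ (-2) ^ kap ρ ∅ * tau ρ := by
    have hsplit := sum_filter_add_sum_filter_not (univ : Finset (Finset I))
      (fun K => kap ρ K + K.card = kap ρ ∅) (fun K => WK ρ 2 r2 K)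
    rw [h0] at hsplit
    have hfor : ∑ K ∈ (univ : Finset (Finset I)).filter (fun K => kap ρ K + K.card = kap ρ ∅),
        WK ρ 2 r2 K = (-2) ^ kap ρ ∅ * tau ρ := by
      unfold tau
      rw [mul_sum]
      refine sum_congr rfl fun K hK => ?_
      rw [mem_filter] at hK
      rw [WK_forest one_pos ρ hρ hne 2 r2 hr K hK.2]
      have h3 : (fun _ : I => (pT : Pairing 1)) = mN ∅ := by
        funext i; simp [mN]
      rw [h3, psi_one, loops_empty ρ hρ hne]
      simp only [Nat.factorial_one, Nat.cast_one, one_pow, one_mul]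
      ring
    rw [hfor] at hsplit
    have hrest : (2 : ℤ) ^ (kap ρ ∅ + 2) ∣ ∑ K ∈ (univ : Finset (Finset I)).filter
        (fun K => ¬ (kap ρ K + K.card = kap ρ ∅)), WK ρ 2 r2 K := by
      refine dvd_sum fun K hK => ?_
      rw [mem_filter] at hK
      rw [WK_two]
      have e1 : ((-2 : ℤ)) ^ loops ρ (fun _ => 1) (mN K) =
          (-1) ^ loops ρ (fun _ => 1) (mN K) * 2 ^ loops ρ (fun _ => 1) (mN K) := by
        rw [← mul_pow]; norm_num
      rw [e1]
      have e2 : (2 : ℤ) ^ K.card * ((-1) ^ loops ρ (fun _ => 1) (mN K) *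
          2 ^ loops ρ (fun _ => 1) (mN K)) =
          2 ^ (K.card + loops ρ (fun _ => 1) (mN K)) * (-1) ^ loops ρ (fun _ => 1) (mN K) := by
        rw [pow_add]; ring
      rw [e2]
      refine Dvd.dvd.mul_right (pow_dvd_pow _ ?_) _
      have h4 := kap_le ρ K
      have h5 := hK.2
      have h6 := kap_le_loops ρ K
      have h7 := loops_parity_all ρ hρ hne ho K
      rw [loops_empty ρ hρ hne] at h7
      omega
    have : (-2 : ℤ) ^ kap ρ ∅ * tau ρ = - ∑ K ∈ (univ : Finset (Finset I)).filter
        (fun K => ¬ (kap ρ K + K.card = kap ρ ∅)), WK ρ 2 r2 K := by linarith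
    rw [this]
    exact (dvd_neg).2 hrest
  apply hτ
  have e3 : (-2 : ℤ) ^ kap ρ ∅ = (-1) ^ kap ρ ∅ * 2 ^ kap ρ ∅ := by
    rw [← mul_pow]; norm_num
  have e4 : (2 : ℤ) ^ kap ρ ∅ * 4 ∣ 2 ^ kap ρ ∅ * ((-1) ^ kap ρ ∅ * tau ρ) := by
    have e5 : (2 : ℤ) ^ (kap ρ ∅ + 2) = 2 ^ kap ρ ∅ * 4 := by rw [pow_add]; norm_num
    rw [← e5]
    have e6 : (2 : ℤ) ^ kap ρ ∅ * ((-1) ^ kap ρ ∅ * tau ρ) = (-2) ^ kap ρ ∅ * tau ρ := by
      rw [e3]; ring
    rw [e6]
    exact h1
  have e7 := (mul_dvd_mul_iff_left (pow_ne_zero _ (by norm_num : (2 : ℤ) ≠ 0))).1 e4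
  have e8 := e7.mul_left ((-1) ^ kap ρ ∅)
  rw [← mul_assoc, ← mul_pow] at e8
  simpa using e8

/-- flip the flags at the ends of the matching edges -/
def flipE (e : I → Bool → Bool) (x : Flag I) : Flag I := (x.1, x.2.1, xor x.2.2 (e x.1 x.2.1))

lemma flipE_flipE (e : I → Bool → Bool) (x : Flag I) : flipE e (flipE e x) = x := by
  obtain ⟨i, s, b⟩ := x
  simp [flipE]

/-- the core theorem for `p = 2` -/
theorem core_two (ρ : Flag I → Flag I) (hρ : ∀ x, ρ (ρ x) = x) (hne : ∀ x, ρ x ≠ x)
    (hτ : ¬ (4 : ℤ) ∣ tau ρ) : CoverI ρ 1 := by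
  classical
  obtain ⟨o, ho1, ho2⟩ := tq2_orient ρ (fun x : Flag I => (x.1, x.2.1, !x.2.2)) hρ hne
    (by rintro ⟨i, s, b⟩; simp) (by rintro ⟨i, s, b⟩ h; simp at h)
  set e : I → Bool → Bool := fun i s => xor (o (i, s, false)) s with he
  have hst : ∀ y : Flag I, xor (flipE e y).2.2 (flipE e y).2.1 = o y := by
    rintro ⟨i, s, b⟩
    have h1 := ho2 (i, s, false)
    simp only [Bool.not_false] at h1
    cases b
    · simp [flipE, he]
    · rw [h1]
      simp [flipE, he]
  set ρ' : Flag I → Flag I := fun x => flipE e (ρ (flipE e x)) with hρ'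
  have h1 : ∀ x, ρ' (ρ' x) = x := by
    intro x
    simp only [hρ', flipE_flipE, hρ]
  have h2 : ∀ x, ρ' x ≠ x := by
    intro x h
    apply hne (flipE e x)
    have := congrArg (flipE e) h
    simp only [hρ', flipE_flipE] at this
    exact this
  have h3 : ∀ x, xor (ρ' x).2.2 (ρ' x).2.1 = !(xor x.2.2 x.2.1) := by
    intro x
    have h4 := hst (ρ (flipE e x))
    have h5 := hst (flipE e x)
    rw [flipE_flipE] at h5
    rw [h5, ← ho1, ← h4]
  have hk : ∀ K, kap ρ' K = kap ρ K := by
    intro K
    unfold kap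
    symm
    refine Nat.card_congr (Quot.congr ⟨flipE e, flipE e, flipE_flipE e, flipE_flipE e⟩ ?_)
    intro x y
    simp only [Equiv.coe_fn_mk, HStep, hρ', flipE_flipE]
    constructor
    · rintro (h | h)
      · exact Or.inl (by rw [h])
      · exact Or.inr h
    · rintro (h | h)
      · refine Or.inl ?_
        have := congrArg (flipE e) h
        simpa only [flipE_flipE] using this
      · exact Or.inr h
  have hτ' : ¬ (4 : ℤ) ∣ tau ρ' := by
    unfold tau at hτ ⊢
    simpa only [hk] using hτ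
  obtain ⟨k, S, hS1, hS2, hS3, hS4⟩ := core_two_aux ρ' h1 h2 h3 hτ'
  refine ⟨k, fun x => S (flipE e x), fun x => hS1 _, fun x => ?_, fun i s => ?_, fun i => ?_⟩
  · have := hS2 (flipE e x)
    simp only [hρ', flipE_flipE] at this
    exact this
  · have := hS3 i s
    simp only [flipE]
    cases e i s
    · simpa using this
    · simpa using this.symm
  · have := hS4 i
    simp only [flipE]
    cases h6 : e i false <;> cases h7 : e i true
    · simpa using this
    · simp only [Bool.xor_false, Bool.xor_true, Bool.not_false, Bool.not_true]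
      rw [this, union_comm]
    · simp only [Bool.xor_false, Bool.xor_true, Bool.not_false, Bool.not_true]
      rw [union_comm, this]
    · simp only [Bool.xor_true, Bool.not_false, Bool.not_true]
      rw [union_comm, this, union_comm]

end Pool.Agent.H1.TP
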