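import Pool.Agent.H1.TP.Fin4
import Pool.Agent.H1.TP.Two

set_option autoImplicit false
set_option linter.unusedVariables false
set_option linter.unusedSectionVars false

namespace Pool.Agent.H1.TP

open Finset Equiv
open Pool.Agent.H126R2.CDC (MGraph)

variable {V E : Type} [Fintype V] [DecidableEq V] [Fintype E] [DecidableEq E]

/-- the refinement for `p = 2` -/
theorem main_two (G : MGraph V E) (F : Finset E) (hF : ∀ v, Even (G.deg F v))
    (ht : ¬ (4 : ℤ) ∣ tuttG G F) : Cov G F 1 := by
  obtain ⟨A⟩ := th3_premodel G F hF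
  obtain ⟨B, hB⟩ := th5_model G F A
  rw [tutt_dvd, tau_eq G F B] at ht
  exact th4_cover G F B 1 (core_two B.rho B.rho_rho B.rho_ne ht)

end Pool.Agent.H1.TP
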