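import Pool.Agent.H1.TP.Fin5

set_option autoImplicit false
set_option linter.unusedVariables false
set_option linter.unusedSectionVars false

namespace Pool.Agent.H1.TP

open Finset Equiv
open Pool.Agent.H126R2.CDC (MGraph)
open Pool.Agent.H126R2.NC (InCone InLat InIntCone cone_lat_of_intCone)
open Pool.Agent.TH399.CC (intCone_add)

variable {V E : Type} [Fintype V] [DecidableEq V] [Fintype E] [DecidableEq E]

/-- two-valued weightings which are not extreme -/
theorem two_valued_lin (G : MGraph V E) (hG : G.Bridgeless) (F : Finset E)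
    (hF : ∀ v, Even (G.deg F v)) (c : ℕ) (h0 : c ≠ 0) (hc : Cov G F c)
    (x y : ℕ) (hy : Even y) (hxy : y + 2 * c + 37 ≤ 2 * x) :
    InIntCone G (fun e => if e ∈ F then x else y) := by
  have hc' : InIntCone G (fun e => if e ∈ F then c else 2 * c) := hc
  rcases le_or_gt y x with h | h
  · refine intCone_add G (intCone_const G hG y hy) (intCone_even G F hF (x - y)) (fun e => ?_)
    split_ifs <;> omega
  obtain ⟨d, hd⟩ : ∃ d, y = x + d := ⟨y - x, by omega⟩
  obtain ⟨s, hs⟩ : ∃ s, x = d + s := ⟨x - d, by omega⟩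
  have hse : Even s := by
    have h1 : 2 * x = y + s := by omega
    have h2 : Even (y + s) := by rw [← h1]; exact even_two_mul _
    exact (Nat.even_add.1 h2).1 hy
  have hr : d % c < c := Nat.mod_lt _ (Nat.pos_of_ne_zero h0)
  have hdiv : c * (d / c) + d % c = d := Nat.div_add_mod d c
  set r := d % c with hrdef
  set a := d / c with hadef
  have h39 : 2 * r + 39 ≤ s := by omega
  have hI : InIntCone G (fun e => if e ∈ F then r + s else 2 * r + s) := by
    refine (Pool.Agent.H1.SC.ratio_four_thirds G _ (fun e f => ?_)).2 ⟨?_, ?_⟩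
    · split_ifs <;> omega
    · apply inCone_div G c h0
      refine (cone_lat_of_intCone G _ ?_).1
      refine intCone_add G (intCone_const G hG (c * s) (hse.mul_left _))
        (intCone_mul G r hc' (fun e => rfl)) (fun e => ?_)
      split_ifs <;> ring
    · have h1 := (cone_lat_of_intCone G _ (intCone_const G hG 2 even_two)).2
      have h2 := (cone_lat_of_intCone G _ (intCone_even G F hF 1)).2
      have h3 := (cone_lat_of_intCone G _ (intCone_const G hG s hse)).2
      have h4 := AddSubgroup.add_mem _ (AddSubgroup.nsmul_mem _ (AddSubgroup.sub_mem _ h1 h2) r) h3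
      unfold InLat
      convert h4 using 1
      funext e
      by_cases he : e ∈ F
      · simp only [he, if_true, Pi.add_apply, Pi.smul_apply, Pi.sub_apply, nsmul_eq_mul]
        push_cast
        simp only [he, if_true, Pi.sub_apply, Pi.mul_apply, Pi.natCast_apply]
        ring
      · simp only [he, if_false, Pi.add_apply, Pi.smul_apply, Pi.sub_apply, nsmul_eq_mul]
        push_cast
        simp only [he, if_false, Pi.sub_apply, Pi.mul_apply, Pi.natCast_apply]
        ring
  refine intCone_add G hI (intCone_mul G a hc' (fun e => rfl)) (fun e => ?_)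
  split_ifs
  · rw [hs, ← hdiv]; ring
  · rw [hd, hs, ← hdiv]; ring

/-- the bounds in terms of the logarithm of `T` -/
theorem final6 (G : MGraph V E) (F : Finset E) (hF : ∀ v, Even (G.deg F v)) (hG : G.Bridgeless)
    (L : ℕ) (hL : tuttG G F ≤ 2 ^ L) :
      (∃ c : ℕ, c ≠ 0 ∧ Even c ∧ c ≤ 2 * L + 2 ∧ Cov G F c) ∧
      (∀ x y : ℕ, Even y → y + 4 * L + 42 ≤ 2 * x →
        InIntCone G (fun e => if e ∈ F then x else y)) ∧
      ∀ x y : ℕ, Even x → Even y → y ≤ 2 * x →
        3 * (L * (L + 1) * 2 ^ (L + 1)) + 39 ≤ x →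
        InIntCone G (fun e => if e ∈ F then x else y) := by
  obtain ⟨h1, h2⟩ := final G F hF
  have hpos := tutt_pos G hG F
  have hle : (tuttG G F).natAbs ≤ 2 ^ L := by
    have h3 : ((tuttG G F).natAbs : ℤ) ≤ ((2 ^ L : ℕ) : ℤ) := by
      rw [Int.natCast_natAbs, abs_of_pos hpos]
      push_cast
      exact hL
    exact_mod_cast h3
  have h5 : ∃ c : ℕ, c ≠ 0 ∧ Even c ∧ c ≤ 2 * L + 2 ∧ Cov G F c := by
    obtain ⟨p, hp, h2, hpm, hnd⟩ := tb1_prime L _ hpos.ne' hle
    have hodd : p % 2 = 1 := Nat.odd_iff.1 (hp.odd_of_ne_two h2)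
    have hp2 := hp.two_le
    refine ⟨p - 1, by omega, ?_, by omega, h1 p hp hnd⟩
    rw [Nat.even_iff]
    omega
  have h6 : ∀ c : ℕ, Even c → L * (L + 1) * 2 ^ (L + 1) ≤ c → Cov G F c := by
    intro c hc hle'
    obtain ⟨k, hk⟩ := hc
    have h6 : L * (L + 1) * 2 ^ L ≤ k := by
      have : L * (L + 1) * 2 ^ (L + 1) = 2 * (L * (L + 1) * 2 ^ L) := by
        rw [pow_succ]; ring
      rw [this] at hle'
      omega
    have h7 := tb2_semigroup L (tuttG G F) hpos.ne' hle {a | Cov G F a}
      (Cov.zero G F) (fun a ha b hb => Cov.add ha hb) (fun p hp hd => h1 p hp hd) k h6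
    have h8 : c = 2 * k := by omega
    rw [h8]
    exact h7
  refine ⟨h5, fun x y hy hxy => ?_, fun x y hx hy hxy hxN => two_valued G hG F hF _ h6 x y hx hy hxy hxN⟩
  obtain ⟨c, hc0, hc1, hc2, hc3⟩ := h5
  exact two_valued_lin G hG F hF c hc0 hc3 x y hy (by omega)

end Pool.Agent.H1.TP
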