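import Mathlib

set_option autoImplicit false

namespace Pool.Agent.H1.TP

namespace TR4

theorem babbage (p : ℕ) (hp : p.Prime) (h2 : p ≠ 2) :
    (p : ℤ) ^ 2 ∣ (((2 * p - 1).choose p : ℕ) : ℤ) - 1 := by
  have hp1 : 1 ≤ p := hp.one_lt.le
  have hv : (p + p).choose p = ∑ i ∈ Finset.range (p + 1), p.choose i * p.choose (p - i) := by
    rw [Nat.add_choose_eq, Finset.Nat.sum_antidiagonal_eq_sum_range_succ_mk]
  have hmid : (p : ℤ) ^ 2 ∣ (((p + p).choose p : ℕ) : ℤ) - 2 := by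
    obtain ⟨q, rfl⟩ : ∃ q, p = q + 1 := ⟨p - 1, by omega⟩
    rw [Finset.sum_range_succ, Finset.sum_range_succ'] at hv
    have h0 : (q + 1).choose 0 * (q + 1).choose (q + 1 - 0) = 1 := by simp
    have h1 : (q + 1).choose (q + 1) * (q + 1).choose (q + 1 - (q + 1)) = 1 := by simp
    rw [h0, h1] at hv
    have h3 : (q + 1) ^ 2 ∣ ∑ k ∈ Finset.range q, (q + 1).choose (k + 1) * (q + 1).choose (q + 1 - (k + 1)) := by
      apply Finset.dvd_sum
      intro k hk
      rw [Finset.mem_range] at hk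
      rw [pow_two]
      apply mul_dvd_mul
      · exact hp.dvd_choose_self (by omega) (by omega)
      · exact hp.dvd_choose_self (by omega) (by omega)
    obtain ⟨c, hc⟩ := h3
    rw [hc] at hv
    refine ⟨c, ?_⟩
    rw [hv]
    push_cast
    ring
  have h3 : (p + p).choose p = 2 * (2 * p - 1).choose p := by
    obtain ⟨q, rfl⟩ : ∃ q, p = q + 1 := ⟨p - 1, by omega⟩
    have e1 : q + 1 + (q + 1) = (2 * q + 1) + 1 := by ring
    have e2 : 2 * (q + 1) - 1 = 2 * q + 1 := by omega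
    rw [e1, e2, Nat.choose_succ_succ]
    have e3 : (2 * q + 1).choose q = (2 * q + 1).choose (q + 1) :=
      Nat.choose_symm_half q |>.symm
    rw [e3]
    ring
  rw [h3] at hmid
  have h4 : (p : ℤ) ^ 2 ∣ 2 * ((((2 * p - 1).choose p : ℕ) : ℤ) - 1) := by
    have : 2 * ((((2 * p - 1).choose p : ℕ) : ℤ) - 1) =
      ((2 * (2 * p - 1).choose p : ℕ) : ℤ) - 2 := by push_cast; ring
    rw [this]
    exact hmid
  have hcop : IsCoprime ((p : ℤ) ^ 2) 2 := by
    apply IsCoprime.pow_left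
    have : Nat.Coprime p 2 := (Nat.coprime_primes hp Nat.prime_two).2 h2
    exact_mod_cast Nat.isCoprime_iff_coprime.2 this
  exact hcop.dvd_of_dvd_mul_left h4

theorem pow_cong (p : ℤ) (l : ℕ) : p ^ 2 ∣ (1 + 2 * p) ^ l - (1 + 2 * p * l) := by
  induction l with
  | zero => simp
  | succ l ih =>
    obtain ⟨c, hc⟩ := ih
    refine ⟨c * (1 + 2 * p) + 4 * l, ?_⟩
    have : (1 + 2 * p) ^ (l + 1) = (p ^ 2 * c + (1 + 2 * p * l)) * (1 + 2 * p) := by
      rw [pow_succ, ← hc]; ring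
    rw [this]
    push_cast
    ring

end TR4

theorem tr4_cat (p : ℕ) (hp : p.Prime) (h2 : p ≠ 2) :
    ∃ C : ℤ, (((2 * (p - 1)).choose (p - 1) : ℕ) : ℤ) = p * C ∧
      ∀ l : ℕ, (p : ℤ) ^ 2 ∣ 1 + (-1) ^ l * (2 * p - 1) * C ^ l - 2 * p * (1 - l) := by
  have hb := TR4.babbage p hp h2
  obtain ⟨q, hq⟩ : ∃ q, p = q + 1 := ⟨p - 1, by have := hp.one_lt; omega⟩
  refine ⟨(catalan (p - 1) : ℕ), ?_, ?_⟩
  · have h := succ_mul_catalan_eq_centralBinom (p - 1)
    rw [Nat.centralBinom_eq_two_mul_choose] at h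
    rw [← h]
    have e : p - 1 + 1 = p := by omega
    rw [e]
    push_cast
    ring
  · intro l
    have h := succ_mul_catalan_eq_centralBinom (p - 1)
    rw [Nat.centralBinom_eq_two_mul_choose] at h
    have e : p - 1 + 1 = p := by omega
    rw [e] at h
    have h5 := Nat.add_one_mul_choose_eq (2 * (p - 1)) (p - 1)
    rw [← h] at h5
    have e2 : 2 * (p - 1) + 1 = 2 * p - 1 := by omega
    have e3 : p - 1 + 1 = p := by omega
    rw [e2, e3] at h5
    have h6 : (2 * p - 1) * catalan (p - 1) = (2 * p - 1).choose p := by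
      apply Nat.eq_of_mul_eq_mul_right hp.pos
      rw [← h5]
      ring
    have h7 : (2 * (p : ℤ) - 1) * (catalan (p - 1) : ℕ) = ((2 * p - 1).choose p : ℕ) := by
      rw [← h6]
      have : 1 ≤ 2 * p := by omega
      push_cast [Nat.cast_sub this]
      ring
    rw [← h7] at hb
    generalize (((catalan (p - 1) : ℕ)) : ℤ) = C at hb ⊢
    obtain ⟨c, hc⟩ := hb
    have h8 : (p : ℤ) ^ 2 ∣ (-C) - (1 + 2 * p) := by
      refine ⟨(1 + 2 * p) * c - 4 * C, ?_⟩
      linear_combination (1 + 2 * (p : ℤ)) * hc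
    have h9 : (p : ℤ) ^ 2 ∣ (-C) ^ l - (1 + 2 * p) ^ l := h8.trans (sub_dvd_pow_sub_pow _ _ l)
    obtain ⟨a, ha⟩ := h9
    obtain ⟨b, hb⟩ := TR4.pow_cong p l
    refine ⟨(2 * p - 1) * (a + b) + 4 * l, ?_⟩
    have e4 : (-1) ^ l * C ^ l = (-C) ^ l := by rw [← mul_pow]; ring
    have e5 : 1 + (-1) ^ l * (2 * (p : ℤ) - 1) * C ^ l - 2 * p * (1 - l) =
        1 + (2 * (p : ℤ) - 1) * (-C) ^ l - 2 * p * (1 - l) := by rw [← e4]; ring
    rw [e5]
    linear_combination (2 * (p : ℤ) - 1) * (ha + hb)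

end Pool.Agent.H1.TP
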