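import Pool.Agent.H1.TP.Core

set_option autoImplicit false

/-! TR5: double counting for sets of nullity one. -/

namespace Pool.Agent.H1.TP

open Finset

namespace TR5

variable {I : Type} [Fintype I] [DecidableEq I]

lemma reindex (g : Finset I → I → ℤ) :
    ∑ K : Finset I, ∑ i ∈ K, g K i = ∑ f : Finset I, ∑ i ∈ fᶜ, g (insert i f) i := by
  have h1 : ∑ K : Finset I, ∑ i ∈ K, g K i =
      ∑ i : I, ∑ K ∈ univ.filter (fun K : Finset I => i ∈ K), g K i := by
    refine Finset.sum_comm' ?_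
    intro K i
    rw [mem_filter]
    exact ⟨fun h => ⟨h, mem_univ _⟩, fun h => h.1⟩
  have h2 : ∑ f : Finset I, ∑ i ∈ fᶜ, g (insert i f) i =
      ∑ i : I, ∑ f ∈ univ.filter (fun f : Finset I => i ∉ f), g (insert i f) i := by
    refine Finset.sum_comm' ?_
    intro K i
    rw [mem_filter, mem_compl]
    exact ⟨fun h => ⟨h, mem_univ _⟩, fun h => h.1⟩
  rw [h1, h2]
  refine sum_congr rfl fun i _ => ?_
  refine sum_bij' (fun K _ => K.erase i) (fun f _ => insert i f) ?_ ?_ ?_ ?_ ?_
  · intro K _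
    rw [mem_filter]
    exact ⟨mem_univ _, notMem_erase i K⟩
  · intro f _
    rw [mem_filter]
    exact ⟨mem_univ _, mem_insert_self i f⟩
  · intro K hK
    exact insert_erase (mem_filter.mp hK).2
  · intro f hf
    exact erase_insert (mem_filter.mp hf).2
  · intro K hK
    rw [insert_erase (mem_filter.mp hK).2]

/-- the abstract form -/
lemma abs_sum (κ : Finset I → ℕ) (h1 : ∀ K i, κ K ≤ κ (insert i K) + 1)
    (h2 : ∀ K i, κ (insert i K) ≤ κ K) (h3 : ∀ K, κ ∅ ≤ κ K + K.card) :
    ∑ K ∈ (univ : Finset (Finset I)).filter (fun K => κ K + K.card = κ ∅ + 1),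
      (-1 : ℤ) ^ K.card * ((K.filter fun i => κ (K.erase i) = κ K).card : ℤ) =
    - (Fintype.card I : ℤ) *
      ∑ K ∈ (univ : Finset (Finset I)).filter (fun K => κ K + K.card = κ ∅), (-1 : ℤ) ^ K.card := by
  -- `A`
  have hA : ∑ K ∈ (univ : Finset (Finset I)).filter (fun K => κ K + K.card = κ ∅ + 1),
      (-1 : ℤ) ^ K.card * ((K.filter fun i => κ (K.erase i) = κ K).card : ℤ) =
      ∑ f : Finset I, ∑ i ∈ fᶜ, (if κ f + f.card = κ ∅ ∧
        κ (insert i f) + (f.card + 1) = κ ∅ + 1 then - (-1 : ℤ) ^ f.card else 0) := by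
    have e1 : ∑ K ∈ (univ : Finset (Finset I)).filter (fun K => κ K + K.card = κ ∅ + 1),
        (-1 : ℤ) ^ K.card * ((K.filter fun i => κ (K.erase i) = κ K).card : ℤ) =
        ∑ K : Finset I, ∑ i ∈ K, (if κ K + K.card = κ ∅ + 1 ∧ κ (K.erase i) = κ K then
          (-1 : ℤ) ^ K.card else 0) := by
      rw [sum_filter]
      refine sum_congr rfl fun K _ => ?_
      by_cases hK : κ K + K.card = κ ∅ + 1
      · rw [if_pos hK, ← sum_filter]
        have e2 : K.filter (fun i => κ K + K.card = κ ∅ + 1 ∧ κ (K.erase i) = κ K) =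
            K.filter (fun i => κ (K.erase i) = κ K) := by
          apply filter_congr
          intro i _
          exact ⟨fun h => h.2, fun h => ⟨hK, h⟩⟩
        rw [e2, sum_const, nsmul_eq_mul]
        ring
      · rw [if_neg hK]
        symm
        apply sum_eq_zero
        intro i _
        apply if_neg
        exact fun h => hK h.1
    rw [e1, reindex]
    refine sum_congr rfl fun f _ => sum_congr rfl fun i hi => ?_
    rw [mem_compl] at hi
    rw [erase_insert hi, card_insert_of_notMem hi]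
    by_cases h : κ f + f.card = κ ∅ ∧ κ (insert i f) + (f.card + 1) = κ ∅ + 1
    · rw [if_pos h, if_pos (by omega), pow_succ]
      ring
    · rw [if_neg h, if_neg (by omega)]
  -- `B`
  have hB : ∑ f : Finset I, (if κ f + f.card = κ ∅ then (-1 : ℤ) ^ f.card * (f.card : ℤ) else 0) =
      ∑ f : Finset I, ∑ i ∈ fᶜ, (if κ f + f.card = κ ∅ ∧
        ¬ κ (insert i f) + (f.card + 1) = κ ∅ + 1 then - (-1 : ℤ) ^ f.card else 0) := by
    have e1 : ∑ f : Finset I, (if κ f + f.card = κ ∅ then (-1 : ℤ) ^ f.card * (f.card : ℤ) else 0) =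
        ∑ K : Finset I, ∑ i ∈ K, (if κ K + K.card = κ ∅ then (-1 : ℤ) ^ K.card else 0) := by
      refine sum_congr rfl fun K _ => ?_
      rw [sum_const, nsmul_eq_mul]
      by_cases hK : κ K + K.card = κ ∅
      · rw [if_pos hK, if_pos hK]
        ring
      · rw [if_neg hK, if_neg hK, mul_zero]
    rw [e1, reindex]
    refine sum_congr rfl fun f _ => sum_congr rfl fun i hi => ?_
    rw [mem_compl] at hi
    have g1 := h1 f i
    have g2 := h2 f i
    have g3 := h3 f
    have g4 := h3 (insert i f)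
    rw [card_insert_of_notMem hi] at g4 ⊢
    by_cases h : κ f + f.card = κ ∅ ∧ ¬ κ (insert i f) + (f.card + 1) = κ ∅ + 1
    · rw [if_pos h, if_pos (by omega), pow_succ]
      ring
    · rw [if_neg h, if_neg (by omega)]
  -- sum
  have hAB : (∑ f : Finset I, ∑ i ∈ fᶜ, (if κ f + f.card = κ ∅ ∧
        κ (insert i f) + (f.card + 1) = κ ∅ + 1 then - (-1 : ℤ) ^ f.card else 0)) +
      ∑ f : Finset I, ∑ i ∈ fᶜ, (if κ f + f.card = κ ∅ ∧
        ¬ κ (insert i f) + (f.card + 1) = κ ∅ + 1 then - (-1 : ℤ) ^ f.card else 0) =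
      ∑ f : Finset I, (if κ f + f.card = κ ∅ then
        - (-1 : ℤ) ^ f.card * ((Fintype.card I : ℤ) - f.card) else 0) := by
    rw [← sum_add_distrib]
    refine sum_congr rfl fun f _ => ?_
    rw [← sum_add_distrib]
    have e1 : ∀ i ∈ fᶜ, ((if κ f + f.card = κ ∅ ∧
        κ (insert i f) + (f.card + 1) = κ ∅ + 1 then - (-1 : ℤ) ^ f.card else 0) +
        (if κ f + f.card = κ ∅ ∧
        ¬ κ (insert i f) + (f.card + 1) = κ ∅ + 1 then - (-1 : ℤ) ^ f.card else 0)) =
        (if κ f + f.card = κ ∅ then - (-1 : ℤ) ^ f.card else 0) := by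
      intro i _
      by_cases hf : κ f + f.card = κ ∅
      · by_cases hi : κ (insert i f) + (f.card + 1) = κ ∅ + 1
        · rw [if_pos ⟨hf, hi⟩, if_neg (fun h => h.2 hi), if_pos hf, add_zero]
        · rw [if_neg (fun h => hi h.2), if_pos ⟨hf, hi⟩, if_pos hf, zero_add]
      · rw [if_neg (fun h => hf h.1), if_neg (fun h => hf h.1), if_neg hf, add_zero]
    rw [sum_congr rfl e1, sum_const, nsmul_eq_mul, card_compl,
      Nat.cast_sub (card_le_univ f)]
    by_cases hf : κ f + f.card = κ ∅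
    · rw [if_pos hf, if_pos hf]
      ring
    · rw [if_neg hf, if_neg hf, mul_zero]
  rw [hA]
  rw [← hB] at hAB
  have hT : ∑ f : Finset I, (if κ f + f.card = κ ∅ then
        - (-1 : ℤ) ^ f.card * ((Fintype.card I : ℤ) - f.card) else 0) =
      - (Fintype.card I : ℤ) * (∑ K ∈ (univ : Finset (Finset I)).filter
        (fun K => κ K + K.card = κ ∅), (-1 : ℤ) ^ K.card) +
      ∑ f : Finset I, (if κ f + f.card = κ ∅ then (-1 : ℤ) ^ f.card * (f.card : ℤ) else 0) := by
    rw [sum_filter, mul_sum, ← sum_add_distrib]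
    refine sum_congr rfl fun f _ => ?_
    by_cases hf : κ f + f.card = κ ∅
    · rw [if_pos hf, if_pos hf, if_pos hf]
      ring
    · rw [if_neg hf, if_neg hf, if_neg hf]
      ring
  rw [hT] at hAB
  linarith

lemma quot_card_le {α : Type} [Finite α] (r r' : α → α → Prop) (h : ∀ x y, r x y → r' x y) :
    Nat.card (Quot r') ≤ Nat.card (Quot r) := by
  have hs : Function.Surjective (Quot.lift (Quot.mk r') (fun x y hxy => Quot.sound (h x y hxy)) :
      Quot r → Quot r') := by
    rintro ⟨x⟩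
    exact ⟨Quot.mk r x, rfl⟩
  have : Finite (Quot r) := Quot.finite _
  exact Nat.card_le_card_of_surjective _ hs

lemma kap_anti (ρ : Flag I → Flag I) (K : Finset I) (i : I) : kap ρ (insert i K) ≤ kap ρ K := by
  unfold kap
  apply quot_card_le
  rintro x y (h | ⟨h1, h2 | h2⟩)
  · exact Or.inl h
  · exact Or.inr ⟨h1, Or.inl h2⟩
  · exact Or.inr ⟨h1, Or.inr (mem_insert_of_mem h2)⟩

end TR5

variable {I : Type} [Fintype I] [DecidableEq I]

theorem tr5_sum (ρ : Flag I → Flag I) :
    ∑ K ∈ (univ : Finset (Finset I)).filter (fun K => kap ρ K + K.card = kap ρ ∅ + 1),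
      (-1 : ℤ) ^ K.card * ((K.filter fun i => kap ρ (K.erase i) = kap ρ K).card : ℤ) =
    - (Fintype.card I : ℤ) * tau ρ := by
  unfold tau
  exact TR5.abs_sum (kap ρ) (fun K i => (kap_insert ρ K i).1) (fun K i => TR5.kap_anti ρ K i)
    (fun K => kap_le ρ K)

end Pool.Agent.H1.TP
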