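import Pool.Agent.H1.TP.Gen2
import Pool.Agent.H1.TP.TR4
import Pool.Agent.H1.TP.TR5

set_option autoImplicit false
set_option linter.unusedVariables false
set_option linter.unusedSectionVars false

namespace Pool.Agent.H1.TP

open Finset Equiv Polynomial

variable {I : Type} [Fintype I] [DecidableEq I] {c : ℕ}

lemma psi_turn_even (hc : Even c) (ρ : Flag I → Flag I) (hρ : ∀ x, ρ (ρ x) = x)
    (hne : ∀ x, ρ x ≠ x) :
    Psi ρ (-2) (fun _ => (pT : Pairing c)) =
      (c.factorial : ℤ) ^ (4 * Fintype.card I) * ((c + 1 : ℕ) : ℤ) ^ kap ρ ∅ := by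
  have h := turn_neg_two (c := c) ρ hρ hne
  rw [hc.neg_one_pow, one_mul, Nat.factorial_succ] at h
  have h5 : (c.factorial : ℤ) ^ kap ρ ∅ ≠ 0 := pow_ne_zero _ (by exact_mod_cast c.factorial_ne_zero)
  apply mul_left_cancel₀ h5
  rw [h]
  push_cast
  rw [mul_pow]
  ring

lemma WK_pair (ρ : Flag I → Flag I) (p : ℕ) (r : Finset (Fin c) → ℤ)
    (hr : ∀ (m : I → Pairing c) (i : I),
      ∑ σ : Perm (Bool × Fin c), ((Perm.sign σ : ℤˣ) : ℤ) *
        Psi ρ (-2) (Function.update m i (cross σ)) =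
      ∑ b : Option (Finset (Fin c)), w2 p r b * Psi ρ (-2) (Function.update m i (phi2 b)))
    (K : Finset I) (i : I) (hi : i ∉ K) :
    (c.factorial : ℤ) ^ 2 * (WK ρ p r (insert i K) + WK ρ p r K) = AA ρ p r i K ∅ := by
  unfold WK AA
  rw [sum_supp_ins K i hi, ← sum_add_distrib, mul_sum]
  refine sum_congr rfl fun b hb => ?_
  rw [mem_filter] at hb
  have hbi : b i = none := supp_none b K hb.2 i hi
  have h1 : ∀ o, (∏ i', w2 p r (Function.update b i o i')) *
      Psi ρ (-2) (fun i' => phi2 (Function.update b i o i')) =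
      (∏ i' ∈ univ.erase i, w2 p r (b i')) *
        (w2 p r o * Psi ρ (-2) (Function.update (fun i' => phi2 (b i')) i (phi2 o))) := by
    intro o
    rw [phi2_update, ← mul_prod_erase univ _ (mem_univ i), Function.update_self]
    have : ∏ x ∈ univ.erase i, w2 p r (Function.update b i o x) =
        ∏ x ∈ univ.erase i, w2 p r (b x) := by
      refine prod_congr rfl fun x hx => ?_
      rw [Function.update_of_ne (ne_of_mem_erase hx)]
    rw [this]
    ring
  have h2 : Full ρ (fun i' => phi2 (b i')) i = ∑ o : Option (Finset (Fin c)), w2 p r o *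
      Psi ρ (-2) (Function.update (fun i' => phi2 (b i')) i (phi2 o)) := hr _ _
  have h3 : (mS b ∅ : I → Pairing c) = fun i' => phi2 (b i') := by
    funext i'
    unfold mS
    rcases b i' with _ | J
    · simp only [phi2]
      rfl
    · rfl
  have h4 := h1 none
  rw [← hbi, Function.update_eq_self] at h4
  rw [h3, h2, h4, sum_congr rfl fun J _ => h1 (some J), Fintype.sum_option,
    ← mul_prod_erase univ (fun i' => w2 p r (b i')) (mem_univ i), ← mul_sum, hbi]
  have e0 : w2 p r none = (c.factorial : ℤ) ^ 2 := rfl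
  rw [e0]
  ring

lemma kap_union_le (ρ : Flag I → Flag I) (S T : Finset I) :
    kap ρ S ≤ kap ρ (S ∪ T) + T.card := by
  induction T using Finset.induction with
  | empty => simp
  | insert j T hj ih =>
    rw [card_insert_of_notMem hj, union_insert]
    have := (kap_insert ρ (S ∪ T) j).1
    omega

lemma forest_subset (ρ : Flag I → Flag I) {S K : Finset I} (h : S ⊆ K)
    (hK : kap ρ K + K.card = kap ρ ∅) : kap ρ S + S.card = kap ρ ∅ := by
  have h1 := kap_union_le ρ S (K \ S)
  rw [union_sdiff_of_subset h] at h1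
  have h2 := kap_le ρ S
  have h3 := card_sdiff_add_card_eq_card h
  omega

lemma WK_cycle (hc0 : 0 < c) (hc : Even c) (ρ : Flag I → Flag I) (hρ : ∀ x, ρ (ρ x) = x)
    (hne : ∀ x, ρ x ≠ x) (p : ℕ) (hp : c + 1 = p) (r : Finset (Fin c) → ℤ)
    (hr : ∀ (m : I → Pairing c) (i : I),
      ∑ σ : Perm (Bool × Fin c), ((Perm.sign σ : ℤˣ) : ℤ) *
        Psi ρ (-2) (Function.update m i (cross σ)) =
      ∑ b : Option (Finset (Fin c)), w2 p r b * Psi ρ (-2) (Function.update m i (phi2 b)))
    (K : Finset I) (i : I) (hK : Cyc ρ K i) (B : ℤ)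
    (hB : (((2 * c).choose c : ℕ) : ℤ) = p * B) :
    WK ρ p r (insert i K) = (-1) ^ (K.card + 1) *
      ((c.factorial : ℤ) ^ (2 * Fintype.card I) * (c.factorial : ℤ) ^ (4 * Fintype.card I) *
        (p : ℤ) ^ kap ρ ∅) *
      (1 + (-1) ^ ((Ser ρ K i).card + 1) * (2 * p - 1) * B ^ ((Ser ρ K i).card + 1)) := by
  classical
  have h1 := WK_pair ρ p r hr K i hK.hi
  rw [AA_all ρ hρ hne p r hc0 hr K i hK K Subset.rfl ∅ (empty_subset _) (disjoint_empty_right _),
    AA_empty] at h1
  have hsub : Ser ρ K i ⊆ K := filter_subset _ _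
  have e1 : K ∩ Ser ρ K i = Ser ρ K i := inter_eq_right.2 hsub
  rw [empty_union, e1] at h1
  have hfor := forest_subset ρ hsub hK.forest
  have hpos : 0 < kap ρ (Ser ρ K i) := by
    unfold kap
    have : Finite (Quot (HStep ρ (Ser ρ K i))) :=
      Finite.of_surjective (Quot.mk _) Quot.mk_surjective
    have : Nonempty (Quot (HStep ρ (Ser ρ K i))) := ⟨Quot.mk _ (i, false, false)⟩
    exact Nat.card_pos
  obtain ⟨L, hL⟩ : ∃ L, kap ρ (Ser ρ K i) = L + 1 := ⟨kap ρ (Ser ρ K i) - 1, by omega⟩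
  rw [full_value hc ρ hρ hne (Ser ρ K i) i (fun h => hK.hi (hsub h)) hfor hK.ser_joined L hL] at h1
  have h2 := WK_forest hc0 ρ hρ hne p r hr K hK.forest
  rw [psi_turn_even hc ρ hρ hne, hp] at h2
  have h3 : (((2 * c + 1).factorial : ℕ) : ℤ) = (c.factorial : ℤ) ^ 2 * (p * B) * (2 * p - 1) := by
    rw [← hB, Nat.factorial_succ]
    have h4 := Nat.choose_mul_factorial_mul_factorial (n := 2 * c) (k := c) (by omega)
    have h5 : 2 * c - c = c := by omega
    rw [h5] at h4
    rw [← h4, ← hp]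
    push_cast
    ring
  rw [h3, hp, hB] at h1
  set s := (Ser ρ K i).card with hs
  have h6 : K.card = (K \ Ser ρ K i).card + s := by
    rw [hs, card_sdiff_add_card_eq_card hsub]
  have h7 : kap ρ ∅ = L + 1 + s := by omega
  have h8 : (c.factorial : ℤ) ^ 2 ≠ 0 := pow_ne_zero _ (by exact_mod_cast c.factorial_ne_zero)
  have h9 : ((-1 : ℤ)) ^ s * (-1) ^ s = 1 := by rw [← mul_pow]; simp
  apply mul_left_cancel₀ h8
  have h10 : (c.factorial : ℤ) ^ 2 * WK ρ p r (insert i K) =
      (p * B) ^ s * (-1) ^ (K \ Ser ρ K i).card * ((c.factorial : ℤ) ^ (2 * Fintype.card I) *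
        ((c.factorial : ℤ) ^ (4 * Fintype.card I) * (p : ℤ) ^ L *
          ((c.factorial : ℤ) ^ 2 * (p * B) * (2 * p - 1)))) -
      (c.factorial : ℤ) ^ 2 * WK ρ p r K := by
    rw [← h1]; ring
  rw [h10, h2, h7, h6, mul_pow]
  simp only [pow_add, pow_one]
  linear_combination ((c.factorial : ℤ) ^ 2 * (c.factorial : ℤ) ^ (2 * Fintype.card I) *
    (c.factorial : ℤ) ^ (4 * Fintype.card I) * (p : ℤ) ^ L * (p : ℤ) ^ s * p * B * B ^ s *
      (2 * p - 1) * (-1) ^ (K \ Ser ρ K i).card) * (-h9)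

lemma count_ser (ρ : Flag I → Flag I) (K : Finset I) (i : I) (hK : Cyc ρ K i) :
    ((insert i K).filter fun j => kap ρ ((insert i K).erase j) = kap ρ (insert i K)).card =
      (Ser ρ K i).card + 1 := by
  classical
  have hk : kap ρ (insert i K) = kap ρ K := (kap_insert ρ K i).2 hK.joined
  have e1 : ((insert i K).filter fun j => kap ρ ((insert i K).erase j) = kap ρ (insert i K)) =
      insert i (Ser ρ K i) := by
    ext j
    rw [mem_filter, mem_insert, mem_insert]
    constructor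
    · rintro ⟨h1 | h1, h2⟩
      · exact Or.inl h1
      · by_cases hji : j = i
        · exact Or.inl hji
        · right
          refine mem_filter.2 ⟨h1, fun hc => ?_⟩
          have e2 : (insert i K).erase j = insert i (K.erase j) := by
            rw [erase_insert_of_ne (Ne.symm hji)]
          rw [e2, hk, (kap_insert ρ (K.erase j) i).2 hc] at h2
          have h3 := kap_insert_lt ρ (K.erase j) j (hK.cut j h1)
          rw [insert_erase h1] at h3
          omega
    · rintro (rfl | h1)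
      · exact ⟨Or.inl rfl, by rw [erase_insert hK.hi, hk]⟩
      · have h2 := mem_filter.1 h1
        have hji : j ≠ i := fun h => hK.hi (h ▸ h2.1)
        refine ⟨Or.inr h2.1, ?_⟩
        have e2 : (insert i K).erase j = insert i (K.erase j) := by
          rw [erase_insert_of_ne (Ne.symm hji)]
        rw [e2, hk]
        have h3 := kap_insert_lt ρ (K.erase j) j (hK.cut j h2.1)
        rw [insert_erase h2.1] at h3
        have h4 := kap_insert_lt ρ (K.erase j) i h2.2
        omega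
  rw [e1, card_insert_of_notMem]
  intro h
  exact hK.hi ((mem_filter.1 h).1)

/-- the core theorem for odd primes -/
theorem core_gen (ρ : Flag I → Flag I) (hρ : ∀ x, ρ (ρ x) = x) (hne : ∀ x, ρ x ≠ x) (p : ℕ)
    (hp : p.Prime) (h2 : p ≠ 2) (hc : c + 1 = p) (hτ : ¬ (p : ℤ) ^ 2 ∣ tau ρ + 2 * p * tau1 ρ) :
    CoverI ρ c := by
  classical
  by_contra hno
  have hodd := hp.odd_of_ne_two h2
  have hce : Even c := by
    rw [← hc] at hodd
    rcases Nat.even_or_odd c with h | h
    · exact h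
    · exact absurd hodd (by simpa using h.add_one)
  have hc0 : 0 < c := by
    have := hp.two_le
    omega
  obtain ⟨r, hr⟩ := local_id (I := I) ρ hρ hne p hp hc
  have h0 : ∑ K : Finset I, WK ρ p r K = 0 := by
    rw [sum_WK]
    exact total_zero ρ hρ hne hno p r hr
  obtain ⟨B, hB, hB'⟩ := tr4_cat p hp h2
  have hpc : p - 1 = c := by omega
  rw [hpc] at hB
  have hpZ : Prime (p : ℤ) := Nat.prime_iff_prime_int.1 hp
  set X : ℤ := (c.factorial : ℤ) ^ (2 * Fintype.card I) * (c.factorial : ℤ) ^ (4 * Fintype.card I)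
    with hX
  rw [← sum_filter_add_sum_filter_not (univ : Finset (Finset I))
    (fun K => kap ρ K + K.card = kap ρ ∅)] at h0
  rw [← sum_filter_add_sum_filter_not ((univ : Finset (Finset I)).filter
    (fun K => ¬ (kap ρ K + K.card = kap ρ ∅))) (fun K => kap ρ K + K.card = kap ρ ∅ + 1)] at h0
  have f1 : ∑ K ∈ (univ : Finset (Finset I)).filter (fun K => kap ρ K + K.card = kap ρ ∅),
      WK ρ p r K = X * (p : ℤ) ^ kap ρ ∅ * tau ρ := by
    unfold tau
    rw [mul_sum]
    refine sum_congr rfl fun K hK => ?_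
    rw [mem_filter] at hK
    rw [WK_forest hc0 ρ hρ hne p r hr K hK.2, psi_turn_even hce ρ hρ hne, hc]
    ring
  have e2 : ((univ : Finset (Finset I)).filter
      (fun K => ¬ (kap ρ K + K.card = kap ρ ∅))).filter
      (fun K => kap ρ K + K.card = kap ρ ∅ + 1) = (univ : Finset (Finset I)).filter
        (fun K => kap ρ K + K.card = kap ρ ∅ + 1) := by
    ext K
    simp only [mem_filter, mem_univ, true_and]
    omega
  rw [f1, e2] at h0
  have f2 : (p : ℤ) ^ (kap ρ ∅ + 2) ∣ ∑ K ∈ (univ : Finset (Finset I)).filter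
      (fun K => kap ρ K + K.card = kap ρ ∅ + 1), WK ρ p r K -
      X * (p : ℤ) ^ kap ρ ∅ * (2 * p * (tau1 ρ + Fintype.card I * tau ρ)) := by
    have h5 := tr5_sum ρ
    have h6 : tau1 ρ + Fintype.card I * tau ρ = ∑ K ∈ (univ : Finset (Finset I)).filter
        (fun K => kap ρ K + K.card = kap ρ ∅ + 1), (-1 : ℤ) ^ K.card *
          (1 - ((K.filter fun i => kap ρ (K.erase i) = kap ρ K).card : ℤ)) := by
      have h7 : ∑ K ∈ (univ : Finset (Finset I)).filter
        (fun K => kap ρ K + K.card = kap ρ ∅ + 1), (-1 : ℤ) ^ K.card *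
          (1 - ((K.filter fun i => kap ρ (K.erase i) = kap ρ K).card : ℤ)) =
          ∑ K ∈ (univ : Finset (Finset I)).filter
            (fun K => kap ρ K + K.card = kap ρ ∅ + 1), (-1 : ℤ) ^ K.card -
          ∑ K ∈ (univ : Finset (Finset I)).filter
            (fun K => kap ρ K + K.card = kap ρ ∅ + 1), (-1 : ℤ) ^ K.card *
              ((K.filter fun i => kap ρ (K.erase i) = kap ρ K).card : ℤ) := by
        rw [← sum_sub_distrib]
        refine sum_congr rfl fun K _ => ?_
        ring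
      rw [h7, h5]
      unfold tau1
      ring
    rw [h6, mul_sum, mul_sum, ← sum_sub_distrib]
    refine dvd_sum fun K hK => ?_
    rw [mem_filter] at hK
    obtain ⟨i, K', h7, h8, h9, h10⟩ := exists_erase ρ K hK.2
    have hcyc : Cyc ρ K' i := by
      refine ⟨h7, h9, ?_⟩
      by_contra hcon
      have := kap_insert_lt ρ K' i hcon
      omega
    have h11 := WK_cycle hc0 hce ρ hρ hne p hc r hr K' i hcyc B hB
    have h12 := count_ser ρ K' i hcyc
    rw [h8, h11, h12, card_insert_of_notMem h7]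
    obtain ⟨z, hz⟩ := hB' ((Ser ρ K' i).card + 1)
    refine ⟨(-1) ^ (K'.card + 1) * X * z, ?_⟩
    push_cast at hz ⊢
    rw [pow_add (p : ℤ) (kap ρ ∅) 2]
    linear_combination (-1) ^ (K'.card + 1) * X * (p : ℤ) ^ kap ρ ∅ * hz
  have f3 : (p : ℤ) ^ (kap ρ ∅ + 2) ∣ ∑ K ∈ ((univ : Finset (Finset I)).filter
      (fun K => ¬ (kap ρ K + K.card = kap ρ ∅))).filter
      (fun K => ¬ (kap ρ K + K.card = kap ρ ∅ + 1)), WK ρ p r K := by
    refine dvd_sum fun K hK => ?_
    simp only [mem_filter, mem_univ, true_and] at hK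
    have h6 := kap_le ρ K
    exact (pow_dvd_pow _ (by omega)).trans (WK_dvd ρ hρ hne p hc r K)
  have h3 : (p : ℤ) ^ kap ρ ∅ * (p : ℤ) ^ 2 ∣ (p : ℤ) ^ kap ρ ∅ *
      (X * (tau ρ + 2 * p * (tau1 ρ + Fintype.card I * tau ρ))) := by
    rw [← pow_add]
    have h4 := (dvd_add f2 f3)
    have h5 : (p : ℤ) ^ kap ρ ∅ * (X * (tau ρ + 2 * p * (tau1 ρ + Fintype.card I * tau ρ))) =
      -((∑ K ∈ (univ : Finset (Finset I)).filter
      (fun K => kap ρ K + K.card = kap ρ ∅ + 1), WK ρ p r K -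
      X * (p : ℤ) ^ kap ρ ∅ * (2 * p * (tau1 ρ + Fintype.card I * tau ρ))) +
      ∑ K ∈ ((univ : Finset (Finset I)).filter
      (fun K => ¬ (kap ρ K + K.card = kap ρ ∅))).filter
      (fun K => ¬ (kap ρ K + K.card = kap ρ ∅ + 1)), WK ρ p r K) := by
      linear_combination h0
    rw [h5]
    exact (dvd_neg).2 h4
  have hcop : ¬ (p : ℤ) ∣ (c.factorial : ℤ) := by
    intro h
    have h' : p ∣ c.factorial := by exact_mod_cast h
    have := (hp.dvd_factorial).1 h'
    omega
  have hp0 : (p : ℤ) ^ kap ρ ∅ ≠ 0 := pow_ne_zero _ (by exact_mod_cast hp.ne_zero)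
  have h4 := (mul_dvd_mul_iff_left hp0).1 h3
  have hXc : IsCoprime ((p : ℤ) ^ 2) X := by
    apply IsCoprime.pow_left
    rw [hX]
    have h5 : IsCoprime (p : ℤ) (c.factorial : ℤ) := (hpZ.coprime_iff_not_dvd).2 hcop
    exact IsCoprime.mul_right h5.pow_right h5.pow_right
  have h5 := hXc.dvd_of_dvd_mul_left h4
  have h6 : (p : ℤ) ∣ tau ρ := by
    have h7 : (p : ℤ) ∣ tau ρ + 2 * p * (tau1 ρ + Fintype.card I * tau ρ) :=
      (Dvd.intro_left _ (by ring : (p : ℤ) * p = p ^ 2)).trans h5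
    have h8 : (p : ℤ) ∣ 2 * p * (tau1 ρ + Fintype.card I * tau ρ) :=
      ⟨2 * (tau1 ρ + Fintype.card I * tau ρ), by ring⟩
    exact (dvd_add_left h8).1 h7
  obtain ⟨t, ht⟩ := h6
  apply hτ
  obtain ⟨z, hz⟩ := h5
  refine ⟨z - 2 * Fintype.card I * t, ?_⟩
  linear_combination hz - 2 * p * Fintype.card I * ht

end Pool.Agent.H1.TP
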