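import Pool.Agent.H1.TP.Fin6
import Pool.Agent.H1.TP.Gen3

set_option autoImplicit false
set_option linter.unusedVariables false
set_option linter.unusedSectionVars false

namespace Pool.Agent.H1.TP

open Finset Equiv
open Pool.Agent.H126R2.CDC (MGraph)

variable {V E : Type} [Fintype V] [DecidableEq V] [Fintype E] [DecidableEq E]

/-- the alternating number of sets of nullity one -/
noncomputable def tau1G (G : MGraph V E) (F : Finset E) : ℤ :=
  ∑ K ∈ (univ \ F).powerset.filter (fun K => comps G (F ∪ K) + K.card = comps G F + 1),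
    (-1 : ℤ) ^ K.card

lemma tau1_eq (G : MGraph V E) (F : Finset E) (B : GModel G F) : tau1G G F = tau1 B.rho := by
  classical
  unfold tau1G tau1
  symm
  refine sum_nbij' (fun K => K.map (Function.Embedding.subtype _))
    (fun K => K.subtype (fun e => e ∉ F)) ?_ ?_ ?_ ?_ ?_
  · intro K hK
    simp only [mem_filter, mem_univ, true_and] at hK
    rw [mem_filter, mem_powerset]
    refine ⟨?_, ?_⟩
    · intro e he
      rw [mem_map] at he
      obtain ⟨a, ha, rfl⟩ := he
      simpa using a.2
    · have h0 := B.comps_eq ∅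
      rw [map_empty, union_empty] at h0
      rw [B.comps_eq K, card_map, h0]
      omega
  · intro K hK
    rw [mem_filter, mem_powerset] at hK
    simp only [mem_filter, mem_univ, true_and]
    have hK' : (K.subtype (fun e => e ∉ F)).map (Function.Embedding.subtype _) = K := by
      rw [subtype_map]
      refine filter_true_of_mem ?_
      intro e he
      have := hK.1 he
      simpa using this
    have h0 := B.comps_eq ∅
    rw [map_empty, union_empty] at h0
    have h1 := B.comps_eq (K.subtype (fun e => e ∉ F))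
    rw [hK'] at h1
    have h2 : (K.subtype (fun e => e ∉ F)).card = K.card := by
      rw [← card_map (Function.Embedding.subtype _), hK']
    have h3 := hK.2
    rw [h1, h0] at h3
    rw [h2]
    omega
  · intro K hK
    ext e
    simp only [mem_subtype, mem_map, Function.Embedding.subtype_apply, Subtype.exists,
      exists_and_right, exists_eq_right]
    constructor
    · rintro ⟨x, hx⟩
      exact hx
    · intro he
      exact ⟨e.2, he⟩
  · intro K hK
    rw [mem_filter, mem_powerset] at hK
    show (K.subtype (fun e => e ∉ F)).map (Function.Embedding.subtype _) = K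
    rw [subtype_map]
    refine filter_true_of_mem ?_
    intro e he
    have := hK.1 he
    simpa using this
  · intro K hK
    rw [card_map]

/-- the value `T(G / F; 0, y)` of the Tutte polynomial -/
noncomputable def tutt0G (G : MGraph V E) (F : Finset E) (y : ℤ) : ℤ :=
  ∑ K ∈ (univ \ F).powerset, (-1 : ℤ) ^ (comps G (F ∪ K) - comps G univ) *
    (y - 1) ^ (K.card + comps G (F ∪ K) - comps G F)

lemma comps_le_add (G : MGraph V E) (F : Finset E) (K : Finset E) :
    comps G F ≤ comps G (F ∪ K) + K.card := by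
  classical
  induction K using Finset.induction with
  | empty => simp
  | insert e K he ih =>
    rw [card_insert_of_notMem he, union_insert]
    have h1 : comps G (F ∪ K) ≤ comps G (insert e (F ∪ K)) + 1 := by
      obtain ⟨a, b, hab⟩ := exists_ends G
      have h2 := (tp17_quot (fun u v : V => ∃ e ∈ F ∪ K, G.ends e = s(u, v)) (a e) (b e)).1
      have h3 : Nat.card (Quot fun x y => (∃ e ∈ F ∪ K, G.ends e = s(x, y)) ∨
          (x = a e ∧ y = b e)) = comps G (insert e (F ∪ K)) := by
        unfold comps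
        apply quot_card_congr
        · rintro x y (⟨f, hf, h⟩ | ⟨rfl, rfl⟩)
          · exact Quot.sound ⟨f, mem_insert_of_mem hf, h⟩
          · exact Quot.sound ⟨e, mem_insert_self _ _, hab e⟩
        · rintro x y ⟨f, hf, h⟩
          rcases mem_insert.1 hf with rfl | hf
          · have h4 : s(a f, b f) = s(x, y) := by rw [← hab f]; exact h
            rcases Sym2.eq_iff.1 h4 with ⟨rfl, rfl⟩ | ⟨rfl, rfl⟩
            · exact Quot.sound (Or.inr ⟨rfl, rfl⟩)
            · refine Eq.symm (Quot.sound ?_)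
              exact Or.inr ⟨rfl, rfl⟩
          · exact Quot.sound (Or.inl ⟨f, hf, h⟩)
      rw [h3] at h2
      exact h2
    omega

lemma tutt0G_one (G : MGraph V E) (F : Finset E) : tutt0G G F 1 = tuttG G F := by
  classical
  unfold tutt0G tuttG
  rw [sum_filter]
  refine sum_congr rfl fun K hK => ?_
  have h1 := comps_le_add G F K
  have h2 : comps G univ ≤ comps G (F ∪ K) := comps_anti G (subset_univ _)
  split_ifs with h
  · have e1 : K.card + comps G (F ∪ K) - comps G F = 0 := by omega
    have e2 : comps G F - comps G univ - K.card = comps G (F ∪ K) - comps G univ := by omega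
    rw [e1, e2]; simp
  · rw [sub_self, zero_pow (by omega), mul_zero]

lemma tutt0G_cong (G : MGraph V E) (F : Finset E) (p : ℤ) :
    p ^ 2 ∣ tutt0G G F (1 - 2 * p) - (-1) ^ (comps G F - comps G univ) *
      (tauG G (univ \ F) + 2 * p * tau1G G F) := by
  classical
  have hFF : (univ : Finset E) \ (univ \ F) = F := by
    ext e; simp
  have h1 : tauG G (univ \ F) + 2 * p * tau1G G F = ∑ K ∈ (univ \ F).powerset,
      ((if comps G (F ∪ K) + K.card = comps G F then (-1 : ℤ) ^ K.card else 0) +
        (if comps G (F ∪ K) + K.card = comps G F + 1 then 2 * p * (-1 : ℤ) ^ K.card else 0)) := by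
    unfold tauG tau1G
    rw [hFF, sum_add_distrib, sum_filter, sum_filter, mul_sum]
    congr 1
    refine sum_congr rfl fun K _ => ?_
    split_ifs <;> simp
  rw [h1, tutt0G, mul_sum, ← sum_sub_distrib]
  refine dvd_sum fun K hK => ?_
  have h2 := comps_le_add G F K
  have h3 : comps G univ ≤ comps G (F ∪ K) := comps_anti G (subset_univ _)
  have h4 : comps G (F ∪ K) ≤ comps G F := comps_anti G subset_union_left
  have hs : ((-1 : ℤ)) ^ K.card * (-1) ^ K.card = 1 := by rw [← mul_pow]; simp
  obtain ⟨a, ha⟩ : ∃ a, comps G (F ∪ K) = comps G univ + a := Nat.exists_eq_add_of_le h3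
  have e0 : comps G (F ∪ K) - comps G univ = a := by omega
  rw [e0]
  by_cases c0 : comps G (F ∪ K) + K.card = comps G F
  · have c1 : ¬ comps G (F ∪ K) + K.card = comps G F + 1 := by omega
    have e1 : K.card + comps G (F ∪ K) - comps G F = 0 := by omega
    have e2 : comps G F - comps G univ = a + K.card := by omega
    rw [if_pos c0, if_neg c1, e1, e2, pow_add]
    refine ⟨0, ?_⟩
    linear_combination (-(-1 : ℤ) ^ a) * hs
  · by_cases c1 : comps G (F ∪ K) + K.card = comps G F + 1
    · have e1 : K.card + comps G (F ∪ K) - comps G F = 1 := by omega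
      have e2 : comps G F - comps G univ + 1 = a + K.card := by omega
      have e3 : (-1 : ℤ) ^ (comps G F - comps G univ) = - ((-1) ^ a * (-1) ^ K.card) := by
        rw [← pow_add, ← e2, pow_succ]; ring
      rw [if_neg c0, if_pos c1, e1, e3]
      refine ⟨0, ?_⟩
      linear_combination (2 * p * (-1 : ℤ) ^ a) * hs
    · obtain ⟨n, hn⟩ : ∃ n, K.card + comps G (F ∪ K) - comps G F = n + 2 :=
        ⟨K.card + comps G (F ∪ K) - comps G F - 2, by omega⟩
      rw [if_neg c0, if_neg c1, hn]
      refine ⟨(-1 : ℤ) ^ a * (1 - 2 * p - 1) ^ n * 4, ?_⟩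
      rw [pow_add]
      ring

/-- the criterion for all primes -/
theorem main_gen (G : MGraph V E) (F : Finset E) (hF : ∀ v, Even (G.deg F v)) (p : ℕ)
    (hp : p.Prime) (ht : ¬ (p : ℤ) ^ 2 ∣ tutt0G G F (1 - 2 * p)) : Cov G F (p - 1) := by
  have h1 : ¬ (p : ℤ) ^ 2 ∣ tauG G (univ \ F) + 2 * p * tau1G G F := by
    intro h
    apply ht
    have h2 := tutt0G_cong G F (p : ℤ)
    have h3 := dvd_add h2 (h.mul_left ((-1) ^ (comps G F - comps G univ)))
    rwa [sub_add_cancel] at h3
  by_cases h2 : p = 2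
  · subst h2
    apply main_two G F hF
    intro h3
    apply h1
    rw [tutt_dvd] at h3
    have h4 : (4 : ℤ) ∣ tauG G (univ \ F) + 4 * tau1G G F := dvd_add h3 (dvd_mul_right _ _)
    have e1 : ((2 : ℕ) : ℤ) ^ 2 = 4 := by norm_num
    have e2 : 2 * ((2 : ℕ) : ℤ) * tau1G G F = 4 * tau1G G F := by norm_num
    rw [e1, e2]
    exact h4
  · obtain ⟨A⟩ := th3_premodel G F hF
    obtain ⟨B, hB⟩ := th5_model G F A
    rw [tau_eq G F B, tau1_eq G F B] at h1
    have hpc : (p - 1) + 1 = p := Nat.sub_add_cancel hp.one_le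
    exact th4_cover G F B (p - 1) (core_gen B.rho B.rho_rho B.rho_ne p hp h2 hpc h1)

/-- everything -/
theorem final7 (G : MGraph V E) (F : Finset E) (hF : ∀ v, Even (G.deg F v)) :
    (∀ p : ℕ, p.Prime → ¬ ((p : ℤ) ∣ tutt0G G F 1 ∧ (p : ℤ) ^ 2 ∣ tutt0G G F (1 - 2 * p)) →
      Cov G F (p - 1)) ∧
    (¬ ((4 : ℤ) ∣ tutt0G G F 1 ∧ (9 : ℤ) ∣ tutt0G G F (-5)) → Cov G F 2) ∧
    (G.Bridgeless → 0 < tutt0G G F 1 ∧ tutt0G G F 1 ≤ 2 ^ (univ \ F).card ∧
      ∀ L : ℕ, tutt0G G F 1 ≤ 2 ^ L →
      (∃ c : ℕ, c ≠ 0 ∧ Even c ∧ c ≤ 2 * L + 2 ∧ Cov G F c) ∧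
      (∀ x y : ℕ, Even y → y + 4 * L + 42 ≤ 2 * x →
        Pool.Agent.H126R2.NC.InIntCone G (fun e => if e ∈ F then x else y)) ∧
      ∀ x y : ℕ, Even x → Even y → y ≤ 2 * x → 3 * (L * (L + 1) * 2 ^ (L + 1)) + 39 ≤ x →
        Pool.Agent.H126R2.NC.InIntCone G (fun e => if e ∈ F then x else y)) := by
  rw [tutt0G_one]
  have h1 : ∀ p : ℕ, p.Prime → ¬ ((p : ℤ) ∣ tuttG G F ∧ (p : ℤ) ^ 2 ∣ tutt0G G F (1 - 2 * p)) →
      Cov G F (p - 1) := by
    intro p hp h
    by_cases h2 : (p : ℤ) ∣ tuttG G F
    · exact main_gen G F hF p hp (fun h3 => h ⟨h2, h3⟩)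
    · exact (final G F hF).1 p hp h2
  refine ⟨h1, fun h => ?_, fun hG => ?_⟩
  · by_cases h4 : (4 : ℤ) ∣ tuttG G F
    · have h9 : ¬ (9 : ℤ) ∣ tutt0G G F (-5) := fun h9 => h ⟨h4, h9⟩
      exact main_gen G F hF 3 Nat.prime_three (by norm_num; exact h9)
    · exact (main_two G F hF h4).mul 2
  · obtain ⟨h3, h4, -⟩ := (final G F hF).2 hG
    exact ⟨h3, h4, fun L hL => final6 G F hF hG L hL⟩

end Pool.Agent.H1.TP
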