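import Pool.Agent.H1.TP.TS0
import Pool.Graph.R_pool_sql_team_seeded_1acbe0a2.Y866.LK.Page

set_option autoImplicit false
set_option linter.unusedVariables false

namespace Pool.Agent.H1.TP

open Finset Chebyshev

namespace TS1

lemma first_prime (Q n q₁ : ℕ) (t : ℤ) (ht : t ≠ 0) (hle : t.natAbs ≤ 2 ^ n) (hn : (n : ℝ) ≤ Real.sqrt Q)
    (hQ4 : 4 ≤ Q) (hg : Real.log ((Q : ℝ) + 1) + (Real.sqrt Q + 4) * Real.log Q ≤ (Q : ℝ) / 2)
    (hq : 0 < q₁) (hq1 : (16 * Real.log Q) ^ 2 < q₁) :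
    ∃ p : ℕ, p.Prime ∧ p ≤ Q ∧ p ≠ 2 ∧ ¬ (p : ℤ) ∣ t ∧ ¬ q₁ ∣ p - 1 := by
  classical
  by_contra hcon
  push Not at hcon
  have hQr : (4 : ℝ) ≤ Q := by exact_mod_cast hQ4
  have hlog1 : 1 ≤ Real.log Q := by
    rw [Real.le_log_iff_exp_le (by linarith)]
    have := Real.exp_one_lt_d9
    linarith
  set A : Finset ℕ := (range (Q + 1)).filter (fun p : ℕ => p.Prime ∧ (p : ℤ) ∣ t) with hA
  set B : Finset ℕ := (range (Q + 1)).filter (fun p : ℕ => 1 ≤ p ∧ q₁ ∣ p - 1) with hB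
  have hsub : Nat.primesLE Q ⊆ insert 2 (A ∪ B) := by
    intro p hp
    rw [Nat.mem_primesLE] at hp
    obtain ⟨hpQ, hp⟩ := hp
    by_cases h2 : p = 2
    · rw [h2]; exact mem_insert_self _ _
    · refine mem_insert_of_mem ?_
      by_cases h3 : (p : ℤ) ∣ t
      · exact mem_union_left _ (mem_filter.2 ⟨mem_range.2 (by omega), hp, h3⟩)
      · exact mem_union_right _ (mem_filter.2 ⟨mem_range.2 (by omega), hp.one_le,
          hcon p hp hpQ h2 h3⟩)
  have hAc : A.card ≤ n := few n t ht hle A (fun p hp => (mem_filter.1 hp).2)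
  have hBc : B.card ≤ Q / q₁ + 1 := class_card Q q₁ hq
  have hcard : Nat.primeCounting Q ≤ n + (Q / q₁ + 1) + 1 := by
    rw [← Nat.primesLE_card_eq_primeCounting]
    refine (card_le_card hsub).trans ((card_insert_le _ _).trans ?_)
    have := card_union_le A B
    omega
  have h1 := psi_le_primeCounting_mul_log Q
  have h2 := psi_ge Q
  have h3 : (Nat.primeCounting Q : ℝ) ≤ n + ((Q : ℝ) / q₁ + 1) + 1 := by
    have h4 : (Nat.primeCounting Q : ℝ) ≤ ((n + (Q / q₁ + 1) + 1 : ℕ) : ℝ) := by exact_mod_cast hcard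
    have h5 : ((Q / q₁ : ℕ) : ℝ) ≤ (Q : ℝ) / q₁ := Nat.cast_div_le
    push_cast at h4
    linarith
  have hq1r : (0 : ℝ) < q₁ := by exact_mod_cast hq
  have h6 : (Q : ℝ) / q₁ * Real.log Q ≤ Q / 256 := by
    rw [div_mul_eq_mul_div, div_le_div_iff₀ hq1r (by norm_num)]
    have h7 : 256 * Real.log Q ≤ q₁ := by nlinarith
    nlinarith
  have h8 : (Nat.primeCounting Q : ℝ) * Real.log Q ≤
      (n + ((Q : ℝ) / q₁ + 1) + 1) * Real.log Q :=
    mul_le_mul_of_nonneg_right h3 (by linarith)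
  have h9 := Real.log_two_gt_d9
  have h10 : (n : ℝ) * Real.log Q ≤ Real.sqrt Q * Real.log Q :=
    mul_le_mul_of_nonneg_right hn (by linarith)
  nlinarith

end TS1

open TS1 in
/-- the numerical semigroup generated by the numbers `p - 1` -/
theorem ts1_semigroup : ∃ A : ℕ, ∀ (n : ℕ) (t : ℤ), t ≠ 0 → t.natAbs ≤ 2 ^ n → ∀ S : Set ℕ,
    0 ∈ S → (∀ a ∈ S, ∀ b ∈ S, a + b ∈ S) → (∀ p : ℕ, p.Prime → ¬ (p : ℤ) ∣ t → p - 1 ∈ S) →
    ∀ k : ℕ, (n + 2) ^ A ≤ k → 2 * k ∈ S := by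
  classical
  obtain ⟨K, c, hK, hc, hpage⟩ := Pool.Agent.Y866.LK.page
  obtain ⟨z0, hz0⟩ := hpage 2
  obtain ⟨Q1, hQ1⟩ := growth
  obtain ⟨Q2, hQ2⟩ := exists_nat_gt (1 / c)
  set M := z0 + Q1 + Q2 + 4 with hM
  refine ⟨M * (16 * K + 1), fun n t ht hle S h0 hadd hS k hk => ?_⟩
  obtain ⟨Q, hQ⟩ : ∃ Q : ℕ, Q = (n + 2) ^ M := ⟨_, rfl⟩
  have hMQ : M ≤ Q := by
    rw [hQ]
    calc M ≤ 2 ^ M := Nat.lt_two_pow_self.le
      _ ≤ (n + 2) ^ M := Nat.pow_le_pow_left (by omega) M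
  have hnQ : (n + 2) ^ 2 ≤ Q := by
    rw [hQ]
    exact Nat.pow_le_pow_right (by omega) (by omega)
  have hQ4 : 4 ≤ Q := by omega
  have hQr : (4 : ℝ) ≤ Q := by exact_mod_cast hQ4
  have hsqrt : (n : ℝ) ≤ Real.sqrt Q := by
    apply Real.le_sqrt_of_sq_le
    have h1 : ((n : ℝ) + 2) ^ 2 ≤ Q := by exact_mod_cast hnQ
    have h2 : (0 : ℝ) ≤ n := Nat.cast_nonneg n
    nlinarith
  obtain ⟨z, hz⟩ : ∃ z : ℕ, z = Q ^ 16 := ⟨_, rfl⟩
  have hQz : Q ≤ z := by rw [hz]; exact Nat.le_self_pow (by norm_num) Q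
  obtain ⟨q₁, hq₁, hq₁l, hlin⟩ := hz0 z (by omega)
  have hlogz : Real.log z = 16 * Real.log Q := by
    rw [hz]
    push_cast
    rw [Real.log_pow]
    norm_num
  rw [hlogz] at hq₁l
  obtain ⟨p, hp, hpQ, hp2, hpt, hpq⟩ := first_prime Q n q₁ t ht hle hsqrt hQ4
    (hQ1 Q (by omega)) (by omega) hq₁l
  have hp3 : 3 ≤ p := by
    have := hp.two_le
    omega
  -- the second prime
  have hcop : (p - 2).Coprime (p - 1) := by
    have h1 : p - 1 = (p - 2) + 1 := by omega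
    rw [h1]
    exact (Nat.coprime_self_add_right).2 (Nat.coprime_one_right _)
  have hq16 : (p - 1) ^ 16 ≤ z := by
    rw [hz]
    exact Nat.pow_le_pow_left (by omega) 16
  have h1 := hlin (p - 1) (p - 2) (by omega) hq16 hpq hcop
  set W := (Ioc z (z ^ K)).filter (fun l => l.Prime ∧ l ≡ p - 2 [MOD p - 1]) with hW
  have hzr : (0 : ℝ) < z := by exact_mod_cast (by omega : 0 < z)
  have h2 : ∑ l ∈ W, (1 : ℝ) / l ≤ W.card * (1 / z) := by
    rw [← nsmul_eq_mul, ← sum_const]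
    refine sum_le_sum fun l hl => ?_
    rw [hW, mem_filter, mem_Ioc] at hl
    have h3 : (z : ℝ) ≤ l := by exact_mod_cast hl.1.1.le
    exact one_div_le_one_div_of_le hzr h3
  have htot : ((p - 1).totient : ℝ) ≤ Q := by
    have h3 : (p - 1).totient ≤ Q := (Nat.totient_le _).trans (by omega)
    exact_mod_cast h3
  have htot0 : (0 : ℝ) < (p - 1).totient := by
    exact_mod_cast Nat.totient_pos.2 (by omega)
  have hcard : n < W.card := by
    have h3 : c / Q ≤ W.card * (1 / z) :=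
      (div_le_div_of_nonneg_left hc.le htot0 htot).trans (h1.trans h2)
    have hQ0 : (0 : ℝ) < Q := by linarith
    have h4 : c * z / Q ≤ W.card := by
      have h5 : c / Q * z ≤ W.card * (1 / z) * z := mul_le_mul_of_nonneg_right h3 hzr.le
      have h6 : (W.card : ℝ) * (1 / z) * z = W.card := by field_simp
      have h7 : c / Q * z = c * z / Q := by ring
      rw [h6, h7] at h5
      exact h5
    have h5 : (z : ℝ) = (Q : ℝ) ^ 16 := by rw [hz]; push_cast; rfl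
    have h6 : c * z / Q = c * (Q : ℝ) ^ 15 := by
      rw [h5]; field_simp
    rw [h6] at h4
    have h7 : (1 : ℝ) ≤ c * Q := by
      have h8 : (Q2 : ℝ) ≤ Q := by exact_mod_cast (by omega : Q2 ≤ Q)
      have h9 : 1 / c ≤ Q := by linarith
      rw [div_le_iff₀ hc] at h9
      linarith
    have h8 : (n : ℝ) < (Q : ℝ) ^ 14 := by
      have h9 : (n : ℝ) < Q := by exact_mod_cast (by nlinarith : n < Q)
      have h10 : (Q : ℝ) ≤ (Q : ℝ) ^ 14 := le_self_pow₀ (by linarith) (by norm_num)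
      linarith
    have h9 : (Q : ℝ) ^ 14 ≤ c * (Q : ℝ) ^ 15 := by
      have h10 : (0 : ℝ) < (Q : ℝ) ^ 14 := by positivity
      have h11 : c * (Q : ℝ) ^ 15 = (c * Q) * (Q : ℝ) ^ 14 := by ring
      rw [h11]
      nlinarith
    have h10 : (n : ℝ) < W.card := by linarith
    exact_mod_cast h10
  obtain ⟨l, hl, hlt⟩ : ∃ l ∈ W, ¬ (l : ℤ) ∣ t := by
    by_contra hcon
    push Not at hcon
    have := few n t ht hle W (fun l hl => ⟨(mem_filter.1 hl).2.1, hcon l hl⟩)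
    omega
  rw [hW, mem_filter, mem_Ioc] at hl
  obtain ⟨⟨hl1, hl2⟩, hl3, hl4⟩ := hl
  -- the greatest common divisor
  have hpodd : p % 2 = 1 := Nat.odd_iff.1 (hp.odd_of_ne_two hp2)
  have hlodd : l % 2 = 1 := Nat.odd_iff.1 (hl3.odd_of_ne_two (by omega))
  have hd : (p - 1) ∣ l + 1 := by
    have h3 : l + 1 ≡ (p - 2) + 1 [MOD p - 1] := hl4.add_right 1
    have h4 : (p - 2) + 1 = p - 1 := by omega
    rw [h4] at h3
    exact (Nat.modEq_zero_iff_dvd).1 (h3.trans (by simp [Nat.ModEq]))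
  have hgcd : Nat.gcd (p - 1) (l - 1) = 2 := by
    apply Nat.dvd_antisymm
    · have h1 : Nat.gcd (p - 1) (l - 1) ∣ l + 1 := (Nat.gcd_dvd_left _ _).trans hd
      have h2 : Nat.gcd (p - 1) (l - 1) ∣ l - 1 := Nat.gcd_dvd_right _ _
      have h3 := Nat.dvd_sub h1 h2
      have h4 : l + 1 - (l - 1) = 2 := by omega
      rwa [h4] at h3
    · apply Nat.dvd_gcd
      · omega
      · omega
  have hbig : (p - 1).pred * (l - 1).pred ≤ 2 * k := by
    have h3 : (p - 1).pred * (l - 1).pred ≤ Q * z ^ K :=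
      Nat.mul_le_mul (by simp only [Nat.pred_eq_sub_one]; omega)
        (by simp only [Nat.pred_eq_sub_one]; omega)
    have h4 : Q * z ^ K = (n + 2) ^ (M * (16 * K + 1)) := by
      rw [pow_mul (n + 2) M, ← hQ, hz, ← pow_mul, pow_succ, mul_comm]
    omega
  obtain ⟨a, b, hab⟩ := Nat.exists_add_mul_eq_of_gcd_dvd_of_mul_pred_le (p - 1) (l - 1) (2 * k)
    (by rw [hgcd]; exact Dvd.intro _ rfl) hbig
  have hmul : ∀ x ∈ S, ∀ m : ℕ, m * x ∈ S := by
    intro x hx m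
    induction m with
    | zero => simpa using h0
    | succ m ih => rw [Nat.succ_mul]; exact hadd _ ih _ hx
  rw [← hab]
  exact hadd _ (hmul _ (hS p hp hpt) a) _ (hmul _ (hS l hl3 hlt) b)

end Pool.Agent.H1.TP
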