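import Pool.Agent.H1.TP.Fin7
import Pool.Agent.H1.TP.TS1

set_option autoImplicit false
set_option linter.unusedVariables false
set_option linter.unusedSectionVars false

namespace Pool.Agent.H1.TP

open Finset Equiv
open Pool.Agent.H126R2.CDC (MGraph)

/-- everything, with the polynomial bound -/
theorem final8 : ∃ A : ℕ, ∀ (V E : Type) [Fintype V] [DecidableEq V] [Fintype E] [DecidableEq E]
    (G : MGraph V E) (F : Finset E), (∀ v, Even (G.deg F v)) →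
    (∀ p : ℕ, p.Prime → ¬ ((p : ℤ) ∣ tutt0G G F 1 ∧ (p : ℤ) ^ 2 ∣ tutt0G G F (1 - 2 * p)) →
      Cov G F (p - 1)) ∧
    (¬ ((4 : ℤ) ∣ tutt0G G F 1 ∧ (9 : ℤ) ∣ tutt0G G F (-5)) → Cov G F 2) ∧
    (G.Bridgeless → 0 < tutt0G G F 1 ∧ tutt0G G F 1 ≤ 2 ^ (univ \ F).card ∧
      ∀ L : ℕ, tutt0G G F 1 ≤ 2 ^ L →
      (∃ c : ℕ, c ≠ 0 ∧ Even c ∧ c ≤ 2 * L + 2 ∧ Cov G F c) ∧
      (∀ x y : ℕ, Even y → y + 4 * L + 42 ≤ 2 * x →
        Pool.Agent.H126R2.NC.InIntCone G (fun e => if e ∈ F then x else y)) ∧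
      ∀ x y : ℕ, Even x → Even y → y ≤ 2 * x → (L + 2) ^ A ≤ x →
        Pool.Agent.H126R2.NC.InIntCone G (fun e => if e ∈ F then x else y)) := by
  obtain ⟨A, hA⟩ := ts1_semigroup
  refine ⟨A + 6, fun V E _ _ _ _ G F hF => ?_⟩
  obtain ⟨h1, h2, h3⟩ := final7 G F hF
  refine ⟨h1, h2, fun hG => ?_⟩
  obtain ⟨h4, h5, h6⟩ := h3 hG
  refine ⟨h4, h5, fun L hL => ?_⟩
  obtain ⟨h7, h8, -⟩ := h6 L hL
  refine ⟨h7, h8, fun x y hx hy hxy hxA => ?_⟩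
  have hpos := tutt_pos G hG F
  have hle : (tuttG G F).natAbs ≤ 2 ^ L := by
    rw [tutt0G_one] at hL
    have h3 : ((tuttG G F).natAbs : ℤ) ≤ ((2 ^ L : ℕ) : ℤ) := by
      rw [Int.natCast_natAbs, abs_of_pos hpos]
      push_cast
      exact hL
    exact_mod_cast h3
  have hcov : ∀ c : ℕ, Even c → 2 * (L + 2) ^ A ≤ c → Cov G F c := by
    intro c hc hle'
    obtain ⟨k, hk⟩ := hc
    have h9 := hA L (tuttG G F) hpos.ne' hle {a | Cov G F a} (Cov.zero G F)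
      (fun a ha b hb => Cov.add ha hb) (fun p hp hd => (final G F hF).1 p hp hd) k (by omega)
    have h10 : c = 2 * k := by omega
    rw [h10]
    exact h9
  refine two_valued G hG F hF _ hcov x y hx hy hxy ?_
  have h11 : (L + 2) ^ (A + 6) = (L + 2) ^ A * (L + 2) ^ 6 := pow_add _ _ _
  have h12 : 64 ≤ (L + 2) ^ 6 := by
    calc 64 = 2 ^ 6 := by norm_num
      _ ≤ (L + 2) ^ 6 := Nat.pow_le_pow_left (by omega) 6
  have h13 : 1 ≤ (L + 2) ^ A := Nat.one_le_pow _ _ (by omega)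
  rw [h11] at hxA
  nlinarith

end Pool.Agent.H1.TP
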