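import Pool.Agent.H1.TP.TG4

set_option autoImplicit false
set_option linter.unusedVariables false

namespace Pool.Agent.H1.TP

open Finset Equiv

namespace TG4

theorem main7 {J : Type} [DecidableEq J] (n : ℕ) :
    ∀ (f : Finset J → ℕ), Rk f → ∀ S : Finset J, S.card = n →
    (-1 : ℤ) ^ (f ∅ - f S) * tt f S ≤ ((S.card.choose (f ∅ - f S) : ℕ) : ℤ) := by
  induction n with
  | zero =>
    intro f _ S hS
    rw [Finset.card_eq_zero] at hS
    subst hS
    have h1 : tt f ∅ = 1 := by
      unfold tt
      rw [Finset.powerset_empty, Finset.filter_true_of_mem, Finset.sum_singleton,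
        Finset.card_empty, pow_zero]
      intro K hK
      rw [Finset.mem_singleton.1 hK, Finset.card_empty, add_zero]
    rw [h1]
    simp
  | succ n ih =>
    intro f hf S hS
    obtain ⟨i, T, hi, rfl, hT⟩ := Finset.card_eq_succ.1 hS
    have ihf := ih f hf T hT
    rw [Finset.card_insert_of_notMem hi]
    by_cases hl : f {i} = f ∅
    · have h1 : f (insert i T) = f T :=
        hf.loop i ∅ T (Finset.empty_subset T) (by simpa using hl)
      rw [tt_loop hf hi hl, h1]
      refine ihf.trans ?_
      exact_mod_cast Nat.choose_le_choose _ (Nat.le_succ _)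
    · have hl1 : f {i} + 1 = f ∅ := by
        rcases hf.step i ∅ with h1 | h1
        · rw [insert_empty_eq] at h1
          exact absurd h1 hl
        · rwa [insert_empty_eq] at h1
      by_cases hb : f (insert i T) = f T
      · have ihc := ih (fun K => f (insert i K)) (hf.con i) T hT
        have e1 : f (insert i ∅) = f {i} := by rw [insert_empty_eq]
        have hle : f (insert i T) ≤ f (insert i ∅) := (hf.con i).le T
        rw [e1] at hle
        have e2 : f ∅ - f T = (f {i} - f (insert i T)) + 1 := by omega
        have hsgn : (-1 : ℤ) ^ (f ∅ - f T) = -(-1 : ℤ) ^ (f {i} - f (insert i T)) := by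
          rw [e2, pow_succ]
          ring
        have key : (-1 : ℤ) ^ (f ∅ - f (insert i T)) * tt f (insert i T) =
            (-1 : ℤ) ^ (f ∅ - f T) * tt f T +
              (-1 : ℤ) ^ (f {i} - f (insert i T)) * tt (fun K => f (insert i K)) T := by
          rw [tt_con hi hl1, hb, mul_sub, hsgn, hb]
          ring
        rw [key]
        simp only [e1] at ihc
        have h3 : (T.card + 1).choose (f ∅ - f (insert i T)) =
            T.card.choose (f ∅ - f T) + T.card.choose (f {i} - f (insert i T)) := by
          rw [hb, e2, Nat.choose_succ_succ, hb, add_comm]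
        rw [h3, Nat.cast_add]
        exact add_le_add ihf ihc
      · rw [tt_bridge hf hi hb, mul_zero]
        exact Int.natCast_nonneg _

end TG4

/-- TG7 -/
theorem tg7_le {α J : Type} [Fintype α] [Fintype J] [DecidableEq J] (r : α → α → Prop)
    (a b : J → α) (S : Finset J) :
    (-1 : ℤ) ^ (kq r a b ∅ - kq r a b S) *
      ∑ K ∈ S.powerset.filter (fun K => kq r a b K + K.card = kq r a b ∅), (-1 : ℤ) ^ K.card ≤
      ((S.card.choose (kq r a b ∅ - kq r a b S) : ℕ) : ℤ) :=
  TG4.main7 S.card (kq r a b) (TG4.kq_rk r a b) S rfl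

end Pool.Agent.H1.TP
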