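import Pool.Agent.H1.TP.Fin8
import Pool.Agent.H1.TP.TG7

set_option autoImplicit false
set_option linter.unusedVariables false
set_option linter.unusedSectionVars false

namespace Pool.Agent.H1.TP

open Finset Equiv
open Pool.Agent.H126R2.CDC (MGraph)

theorem tutt_choose {V E : Type} [Fintype V] [DecidableEq V] [Fintype E] [DecidableEq E]
    (G : MGraph V E) (F : Finset E) :
    tuttG G F ≤ (((univ \ F).card.choose (comps G F - comps G univ) : ℕ) : ℤ) := by
  classical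
  obtain ⟨a, b, hab⟩ := exists_ends G
  have hFF : (univ : Finset E) \ (univ \ F) = F := by
    ext e; simp
  have hk := kq_comps G F a b hab
  have e2 : F ∪ (univ \ F) = univ := by
    ext e; simp
  have hle := tg7_le (fun u v : V => ∃ e ∈ F, G.ends e = s(u, v)) a b (univ \ F)
  rw [tuttG_eq]
  unfold tauG
  rw [hFF]
  have e3 : ∑ K ∈ (univ \ F).powerset.filter (fun K =>
      kq (fun u v : V => ∃ e ∈ F, G.ends e = s(u, v)) a b K + K.card =
        kq (fun u v : V => ∃ e ∈ F, G.ends e = s(u, v)) a b ∅), (-1 : ℤ) ^ K.card =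
      ∑ K ∈ (univ \ F).powerset.filter (fun K => comps G (F ∪ K) + K.card = comps G F),
        (-1 : ℤ) ^ K.card := by
    refine sum_congr ?_ (fun _ _ => rfl)
    refine filter_congr fun K _ => ?_
    rw [hk, hk, union_empty]
  rw [e3, hk, hk, union_empty, e2] at hle
  exact hle

/-- everything -/
theorem final9 : ∃ A : ℕ, ∀ (V E : Type) [Fintype V] [DecidableEq V] [Fintype E] [DecidableEq E]
    (G : MGraph V E) (F : Finset E), (∀ v, Even (G.deg F v)) →
    (∀ c p : ℕ, p.Prime → p - 1 ∣ c → ¬ (p : ℤ) ^ 2 ∣ tutt0G G F (1 - 2 * p) → Cov G F c) ∧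
    (G.Bridgeless → 0 < tutt0G G F 1 ∧
      tutt0G G F 1 ≤ (((univ \ F).card.choose (comps G F - comps G univ) : ℕ) : ℤ) ∧
      ∀ L : ℕ, tutt0G G F 1 ≤ 2 ^ L →
      (∃ c : ℕ, c ≠ 0 ∧ Even c ∧ c ≤ 2 * L + 2 ∧ Cov G F c) ∧
      (∀ x y : ℕ, Even y → y + 4 * L + 42 ≤ 2 * x →
        Pool.Agent.H126R2.NC.InIntCone G (fun e => if e ∈ F then x else y)) ∧
      ∀ x y : ℕ, Even x → Even y → y ≤ 2 * x → (L + 2) ^ A ≤ x →
        Pool.Agent.H126R2.NC.InIntCone G (fun e => if e ∈ F then x else y)) := by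
  obtain ⟨A, hA⟩ := final8
  refine ⟨A, fun V E _ _ _ _ G F hF => ?_⟩
  obtain ⟨-, -, h3⟩ := hA V E G F hF
  refine ⟨fun c p hp hpc h => ?_, fun hG => ?_⟩
  · obtain ⟨n, rfl⟩ := hpc
    rw [mul_comm]
    exact (main_gen G F hF p hp h).mul n
  · obtain ⟨h4, -, h6⟩ := h3 hG
    refine ⟨h4, ?_, h6⟩
    rw [tutt0G_one]
    exact tutt_choose G F

end Pool.Agent.H1.TP
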