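import Pool.Agent.H1.TP.Defs
import Pool.Graph.R_seed8.H126R2.CDC.Decomp

set_option autoImplicit false
set_option linter.unusedVariables false

namespace Pool.Agent.H1.TP

open Finset Equiv
open Pool.Agent.H126R2.CDC (MGraph)

variable {V E : Type} [Fintype V] [DecidableEq V] [Fintype E] [DecidableEq E]

/-- the number of components of the spanning subgraph with edge set `S` -/
noncomputable def comps (G : MGraph V E) (S : Finset E) : ℕ :=
  Nat.card (Quot fun u v : V => ∃ e ∈ S, G.ends e = s(u, v))

/-- the alternating number of the sets `K ⊆ M` which are forests after the contraction of the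
components of the graph with edge set `univ \ M` -/
noncomputable def tauG (G : MGraph V E) (M : Finset E) : ℤ :=
  ∑ K ∈ M.powerset.filter
    (fun K => comps G ((univ \ M) ∪ K) + K.card = comps G (univ \ M)), (-1 : ℤ) ^ K.card

/-- the flag model of a cubic graph with a perfect matching -/
structure Model (G : MGraph V E) (M : Finset E) where
  /-- the vertices are the ends of the matching edges -/
  vt : {e // e ∈ M} × Bool ≃ V
  ends_vt : ∀ i : {e // e ∈ M}, G.ends i.1 = s(vt (i, false), vt (i, true))
  /-- the flags are the ends of the other edges -/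
  Φ : Flag {e // e ∈ M} ≃ {e // e ∉ M} × Bool
  ends_Φ : ∀ f : {e // e ∉ M}, G.ends f.1 =
    s(vt ((Φ.symm (f, false)).1, (Φ.symm (f, false)).2.1),
      vt ((Φ.symm (f, true)).1, (Φ.symm (f, true)).2.1))

/-- the two flags of an edge outside `M` are exchanged -/
def Model.rho {G : MGraph V E} {M : Finset E} (A : Model G M) (x : Flag {e // e ∈ M}) :
    Flag {e // e ∈ M} := A.Φ.symm ((A.Φ x).1, !(A.Φ x).2)

/-- number of classes of `r` together with the pairs `(a i, b i)`, `i ∈ K` -/
noncomputable def kq {α J : Type} (r : α → α → Prop) (a b : J → α) (K : Finset J) : ℕ :=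
  Nat.card (Quot fun x y => r x y ∨ ∃ i ∈ K, x = a i ∧ y = b i)

end Pool.Agent.H1.TP
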