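import Pool.Agent.H1.TP.GDefs

set_option autoImplicit false
set_option linter.unusedVariables false

namespace Pool.Agent.H1.TP

open Finset Equiv
open Pool.Agent.H126R2.CDC (MGraph)

variable {V E : Type} [Fintype V] [DecidableEq V] [Fintype E] [DecidableEq E]

/-- the flag model of a graph with an even subgraph `F`; the edges outside `F` are the
matching edges of the model -/
structure GModel (G : MGraph V E) (F : Finset E) where
  /-- the ends of the edges outside `F` -/
  vt : {e // e ∉ F} × Bool → V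
  ends_vt : ∀ i : {e // e ∉ F}, G.ends i.1 = s(vt (i, false), vt (i, true))
  rho : Flag {e // e ∉ F} → Flag {e // e ∉ F}
  rho_rho : ∀ x, rho (rho x) = x
  rho_ne : ∀ x, rho x ≠ x
  /-- the segment of `F` between the flags `x` and `rho x` -/
  seg : Flag {e // e ∉ F} → Finset E
  seg_rho : ∀ x, seg (rho x) = seg x
  seg_disj : ∀ x y, y ≠ x → y ≠ rho x → Disjoint (seg x) (seg y)
  /-- the ends of the segment -/
  seg_deg : ∀ x v, G.deg (seg x) v % 2 =
    ((if vt (x.1, x.2.1) = v then 1 else 0) +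
      (if vt ((rho x).1, (rho x).2.1) = v then 1 else 0)) % 2
  /-- the components of `F` which meet no other edge -/
  F0 : Finset E
  F0_even : ∀ v, Even (G.deg F0 v)
  F0_disj : ∀ x, Disjoint F0 (seg x)
  mem_F : ∀ e, e ∈ F ↔ e ∈ F0 ∨ ∃ x, e ∈ seg x
  n0 : ℕ
  comps_eq : ∀ K : Finset {e // e ∉ F},
    comps G (F ∪ K.map (Function.Embedding.subtype _)) = kap rho K + n0

/-- the same without the number of components, but with the connectivity by edges of `F` -/
structure PreModel (G : MGraph V E) (F : Finset E) where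
  vt : {e // e ∉ F} × Bool → V
  ends_vt : ∀ i : {e // e ∉ F}, G.ends i.1 = s(vt (i, false), vt (i, true))
  rho : Flag {e // e ∉ F} → Flag {e // e ∉ F}
  rho_rho : ∀ x, rho (rho x) = x
  rho_ne : ∀ x, rho x ≠ x
  seg : Flag {e // e ∉ F} → Finset E
  seg_rho : ∀ x, seg (rho x) = seg x
  seg_disj : ∀ x y, y ≠ x → y ≠ rho x → Disjoint (seg x) (seg y)
  seg_deg : ∀ x v, G.deg (seg x) v % 2 =
    ((if vt (x.1, x.2.1) = v then 1 else 0) +
      (if vt ((rho x).1, (rho x).2.1) = v then 1 else 0)) % 2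
  F0 : Finset E
  F0_even : ∀ v, Even (G.deg F0 v)
  F0_disj : ∀ x, Disjoint F0 (seg x)
  mem_F : ∀ e, e ∈ F ↔ e ∈ F0 ∨ ∃ x, e ∈ seg x
  conn : ∀ x, Relation.EqvGen (fun u v : V => ∃ e ∈ F, G.ends e = s(u, v))
    (vt (x.1, x.2.1)) (vt ((rho x).1, (rho x).2.1))
  conn' : ∀ x y : Flag {e // e ∉ F},
    Relation.EqvGen (fun u v : V => ∃ e ∈ F, G.ends e = s(u, v))
      (vt (x.1, x.2.1)) (vt (y.1, y.2.1)) → Relation.EqvGen (HStep rho ∅) x y

end Pool.Agent.H1.TP
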