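import Pool.Agent.H1.TP.Defs
import Pool.Agent.H1.TP.TP5

set_option autoImplicit false
set_option linter.unusedVariables false
set_option linter.unusedSectionVars false

/-! TR3 (helper1), proved by helper218: a turning strand at a series edge. -/

namespace Pool.Agent.H1.TP

open Finset Equiv

variable {I : Type} [Fintype I] [DecidableEq I] {c : ℕ}

namespace TR3

/-- two distinct ports of the side `false` of `i` are joined without the pairing at `i` -/
theorem joined (ρ : Flag I → Flag I) (hρ : ∀ x, ρ (ρ x) = x) (hne : ∀ x, ρ x ≠ x)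
    (t : Flag I → Perm (Fin c)) (m : I → Pairing c) (i i' : I) (hii : i' ≠ i) (γ : Flag I → Bool)
    (hγ : ∀ x, γ (ρ x) = γ x)
    (hm : ∀ l, l ≠ i → l ≠ i' → ∀ y : Loc c, γ (fl (l, (m l).1 y)) = γ (fl (l, y)))
    (h1 : ∀ b, γ (i, false, b) = false) (h2 : ∀ b, γ (i, true, b) = true)
    (s0 : Bool) (h3 : ∀ b, γ (i', s0, b) = false) (h4 : ∀ b, γ (i', !s0, b) = true)
    (g : Fin c → Ty) (j : Fin c) (hg : g j = gT) (hmi : m i' = typ g) :
    ∃ z z' : Bool × Fin c, z' ≠ z ∧
      Relation.EqvGen (fun x y : Port I c => y = strand ρ t x ∨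
        (x.1 ≠ i ∧ y = (x.1, (m x.1).1 x.2))) (i, false, z) (i, false, z') := by
  classical
  set W : Finset (Port I c) :=
    univ.filter fun a => a.1 = i ∨ (a.1 = i' ∧ (g a.2.2.2).1.1 = true) with hW
  have memW : ∀ a : Port I c, a ∈ W ↔ (a.1 = i ∨ (a.1 = i' ∧ (g a.2.2.2).1.1 = true)) := by
    intro a; simp [hW]
  have hgW : ∀ x : Port I c, x ∉ W → ((x.1, (m x.1).1 x.2) : Port I c) ∉ W ∧
      ((x.1, (m x.1).1 ((m x.1).1 x.2)) : Port I c) = x ∧
      ((x.1, (m x.1).1 x.2) : Port I c) ≠ x := by
    intro x hx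
    refine ⟨?_, ?_, ?_⟩
    · rw [memW] at hx ⊢
      push Not at hx
      push Not
      refine ⟨hx.1, fun hxi => ?_⟩
      have hxi' : x.1 = i' := hxi
      have h5 := hx.2 hxi'
      have h6 : ((m x.1).1 x.2).2.2 = x.2.2.2 := by
        rw [hxi', hmi]; rfl
      show (g ((m x.1).1 x.2).2.2).1.1 ≠ true
      rw [h6]
      exact h5
    · rw [(m x.1).2.1]
    · intro h
      exact (m x.1).2.2 x.2 (congrArg Prod.snd h)
  have hside : ∀ s b b', γ (i', s, b) = γ (i', s, b') := by
    intro s b b'
    by_cases hs : s = s0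
    · subst hs; rw [h3, h3]
    · have hs' : s = !s0 := by
        exact Bool.eq_not_of_ne hs
      subst hs'; rw [h4, h4]
  have hγW : ∀ x : Port I c, x ∉ W → γ (fl ((x.1, (m x.1).1 x.2) : Port I c)) = γ (fl x) := by
    intro x hx
    rw [memW] at hx
    push Not at hx
    by_cases hxi : x.1 = i'
    · have h5 : (g x.2.2.2).1.1 = false := by
        have := hx.2 hxi
        simpa using this
      obtain ⟨l, s, b, k⟩ := x
      simp only at hxi h5
      subst hxi
      show γ (fl ((l, (m l).1 (s, b, k)) : Port I c)) = γ (l, s, b)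
      rw [hmi]
      show γ (l, xor (g k).1.1 s, xor (g k).1.2 b) = γ (l, s, b)
      rw [h5, Bool.false_xor]
      exact hside _ _ _
    · exact hm x.1 hx.1 hxi x.2
  by_contra hcon
  push Not at hcon
  have key : ∀ z : Bool × Fin c, ∃ w : Bool × {k : Fin c // k ≠ j},
      Relation.EqvGen (fun x y : Port I c => y = strand ρ t x ∨
        (x.1 ≠ i ∧ y = (x.1, (m x.1).1 x.2))) (i, false, z) (i', s0, w.1, w.2.1) := by
    intro z
    obtain ⟨a', ha', hne', hE⟩ := TP5.parity (strand ρ t)
      (fun a : Port I c => (a.1, (m a.1).1 a.2)) W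
      (TP5.strand_strand hρ t) (TP5.strand_ne hne t) hgW (i, false, z) (by rw [memW]; exact Or.inl rfl)
    have hE' : Relation.EqvGen (fun x y : Port I c => y = strand ρ t x ∨
        (x.1 ≠ i ∧ y = (x.1, (m x.1).1 x.2))) (i, false, z) a' := by
      refine TP5.eg_mono (fun x y hxy => ?_) hE
      rcases hxy with hxy | ⟨h5, h6⟩
      · exact Or.inl hxy
      · refine Or.inr ⟨fun h7 => h5 ?_, h6⟩
        rw [memW]; exact Or.inl h7
    have hcol : γ (fl ((i, false, z) : Port I c)) = γ (fl a') := by
      refine TP5.eg_const (fun a => γ (fl a)) (fun x y hxy => ?_) hE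
      rcases hxy with hxy | ⟨h5, h6⟩
      · rw [hxy]
        exact (hγ (fl x)).symm
      · rw [h6]
        exact (hγW x h5).symm
    have hcol' : γ (fl a') = false := by
      rw [← hcol]
      exact h1 z.1
    rw [memW] at ha'
    obtain ⟨l, s, b, k⟩ := a'
    rcases ha' with hi | ⟨hi, hk⟩
    · simp only at hi
      subst hi
      cases s
      · exact absurd hE' (hcon z (b, k) (fun h => hne' (by rw [← h])))
      · have h7 : γ (l, true, b) = false := hcol'
        rw [h2] at h7
        exact absurd h7 (by decide)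
    · simp only at hi hk
      subst hi
      have hs : s = s0 := by
        by_contra hs
        have hs' : s = !s0 := by
          exact Bool.eq_not_of_ne hs
        subst hs'
        have h7 : γ (l, !s0, b) = false := hcol'
        rw [h4] at h7
        exact absurd h7 (by decide)
      subst hs
      have hkj : k ≠ j := by
        rintro rfl
        rw [hg] at hk
        exact absurd hk (by decide)
      exact ⟨(b, ⟨k, hkj⟩), hE'⟩
  choose q hq using key
  have hinj : Function.Injective q := by
    intro z z' hzz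
    by_contra hne2
    refine hcon z z' (fun h => hne2 h.symm) ?_
    have h5 := hq z
    rw [hzz] at h5
    exact Relation.EqvGen.trans _ _ _ h5 (Relation.EqvGen.symm _ _ (hq z'))
  have hcard := Fintype.card_le_of_injective q hinj
  rw [Fintype.card_prod, Fintype.card_prod, Fintype.card_bool, Fintype.card_fin] at hcard
  have h5 : Fintype.card {k : Fin c // k ≠ j} < c := by
    have h6 := Fintype.card_subtype_lt (p := fun k : Fin c => k ≠ j) (x := j) (by simp)
    rwa [Fintype.card_fin] at h6
  omega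

end TR3

/-- TR3 -/
theorem tr3_series (ρ : Flag I → Flag I) (hρ : ∀ x, ρ (ρ x) = x) (hne : ∀ x, ρ x ≠ x)
    (lam : ℤ) (m : I → Pairing c) (i i' : I) (hii : i' ≠ i) (γ : Flag I → Bool)
    (hγ : ∀ x, γ (ρ x) = γ x)
    (hm : ∀ l, l ≠ i → l ≠ i' → ∀ y : Loc c, γ (fl (l, (m l).1 y)) = γ (fl (l, y)))
    (h1 : ∀ b, γ (i, false, b) = false) (h2 : ∀ b, γ (i, true, b) = true)
    (s0 : Bool) (h3 : ∀ b, γ (i', s0, b) = false) (h4 : ∀ b, γ (i', !s0, b) = true)
    (g : Fin c → Ty) (j : Fin c) (hg : g j = gT) (hmi : m i' = typ g) :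
    ∑ σ : Perm (Bool × Fin c), ((Perm.sign σ : ℤˣ) : ℤ) *
      Psi ρ lam (Function.update m i (cross σ)) = 0 := by
  classical
  unfold Psi
  simp_rw [Finset.mul_sum]
  rw [Finset.sum_comm]
  refine Finset.sum_eq_zero fun t _ => ?_
  obtain ⟨z, z', hz', hcon⟩ := TR3.joined ρ hρ hne t m i i' hii γ hγ hm h1 h2 s0 h3 h4 g j hg hmi
  have hloops : ∀ σ : Perm (Bool × Fin c),
      loops ρ t (Function.update m i (cross (σ * swap z z'))) =
        loops ρ t (Function.update m i (cross σ)) := by
    intro σ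
    refine TP5.card_quot _ _ (TP5.loops_swap t m i z z' hcon σ) ?_
    have h := TP5.loops_swap t m i z z' hcon (σ * swap z z')
    rw [mul_assoc, swap_mul_self, mul_one] at h
    exact h
  refine Finset.sum_involution (fun σ _ => σ * swap z z') ?_ ?_ (fun σ _ => Finset.mem_univ _) ?_
  · intro σ _
    rw [hloops, Perm.sign_mul, Perm.sign_swap hz'.symm]
    push_cast
    ring
  · intro σ _ _ h
    have h1 : swap z z' = 1 := mul_left_cancel (a := σ) (by rw [h, mul_one])
    exact hz'.symm (swap_eq_one_iff.1 h1)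
  · intro σ _
    show σ * swap z z' * swap z z' = σ
    rw [mul_assoc, swap_mul_self, mul_one]

end Pool.Agent.H1.TP
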