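import Pool.Agent.H1.TP.Three
import Pool.Agent.H1.TP.TR3

set_option autoImplicit false
set_option linter.unusedVariables false
set_option linter.unusedSectionVars false

namespace Pool.Agent.H1.TP

open Finset Equiv Polynomial

variable {I : Type} [Fintype I] [DecidableEq I] {c : ℕ}

/-! ### the local part -/

/-- the signed sum over the permutations at `i` -/
noncomputable def Full (ρ : Flag I → Flag I) (m : I → Pairing c) (i : I) : ℤ :=
  ∑ σ : Perm (Bool × Fin c), ((Perm.sign σ : ℤˣ) : ℤ) *
    Psi ρ (-2) (Function.update m i (cross σ))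

lemma Full_antisymm (ρ : Flag I → Flag I) (hρ : ∀ x, ρ (ρ x) = x) (hne : ∀ x, ρ x ≠ x)
    (m : I → Pairing c) (i i' : I) (h : i' ≠ i) (α : Bool → Bool → Perm (Fin c)) (q : Pairing c) :
    Full ρ (Function.update m i' (cj α q)) i = sg4 α * Full ρ (Function.update m i' q) i := by
  unfold Full
  rw [mul_sum]
  refine sum_congr rfl fun σ _ => ?_
  rw [Function.update_comm h, Function.update_comm h, tp6_antisymm ρ hρ hne]
  ring

lemma Full_three (ρ : Flag I → Flag I) (hρ : ∀ x, ρ (ρ x) = x) (hne : ∀ x, ρ x ≠ x)
    (m : I → Pairing c) (i i' : I) (h : i' ≠ i) (g : Fin c → Ty) (j : Fin c) :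
    Full ρ (Function.update m i' (typ (Function.update g j gT))) i +
      Full ρ (Function.update m i' (typ (Function.update g j gN))) i +
      Full ρ (Function.update m i' (typ (Function.update g j gX))) i = 0 := by
  unfold Full
  rw [← sum_add_distrib, ← sum_add_distrib]
  refine sum_eq_zero fun σ _ => ?_
  rw [Function.update_comm h, Function.update_comm h, Function.update_comm h]
  have := tp11_three ρ hρ hne (Function.update m i (cross σ)) i' g j
  rw [← mul_add, ← mul_add, this, mul_zero]

/-- exchange of the two sums -/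
lemma Full_Full (ρ : Flag I → Flag I) (m : I → Pairing c) (i i' : I) (h : i' ≠ i) :
    ∑ σ' : Perm (Bool × Fin c), ((Perm.sign σ' : ℤˣ) : ℤ) *
      Full ρ (Function.update m i' (cross σ')) i =
    ∑ σ : Perm (Bool × Fin c), ((Perm.sign σ : ℤˣ) : ℤ) *
      Full ρ (Function.update m i (cross σ)) i' := by
  unfold Full
  simp_rw [mul_sum]
  rw [sum_comm]
  refine sum_congr rfl fun σ _ => sum_congr rfl fun σ' _ => ?_
  rw [Function.update_comm h]
  ring

/-- the local identity for `Full` -/
lemma Full_local (ρ : Flag I → Flag I) (p : ℕ) (r : Finset (Fin c) → ℤ)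
    (hr : ∀ (m : I → Pairing c) (i : I),
      ∑ σ : Perm (Bool × Fin c), ((Perm.sign σ : ℤˣ) : ℤ) *
        Psi ρ (-2) (Function.update m i (cross σ)) =
      ∑ b : Option (Finset (Fin c)), w2 p r b * Psi ρ (-2) (Function.update m i (phi2 b)))
    (m : I → Pairing c) (i i' : I) (h : i' ≠ i) :
    ∑ σ' : Perm (Bool × Fin c), ((Perm.sign σ' : ℤˣ) : ℤ) *
      Full ρ (Function.update m i' (cross σ')) i =
    ∑ o : Option (Finset (Fin c)), w2 p r o * Full ρ (Function.update m i' (phi2 o)) i := by
  rw [Full_Full ρ m i i' h]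
  have h1 : ∀ σ : Perm (Bool × Fin c), Full ρ (Function.update m i (cross σ)) i' =
    ∑ o : Option (Finset (Fin c)), w2 p r o *
      Psi ρ (-2) (Function.update (Function.update m i (cross σ)) i' (phi2 o)) := fun σ => hr _ _
  simp_rw [h1]
  unfold Full
  simp_rw [mul_sum]
  rw [sum_comm]
  refine sum_congr rfl fun o _ => sum_congr rfl fun σ _ => ?_
  rw [Function.update_comm h]
  ring

lemma series_pJ (G : Pairing c → ℤ)
    (h3 : ∀ (g : Fin c → Ty) (j : Fin c), G (typ (Function.update g j gT)) +
      G (typ (Function.update g j gN)) + G (typ (Function.update g j gX)) = 0)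
    (hv : ∀ (g : Fin c → Ty) (j : Fin c), g j = gT → G (typ g) = 0) (n : ℕ) :
    ∀ J : Finset (Fin c), (Jᶜ).card = n → G (pJ J) = (-1) ^ n * G (pJ univ) := by
  induction n with
  | zero =>
    intro J hJ
    have : J = univ := by
      rw [card_eq_zero, compl_eq_empty_iff] at hJ
      exact hJ
    rw [this]; simp
  | succ n ih =>
    intro J hJ
    obtain ⟨j, hj⟩ : (Jᶜ).Nonempty := by
      rw [← card_pos]; omega
    have hjJ : j ∉ J := by simpa using hj
    have h4 := h3 (fun k => if k ∈ J then gN else gX) j
    rw [hv _ j (by simp), zero_add] at h4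
    have e1 : (typ (Function.update (fun k => if k ∈ J then gN else gX) j gX) : Pairing c) = pJ J := by
      unfold pJ
      congr 1
      funext k
      by_cases hk : k = j
      · subst hk; simp [hjJ]
      · rw [Function.update_of_ne hk]
    have e2 : (typ (Function.update (fun k => if k ∈ J then gN else gX) j gN) : Pairing c) =
        pJ (insert j J) := by
      unfold pJ
      congr 1
      funext k
      by_cases hk : k = j
      · subst hk; simp
      · rw [Function.update_of_ne hk]
        simp [hk]
    rw [e1, e2] at h4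
    have h5 := ih (insert j J) (by
      have : (insert j J)ᶜ = (Jᶜ).erase j := by
        ext k; simp [mem_insert]
      rw [this, card_erase_of_mem hj, hJ]
      rfl)
    rw [h5] at h4
    rw [pow_succ]
    linarith

lemma sum_choose_sq (c : ℕ) : ∑ J : Finset (Fin c), ((c.choose J.card : ℕ) : ℤ) =
    (((2 * c).choose c : ℕ) : ℤ) := by
  have h1 := sum_powerset_apply_card (fun n => ((c.choose n : ℕ) : ℤ)) (x := (univ : Finset (Fin c)))
  rw [powerset_univ, card_univ, Fintype.card_fin] at h1
  rw [h1, two_mul, Nat.add_choose_eq, Finset.Nat.sum_antidiagonal_eq_sum_range_succ_mk]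
  push_cast
  refine sum_congr rfl fun n hn => ?_
  rw [mem_range] at hn
  rw [nsmul_eq_mul, Nat.choose_symm (by omega : n ≤ c)]

lemma series_sum (G : Pairing c → ℤ) (hG : ∀ α q, G (cj α q) = sg4 α * G q)
    (h3 : ∀ (g : Fin c → Ty) (j : Fin c), G (typ (Function.update g j gT)) +
      G (typ (Function.update g j gN)) + G (typ (Function.update g j gX)) = 0)
    (hv : ∀ (g : Fin c → Ty) (j : Fin c), g j = gT → G (typ g) = 0) :
    ∑ σ : Perm (Bool × Fin c), ((Perm.sign σ : ℤˣ) : ℤ) * G (cross σ) =
      (c.factorial : ℤ) ^ 2 * (((2 * c).choose c : ℕ) : ℤ) * G (pJ univ) := by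
  rw [TP10.total G hG, ← sum_choose_sq, mul_sum, sum_mul]
  refine sum_congr rfl fun J _ => ?_
  rw [series_pJ G h3 hv _ J rfl]
  have hc : (Jᶜ).card = c - J.card := by
    rw [card_compl, Fintype.card_fin]
  rw [hc]
  have h4 : ((-1 : ℤ) ^ (c - J.card)) * (-1) ^ (c - J.card) = 1 := by
    rw [← mul_pow]; simp
  linear_combination (c.factorial : ℤ) ^ 2 * (c.choose J.card : ℤ) * G (pJ univ) * h4

/-! ### connectivity -/

/-- the flags are in the same component -/
def conn (ρ : Flag I → Flag I) (S : Finset I) (a b : Flag I) : Prop :=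
  Quot.mk (HStep ρ S) a = Quot.mk (HStep ρ S) b

lemma conn_mono (ρ : Flag I → Flag I) {S S' : Finset I} (h : S ⊆ S') {a b : Flag I}
    (hc : conn ρ S a b) : conn ρ S' a b := by
  have h9 := congrArg (Quot.map id (fun x y (h' : HStep ρ S x y) =>
    (show HStep ρ S' x y from h'.imp_right
      (fun h' => ⟨h'.1, h'.2.imp_right (fun h' => h h')⟩)))) hc
  exact h9

lemma conn_side (ρ : Flag I → Flag I) (S : Finset I) (i : I) (s b b' : Bool) :
    conn ρ S (i, s, b) (i, s, b') := same_side ρ S i s b b'

lemma merge (ρ : Flag I → Flag I) (S : Finset I) (j : I) (a b : Flag I)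
    (h : conn ρ (insert j S) a b) : conn ρ S a b ∨
      ∃ s : Bool, conn ρ S a (j, s, false) ∧ conn ρ S b (j, !s, false) := by
  have h1 := Quot.eqvGen_exact h
  clear h
  induction h1 with
  | rel x y h =>
    rcases h with h | ⟨h1, h2 | h2⟩
    · exact Or.inl (Quot.sound (Or.inl h))
    · exact Or.inl (Quot.sound (Or.inr ⟨h1, Or.inl h2⟩))
    · rw [mem_insert] at h2
      rcases h2 with h2 | h2
      · obtain ⟨i1, s1, b1⟩ := x
        obtain ⟨i2, s2, b2⟩ := y
        simp only at h1 h2
        subst h1
        subst h2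
        by_cases hs : s2 = s1
        · subst hs
          exact Or.inl (conn_side ρ S _ _ _ _)
        · have : s2 = !s1 := by cases s1 <;> cases s2 <;> simp_all
          subst this
          exact Or.inr ⟨s1, conn_side ρ S _ _ _ _, conn_side ρ S _ _ _ _⟩
      · exact Or.inl (Quot.sound (Or.inr ⟨h1, Or.inr h2⟩))
  | refl x => exact Or.inl rfl
  | symm x y _ ih =>
    rcases ih with h | ⟨s, h1, h2⟩
    · exact Or.inl h.symm
    · exact Or.inr ⟨!s, h2, by rw [Bool.not_not]; exact h1⟩
  | trans x y z _ _ ih1 ih2 =>
    rcases ih1 with h | ⟨s, h1, h2⟩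
    · rcases ih2 with h' | ⟨s', h1', h2'⟩
      · exact Or.inl (h.trans h')
      · exact Or.inr ⟨s', h.trans h1', h2'⟩
    · rcases ih2 with h' | ⟨s', h1', h2'⟩
      · exact Or.inr ⟨s, h1, h'.symm.trans h2⟩
      · by_cases hs : s' = s
        · subst hs
          exact Or.inr ⟨s', h1, h2'⟩
        · have : s' = !s := by cases s <;> cases s' <;> simp_all
          subst this
          rw [Bool.not_not] at h2'
          exact Or.inl (h1.trans h2'.symm)

/-- the set `K` is a forest of `G / F` and the ends of `i` are connected in it -/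
structure Cyc (ρ : Flag I → Flag I) (K : Finset I) (i : I) : Prop where
  hi : i ∉ K
  forest : kap ρ K + K.card = kap ρ ∅
  joined : conn ρ K (i, false, false) (i, true, false)

lemma Cyc.cut {ρ : Flag I → Flag I} {K : Finset I} {i : I} (h : Cyc ρ K i) (j : I) (hj : j ∈ K) :
    ¬ conn ρ (K.erase j) (j, false, false) (j, true, false) := by
  have h1 := h.forest
  rw [← insert_erase hj] at h1
  exact (forest_insert ρ (K.erase j) j (notMem_erase j K) h1).2

open Classical in
/-- the other edges of the cycle -/
noncomputable def Ser (ρ : Flag I → Flag I) (K : Finset I) (i : I) : Finset I :=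
  K.filter fun j => ¬ conn ρ (K.erase j) (i, false, false) (i, true, false)

lemma Cyc.series {ρ : Flag I → Flag I} {K : Finset I} {i : I} (h : Cyc ρ K i) (j : I)
    (hj : j ∈ Ser ρ K i) : ∃ s : Bool, conn ρ (K.erase j) (i, false, false) (j, s, false) ∧
      conn ρ (K.erase j) (i, true, false) (j, !s, false) := by
  classical
  unfold Ser at hj
  rw [mem_filter] at hj
  have h1 := h.joined
  rw [← insert_erase hj.1] at h1
  rcases merge ρ (K.erase j) j _ _ h1 with h2 | h2
  · exact absurd h2 hj.2
  · exact h2

lemma Cyc.bridge {ρ : Flag I → Flag I} {K : Finset I} {i : I} (h : Cyc ρ K i) (j : I)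
    (hj : j ∈ K) (hjs : j ∉ Ser ρ K i) :
    ¬ conn ρ (insert i (K.erase j)) (j, false, false) (j, true, false) := by
  classical
  intro hc
  have h1 : conn ρ (K.erase j) (i, false, false) (i, true, false) := by
    by_contra hcon
    exact hjs (mem_filter.2 ⟨hj, hcon⟩)
  apply h.cut j hj
  rcases merge ρ (K.erase j) i _ _ hc with h2 | ⟨s, h2, h3⟩
  · exact h2
  · cases s
    · exact (h2.trans h1).trans h3.symm
    · exact (h2.trans h1.symm).trans h3.symm

lemma Cyc.ser_joined {ρ : Flag I → Flag I} {K : Finset I} {i : I} (h : Cyc ρ K i) :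
    conn ρ (Ser ρ K i) (i, false, false) (i, true, false) := by
  classical
  have key : ∀ T : Finset I, T ⊆ K → (∀ j ∈ T, j ∉ Ser ρ K i) →
      conn ρ (K \ T) (i, false, false) (i, true, false) := by
    intro T
    induction T using Finset.induction with
    | empty =>
      intro _ _
      rw [sdiff_empty]
      exact h.joined
    | insert j T hj ih =>
      intro h1 h2
      have hjK : j ∈ K := h1 (mem_insert_self _ _)
      have h3 := ih (fun x hx => h1 (mem_insert_of_mem hx)) (fun x hx => h2 x (mem_insert_of_mem hx))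
      have e1 : K \ T = insert j (K \ insert j T) := by
        ext x
        simp only [mem_sdiff, mem_insert]
        constructor
        · rintro ⟨h4, h5⟩
          by_cases hx : x = j
          · exact Or.inl hx
          · exact Or.inr ⟨h4, by tauto⟩
        · rintro (rfl | ⟨h4, h5⟩)
          · exact ⟨hjK, hj⟩
          · exact ⟨h4, by tauto⟩
      rw [e1] at h3
      rcases merge ρ _ j _ _ h3 with h4 | ⟨s, h4, h5⟩
      · exact h4
      · exfalso
        have hsub : K \ insert j T ⊆ K.erase j := by
          intro x hx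
          rw [mem_sdiff, mem_insert] at hx
          rw [mem_erase]
          exact ⟨fun h => hx.2 (Or.inl h), hx.1⟩
        have h6 := conn_mono ρ hsub h4
        have h7 := conn_mono ρ hsub h5
        have h8 : conn ρ (K.erase j) (i, false, false) (i, true, false) := by
          by_contra hcon
          exact h2 j (mem_insert_self _ _) (mem_filter.2 ⟨hjK, hcon⟩)
        apply h.cut j hjK
        cases s
        · exact (h6.symm.trans h8).trans h7
        · exact (h7.symm.trans h8.symm).trans h6
  have h9 := key (K \ Ser ρ K i) sdiff_subset (fun j hj => (mem_sdiff.1 hj).2)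
  have e2 : K \ (K \ Ser ρ K i) = Ser ρ K i := by
    rw [sdiff_sdiff_right_self]
    exact inter_eq_right.2 (filter_subset _ _)
  rw [e2] at h9
  exact h9

end Pool.Agent.H1.TP
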