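import Pool.Agent.H1.TP.TR1
import Pool.Agent.H1.TP.TH2

set_option autoImplicit false
set_option linter.unusedVariables false
set_option linter.unusedSectionVars false

/-! TR2: the signed sum when the strands at one matching edge are permuted among both cables. -/

namespace Pool.Agent.H1.TP

open Finset Equiv

variable {I : Type} [Fintype I] [DecidableEq I] {c : ℕ}

/-- the flags joined by the cables outside of the matching edge `i` -/
def OStep (ρ : Flag I → Flag I) (g : I → Ty) (i : I) (x y : Flag I) : Prop :=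
  y = ρ x ∨ (x.1 ≠ i ∧ y = cab g x)

namespace TR2

open TP15 (quotEquiv sg_mul Tk en en_range en_inj en_comp en_surj sg_inv card_pairs count_t)
open TR1 (cab_cab cab_ne vx sec vx_cab vx_sec sec_vx)

/-- the local colouring at the side `s` of the matching edge `i` -/
def Fs {k : ℕ} (f : Flag I → Fin c → Fin k) (i : I) (s : Bool) (z : Bool × Fin c) : Fin k :=
  f (i, s, z.1) z.2

/-- the condition at the edges outside the matching -/
def cT {k : ℕ} (ρ : Flag I → Flag I) (t : Flag I → Perm (Fin c))
    (f : Flag I → Fin c → Fin k) : Prop :=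
  ∀ x, f (ρ x) ∘ t (ρ x) = f x ∘ t x

/-- the condition at the matching edges other than `i` -/
def cO {k : ℕ} (g : I → Ty) (i : I) (f : Flag I → Fin c → Fin k) : Prop :=
  ∀ x : Flag I, x.1 ≠ i → f (cab g x) = f x

/-- the condition at the matching edge `i` -/
def cR {k : ℕ} (i : I) (σ : Perm (Bool × Fin c)) (f : Flag I → Fin c → Fin k) : Prop :=
  Fs f i true ∘ σ = Fs f i false

/-- colourings of the ports are families of colour sequences at the flags -/
def portEquiv {k : ℕ} : (Port I c → Fin k) ≃ (Flag I → Fin c → Fin k) where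
  toFun κ x j := κ (pt x j)
  invFun f a := f (fl a) a.2.2.2
  left_inv κ := rfl
  right_inv f := rfl

lemma port_iff {k : ℕ} (ρ : Flag I → Flag I) (t : Flag I → Perm (Fin c)) (g : I → Ty) (i : I)
    (σ : Perm (Bool × Fin c)) (κ : Port I c → Fin k) :
    (∀ a b, Step ρ t (Function.update (fun i' => (typ (fun _ => g i') : Pairing c)) i (cross σ)) a b →
      κ b = κ a) ↔
    cT ρ t (portEquiv κ) ∧ cO g i (portEquiv κ) ∧ cR i σ (portEquiv κ) := by
  constructor
  · intro h
    refine ⟨fun x => ?_, fun x hx => ?_, ?_⟩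
    · funext j
      have h1 := h (pt x (t x j)) (strand ρ t (pt x (t x j))) (Or.inl rfl)
      have h2 : strand ρ t (pt x (t x j)) = pt (ρ x) (t (ρ x) j) := by
        show pt (ρ x) (t (ρ x) ((t x).symm (t x j))) = _
        rw [Equiv.symm_apply_apply]
      rw [h2] at h1
      exact h1
    · funext j
      refine h (pt x j) (pt (cab g x) j) (Or.inr ?_)
      show pt (cab g x) j = (x.1, (Function.update (fun i' => (typ (fun _ => g i') : Pairing c)) i
        (cross σ) x.1).1 (pt x j).2)
      rw [Function.update_of_ne hx]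
      rfl
    · funext z
      refine h (i, false, z) (i, true, σ z) (Or.inr ?_)
      show _ = (i, (Function.update (fun i' => (typ (fun _ => g i') : Pairing c)) i
        (cross σ) i).1 (false, z))
      rw [Function.update_self]
      rfl
  · rintro ⟨h1, h2, h3⟩ a b (h | h)
    · subst h
      have h4 := congrFun (h1 (fl a)) ((t (fl a)).symm a.2.2.2)
      simp only [Function.comp_apply, Equiv.apply_symm_apply] at h4
      exact h4
    · by_cases ha : a.1 = i
      · obtain ⟨i', s, z⟩ := a
        have ha' : i' = i := ha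
        subst ha'
        rw [Function.update_self] at h
        subst h
        cases s
        · exact congrFun h3 z
        · have h4 := congrFun h3 (σ.symm z)
          simp only [Function.comp_apply, Equiv.apply_symm_apply] at h4
          exact h4.symm
      · rw [Function.update_of_ne ha] at h
        subst h
        exact congrFun (h2 (fl a) ha) a.2.2.2

open Classical in
lemma pow_loops' (k : ℕ) (ρ : Flag I → Flag I) (t : Flag I → Perm (Fin c)) (g : I → Ty) (i : I)
    (σ : Perm (Bool × Fin c)) :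
    (k : ℤ) ^ loops ρ t (Function.update (fun i' => (typ (fun _ => g i') : Pairing c)) i
      (cross σ)) =
      ∑ f : Flag I → Fin c → Fin k, if cT ρ t f ∧ cO g i f ∧ cR i σ f then (1 : ℤ) else 0 := by
  have h : k ^ loops ρ t (Function.update (fun i' => (typ (fun _ => g i') : Pairing c)) i
      (cross σ)) =
      Nat.card {f : Flag I → Fin c → Fin k // cT ρ t f ∧ cO g i f ∧ cR i σ f} := by
    rw [← Nat.card_congr (Equiv.subtypeEquiv portEquiv (port_iff ρ t g i σ)),
      Nat.card_congr (quotEquiv _), Nat.card_fun, Nat.card_fin]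
    rfl
  rw [Nat.card_eq_fintype_card, Fintype.card_subtype] at h
  rw [Finset.sum_boole, ← h]
  push_cast
  rfl

open Classical in
/-- the sum over the permutations at the flags -/
noncomputable def SA {k : ℕ} (ρ : Flag I → Flag I) (f : Flag I → Fin c → Fin k) : ℤ :=
  ∑ t : Flag I → Perm (Fin c), sg t * (if cT ρ t f then (1 : ℤ) else 0)

open Classical in
/-- the sum over the permutations at the matching edge `i` -/
noncomputable def SB {k : ℕ} (i : I) (f : Flag I → Fin c → Fin k) : ℤ :=
  ∑ σ : Perm (Bool × Fin c), ((Perm.sign σ : ℤˣ) : ℤ) * (if cR i σ f then (1 : ℤ) else 0)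

open Classical in
lemma total_eq (k : ℕ) (ρ : Flag I → Flag I) (g : I → Ty) (i : I) :
    ∑ σ : Perm (Bool × Fin c), ((Perm.sign σ : ℤˣ) : ℤ) *
        Psi ρ (k : ℤ) (Function.update (fun i' => (typ (fun _ => g i') : Pairing c)) i (cross σ)) =
      ∑ f : Flag I → Fin c → Fin k, (if cO g i f then (1 : ℤ) else 0) * (SA ρ f * SB i f) := by
  unfold Psi
  simp_rw [pow_loops', Finset.mul_sum]
  rw [Finset.sum_congr rfl fun σ _ => Finset.sum_comm, Finset.sum_comm]
  refine Finset.sum_congr rfl fun f _ => ?_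
  unfold SA SB
  rw [Finset.sum_mul_sum, Finset.sum_comm, Finset.mul_sum]
  refine Finset.sum_congr rfl fun t _ => ?_
  rw [Finset.mul_sum]
  refine Finset.sum_congr rfl fun σ _ => ?_
  by_cases h1 : cT ρ t f <;> by_cases h2 : cO g i f <;> by_cases h3 : cR i σ f <;>
    simp [h1, h2, h3, mul_comm]

lemma cT_shift {k : ℕ} (ρ : Flag I → Flag I) (u t : Flag I → Perm (Fin c))
    (f f' : Flag I → Fin c → Fin k) (hu : ∀ y, f y ∘ u y = f' y) :
    cT ρ (u * t) f ↔ cT ρ t f' := by
  have h : ∀ y, f y ∘ ((u * t) y) = f' y ∘ t y := by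
    intro y
    rw [← hu y]
    rfl
  unfold cT
  simp_rw [h]

lemma SA_shift {k : ℕ} (ρ : Flag I → Flag I) (u : Flag I → Perm (Fin c))
    (f f' : Flag I → Fin c → Fin k) (hu : ∀ y, f y ∘ u y = f' y) :
    SA ρ f = sg u * SA ρ f' := by
  unfold SA
  rw [← Equiv.sum_comp (Equiv.mulLeft u), Finset.mul_sum]
  refine Finset.sum_congr rfl fun t _ => ?_
  rw [Equiv.coe_mulLeft, sg_mul, mul_assoc]
  have h1 := cT_shift ρ u t f f' hu
  by_cases h2 : cT ρ t f'
  · rw [if_pos h2, if_pos (h1.2 h2)]
  · rw [if_neg h2, if_neg (fun h3 => h2 (h1.1 h3))]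

/-- families with a repetition at a flag do not contribute -/
lemma SA_noninj {k : ℕ} (ρ : Flag I → Flag I) (f : Flag I → Fin c → Fin k) (x : Flag I)
    (hx : ¬ Function.Injective (f x)) : SA ρ f = 0 := by
  simp only [Function.Injective, not_forall] at hx
  obtain ⟨a, b, hab, hne⟩ := hx
  have h := SA_shift ρ (fun y : Flag I => if y = x then swap a b else 1) f f (by
    intro y
    by_cases hy : y = x
    · subst hy
      funext l
      rw [if_pos rfl]
      show f y (swap a b l) = f y l
      by_cases h1 : l = a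
      · rw [h1, swap_apply_left, hab]
      by_cases h2 : l = b
      · rw [h2, swap_apply_right, hab]
      rw [swap_apply_of_ne_of_ne h1 h2]
    · rw [if_neg hy]
      rfl)
  have hs : sg (fun y : Flag I => if y = x then swap a b else (1 : Perm (Fin c))) = -1 := by
    unfold sg
    have : ∀ y : Flag I, ((Perm.sign (if y = x then swap a b else (1 : Perm (Fin c))) : ℤˣ) : ℤ) =
        if y = x then -1 else 1 := by
      intro y
      split_ifs
      · rw [Perm.sign_swap hne]
        rfl
      · simp
    simp_rw [this]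
    rw [Finset.prod_ite_eq']
    simp
  rw [hs] at h
  linarith

/-- the family given by the sets and the orders -/
def Phi {k : ℕ} (q : (Flag I → Tk c k) × (Flag I → Perm (Fin c))) : Flag I → Fin c → Fin k :=
  fun x => en (q.1 x) ∘ q.2 x

lemma Phi_inj {k : ℕ} :
    Function.Injective (Phi : (Flag I → Tk c k) × (Flag I → Perm (Fin c)) → _) := by
  rintro ⟨S, p⟩ ⟨S', p'⟩ h
  have h1 : ∀ x, S x = S' x ∧ p x = p' x := fun x => en_comp (congrFun h x)
  exact Prod.ext (funext fun x => (h1 x).1) (funext fun x => (h1 x).2)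

lemma Phi_range {k : ℕ} (f : Flag I → Fin c → Fin k)
    (h : f ∉ Set.range (Phi : (Flag I → Tk c k) × (Flag I → Perm (Fin c)) → _)) :
    ∃ x, ¬ Function.Injective (f x) := by
  by_contra h1
  push Not at h1
  apply h
  choose S p hp using fun x => en_surj (h1 x)
  exact ⟨(S, p), funext hp⟩

lemma cT_en {k : ℕ} (ρ : Flag I → Flag I) (t : Flag I → Perm (Fin c)) (S : Flag I → Tk c k) :
    cT ρ t (fun x => en (S x)) ↔ (∀ x, S (ρ x) = S x) ∧ ∀ x, t (ρ x) = t x := by
  constructor
  · intro h
    exact ⟨fun x => (en_comp (h x)).1, fun x => (en_comp (h x)).2⟩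
  · rintro ⟨h1, h2⟩ x
    show en (S (ρ x)) ∘ t (ρ x) = en (S x) ∘ t x
    rw [h1, h2]

lemma sg_inv' (p : Flag I → Perm (Fin c)) : sg (fun y => (p y)⁻¹) = sg p := by
  unfold sg
  refine Finset.prod_congr rfl fun x _ => ?_
  rw [Perm.sign_inv]

open Classical in
lemma SA_Phi {k : ℕ} (ρ : Flag I → Flag I) (hρ : ∀ x, ρ (ρ x) = x) (hne : ∀ x, ρ x ≠ x)
    (q : (Flag I → Tk c k) × (Flag I → Perm (Fin c))) :
    SA ρ (Phi q) = sg q.2 * (if ∀ x, q.1 (ρ x) = q.1 x then
      ((c.factorial ^ (2 * Fintype.card I) : ℕ) : ℤ) else 0) := by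
  rw [SA_shift ρ (fun y => (q.2 y)⁻¹) (Phi q) (fun x => en (q.1 x)) (by
    intro y
    funext j
    show en (q.1 y) (q.2 y ((q.2 y)⁻¹ j)) = en (q.1 y) j
    exact congrArg _ (Equiv.apply_symm_apply _ j)), sg_inv']
  congr 1
  unfold SA
  simp_rw [cT_en]
  split_ifs with hS
  · simp only [hS, implies_true, true_and]
    rw [← count_t (c := c) ρ hρ hne, Finset.card_filter]
    push_cast
    refine Finset.sum_congr rfl fun t _ => ?_
    split_ifs with ht
    · rw [sg_inv ρ hρ hne t ht, one_mul]
    · rw [mul_zero]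
  · refine Finset.sum_eq_zero fun t _ => ?_
    rw [if_neg (fun h => hS h.1), mul_zero]

lemma cO_Phi {k : ℕ} (g : I → Ty) (i : I) (q : (Flag I → Tk c k) × (Flag I → Perm (Fin c))) :
    cO g i (Phi q) ↔ (∀ x : Flag I, x.1 ≠ i → q.1 (cab g x) = q.1 x) ∧
      ∀ x : Flag I, x.1 ≠ i → q.2 (cab g x) = q.2 x := by
  constructor
  · intro h
    exact ⟨fun x hx => (en_comp (h x hx)).1, fun x hx => (en_comp (h x hx)).2⟩
  · rintro ⟨h1, h2⟩ x hx
    show en (q.1 (cab g x)) ∘ q.2 (cab g x) = en (q.1 x) ∘ q.2 x
    rw [h1 x hx, h2 x hx]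

/-- the product of the signs of a family which is constant along the cables outside of `i` -/
lemma sg_off (g : I → Ty) (i : I) (p : Flag I → Perm (Fin c))
    (hp : ∀ x : Flag I, x.1 ≠ i → p (cab g x) = p x) :
    sg p = ∏ s : Bool, ∏ b : Bool, ((Perm.sign (p (i, s, b)) : ℤˣ) : ℤ) := by
  unfold sg
  rw [Fintype.prod_prod_type, ← Finset.mul_prod_erase _ _ (Finset.mem_univ i)]
  have h1 : ∏ i' ∈ univ.erase i, ∏ y : Bool × Bool, ((Perm.sign (p (i', y)) : ℤˣ) : ℤ) = 1 := by
    refine Finset.prod_eq_one fun i' hi' => ?_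
    have hne : i' ≠ i := (Finset.mem_erase.1 hi').1
    refine Finset.prod_involution (fun y _ => (cab g (i', y)).2) (fun y _ => ?_) (fun y _ _ => ?_)
      (fun y _ => Finset.mem_univ _) (fun y _ => ?_)
    · have h2 : p (i', (cab g (i', y)).2) = p (i', y) := hp (i', y) hne
      rw [h2, ← Units.val_mul, Int.units_mul_self]
      rfl
    · intro h
      exact cab_ne g (i', y) (Prod.ext rfl h)
    · exact congrArg Prod.snd (cab_cab g (i', y))
  rw [h1, mul_one, Fintype.prod_prod_type]

/-- the sign of the exchange of two blocks of even length -/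
lemma sign_blockswap (hc : Even c) (e : Bool) :
    ∃ E : Perm (Bool × Fin c), (∀ z, E z = (xor e z.1, z.2)) ∧ Perm.sign E = 1 := by
  cases e
  · exact ⟨1, fun z => by simp, Perm.sign_one⟩
  · refine ⟨Equiv.prodCongrLeft (fun _ : Fin c => Equiv.boolNot), fun z => ?_, ?_⟩
    · simp [Equiv.prodCongrLeft]
    · rw [Perm.sign_prodCongrLeft, Finset.prod_const, Finset.card_univ, Fintype.card_fin]
      have h1 : Perm.sign Equiv.boolNot = -1 := by decide
      rw [h1]
      exact Even.neg_one_pow hc

/-- the permutation of the two blocks given by two permutations -/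
def bl (a : Bool → Perm (Fin c)) : Perm (Bool × Fin c) := Equiv.prodCongrRight a

lemma sign_bl (a : Bool → Perm (Fin c)) :
    ((Perm.sign (bl a) : ℤˣ) : ℤ) = ∏ b, ((Perm.sign (a b) : ℤˣ) : ℤ) := by
  unfold bl
  rw [Perm.sign_prodCongrRight]
  push_cast
  rfl

open Classical in
/-- the signed number of the permutations preserving a family -/
lemma sum_stab {k : ℕ} (G : Bool × Fin c → Fin k) :
    ∑ τ : Perm (Bool × Fin c), ((Perm.sign τ : ℤˣ) : ℤ) * (if G ∘ τ = G then (1 : ℤ) else 0) =
      if Function.Injective G then 1 else 0 := by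
  split_ifs with h
  · rw [Finset.sum_eq_single 1]
    · simp
    · intro τ _ hτ
      rw [if_neg, mul_zero]
      intro h1
      apply hτ
      ext1 z
      exact h (congrFun h1 z)
    · intro h1
      exact absurd (Finset.mem_univ _) h1
  · simp only [Function.Injective, not_forall] at h
    obtain ⟨a, b, hab, hne⟩ := h
    have hsw : G ∘ swap a b = G := by
      funext z
      show G (swap a b z) = G z
      by_cases h1 : z = a
      · rw [h1, swap_apply_left, hab]
      by_cases h2 : z = b
      · rw [h2, swap_apply_right, hab]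
      rw [swap_apply_of_ne_of_ne h1 h2]
    have h1 : ∑ τ : Perm (Bool × Fin c), ((Perm.sign τ : ℤˣ) : ℤ) *
        (if G ∘ τ = G then (1 : ℤ) else 0) = - ∑ τ : Perm (Bool × Fin c),
        ((Perm.sign τ : ℤˣ) : ℤ) * (if G ∘ τ = G then (1 : ℤ) else 0) := by
      conv_lhs => rw [← Equiv.sum_comp (Equiv.mulLeft (swap a b))]
      rw [← Finset.sum_neg_distrib]
      refine Finset.sum_congr rfl fun τ _ => ?_
      rw [Equiv.coe_mulLeft, Perm.sign_mul, Perm.sign_swap hne]
      have h2 : G ∘ ((swap a b * τ : Perm (Bool × Fin c)) : Bool × Fin c → Bool × Fin c) = G ∘ τ := by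
        calc G ∘ ((swap a b * τ : Perm (Bool × Fin c)) : Bool × Fin c → Bool × Fin c) =
            (G ∘ swap a b) ∘ τ := rfl
          _ = G ∘ τ := by rw [hsw]
      rw [h2]
      split_ifs <;> simp
    linarith

/-- two enumerations -/
lemma G_inj {k : ℕ} (S : Bool → Tk c k) :
    Function.Injective (fun z : Bool × Fin c => en (S z.1) z.2) ↔
      Disjoint (S false).1 (S true).1 := by
  constructor
  · intro h
    rw [Finset.disjoint_left]
    intro x hx hx'
    have h1 : x ∈ Set.range (en (S false)) := by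
      rw [en_range]
      exact hx
    have h2 : x ∈ Set.range (en (S true)) := by
      rw [en_range]
      exact hx'
    obtain ⟨j, hj⟩ := h1
    obtain ⟨j', hj'⟩ := h2
    have h3 : ((false, j) : Bool × Fin c) = (true, j') := h (hj.trans hj'.symm)
    exact Bool.false_ne_true (congrArg Prod.fst h3)
  · intro h
    have key : ∀ b j b' j', en (S b) j = en (S b') j' → b = b' := by
      intro b j b' j' h1
      have m1 : en (S b) j ∈ (S b).1 := by
        have : en (S b) j ∈ Set.range (en (S b)) := ⟨j, rfl⟩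
        rw [en_range] at this
        exact this
      have m2 : en (S b') j' ∈ (S b').1 := by
        have : en (S b') j' ∈ Set.range (en (S b')) := ⟨j', rfl⟩
        rw [en_range] at this
        exact this
      rw [h1] at m1
      cases b <;> cases b'
      · rfl
      · exact absurd m2 (Finset.disjoint_left.1 h m1)
      · exact absurd m1 (Finset.disjoint_left.1 h m2)
      · rfl
    rintro ⟨b, j⟩ ⟨b', j'⟩ h1
    have h2 := key b j b' j' h1
    subst h2
    have h3 := en_inj _ h1
    exact Prod.ext rfl h3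

open Classical in
lemma SB_Phi {k : ℕ} (hc : Even c) (i : I) (e : Bool)
    (q : (Flag I → Tk c k) × (Flag I → Perm (Fin c)))
    (he : ∀ b, q.1 (i, true, b) = q.1 (i, false, xor e b)) :
    SB i (Phi q) = (∏ s : Bool, ∏ b : Bool, ((Perm.sign (q.2 (i, s, b)) : ℤˣ) : ℤ)) *
      (if Disjoint (q.1 (i, false, false)).1 (q.1 (i, false, true)).1 then 1 else 0) := by
  obtain ⟨E, hE, hEs⟩ := sign_blockswap (c := c) hc e
  obtain ⟨G, hG⟩ : ∃ G : Bool × Fin c → Fin k, G = fun z => en (q.1 (i, false, z.1)) z.2 := ⟨_, rfl⟩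
  obtain ⟨Pf, hPf⟩ : ∃ P : Perm (Bool × Fin c), P = bl (fun b => q.2 (i, false, b)) := ⟨_, rfl⟩
  obtain ⟨Pt, hPt⟩ : ∃ P : Perm (Bool × Fin c), P = bl (fun b => q.2 (i, true, b)) := ⟨_, rfl⟩
  have hf : Fs (Phi q) i false = G ∘ Pf := by
    funext z
    rw [hG, hPf]
    rfl
  have ht : Fs (Phi q) i true = G ∘ (E * Pt : Perm (Bool × Fin c)) := by
    funext z
    have h1 : Fs (Phi q) i true z = en (q.1 (i, true, z.1)) (q.2 (i, true, z.1) z.2) := rfl
    have h2 : (G ∘ (E * Pt : Perm (Bool × Fin c))) z = G (E (Pt z)) := rfl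
    have h3 : Pt z = (z.1, q.2 (i, true, z.1) z.2) := by
      rw [hPt]
      rfl
    rw [h1, h2, h3, hE, hG, he]
  have hinj : Function.Injective G ↔
      Disjoint (q.1 (i, false, false)).1 (q.1 (i, false, true)).1 := by
    rw [hG]
    exact G_inj (fun b => q.1 (i, false, b))
  have hcR : ∀ σ : Perm (Bool × Fin c), cR i σ (Phi q) ↔ G ∘ (E * Pt * σ * Pf⁻¹ : Perm (Bool × Fin c)) = G := by
    intro σ
    unfold cR
    rw [hf, ht]
    constructor
    · intro h
      funext z
      have h1 := congrFun h (Pf⁻¹ z)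
      have h2 : Pf (Pf⁻¹ z) = z := Equiv.apply_symm_apply Pf z
      simp only [Function.comp_apply] at h1
      rw [h2] at h1
      exact h1
    · intro h
      funext z
      have h1 := congrFun h (Pf z)
      have h2 : Pf⁻¹ (Pf z) = z := Equiv.symm_apply_apply Pf z
      have h3 : (G ∘ (E * Pt * σ * Pf⁻¹ : Perm (Bool × Fin c))) (Pf z) = G ((E * Pt * σ) (Pf⁻¹ (Pf z))) := rfl
      rw [h3, h2] at h1
      exact h1
  have hsum : SB i (Phi q) = ((Perm.sign Pt : ℤˣ) : ℤ) * ((Perm.sign Pf : ℤˣ) : ℤ) *
      ∑ τ : Perm (Bool × Fin c), ((Perm.sign τ : ℤˣ) : ℤ) * (if G ∘ τ = G then (1 : ℤ) else 0) := by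
    unfold SB
    simp_rw [hcR]
    conv_rhs => rw [← Equiv.sum_comp ((Equiv.mulLeft (E * Pt)).trans (Equiv.mulRight Pf⁻¹))]
    rw [Finset.mul_sum]
    refine Finset.sum_congr rfl fun σ _ => ?_
    have h1 : ((Equiv.mulLeft (E * Pt)).trans (Equiv.mulRight Pf⁻¹)) σ = E * Pt * σ * Pf⁻¹ := rfl
    rw [h1, Perm.sign_mul, Perm.sign_mul, Perm.sign_mul, hEs, Perm.sign_inv, one_mul]
    obtain ⟨w, hw⟩ : ∃ w : ℤ, w =
      (if G ∘ (E * Pt * σ * Pf⁻¹ : Perm (Bool × Fin c)) = G then (1 : ℤ) else 0) := ⟨_, rfl⟩
    rw [← hw]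
    push_cast
    have h2 : ((Perm.sign Pt : ℤˣ) : ℤ) * ((Perm.sign Pt : ℤˣ) : ℤ) = 1 := by
      rw [← Units.val_mul, Int.units_mul_self]
      rfl
    have h3 : ((Perm.sign Pf : ℤˣ) : ℤ) * ((Perm.sign Pf : ℤˣ) : ℤ) = 1 := by
      rw [← Units.val_mul, Int.units_mul_self]
      rfl
    linear_combination (-(((Perm.sign σ : ℤˣ) : ℤ) * w) *
        ((Perm.sign Pf : ℤˣ) : ℤ) * ((Perm.sign Pf : ℤˣ) : ℤ)) * h2 -
      (((Perm.sign σ : ℤˣ) : ℤ) * w) * h3
  rw [hsum, sum_stab, Fintype.prod_bool]
  have h1 : ((Perm.sign Pt : ℤˣ) : ℤ) = ∏ b : Bool, ((Perm.sign (q.2 (i, true, b)) : ℤˣ) : ℤ) := by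
    rw [hPt, sign_bl]
  have h2 : ((Perm.sign Pf : ℤˣ) : ℤ) = ∏ b : Bool, ((Perm.sign (q.2 (i, false, b)) : ℤˣ) : ℤ) := by
    rw [hPf, sign_bl]
  rw [h1, h2]
  simp only [hinj]

/-! ### counting -/

lemma fc {α : Type} [Fintype α] (P : α → Prop) [DecidablePred P] :
    (univ.filter P).card = Nat.card {x // P x} := by
  rw [Nat.card_eq_fintype_card, Fintype.card_subtype]

lemma card_diag : Nat.card {z : Bool × Bool // z.1 = z.2} = 2 := by
  rw [Nat.card_eq_fintype_card]
  decide

lemma count_off (g : I → Ty) (i : I) :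
    Nat.card {p : Flag I → Perm (Fin c) // ∀ x : Flag I, x.1 ≠ i → p (cab g x) = p x} =
      c.factorial ^ (2 * Fintype.card I + 2) := by
  classical
  have e : {p : Flag I → Perm (Fin c) // ∀ x : Flag I, x.1 ≠ i → p (cab g x) = p x} ≃
      ((({i' : I // i' ≠ i} × Bool) ⊕ (Bool × Bool)) → Perm (Fin c)) := {
    toFun := fun p => Sum.elim (fun v => p.1 (sec g (v.1.1, v.2))) (fun y => p.1 (i, y))
    invFun := fun β => ⟨fun x => if h : x.1 = i then β (Sum.inr x.2) else
        β (Sum.inl (⟨x.1, h⟩, (vx g x).2)), by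
      intro x hx
      have h2 : (cab g x).1 ≠ i := hx
      show (if h : (cab g x).1 = i then β (Sum.inr (cab g x).2) else
        β (Sum.inl (⟨(cab g x).1, h⟩, (vx g (cab g x)).2))) =
        (if h : x.1 = i then β (Sum.inr x.2) else β (Sum.inl (⟨x.1, h⟩, (vx g x).2)))
      rw [dif_neg h2, dif_neg hx, vx_cab]
      rfl⟩
    left_inv := fun p => by
      apply Subtype.ext
      funext x
      show (if h : x.1 = i then Sum.elim (fun v : {i' : I // i' ≠ i} × Bool =>
          p.1 (sec g (v.1.1, v.2))) (fun y => p.1 (i, y)) (Sum.inr x.2) else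
        Sum.elim (fun v : {i' : I // i' ≠ i} × Bool => p.1 (sec g (v.1.1, v.2)))
          (fun y => p.1 (i, y)) (Sum.inl (⟨x.1, h⟩, (vx g x).2))) = p.1 x
      split_ifs with h
      · exact congrArg p.1 (Prod.ext h.symm rfl)
      · show p.1 (sec g (vx g x)) = p.1 x
        rcases sec_vx g x with h1 | h1
        · rw [← h1]
        · have h2 := p.2 (sec g (vx g x)) h
          rw [← h1] at h2
          exact h2.symm
    right_inv := fun β => by
      funext v
      rcases v with ⟨⟨i', hi'⟩, w⟩ | y
      · show (if h : (sec g (i', w)).1 = i then β (Sum.inr (sec g (i', w)).2) else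
          β (Sum.inl (⟨(sec g (i', w)).1, h⟩, (vx g (sec g (i', w))).2))) = _
        have h1 : ¬ (sec g (i', w)).1 = i := hi'
        rw [dif_neg h1]
        have h2 : (vx g (sec g (i', w))).2 = w := by rw [vx_sec]
        rw [h2]
        rfl
      · show (if h : i = i then β (Sum.inr y) else _) = _
        rw [dif_pos rfl] }
  rw [Nat.card_congr e, Nat.card_fun, Nat.card_eq_fintype_card, Nat.card_eq_fintype_card,
    Fintype.card_perm, Fintype.card_fin, Fintype.card_sum, Fintype.card_prod, Fintype.card_prod,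
    Fintype.card_bool]
  have h1 : Fintype.card {i' : I // i' ≠ i} = Fintype.card I - 1 := by
    rw [Fintype.card_subtype, Finset.filter_ne' univ i, Finset.card_erase_of_mem (Finset.mem_univ i),
      Finset.card_univ]
  have h2 : 0 < Fintype.card I := Fintype.card_pos_iff.2 ⟨i⟩
  rw [h1]
  congr 1
  omega

lemma pair_count {Q X : Type} [Fintype Q] [Fintype X] (q1 q2 : Q) (h : q1 ≠ q2)
    (r : X → X → Prop) :
    Nat.card {φ : Q → X // r (φ q1) (φ q2)} =
      Nat.card {z : X × X // r z.1 z.2} * Fintype.card X ^ (Fintype.card Q - 2) := by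
  classical
  rw [← fc (fun φ : Q → X => r (φ q1) (φ q2)), ← fc (fun z : X × X => r z.1 z.2)]
  rw [Finset.card_eq_sum_card_fiberwise (t := (univ.filter fun z : X × X => r z.1 z.2))
    (f := fun φ : Q → X => (φ q1, φ q2)) (fun φ hφ => by
      rw [Finset.mem_coe, Finset.mem_filter] at hφ ⊢
      exact ⟨Finset.mem_univ _, hφ.2⟩)]
  rw [← smul_eq_mul, ← Finset.sum_const]
  refine Finset.sum_congr rfl fun z hz => ?_
  have h1 : ((univ.filter fun φ : Q → X => r (φ q1) (φ q2)).filter fun φ => (φ q1, φ q2) = z) =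
      Fintype.piFinset (fun q => if q = q1 then {z.1} else if q = q2 then {z.2} else univ) := by
    ext φ
    rw [Fintype.mem_piFinset, Finset.mem_filter, Finset.mem_filter]
    constructor
    · rintro ⟨-, h2⟩ q
      subst h2
      split_ifs with h3 h4
      · rw [h3]
        exact Finset.mem_singleton_self _
      · rw [h4]
        exact Finset.mem_singleton_self _
      · exact Finset.mem_univ _
    · intro h2
      have h3 := h2 q1
      rw [if_pos rfl, Finset.mem_singleton] at h3
      have h4 := h2 q2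
      rw [if_neg (Ne.symm h), if_pos rfl, Finset.mem_singleton] at h4
      refine ⟨⟨Finset.mem_univ _, ?_⟩, Prod.ext h3 h4⟩
      rw [h3, h4]
      exact (Finset.mem_filter.1 hz).2
  rw [h1, Fintype.card_piFinset, ← Finset.mul_prod_erase _ _ (Finset.mem_univ q1), if_pos rfl,
    Finset.card_singleton, one_mul,
    ← Finset.mul_prod_erase _ _ (Finset.mem_erase.2 ⟨Ne.symm h, Finset.mem_univ q2⟩),
    if_neg (Ne.symm h), if_pos rfl, Finset.card_singleton, one_mul]
  have h2 : ∀ q ∈ (univ.erase q1).erase q2,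
      (if q = q1 then {z.1} else if q = q2 then {z.2} else (univ : Finset X)).card =
        Fintype.card X := by
    intro q hq
    rw [Finset.mem_erase, Finset.mem_erase] at hq
    rw [if_neg hq.2.1, if_neg hq.1, Finset.card_univ]
  rw [Finset.prod_congr rfl h2, Finset.prod_const,
    Finset.card_erase_of_mem (Finset.mem_erase.2 ⟨Ne.symm h, Finset.mem_univ q2⟩),
    Finset.card_erase_of_mem (Finset.mem_univ q1), Finset.card_univ]
  rfl

lemma const_gen {α β : Type} {r : α → α → Prop} {S : α → β} (h : ∀ a b, r a b → S b = S a)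
    {a b : α} (hab : Relation.EqvGen r a b) : S b = S a := by
  induction hab with
  | rel x y hxy => exact h x y hxy
  | refl x => rfl
  | symm x y _ ih => exact ih.symm
  | trans x y z _ _ ih1 ih2 => exact ih2.trans ih1

lemma count_const {X : Type} [Fintype X] (ρ : Flag I → Flag I) (g : I → Ty) (i : I)
    (hi : ¬ Relation.EqvGen (OStep ρ g i) (i, false, false) (i, false, true))
    (r : X → X → Prop) :
    Nat.card {S : Flag I → X // (∀ x y, OStep ρ g i x y → S y = S x) ∧
      r (S (i, false, false)) (S (i, false, true))} =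
      Nat.card {z : X × X // r z.1 z.2} *
        Fintype.card X ^ (Nat.card (Quot (OStep ρ g i)) - 2) := by
  have hfin : Fintype (Quot (OStep ρ g i)) := Fintype.ofFinite _
  have hne : Quot.mk (OStep ρ g i) (i, false, false) ≠ Quot.mk _ (i, false, true) := by
    intro h
    rw [Quot.eq] at h
    exact hi h
  rw [Nat.card_eq_fintype_card (α := Quot (OStep ρ g i)), ← pair_count _ _ hne r]
  refine Nat.card_congr ?_
  refine (Equiv.subtypeSubtypeEquivSubtypeInter
    (fun S : Flag I → X => ∀ x y, OStep ρ g i x y → S y = S x)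
    (fun S => r (S (i, false, false)) (S (i, false, true)))).symm.trans ?_
  exact (quotEquiv (OStep ρ g i)).subtypeEquiv (fun κ => Iff.rfl)

/-- the number of the classes -/
lemma card_classes (ρ : Flag I → Flag I) (g : I → Ty) (i : I)
    (hi : ¬ Relation.EqvGen (OStep ρ g i) (i, false, false) (i, false, true)) (e : Bool)
    (he : ∀ b, Relation.EqvGen (OStep ρ g i) (i, false, xor e b) (i, true, b)) (L : ℕ)
    (hL : cabs ρ (Function.update g i gT) = L + 1) :
    Nat.card (Quot (OStep ρ g i)) - 2 = L := by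
  classical
  have h1 := count_const (X := Bool) ρ g i hi (fun a b => a = b)
  have h3 : Nat.card {S : Flag I → Bool // (∀ x y, OStep ρ g i x y → S y = S x) ∧
      S (i, false, false) = S (i, false, true)} = 2 ^ (L + 1) := by
    rw [← hL]
    have e1 : {S : Flag I → Bool // (∀ x y, OStep ρ g i x y → S y = S x) ∧
        S (i, false, false) = S (i, false, true)} ≃
        {S : Flag I → Bool // ∀ x y, (fun x y : Flag I => y = ρ x ∨
          y = cab (Function.update g i gT) x) x y → S y = S x} := by
      refine Equiv.subtypeEquivRight fun S => ⟨?_, ?_⟩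
      · rintro ⟨hS, hS'⟩ x y (hxy | hxy)
        · exact hS x y (Or.inl hxy)
        · by_cases hx : x.1 = i
          · obtain ⟨i', s, b⟩ := x
            have hx' : i' = i := hx
            subst hx'
            have h4 : y = (i', s, !b) := by
              rw [hxy]
              show (i', xor (Function.update g i' gT i').1.1 s,
                xor (Function.update g i' gT i').1.2 b) = _
              rw [Function.update_self]
              show (i', xor false s, xor true b) = _
              simp
            rw [h4]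
            have h5 : ∀ b' : Bool, S (i', false, b') = S (i', false, false) := by
              intro b'
              cases b'
              · rfl
              · exact hS'.symm
            have h6 : ∀ b' : Bool, S (i', true, b') = S (i', false, false) := by
              intro b'
              rw [const_gen hS (he b')]
              exact h5 _
            cases s
            · rw [h5, h5 b]
            · rw [h6, h6 b]
          · refine hS x y (Or.inr ⟨hx, ?_⟩)
            rw [hxy]
            show (x.1, xor (Function.update g i gT x.1).1.1 x.2.1,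
                xor (Function.update g i gT x.1).1.2 x.2.2) = _
            rw [Function.update_of_ne hx]
            rfl
      · intro hS
        refine ⟨?_, ?_⟩
        · rintro x y (hxy | ⟨hx, hxy⟩)
          · exact hS x y (Or.inl hxy)
          · refine hS x y (Or.inr ?_)
            rw [hxy]
            show _ = (x.1, xor (Function.update g i gT x.1).1.1 x.2.1,
                xor (Function.update g i gT x.1).1.2 x.2.2)
            rw [Function.update_of_ne hx]
            rfl
        · refine (hS (i, false, false) (i, false, true) (Or.inr ?_)).symm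
          show _ = (i, xor (Function.update g i gT i).1.1 false,
            xor (Function.update g i gT i).1.2 false)
          rw [Function.update_self]
          rfl
    rw [Nat.card_congr e1, Nat.card_congr (quotEquiv _), Nat.card_fun]
    have h4 : Nat.card Bool = 2 := by
      rw [Nat.card_eq_fintype_card, Fintype.card_bool]
    rw [h4]
    rfl
  rw [h3, card_diag, Fintype.card_bool] at h1
  have h5 : 2 ^ (L + 1) = 2 ^ (Nat.card (Quot (OStep ρ g i)) - 2 + 1) := by
    rw [h1, pow_succ]
    ring
  have h6 := Nat.pow_right_injective (le_refl 2) h5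
  omega

lemma disj_count (k : ℕ) :
    Nat.card {z : Tk c k × Tk c k // Disjoint z.1.1 z.2.1} * c.factorial ^ 2 =
      k.descFactorial (2 * c) := by
  classical
  have h1 := pair_count (Q := Bool) (X := Tk c k) false true Bool.false_ne_true
    (fun a b => Disjoint a.1 b.1)
  rw [Fintype.card_bool, Nat.sub_self, pow_zero, mul_one] at h1
  rw [← h1, ← fc (fun φ : Bool → Tk c k => Disjoint (φ false).1 (φ true).1)]
  have h2 : c.factorial ^ 2 = (univ : Finset (Bool → Perm (Fin c))).card := by
    rw [Finset.card_univ, Fintype.card_fun, Fintype.card_perm, Fintype.card_fin, Fintype.card_bool]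
  rw [h2, ← Finset.card_product]
  have h3 : (univ.filter fun F : Bool × Fin c → Fin k => Function.Injective F).card =
      k.descFactorial (2 * c) := by
    rw [← Fintype.card_subtype, Fintype.card_congr (Equiv.subtypeInjectiveEquivEmbedding _ _),
      Fintype.card_embedding_eq, Fintype.card_fin, Fintype.card_prod, Fintype.card_bool,
      Fintype.card_fin]
  rw [← h3]
  refine Finset.card_bij (fun q _ => fun z : Bool × Fin c => en (q.1 z.1) (q.2 z.1 z.2)) ?_ ?_ ?_
  · intro q hq
    rw [Finset.mem_product, Finset.mem_filter] at hq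
    rw [Finset.mem_filter]
    refine ⟨Finset.mem_univ _, ?_⟩
    exact ((G_inj q.1).2 hq.1.2).comp (bl q.2).injective
  · intro q _ q' _ h
    have h4 : ∀ b, q.1 b = q'.1 b ∧ q.2 b = q'.2 b := fun b =>
      en_comp (funext fun j => congrFun h (b, j))
    exact Prod.ext (funext fun b => (h4 b).1) (funext fun b => (h4 b).2)
  · intro F hF
    have hF' : Function.Injective F := (Finset.mem_filter.1 hF).2
    have h4 : ∀ b, ∃ (s : Tk c k) (p : Perm (Fin c)), en s ∘ p = fun j => F (b, j) := by
      intro b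
      refine en_surj ?_
      intro j j' hj
      exact congrArg Prod.snd (hF' hj)
    choose S p hp using h4
    have h5 : (fun z : Bool × Fin c => en (S z.1) (p z.1 z.2)) = F := by
      funext z
      exact congrFun (hp z.1) z.2
    refine ⟨(S, p), ?_, h5⟩
    rw [Finset.mem_product, Finset.mem_filter]
    refine ⟨⟨Finset.mem_univ _, ?_⟩, Finset.mem_univ _⟩
    rw [← G_inj]
    intro z z' hz
    have h6 : ∀ z : Bool × Fin c, en (S z.1) z.2 = F ((bl p).symm z) := by
      intro z
      rw [← h5]
      have h7 : z = bl p ((bl p).symm z) := (Equiv.apply_symm_apply _ z).symm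
      exact congrArg (fun z : Bool × Fin c => en (S z.1) z.2) h7
    have hz' : en (S z.1) z.2 = en (S z'.1) z'.2 := hz
    rw [h6, h6] at hz'
    exact (bl p).symm.injective (hF' hz')

/-- the two cables through `i` -/
lemma exists_e (ρ : Flag I → Flag I) (hρ : ∀ x, ρ (ρ x) = x) (hne : ∀ x, ρ x ≠ x)
    (g : I → Ty) (i : I)
    (hi : ¬ Relation.EqvGen (OStep ρ g i) (i, false, false) (i, false, true)) :
    ∃ e : Bool, ∀ b, Relation.EqvGen (OStep ρ g i) (i, false, xor e b) (i, true, b) := by
  have hW : ∀ x : Flag I, x ∈ (univ.filter fun x : Flag I => x.1 = i) ↔ x.1 = i := by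
    intro x
    rw [Finset.mem_filter]
    exact ⟨fun h => h.2, fun h => ⟨Finset.mem_univ _, h⟩⟩
  have hrel : (fun x y : Flag I => y = ρ x ∨ (x ∉ (univ.filter fun x : Flag I => x.1 = i) ∧
      y = cab g x)) = OStep ρ g i := by
    funext x y
    exact propext (or_congr Iff.rfl (and_congr (not_congr (hW x)) Iff.rfl))
  have key := fun a ha => th2_two ρ (cab g) (univ.filter fun x : Flag I => x.1 = i) hρ hne
    (fun x hx => ⟨fun h => hx ((hW x).2 ((hW (cab g x)).1 h)), cab_cab g x, cab_ne g x⟩) a ha
  rw [hrel] at key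
  obtain ⟨a1, ⟨h1, h2, h3⟩, -⟩ := key (i, false, false) ((hW _).2 rfl)
  obtain ⟨a2, ⟨k1, k2, k3⟩, -⟩ := key (i, false, true) ((hW _).2 rfl)
  rw [hW] at h1 k1
  obtain ⟨i1, s1, b1⟩ := a1
  obtain ⟨i2, s2, b2⟩ := a2
  have h1' : i1 = i := h1
  have k1' : i2 = i := k1
  subst h1'
  subst k1'
  have hs1 : s1 = true := by
    cases s1
    · exfalso
      cases b1
      · exact h2 rfl
      · exact hi h3
    · rfl
  have hs2 : s2 = true := by
    cases s2
    · exfalso
      cases b2
      · exact hi (Relation.EqvGen.symm _ _ k3)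
      · exact k2 rfl
    · rfl
  subst hs1
  subst hs2
  have hb : b2 = !b1 := by
    by_contra hcon
    have h4 : b2 = b1 := by
      cases b1 <;> cases b2 <;> simp_all
    subst h4
    exact hi (Relation.EqvGen.trans _ _ _ h3 (Relation.EqvGen.symm _ _ k3))
  subst hb
  refine ⟨b1, fun b => ?_⟩
  cases b1 <;> cases b
  · exact h3
  · exact k3
  · exact k3
  · exact h3

end TR2

open TP15 TR1 TR2 in
/-- TR2 -/
theorem tr2_full (hc : Even c) (ρ : Flag I → Flag I) (hρ : ∀ x, ρ (ρ x) = x) (hne : ∀ x, ρ x ≠ x)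
    (g : I → Ty) (i : I)
    (hi : ¬ Relation.EqvGen (OStep ρ g i) (i, false, false) (i, false, true)) (L : ℕ)
    (hL : cabs ρ (Function.update g i gT) = L + 1) (k : ℕ) :
    ((c.factorial : ℕ) : ℤ) ^ L * ∑ σ : Perm (Bool × Fin c), ((Perm.sign σ : ℤˣ) : ℤ) *
        Psi ρ (k : ℤ) (Function.update (fun i' => (typ (fun _ => g i') : Pairing c)) i (cross σ)) =
      ((c.factorial : ℕ) : ℤ) ^ (4 * Fintype.card I) * ((k.descFactorial c : ℕ) : ℤ) ^ L *
        ((k.descFactorial (2 * c) : ℕ) : ℤ) := by
  classical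
  obtain ⟨e, he⟩ := TR2.exists_e ρ hρ hne g i hi
  rw [TR2.total_eq]
  have h2 : ∀ q : (Flag I → Tk c k) × (Flag I → Perm (Fin c)),
      (if ((∀ x y, OStep ρ g i x y → q.1 y = q.1 x) ∧
          Disjoint (q.1 (i, false, false)).1 (q.1 (i, false, true)).1) ∧
          (∀ x : Flag I, x.1 ≠ i → q.2 (cab g x) = q.2 x) then
        ((c.factorial ^ (2 * Fintype.card I) : ℕ) : ℤ) else 0) =
      (if TR2.cO g i (TR2.Phi q) then (1 : ℤ) else 0) *
        (TR2.SA ρ (TR2.Phi q) * TR2.SB i (TR2.Phi q)) := by
    intro q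
    rw [TR2.SA_Phi ρ hρ hne]
    by_cases hO : TR2.cO g i (TR2.Phi q)
    · rw [if_pos hO, one_mul]
      have hO' := (TR2.cO_Phi g i q).1 hO
      by_cases hS : ∀ x, q.1 (ρ x) = q.1 x
      · have hconst : ∀ x y, OStep ρ g i x y → q.1 y = q.1 x := by
          rintro x y (h | ⟨h, h'⟩)
          · rw [h]
            exact hS x
          · rw [h']
            exact hO'.1 x h
        rw [if_pos hS, TR2.SB_Phi hc i e q (fun b => TR2.const_gen hconst (he b)),
          TR2.sg_off g i q.2 hO'.2]
        have hsq : (∏ s : Bool, ∏ b : Bool, ((Perm.sign (q.2 (i, s, b)) : ℤˣ) : ℤ)) *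
            (∏ s : Bool, ∏ b : Bool, ((Perm.sign (q.2 (i, s, b)) : ℤˣ) : ℤ)) = 1 := by
          rw [← Finset.prod_mul_distrib]
          refine Finset.prod_eq_one fun s _ => ?_
          rw [← Finset.prod_mul_distrib]
          refine Finset.prod_eq_one fun b _ => ?_
          rw [← Units.val_mul, Int.units_mul_self]
          rfl
        by_cases hD : Disjoint (q.1 (i, false, false)).1 (q.1 (i, false, true)).1
        · rw [if_pos ⟨⟨hconst, hD⟩, hO'.2⟩, if_pos hD]
          linear_combination (-((c.factorial ^ (2 * Fintype.card I) : ℕ) : ℤ)) * hsq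
        · rw [if_neg (fun h => hD h.1.2), if_neg hD, mul_zero, mul_zero]
      · rw [if_neg hS, if_neg (fun h => hS fun x => h.1.1 x (ρ x) (Or.inl rfl)), mul_zero, zero_mul]
    · rw [if_neg hO, zero_mul, if_neg]
      rintro ⟨⟨h, -⟩, h'⟩
      exact hO ((TR2.cO_Phi g i q).2 ⟨fun x hx => h x (cab g x) (Or.inr ⟨hx, rfl⟩), h'⟩)
  have h3 := Fintype.sum_of_injective
    (TR2.Phi : (Flag I → Tk c k) × (Flag I → Perm (Fin c)) → _) TR2.Phi_inj
    (fun q => if ((∀ x y, OStep ρ g i x y → q.1 y = q.1 x) ∧
          Disjoint (q.1 (i, false, false)).1 (q.1 (i, false, true)).1) ∧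
          (∀ x : Flag I, x.1 ≠ i → q.2 (cab g x) = q.2 x) then
        ((c.factorial ^ (2 * Fintype.card I) : ℕ) : ℤ) else 0)
    (fun f => (if TR2.cO g i f then (1 : ℤ) else 0) * (TR2.SA ρ f * TR2.SB i f))
    (fun f hf => by
      obtain ⟨x, hx⟩ := TR2.Phi_range f hf
      show (if TR2.cO g i f then (1 : ℤ) else 0) * (TR2.SA ρ f * TR2.SB i f) = 0
      rw [TR2.SA_noninj ρ f x hx, zero_mul, mul_zero]) h2
  rw [← h3]
  have h4 : ∑ q : (Flag I → Tk c k) × (Flag I → Perm (Fin c)),
      (if ((∀ x y, OStep ρ g i x y → q.1 y = q.1 x) ∧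
          Disjoint (q.1 (i, false, false)).1 (q.1 (i, false, true)).1) ∧
          (∀ x : Flag I, x.1 ≠ i → q.2 (cab g x) = q.2 x) then
        ((c.factorial ^ (2 * Fintype.card I) : ℕ) : ℤ) else 0) =
      ((Nat.card {S : Flag I → Tk c k // (∀ x y, OStep ρ g i x y → S y = S x) ∧
        Disjoint (S (i, false, false)).1 (S (i, false, true)).1} *
        Nat.card {p : Flag I → Perm (Fin c) //
          ∀ x : Flag I, x.1 ≠ i → p (cab g x) = p x} : ℕ) : ℤ) *
        ((c.factorial ^ (2 * Fintype.card I) : ℕ) : ℤ) := by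
    rw [← TR2.fc (fun S : Flag I → Tk c k => (∀ x y, OStep ρ g i x y → S y = S x) ∧
        Disjoint (S (i, false, false)).1 (S (i, false, true)).1),
      ← TR2.fc (fun p : Flag I → Perm (Fin c) => ∀ x : Flag I, x.1 ≠ i → p (cab g x) = p x),
      ← Finset.card_product, ← nsmul_eq_mul, ← Finset.sum_const, ← Finset.sum_filter]
    refine Finset.sum_congr ?_ fun _ _ => rfl
    ext q
    simp only [Finset.mem_filter, Finset.mem_product, Finset.mem_univ, true_and]
  have h5 := TR2.count_const (X := Tk c k) ρ g i hi (fun a b => Disjoint a.1 b.1)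
  have h6 : Fintype.card (Tk c k) = k.choose c := by
    rw [Fintype.card_finset_len, Fintype.card_fin]
  rw [TR2.card_classes ρ g i hi e he L hL, h6] at h5
  have h7 := TR2.disj_count (c := c) k
  rw [h4, h5, TR2.count_off, ← h7, Nat.descFactorial_eq_factorial_mul_choose]
  push_cast
  rw [mul_pow]
  ring

end Pool.Agent.H1.TP
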