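import Pool.Agent.H1.TP.Gen1
import Pool.Agent.H1.TP.TR2

set_option autoImplicit false
set_option linter.unusedVariables false
set_option linter.unusedSectionVars false

namespace Pool.Agent.H1.TP

open Finset Equiv Polynomial

variable {I : Type} [Fintype I] [DecidableEq I] {c : ℕ}

/-- all strands of type `g` -/
def ty (g : Ty) : Pairing c := typ fun _ => g

/-- type `N` on `D` and `T` elsewhere -/
def gs (D : Finset I) (i : I) : Ty := if i ∈ D then gN else gT

/-- the states: `b` where it is defined, and `gs D` elsewhere -/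
def mS (b : I → Option (Finset (Fin c))) (D : Finset I) (i : I) : Pairing c :=
  match b i with
  | none => ty (gs D i)
  | some J => pJ J

lemma mS_none (b : I → Option (Finset (Fin c))) (D : Finset I) (i : I) (h : b i = none) :
    mS b D i = ty (gs D i) := by
  unfold mS; rw [h]

lemma mS_update (b : I → Option (Finset (Fin c))) (D : Finset I) (j : I) (J : Finset (Fin c)) :
    mS (Function.update b j (some J)) D = Function.update (mS b D) j (pJ J) := by
  funext i
  by_cases h : i = j
  · subst h; simp [mS]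
  · rw [Function.update_of_ne h]
    unfold mS
    rw [Function.update_of_ne h]

lemma mS_insert (b : I → Option (Finset (Fin c))) (D : Finset I) (j : I) (hb : b j = none) :
    mS b (insert j D) = Function.update (mS b D) j (ty gN) := by
  funext i
  by_cases h : i = j
  · subst h
    rw [mS_none b _ _ hb]
    simp [gs]
  · rw [Function.update_of_ne h]
    unfold mS gs
    simp only [mem_insert, h, false_or]

/-- the sum over the states with support `R` -/
noncomputable def AA (ρ : Flag I → Flag I) (p : ℕ) (r : Finset (Fin c) → ℤ) (i : I) (R D : Finset I) : ℤ :=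
  ∑ b ∈ univ.filter (fun b : I → Option (Finset (Fin c)) => supp b = R),
    (∏ i, w2 p r (b i)) * Full ρ (mS b D) i

lemma supp_none (b : I → Option (Finset (Fin c))) (K : Finset I) (hb : supp b = K) (i : I)
    (hi : i ∉ K) : b i = none := by
  by_contra hcon
  apply hi
  rw [← hb]
  simp [supp, hcon]

lemma sum_supp_ins (R : Finset I) (j : I) (hj : j ∉ R)
    (f : (I → Option (Finset (Fin c))) → ℤ) :
    ∑ b ∈ univ.filter (fun b : I → Option (Finset (Fin c)) => supp b = insert j R), f b =
      ∑ b ∈ univ.filter (fun b : I → Option (Finset (Fin c)) => supp b = R),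
        ∑ J : Finset (Fin c), f (Function.update b j (some J)) := by
  rw [← sum_product']
  symm
  refine sum_bij' (fun x _ => Function.update x.1 j (some x.2))
    (fun b _ => (Function.update b j none, (b j).getD ∅)) ?_ ?_ ?_ ?_ ?_
  · rintro ⟨b, J⟩ hx
    rw [mem_product, mem_filter] at hx
    rw [mem_filter]
    refine ⟨mem_univ _, ?_⟩
    ext i'
    simp only [supp, mem_filter, mem_univ, true_and, mem_insert]
    by_cases h : i' = j
    · subst h; simp
    · rw [Function.update_of_ne h]
      rw [← hx.1.2]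
      simp [supp, h]
  · intro b hb
    rw [mem_filter] at hb
    rw [mem_product, mem_filter]
    refine ⟨⟨mem_univ _, ?_⟩, mem_univ _⟩
    ext i'
    simp only [supp, mem_filter, mem_univ, true_and]
    by_cases h : i' = j
    · subst h; simp [hj]
    · rw [Function.update_of_ne h]
      have : i' ∈ supp b ↔ i' ∈ insert j R := by rw [hb.2]
      rw [mem_insert] at this
      simp only [supp, mem_filter, mem_univ, true_and] at this
      rw [this]
      simp [h]
  · rintro ⟨b, J⟩ hx
    rw [mem_product, mem_filter] at hx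
    have hn : b j = none := supp_none b R hx.1.2 j hj
    simp only [Function.update_self, Option.getD_some, Function.update_idem]
    rw [Prod.mk.injEq]
    refine ⟨?_, rfl⟩
    rw [← hn, Function.update_eq_self]
  · intro b hb
    rw [mem_filter] at hb
    have hs : b j ≠ none := by
      have : j ∈ supp b := by rw [hb.2]; exact mem_insert_self _ _
      simpa [supp] using this
    obtain ⟨J, hJ⟩ := Option.ne_none_iff_exists'.1 hs
    simp only [Function.update_idem]
    rw [hJ, Option.getD_some, ← hJ, Function.update_eq_self]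
  · rintro ⟨b, J⟩ hx
    rfl

/-- the pairings off `S ∪ {…}` keep the side -/
lemma mS_conn (ρ : Flag I → Flag I) (K R D S : Finset I) (b : I → Option (Finset (Fin c)))
    (hb : supp b = R) (l : I) (hR : l ∈ R → l ∈ S) (hD : l ∈ D → l ∈ S) (y : Loc c) :
    conn ρ S (fl (l, (mS b D l).1 y)) (fl (l, y)) := by
  by_cases hl : l ∈ S
  · exact Quot.sound (Or.inr ⟨rfl, Or.inr hl⟩)
  · have h1 : b l = none := supp_none b R hb l (fun h => hl (hR h))
    have h2 : gs D l = gT := by
      unfold gs
      rw [if_neg (fun h => hl (hD h))]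
    rw [mS_none b D l h1, h2]
    obtain ⟨s, b0, j⟩ := y
    refine Quot.sound (Or.inr ⟨rfl, Or.inl ?_⟩)
    simp [ty, typ, gT, fl]

lemma step_eq (ρ : Flag I → Flag I) (p : ℕ) (r : Finset (Fin c) → ℤ) (i : I) (R D : Finset I)
    (j : I) (hj : j ∉ R) (b : I → Option (Finset (Fin c))) (hb : supp b = R) :
    ∑ J : Finset (Fin c), (∏ i', w2 p r (Function.update b j (some J) i')) *
      Full ρ (mS (Function.update b j (some J)) D) i =
    (∏ i' ∈ univ.erase j, w2 p r (b i')) *
      (∑ o : Option (Finset (Fin c)), w2 p r o * Full ρ (Function.update (mS b D) j (phi2 o)) i -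
        (c.factorial : ℤ) ^ 2 * Full ρ (Function.update (mS b D) j pT) i) := by
  rw [Fintype.sum_option]
  have e0 : w2 p r none = (c.factorial : ℤ) ^ 2 := rfl
  have e1 : (phi2 none : Pairing c) = pT := rfl
  rw [e0, e1, add_sub_cancel_left, mul_sum]
  refine sum_congr rfl fun J _ => ?_
  rw [mS_update, ← mul_prod_erase univ _ (mem_univ j), Function.update_self]
  have : ∏ x ∈ univ.erase j, w2 p r (Function.update b j (some J) x) =
      ∏ x ∈ univ.erase j, w2 p r (b x) := by
    refine prod_congr rfl fun x hx => ?_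
    rw [Function.update_of_ne (ne_of_mem_erase hx)]
  rw [this]
  have e2 : (phi2 (some J) : Pairing c) = pJ J := rfl
  rw [e2]
  ring

lemma AA_bridge (hc0 : 0 < c) (ρ : Flag I → Flag I) (hρ : ∀ x, ρ (ρ x) = x) (hne : ∀ x, ρ x ≠ x)
    (p : ℕ) (r : Finset (Fin c) → ℤ)
    (hr : ∀ (m : I → Pairing c) (i : I),
      ∑ σ : Perm (Bool × Fin c), ((Perm.sign σ : ℤˣ) : ℤ) *
        Psi ρ (-2) (Function.update m i (cross σ)) =
      ∑ b : Option (Finset (Fin c)), w2 p r b * Psi ρ (-2) (Function.update m i (phi2 b)))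
    (K : Finset I) (i : I) (hK : Cyc ρ K i) (R D : Finset I) (j : I) (hj : j ∈ K)
    (hR : R ⊆ K.erase j) (hD : D ⊆ K.erase j) (hjs : j ∉ Ser ρ K i) :
    AA ρ p r i (insert j R) D = - AA ρ p r i R D := by
  have hjR : j ∉ R := fun h => notMem_erase j K (hR h)
  have hjD : j ∉ D := fun h => notMem_erase j K (hD h)
  have hji : j ≠ i := fun h => hK.hi (h ▸ hj)
  unfold AA
  rw [sum_supp_ins R j hjR, ← sum_neg_distrib]
  refine sum_congr rfl fun b hb => ?_
  rw [mem_filter] at hb
  have hb := hb.2
  have hbj : b j = none := supp_none b R hb j hjR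
  rw [step_eq ρ p r i R D j hjR b hb, ← Full_local ρ p r hr _ i j hji, Full_Full ρ _ i j hji]
  have h0 : ∑ σ : Perm (Bool × Fin c), ((Perm.sign σ : ℤˣ) : ℤ) *
      Full ρ (Function.update (mS b D) i (cross σ)) j = 0 := by
    refine sum_eq_zero fun σ _ => ?_
    have h5 := tp5_bridge hc0 ρ hρ hne (-2) (Function.update (mS b D) i (cross σ)) j
      (γ := fun x => Quot.mk (HStep ρ (insert i (K.erase j))) x)
      (fun x => (show Quot.mk (HStep ρ (insert i (K.erase j))) x =
        Quot.mk (HStep ρ (insert i (K.erase j))) (ρ x) from Quot.sound (Or.inl rfl)).symm) ?_ ?_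
    · unfold Full
      rw [h5, mul_zero]
    · intro l hl y
      by_cases hli : l = i
      · subst hli
        exact Quot.sound (Or.inr ⟨rfl, Or.inr (mem_insert_self _ _)⟩)
      · rw [Function.update_of_ne hli]
        exact mS_conn ρ K R D (insert i (K.erase j)) b hb l (fun h => mem_insert_of_mem (hR h))
          (fun h => mem_insert_of_mem (hD h)) y
    · intro b0 b1 h
      apply hK.bridge j hj hjs
      exact ((conn_side ρ _ j false false b0).trans h).trans (conn_side ρ _ j true b1 false)
  rw [h0, zero_sub]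
  have h1 : Function.update (mS b D) j pT = mS b D := by
    have : mS b D j = pT := by
      rw [mS_none b D j hbj]
      unfold gs
      rw [if_neg hjD]
      rfl
    rw [← this, Function.update_eq_self]
  rw [h1, ← mul_prod_erase univ (fun i' => w2 p r (b i')) (mem_univ j), hbj]
  have e0 : w2 p r none = (c.factorial : ℤ) ^ 2 := rfl
  rw [e0]
  ring

lemma AA_series (ρ : Flag I → Flag I) (hρ : ∀ x, ρ (ρ x) = x) (hne : ∀ x, ρ x ≠ x)
    (p : ℕ) (r : Finset (Fin c) → ℤ) (hc0 : 0 < c)
    (hr : ∀ (m : I → Pairing c) (i : I),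
      ∑ σ : Perm (Bool × Fin c), ((Perm.sign σ : ℤˣ) : ℤ) *
        Psi ρ (-2) (Function.update m i (cross σ)) =
      ∑ b : Option (Finset (Fin c)), w2 p r b * Psi ρ (-2) (Function.update m i (phi2 b)))
    (K : Finset I) (i : I) (hK : Cyc ρ K i) (R D : Finset I) (j : I) (hj : j ∈ K)
    (hR : R ⊆ K.erase j) (hD : D ⊆ K.erase j) (hjs : j ∈ Ser ρ K i) :
    AA ρ p r i (insert j R) D = (((2 * c).choose c : ℕ) : ℤ) * AA ρ p r i R (insert j D) := by
  classical
  have hjR : j ∉ R := fun h => notMem_erase j K (hR h)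
  have hjD : j ∉ D := fun h => notMem_erase j K (hD h)
  have hji : j ≠ i := fun h => hK.hi (h ▸ hj)
  unfold AA
  rw [sum_supp_ins R j hjR, mul_sum]
  refine sum_congr rfl fun b hb => ?_
  rw [mem_filter] at hb
  have hb := hb.2
  have hbj : b j = none := supp_none b R hb j hjR
  rw [step_eq ρ p r i R D j hjR b hb, ← Full_local ρ p r hr _ i j hji]
  obtain ⟨s, hs1, hs2⟩ := hK.series j hjs
  have hns : ¬ conn ρ (K.erase j) (i, false, false) (i, true, false) := by
    unfold Ser at hjs
    exact (mem_filter.1 hjs).2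
  have hv : ∀ (g : Fin c → Ty) (k : Fin c), g k = gT →
      Full ρ (Function.update (mS b D) j (typ g)) i = 0 := by
    intro g k hg
    refine tr3_series ρ hρ hne (-2) (Function.update (mS b D) j (typ g)) i j hji
      (fun x => decide (¬ conn ρ (K.erase j) x (i, false, false))) ?_ ?_ ?_ ?_ s ?_ ?_ g k hg
      (by rw [Function.update_self])
    · intro x
      have h1 : conn ρ (K.erase j) (ρ x) x := (Quot.sound (Or.inl rfl) :
        Quot.mk (HStep ρ (K.erase j)) x = Quot.mk (HStep ρ (K.erase j)) (ρ x)).symm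
      have h2 : conn ρ (K.erase j) (ρ x) (i, false, false) ↔
          conn ρ (K.erase j) x (i, false, false) := ⟨fun h => h1.symm.trans h, fun h => h1.trans h⟩
      simp only [h2]
    · intro l hl hlj y
      rw [Function.update_of_ne hlj]
      have h1 := mS_conn ρ K R D (K.erase j) b hb l (fun h => hR h) (fun h => hD h) y
      have h2 : conn ρ (K.erase j) (fl (l, (mS b D l).1 y)) (i, false, false) ↔
          conn ρ (K.erase j) (fl (l, y)) (i, false, false) :=
        ⟨fun h => h1.symm.trans h, fun h => h1.trans h⟩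
      simp only [h2]
    · intro b0
      have h1 : conn ρ (K.erase j) (i, false, b0) (i, false, false) := conn_side ρ _ _ _ _ _
      simp [h1]
    · intro b0
      have h1 : ¬ conn ρ (K.erase j) (i, true, b0) (i, false, false) := fun h =>
        hns (h.symm.trans (conn_side ρ _ _ _ _ _))
      simp [h1]
    · intro b0
      have h1 : conn ρ (K.erase j) (j, s, b0) (i, false, false) :=
        (conn_side ρ _ _ _ _ _).trans hs1.symm
      simp [h1]
    · intro b0
      have h1 : ¬ conn ρ (K.erase j) (j, !s, b0) (i, false, false) := fun h =>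
        hns (h.symm.trans ((conn_side ρ _ _ _ _ _).trans hs2.symm))
      simp [h1]
  have h1 := series_sum (fun q => Full ρ (Function.update (mS b D) j q) i)
    (fun α q => Full_antisymm ρ hρ hne _ i j hji α q)
    (fun g k => Full_three ρ hρ hne _ i j hji g k) hv
  rw [h1]
  have h2 : Full ρ (Function.update (mS b D) j pT) i = 0 := hv (fun _ => gT) ⟨0, hc0⟩ rfl
  rw [h2, mul_zero, sub_zero, mS_insert b D j hbj]
  have e1 : (pJ univ : Pairing c) = ty gN := by
    unfold pJ ty; simp
  rw [e1, ← mul_prod_erase univ (fun i' => w2 p r (b i')) (mem_univ j), hbj]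
  have e0 : w2 p r none = (c.factorial : ℤ) ^ 2 := rfl
  rw [e0]
  ring

lemma AA_all (ρ : Flag I → Flag I) (hρ : ∀ x, ρ (ρ x) = x) (hne : ∀ x, ρ x ≠ x)
    (p : ℕ) (r : Finset (Fin c) → ℤ) (hc0 : 0 < c)
    (hr : ∀ (m : I → Pairing c) (i : I),
      ∑ σ : Perm (Bool × Fin c), ((Perm.sign σ : ℤˣ) : ℤ) *
        Psi ρ (-2) (Function.update m i (cross σ)) =
      ∑ b : Option (Finset (Fin c)), w2 p r b * Psi ρ (-2) (Function.update m i (phi2 b)))
    (K : Finset I) (i : I) (hK : Cyc ρ K i) (R : Finset I) :
    R ⊆ K → ∀ D ⊆ K, Disjoint R D → AA ρ p r i R D =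
      (((2 * c).choose c : ℕ) : ℤ) ^ (R ∩ Ser ρ K i).card * (-1) ^ (R \ Ser ρ K i).card *
        AA ρ p r i ∅ (D ∪ (R ∩ Ser ρ K i)) := by
  classical
  induction R using Finset.induction with
  | empty => intro _ D _ _; simp
  | insert j R hj ih =>
    intro hRK D hD hdis
    have hjK : j ∈ K := hRK (mem_insert_self _ _)
    have hjD : j ∉ D := fun h => (disjoint_left.1 hdis) (mem_insert_self _ _) h
    have hR' : R ⊆ K := fun x hx => hRK (mem_insert_of_mem hx)
    have hRe : R ⊆ K.erase j := fun x hx => mem_erase.2 ⟨fun h => hj (h ▸ hx), hR' hx⟩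
    have hDe : D ⊆ K.erase j := fun x hx => mem_erase.2 ⟨fun h => hjD (h ▸ hx), hD hx⟩
    have hdis' : Disjoint R D := hdis.mono_left (subset_insert _ _)
    by_cases hjs : j ∈ Ser ρ K i
    · rw [AA_series ρ hρ hne p r hc0 hr K i hK R D j hjK hRe hDe hjs,
        ih hR' (insert j D) (insert_subset hjK hD) (by
          rw [disjoint_insert_right]
          exact ⟨hj, hdis'⟩)]
      have e1 : insert j R ∩ Ser ρ K i = insert j (R ∩ Ser ρ K i) := insert_inter_of_mem hjs
      have e2 : insert j R \ Ser ρ K i = R \ Ser ρ K i := insert_sdiff_of_mem _ hjs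
      rw [e1, e2, card_insert_of_notMem (fun h => hj (mem_inter.1 h).1), pow_succ]
      have e3 : D ∪ insert j (R ∩ Ser ρ K i) = insert j D ∪ (R ∩ Ser ρ K i) := by
        rw [union_insert, insert_union]
      rw [e3]
      ring
    · rw [AA_bridge hc0 ρ hρ hne p r hr K i hK R D j hjK hRe hDe hjs, ih hR' D hD hdis']
      have e1 : insert j R ∩ Ser ρ K i = R ∩ Ser ρ K i := insert_inter_of_notMem hjs
      have e2 : insert j R \ Ser ρ K i = insert j (R \ Ser ρ K i) := insert_sdiff_of_notMem _ hjs
      rw [e1, e2, card_insert_of_notMem (fun h => hj (mem_sdiff.1 h).1), pow_succ]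
      ring

lemma AA_empty (ρ : Flag I → Flag I) (p : ℕ) (r : Finset (Fin c) → ℤ) (i : I) (D : Finset I) :
    AA ρ p r i ∅ D = (c.factorial : ℤ) ^ (2 * Fintype.card I) *
      Full ρ (fun i' => (ty (gs D i') : Pairing c)) i := by
  unfold AA
  rw [sum_eq_single (fun _ => none)]
  · have e0 : w2 p r none = (c.factorial : ℤ) ^ 2 := rfl
    simp only [e0]
    rw [prod_const, card_univ, ← pow_mul]
    rfl
  · intro b hb hne
    exfalso
    apply hne
    rw [mem_filter] at hb
    funext i
    exact supp_none b ∅ hb.2 i (notMem_empty i)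
  · intro h
    exfalso
    apply h
    rw [mem_filter]
    refine ⟨mem_univ _, ?_⟩
    ext i
    simp [supp]

/-! ### the last edge -/

lemma supp3_gs (D : Finset I) : supp3 (gs D) = D := by
  ext i
  have h0 : gN ≠ gT := by decide
  by_cases h : i ∈ D
  · simp [supp3, gs, h, h0]
  · simp [supp3, gs, h]

lemma cabs_le_of_joined (ρ : Flag I → Flag I) (g : I → Ty) (i : I) (hgi : g i = gT)
    (h : Relation.EqvGen (OStep ρ g i) (i, false, false) (i, false, true)) (u : Ty)
    (hu : u ≠ gT) : cabs ρ (Function.update g i u) ≤ cabs ρ g := by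
  classical
  unfold cabs
  have : Finite (Quot fun x y : Flag I => y = ρ x ∨ y = cab g x) :=
    Finite.of_surjective (Quot.mk _) Quot.mk_surjective
  set r' : Flag I → Flag I → Prop := fun x y => y = ρ x ∨ y = cab (Function.update g i u) x with hr'
  have h0 : ∀ x y, Relation.EqvGen (OStep ρ g i) x y → Quot.mk r' x = Quot.mk r' y := by
    intro x y h
    induction h with
    | rel x y h =>
      rcases h with h | ⟨h, h'⟩
      · exact Quot.sound (Or.inl h)
      · refine Quot.sound (Or.inr ?_)
        rw [h']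
        unfold cab
        rw [Function.update_of_ne h]
    | refl x => rfl
    | symm x y _ ih => exact ih.symm
    | trans x y z _ _ ih1 ih2 => exact ih1.trans ih2
  have h1 : Quot.mk r' (i, false, false) = Quot.mk r' (i, false, true) := h0 _ _ h
  have h2 : Quot.mk r' (i, true, false) = Quot.mk r' (i, true, true) := by
    have h3 : ∀ x : Flag I, Quot.mk r' x = Quot.mk r' (cab (Function.update g i u) x) :=
      fun x => Quot.sound (Or.inr rfl)
    rcases Ty_cases u with rfl | rfl | rfl
    · exact absurd rfl hu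
    · have a1 := h3 (i, false, false)
      have a2 := h3 (i, false, true)
      simp only [cab, Function.update_self, gN, Bool.xor_false, Bool.xor_true,
        Bool.not_false] at a1 a2
      exact (a1.symm.trans h1).trans a2
    · have a1 := h3 (i, false, false)
      have a2 := h3 (i, false, true)
      simp only [cab, Function.update_self, gX, Bool.xor_false, Bool.xor_true,
        Bool.not_true] at a1 a2
      exact (a2.symm.trans h1.symm).trans a1
  refine Nat.card_le_card_of_surjective (Quot.lift (fun a => Quot.mk r' a) ?_) ?_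
  · rintro ⟨l, s, b⟩ y (h | h)
    · exact Quot.sound (Or.inl h)
    · subst h
      by_cases hl : l = i
      · subst hl
        simp only [cab, hgi, gT, Bool.false_xor, Bool.true_xor]
        cases s <;> cases b
        · exact h1
        · exact h1.symm
        · exact h2
        · exact h2.symm
      · refine Quot.sound (Or.inr ?_)
        unfold cab
        rw [Function.update_of_ne hl]
  · rintro ⟨x⟩
    exact ⟨Quot.mk _ x, rfl⟩

lemma not_joined (ρ : Flag I → Flag I) (hρ : ∀ x, ρ (ρ x) = x) (hne : ∀ x, ρ x ≠ x)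
    (D : Finset I) (i : I) (hi : i ∉ D) (hD : kap ρ D + D.card = kap ρ ∅)
    (hc : conn ρ D (i, false, false) (i, true, false)) :
    ¬ Relation.EqvGen (OStep ρ (gs D) i) (i, false, false) (i, false, true) := by
  intro h
  have hgi : gs D i = gT := by unfold gs; rw [if_neg hi]
  have h1 := cabs_le_of_joined ρ (gs D) i hgi h gN (by decide)
  have h2 := cabs_le_of_joined ρ (gs D) i hgi h gX (by decide)
  have h3 := forest_cabs ρ hρ hne D hD (gs D) (supp3_gs D)
  have h4 := (kap_insert ρ D i).2 hc
  have h5 := cycle_cabs ρ hρ hne D hD i hi h4 (gs D) (supp3_gs D)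
  rw [h3] at h1 h2
  have h6 : (3 : ℤ) ^ cabs ρ (Function.update (gs D) i gN) ≤ 3 ^ kap ρ D :=
    pow_le_pow_right₀ (by norm_num) h1
  have h7 : (3 : ℤ) ^ cabs ρ (Function.update (gs D) i gX) ≤ 3 ^ kap ρ D :=
    pow_le_pow_right₀ (by norm_num) h2
  have h8 : (0 : ℤ) < 3 ^ kap ρ D := by positivity
  linarith

/-- `Full` as a polynomial -/
noncomputable def FullP (ρ : Flag I → Flag I) (m : I → Pairing c) (i : I) : ℤ[X] :=
  ∑ σ : Perm (Bool × Fin c), C ((Perm.sign σ : ℤˣ) : ℤ) *
    PsiP ρ (Function.update m i (cross σ))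

lemma full_value (hc : Even c) (ρ : Flag I → Flag I) (hρ : ∀ x, ρ (ρ x) = x) (hne : ∀ x, ρ x ≠ x)
    (D : Finset I) (i : I) (hi : i ∉ D) (hD : kap ρ D + D.card = kap ρ ∅)
    (hc' : conn ρ D (i, false, false) (i, true, false)) (L : ℕ) (hL : kap ρ D = L + 1) :
    Full ρ (fun i' => (ty (gs D i') : Pairing c)) i =
      (c.factorial : ℤ) ^ (4 * Fintype.card I) * ((c + 1 : ℕ) : ℤ) ^ L *
        (((2 * c + 1).factorial : ℕ) : ℤ) := by
  have hgi : gs D i = gT := by unfold gs; rw [if_neg hi]
  have hL' : cabs ρ (Function.update (gs D) i gT) = L + 1 := by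
    rw [← hgi, Function.update_eq_self, forest_cabs ρ hρ hne D hD (gs D) (supp3_gs D), hL]
  have hnj := not_joined ρ hρ hne D i hi hD hc'
  have h0 : C ((c.factorial : ℤ) ^ L) * FullP ρ (fun i' => (ty (gs D i') : Pairing c)) i -
      C ((c.factorial : ℤ) ^ (4 * Fintype.card I)) * (descPochhammer ℤ c) ^ L *
        descPochhammer ℤ (2 * c) = 0 := by
    refine poly_zero _ fun k => ?_
    have h1 := tr2_full hc ρ hρ hne (gs D) i hnj L hL' k
    rw [eval_sub, eval_mul, eval_mul, eval_mul, eval_C, eval_C, eval_pow,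
      descPochhammer_eval_eq_descFactorial, descPochhammer_eval_eq_descFactorial, sub_eq_zero]
    have h2 : eval (k : ℤ) (FullP ρ (fun i' => (ty (gs D i') : Pairing c)) i) =
        ∑ σ : Perm (Bool × Fin c), ((Perm.sign σ : ℤˣ) : ℤ) *
        Psi ρ (k : ℤ) (Function.update (fun i' => (typ (fun _ => gs D i') : Pairing c)) i (cross σ)) := by
      unfold FullP
      rw [eval_finsetSum]
      refine sum_congr rfl fun σ _ => ?_
      rw [eval_mul, eval_C, PsiP_eval]
      rfl
    rw [h2]
    exact h1
  have h3 := congrArg (eval (-2)) h0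
  have h4 : eval (-2 : ℤ) (FullP ρ (fun i' => (ty (gs D i') : Pairing c)) i) =
      Full ρ (fun i' => (ty (gs D i') : Pairing c)) i := by
    unfold FullP Full
    rw [eval_finsetSum]
    refine sum_congr rfl fun σ _ => ?_
    rw [eval_mul, eval_C, PsiP_eval]
  rw [eval_sub, eval_mul, eval_mul, eval_mul, eval_C, eval_C, eval_pow, tp14_eval, tp14_eval,
    eval_zero, sub_eq_zero, h4, hc.neg_one_pow, (even_two_mul c).neg_one_pow, one_mul, one_mul,
    Nat.factorial_succ] at h3
  have h5 : (c.factorial : ℤ) ^ L ≠ 0 := pow_ne_zero _ (by exact_mod_cast c.factorial_ne_zero)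
  apply mul_left_cancel₀ h5
  rw [h3]
  push_cast
  rw [mul_pow]
  ring

end Pool.Agent.H1.TP
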