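import Mathlib

set_option autoImplicit false
set_option linter.unusedVariables false

/-!
TP1: number of colourings constant on the classes of a relation.
-/

namespace Pool.Agent.H1.TP

/-- the maps on the quotient are the maps compatible with the relation -/
def TP1.equiv {α : Type} (r : α → α → Prop) (k : ℕ) :
    (Quot r → Fin k) ≃ {κ : α → Fin k // ∀ a b, r a b → κ b = κ a} where
  toFun g := ⟨fun a => g (Quot.mk r a), fun a b h => congrArg g (Quot.sound h).symm⟩
  invFun κ := Quot.lift κ.1 (fun a b h => (κ.2 a b h).symm)
  left_inv g := by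
    funext q
    induction q using Quot.ind
    rfl
  right_inv κ := rfl

/-- TP1 -/
theorem tp1_colour {α : Type} [Fintype α] (r : α → α → Prop) (k : ℕ) :
    k ^ Nat.card (Quot r) = Nat.card {κ : α → Fin k // ∀ a b, r a b → κ b = κ a} := by
  have : Finite (Quot r) := Finite.of_surjective (Quot.mk r) (fun q => Quot.exists_rep q)
  rw [← Nat.card_congr (TP1.equiv r k), Nat.card_fun, Nat.card_fin]

end Pool.Agent.H1.TP
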