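import Pool.Agent.H1.TP.Defs
import Pool.Agent.H1.TP.TP15

set_option autoImplicit false
set_option linter.unusedVariables false
set_option linter.unusedSectionVars false

/-! TR1: the signed sum when all strands at a matching edge have the same type. -/

namespace Pool.Agent.H1.TP

open Finset Equiv

variable {I : Type} [Fintype I] [DecidableEq I] {c : ℕ}

/-- the flag at the other end of the cable at a matching edge of type `g` -/
def cab (g : I → Ty) (x : Flag I) : Flag I :=
  (x.1, xor (g x.1).1.1 x.2.1, xor (g x.1).1.2 x.2.2)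

/-- the number of closed cables -/
noncomputable def cabs (ρ : Flag I → Flag I) (g : I → Ty) : ℕ :=
  Nat.card (Quot fun x y : Flag I => y = ρ x ∨ y = cab g x)

namespace TR1

open TP15 (quotEquiv sg_mul Tk en en_range en_inj en_comp en_surj sg_inv card_pairs count_t)

lemma cab_cab (g : I → Ty) (x : Flag I) : cab g (cab g x) = x := by
  obtain ⟨i, s, b⟩ := x
  unfold cab
  simp

lemma cab_ne (g : I → Ty) (x : Flag I) : cab g x ≠ x := by
  obtain ⟨i, s, b⟩ := x
  unfold cab
  intro h
  have h1 : xor (g i).1.1 s = s := congrArg (fun z : Flag I => z.2.1) h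
  have h2 : xor (g i).1.2 b = b := congrArg (fun z : Flag I => z.2.2) h
  rcases hg : g i with ⟨⟨u, v⟩, huv⟩
  rw [hg] at h1 h2
  simp only [] at h1 h2
  cases u <;> cases v
  · exact huv rfl
  all_goals cases s <;> cases b <;> simp_all

/-- the pair of a flag -/
def vx (g : I → Ty) (x : Flag I) : I × Bool :=
  (x.1, xor ((g x.1).1.2 && x.2.1) ((g x.1).1.1 && x.2.2))

/-- a flag of a pair -/
def sec (g : I → Ty) (v : I × Bool) : Flag I :=
  (v.1, ((g v.1).1.2 && v.2), ((!(g v.1).1.2) && v.2))

lemma vx_cab (g : I → Ty) (x : Flag I) : vx g (cab g x) = vx g x := by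
  obtain ⟨i, s, b⟩ := x
  unfold cab vx
  simp only []
  rcases hg : g i with ⟨⟨u, v⟩, huv⟩
  simp only []
  cases u <;> cases v <;> cases s <;> cases b <;> simp

lemma vx_sec (g : I → Ty) (v : I × Bool) : vx g (sec g v) = v := by
  obtain ⟨i, w⟩ := v
  unfold sec vx
  simp only []
  rcases hg : g i with ⟨⟨u, v⟩, huv⟩
  simp only []
  cases u <;> cases v
  · exact absurd rfl huv
  all_goals cases w <;> simp

lemma sec_vx (g : I → Ty) (x : Flag I) : x = sec g (vx g x) ∨ x = cab g (sec g (vx g x)) := by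
  obtain ⟨i, s, b⟩ := x
  unfold cab sec vx
  simp only []
  rcases hg : g i with ⟨⟨u, v⟩, huv⟩
  simp only []
  cases u <;> cases v
  · exact absurd rfl huv
  all_goals cases s <;> cases b <;> simp

/-- the condition at the edges outside the matching -/
def cond {k : ℕ} (g : I → Ty) (ρ : Flag I → Flag I) (t : Flag I → Perm (Fin c))
    (β : I × Bool → Fin c → Fin k) : Prop :=
  ∀ x, β (vx g (ρ x)) ∘ t (ρ x) = β (vx g x) ∘ t x

lemma step_iff (g : I → Ty) (ρ : Flag I → Flag I) (t : Flag I → Perm (Fin c)) (a b : Port I c) :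
    Step ρ t (fun i => (typ (fun _ => g i) : Pairing c)) a b ↔
      b = strand ρ t a ∨ b = pt (cab g (fl a)) a.2.2.2 := Iff.rfl

/-- colourings of the ports are colourings of the strands of the pairs -/
def condEquiv {k : ℕ} (g : I → Ty) (ρ : Flag I → Flag I) (t : Flag I → Perm (Fin c)) :
    {κ : Port I c → Fin k //
      ∀ a b, Step ρ t (fun i => (typ (fun _ => g i) : Pairing c)) a b → κ b = κ a} ≃
      {β : I × Bool → Fin c → Fin k // cond g ρ t β} where
  toFun κ := ⟨fun v j => κ.1 (pt (sec g v) j), by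
    have hb : ∀ (x : Flag I) (j : Fin c), κ.1 (pt x j) = κ.1 (pt (sec g (vx g x)) j) := by
      intro x j
      rcases sec_vx g x with h | h
      · rw [← h]
      · have h1 := κ.2 (pt (sec g (vx g x)) j) (pt (cab g (sec g (vx g x))) j) (Or.inr rfl)
        rw [← h] at h1
        exact h1
    intro x
    funext j
    have h1 := κ.2 (pt x (t x j)) (strand ρ t (pt x (t x j))) (Or.inl rfl)
    have h2 : strand ρ t (pt x (t x j)) = pt (ρ x) (t (ρ x) j) := by
      show pt (ρ x) (t (ρ x) ((t x).symm (t x j))) = _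
      rw [Equiv.symm_apply_apply]
    rw [h2] at h1
    show κ.1 (pt (sec g (vx g (ρ x))) (t (ρ x) j)) = κ.1 (pt (sec g (vx g x)) (t x j))
    rw [← hb, ← hb]
    exact h1⟩
  invFun β := ⟨fun a => β.1 (vx g (fl a)) a.2.2.2, by
    rintro a b (h | h)
    · subst h
      have h1 := congrFun (β.2 (fl a)) ((t (fl a)).symm a.2.2.2)
      simp only [Function.comp_apply, Equiv.apply_symm_apply] at h1
      exact h1
    · subst h
      show β.1 (vx g (cab g (fl a))) a.2.2.2 = β.1 (vx g (fl a)) a.2.2.2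
      rw [vx_cab]⟩
  left_inv κ := by
    apply Subtype.ext
    funext a
    show κ.1 (pt (sec g (vx g (fl a))) a.2.2.2) = κ.1 a
    have h0 : a = pt (fl a) a.2.2.2 := rfl
    rcases sec_vx g (fl a) with h | h
    · rw [← h]
      rfl
    · have h1 := κ.2 (pt (sec g (vx g (fl a))) a.2.2.2) (pt (cab g (sec g (vx g (fl a)))) a.2.2.2)
        (Or.inr rfl)
      rw [← h] at h1
      exact h1.symm
  right_inv β := by
    apply Subtype.ext
    funext v j
    show β.1 (vx g (sec g v)) j = β.1 v j
    rw [vx_sec]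

lemma pow_loops (k : ℕ) (g : I → Ty) (ρ : Flag I → Flag I) (t : Flag I → Perm (Fin c)) :
    k ^ loops ρ t (fun i => (typ (fun _ => g i) : Pairing c)) =
      Nat.card {β : I × Bool → Fin c → Fin k // cond g ρ t β} := by
  rw [← Nat.card_congr (condEquiv g ρ t), Nat.card_congr (quotEquiv _), Nat.card_fun, Nat.card_fin]
  rfl

open Classical in
lemma pow_loops' (k : ℕ) (g : I → Ty) (ρ : Flag I → Flag I) (t : Flag I → Perm (Fin c)) :
    (k : ℤ) ^ loops ρ t (fun i => (typ (fun _ => g i) : Pairing c)) =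
      ∑ β : I × Bool → Fin c → Fin k, if cond g ρ t β then (1 : ℤ) else 0 := by
  have h := pow_loops k g ρ t
  rw [Nat.card_eq_fintype_card, Fintype.card_subtype] at h
  rw [Finset.sum_boole, ← h]
  push_cast
  rfl

lemma cond_shift {k : ℕ} (g : I → Ty) (ρ : Flag I → Flag I) (u t : Flag I → Perm (Fin c))
    (β β' : I × Bool → Fin c → Fin k) (hu : ∀ y, β (vx g y) ∘ u y = β' (vx g y)) :
    cond g ρ (u * t) β ↔ cond g ρ t β' := by
  have h : ∀ y, β (vx g y) ∘ ((u * t) y) = β' (vx g y) ∘ t y := by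
    intro y
    rw [← hu y]
    rfl
  unfold cond
  simp_rw [h]

open Classical in
lemma sum_shift {k : ℕ} (g : I → Ty) (ρ : Flag I → Flag I) (u : Flag I → Perm (Fin c))
    (β β' : I × Bool → Fin c → Fin k) (hu : ∀ y, β (vx g y) ∘ u y = β' (vx g y)) :
    ∑ t : Flag I → Perm (Fin c), sg t * (if cond g ρ t β then (1 : ℤ) else 0) =
      sg u * ∑ t : Flag I → Perm (Fin c), sg t * (if cond g ρ t β' then (1 : ℤ) else 0) := by
  rw [← Equiv.sum_comp (Equiv.mulLeft u), Finset.mul_sum]
  refine Finset.sum_congr rfl fun t _ => ?_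
  rw [Equiv.coe_mulLeft, sg_mul, mul_assoc]
  simp only [cond_shift g ρ u t β β' hu]

open Classical in
/-- colourings with a repetition at a pair do not contribute -/
lemma noninj {k : ℕ} (g : I → Ty) (ρ : Flag I → Flag I) (β : I × Bool → Fin c → Fin k) (v : I × Bool)
    (hv : ¬ Function.Injective (β v)) :
    ∑ t : Flag I → Perm (Fin c), sg t * (if cond g ρ t β then (1 : ℤ) else 0) = 0 := by
  simp only [Function.Injective, not_forall] at hv
  obtain ⟨i, j, hij, hne⟩ := hv
  have h := sum_shift g ρ (fun x : Flag I => if x = sec g v then swap i j else 1) β β (by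
    intro y
    by_cases hy : y = sec g v
    · subst hy
      funext l
      rw [if_pos rfl, vx_sec]
      show β v (swap i j l) = β v l
      by_cases h1 : l = i
      · rw [h1, swap_apply_left, hij]
      by_cases h2 : l = j
      · rw [h2, swap_apply_right, hij]
      rw [swap_apply_of_ne_of_ne h1 h2]
    · rw [if_neg hy]
      rfl)
  have hs : sg (fun x : Flag I => if x = sec g v then swap i j else (1 : Perm (Fin c))) = -1 := by
    unfold sg
    have : ∀ x : Flag I, ((Perm.sign (if x = sec g v then swap i j else (1 : Perm (Fin c))) : ℤˣ) : ℤ) =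
        if x = sec g v then -1 else 1 := by
      intro x
      split_ifs
      · rw [Perm.sign_swap hne]
        rfl
      · simp
    simp_rw [this]
    rw [Finset.prod_ite_eq']
    simp
  rw [hs] at h
  linarith

/-- the colouring given by the sets and the orders -/
def Phi {k : ℕ} (q : (I × Bool → Tk c k) × (I × Bool → Perm (Fin c))) : I × Bool → Fin c → Fin k :=
  fun v => en (q.1 v) ∘ q.2 v

lemma Phi_inj {k : ℕ} : Function.Injective (Phi : (I × Bool → Tk c k) × (I × Bool → Perm (Fin c)) → _) := by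
  rintro ⟨S, p⟩ ⟨S', p'⟩ h
  have h1 : ∀ v, S v = S' v ∧ p v = p' v := fun v => en_comp (congrFun h v)
  exact Prod.ext (funext fun v => (h1 v).1) (funext fun v => (h1 v).2)

lemma Phi_range {k : ℕ} (β : I × Bool → Fin c → Fin k)
    (h : β ∉ Set.range (Phi : (I × Bool → Tk c k) × (I × Bool → Perm (Fin c)) → _)) :
    ∃ v, ¬ Function.Injective (β v) := by
  by_contra h1
  push Not at h1
  apply h
  choose S p hp using fun v => en_surj (h1 v)
  exact ⟨(S, p), funext hp⟩

lemma sg_vx (g : I → Ty) (p : I × Bool → Perm (Fin c)) :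
    sg (fun y : Flag I => (p (vx g y))⁻¹) = 1 :=
  sg_inv (cab g) (cab_cab g) (cab_ne g) _ (fun x => by rw [vx_cab])

lemma cond_en {k : ℕ} (g : I → Ty) (ρ : Flag I → Flag I) (t : Flag I → Perm (Fin c))
    (S : I × Bool → Tk c k) :
    cond g ρ t (fun v => en (S v)) ↔ (∀ x, S (vx g (ρ x)) = S (vx g x)) ∧ ∀ x, t (ρ x) = t x := by
  constructor
  · intro h
    exact ⟨fun x => (en_comp (h x)).1, fun x => (en_comp (h x)).2⟩
  · rintro ⟨h1, h2⟩ x
    show en (S (vx g (ρ x))) ∘ t (ρ x) = en (S (vx g x)) ∘ t x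
    rw [h1, h2]

open Classical in
lemma count_S (k : ℕ) (g : I → Ty) (ρ : Flag I → Flag I) :
    (univ.filter fun S : I × Bool → Tk c k => ∀ x, S (vx g (ρ x)) = S (vx g x)).card =
      k.choose c ^ cabs ρ g := by
  rw [← Fintype.card_subtype, ← Nat.card_eq_fintype_card]
  have e : {S : I × Bool → Tk c k // ∀ x, S (vx g (ρ x)) = S (vx g x)} ≃
      {κ : Flag I → Tk c k // ∀ a b, (fun x y : Flag I => y = ρ x ∨ y = cab g x) a b → κ b = κ a} := {
    toFun := fun S => ⟨fun x => S.1 (vx g x), by
      rintro a b (h | h)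
      · rw [h]
        exact S.2 a
      · rw [h]
        show S.1 (vx g (cab g a)) = S.1 (vx g a)
        rw [vx_cab]⟩
    invFun := fun κ => ⟨fun v => κ.1 (sec g v), by
      have hb : ∀ y : Flag I, κ.1 (sec g (vx g y)) = κ.1 y := by
        intro y
        rcases sec_vx g y with h | h
        · rw [← h]
        · have h1 := κ.2 (sec g (vx g y)) (cab g (sec g (vx g y))) (Or.inr rfl)
          rw [← h] at h1
          exact h1.symm
      intro x
      show κ.1 (sec g (vx g (ρ x))) = κ.1 (sec g (vx g x))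
      rw [hb, hb]
      exact κ.2 x (ρ x) (Or.inl rfl)⟩
    left_inv := fun S => by
      apply Subtype.ext
      funext v
      show S.1 (vx g (sec g v)) = S.1 v
      rw [vx_sec]
    right_inv := fun κ => by
      apply Subtype.ext
      funext y
      show κ.1 (sec g (vx g y)) = κ.1 y
      rcases sec_vx g y with h | h
      · rw [← h]
      · have h1 := κ.2 (sec g (vx g y)) (cab g (sec g (vx g y))) (Or.inr rfl)
        rw [← h] at h1
        exact h1.symm }
  rw [Nat.card_congr e, Nat.card_congr (quotEquiv _), Nat.card_fun]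
  have h1 : Nat.card (Tk c k) = k.choose c := by
    rw [Nat.card_eq_fintype_card, Fintype.card_finset_len, Fintype.card_fin]
  rw [h1]
  rfl

end TR1

open TP15 TR1 in
/-- TR1 -/
theorem tr1_cable (ρ : Flag I → Flag I) (hρ : ∀ x, ρ (ρ x) = x) (hne : ∀ x, ρ x ≠ x)
    (g : I → Ty) (k : ℕ) :
    ((c.factorial : ℕ) : ℤ) ^ cabs ρ g * Psi ρ (k : ℤ) (fun i => (typ (fun _ => g i) : Pairing c)) =
      ((c.factorial : ℕ) : ℤ) ^ (4 * Fintype.card I) * ((k.descFactorial c : ℕ) : ℤ) ^ cabs ρ g := by
  classical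
  have h1 : Psi ρ (k : ℤ) (fun i => (typ (fun _ => g i) : Pairing c)) =
      ∑ β : I × Bool → Fin c → Fin k, ∑ t : Flag I → Perm (Fin c),
        sg t * (if TR1.cond g ρ t β then (1 : ℤ) else 0) := by
    unfold Psi
    rw [Finset.sum_comm]
    refine Finset.sum_congr rfl fun t _ => ?_
    rw [TR1.pow_loops', Finset.mul_sum]
  have h2 : ∀ q : (I × Bool → Tk c k) × (I × Bool → Perm (Fin c)),
      (if ∀ x, q.1 (TR1.vx g (ρ x)) = q.1 (TR1.vx g x) then
        ((c.factorial ^ (2 * Fintype.card I) : ℕ) : ℤ) else 0) =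
        ∑ t : Flag I → Perm (Fin c), sg t * (if TR1.cond g ρ t (TR1.Phi q) then (1 : ℤ) else 0) := by
    intro q
    rw [TR1.sum_shift g ρ (fun y => (q.2 (TR1.vx g y))⁻¹) (TR1.Phi q) (fun v => en (q.1 v)) (by
      intro y
      funext j
      show en (q.1 (TR1.vx g y)) (q.2 (TR1.vx g y) ((q.2 (TR1.vx g y))⁻¹ j)) = en (q.1 (TR1.vx g y)) j
      exact congrArg _ (Equiv.apply_symm_apply _ j)), TR1.sg_vx, one_mul]
    simp_rw [TR1.cond_en]
    split_ifs with hS
    · simp only [hS, implies_true, true_and]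
      rw [← count_t (c := c) ρ hρ hne, Finset.card_filter]
      push_cast
      refine Finset.sum_congr rfl fun t _ => ?_
      split_ifs with ht
      · rw [sg_inv ρ hρ hne t ht, one_mul]
      · rw [mul_zero]
    · symm
      refine Finset.sum_eq_zero fun t _ => ?_
      rw [if_neg (fun h => hS h.1), mul_zero]
  have h3 := Fintype.sum_of_injective
    (TR1.Phi : (I × Bool → Tk c k) × (I × Bool → Perm (Fin c)) → _) TR1.Phi_inj
    (fun q => if ∀ x, q.1 (TR1.vx g (ρ x)) = q.1 (TR1.vx g x) then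
      ((c.factorial ^ (2 * Fintype.card I) : ℕ) : ℤ) else 0)
    (fun β => ∑ t : Flag I → Perm (Fin c), sg t * (if TR1.cond g ρ t β then (1 : ℤ) else 0))
    (fun β hβ => by
      obtain ⟨v, hv⟩ := TR1.Phi_range β hβ
      exact TR1.noninj g ρ β v hv) h2
  rw [h1, ← h3, Fintype.sum_prod_type]
  have h4 : ∀ S : I × Bool → Tk c k, ∑ p : I × Bool → Perm (Fin c),
      (if ∀ x, S (TR1.vx g (ρ x)) = S (TR1.vx g x) then
        ((c.factorial ^ (2 * Fintype.card I) : ℕ) : ℤ) else 0) =
      ((c.factorial : ℕ) : ℤ) ^ (4 * Fintype.card I) *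
        (if ∀ x, S (TR1.vx g (ρ x)) = S (TR1.vx g x) then 1 else 0) := by
    intro S
    rw [Finset.sum_const, Finset.card_univ, Fintype.card_fun, Fintype.card_perm, Fintype.card_fin,
      Fintype.card_prod, Fintype.card_bool]
    split_ifs
    · rw [nsmul_eq_mul, mul_one]
      push_cast
      rw [← pow_add]
      congr 1
      ring
    · simp
  have h5 : ∀ S : I × Bool → Tk c k, ∑ p : I × Bool → Perm (Fin c),
      (fun q : (I × Bool → Tk c k) × (I × Bool → Perm (Fin c)) =>
        if ∀ x, q.1 (TR1.vx g (ρ x)) = q.1 (TR1.vx g x) then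
          ((c.factorial ^ (2 * Fintype.card I) : ℕ) : ℤ) else 0) (S, p) =
      ((c.factorial : ℕ) : ℤ) ^ (4 * Fintype.card I) *
        (if ∀ x, S (TR1.vx g (ρ x)) = S (TR1.vx g x) then 1 else 0) := h4
  rw [Finset.sum_congr rfl fun S _ => h5 S, ← Finset.mul_sum, Finset.sum_boole, TR1.count_S,
    Nat.descFactorial_eq_factorial_mul_choose]
  push_cast
  rw [mul_pow]
  ring

end Pool.Agent.H1.TP
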