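import Mathlib

set_option autoImplicit false

namespace Pool.Agent.H1.TP.TS1

open Finset

/-- few primes divide `t` -/
lemma few (n : ℕ) (t : ℤ) (ht : t ≠ 0) (hle : t.natAbs ≤ 2 ^ n) (P : Finset ℕ)
    (hP : ∀ p ∈ P, p.Prime ∧ (p : ℤ) ∣ t) : P.card ≤ n := by
  have h1 : ∏ p ∈ P, p ∣ t.natAbs := Finset.prod_primes_dvd _
    (fun p hp => (hP p hp).1.prime) (fun p hp => Int.natCast_dvd.1 (hP p hp).2)
  have h2 : 2 ^ P.card ≤ ∏ p ∈ P, p := by
    rw [← prod_const]
    exact prod_le_prod' (fun p hp => (hP p hp).1.two_le)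
  have h3 := Nat.le_of_dvd (Int.natAbs_pos.2 ht) h1
  exact (Nat.pow_le_pow_iff_right (by norm_num)).1 (h2.trans (h3.trans hle))

/-- numbers in a class -/
lemma class_card (Q q : ℕ) (hq : 0 < q) :
    ((range (Q + 1)).filter fun p => 1 ≤ p ∧ q ∣ p - 1).card ≤ Q / q + 1 := by
  have h : ((range (Q + 1)).filter fun p => 1 ≤ p ∧ q ∣ p - 1).card ≤ (range (Q / q + 1)).card := by
    refine card_le_card_of_injOn (fun p => (p - 1) / q) ?_ ?_
    · intro p hp
      rw [mem_coe, mem_filter, mem_range] at hp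
      rw [mem_coe, mem_range]
      have : (p - 1) / q ≤ Q / q := Nat.div_le_div_right (by omega)
      show (p - 1) / q < Q / q + 1
      omega
    · intro p hp p' hp' h
      rw [mem_coe, mem_filter, mem_range] at hp hp'
      have h1 := Nat.div_mul_cancel hp.2.2
      have h2 := Nat.div_mul_cancel hp'.2.2
      have h3 : (p - 1) / q = (p' - 1) / q := h
      rw [h3] at h1
      omega
  rwa [card_range] at h

lemma growth : ∃ Q1 : ℕ, ∀ Q : ℕ, Q1 ≤ Q →
    Real.log ((Q : ℝ) + 1) + (Real.sqrt Q + 4) * Real.log Q ≤ (Q : ℝ) / 2 := by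
  have h1 : Filter.Tendsto (fun x : ℝ => (Real.log (x + 1) + (Real.sqrt x + 4) * Real.log x) / x)
      Filter.atTop (nhds 0) := by
    have e1 : Filter.Tendsto (fun x : ℝ => Real.log (x + 1) / x) Filter.atTop (nhds 0) := by
      have h2 := (Real.isLittleO_log_id_atTop).tendsto_div_nhds_zero
      have h3 : Filter.Tendsto (fun x : ℝ => Real.log (x + 1) / (x + 1)) Filter.atTop (nhds 0) :=
        h2.comp (Filter.tendsto_atTop_add_const_right _ 1 Filter.tendsto_id)
      have h4 : Filter.Tendsto (fun x : ℝ => (x + 1) / x) Filter.atTop (nhds 1) := by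
        have h5 : Filter.Tendsto (fun x : ℝ => 1 + 1 / x) Filter.atTop (nhds (1 + 0)) := by
          refine Filter.Tendsto.const_add 1 ?_
          exact (tendsto_inv_atTop_zero (𝕜 := ℝ)).congr fun x => (one_div x).symm
        rw [add_zero] at h5
        refine h5.congr' ?_
        filter_upwards [Filter.eventually_gt_atTop 0] with x hx
        field_simp
      have h6 := h3.mul h4
      rw [zero_mul] at h6
      refine h6.congr' ?_
      filter_upwards [Filter.eventually_gt_atTop 0] with x hx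
      field_simp
    have e2 : Filter.Tendsto (fun x : ℝ => Real.sqrt x * Real.log x / x) Filter.atTop (nhds 0) := by
      have h2 := (isLittleO_log_rpow_atTop (show (0 : ℝ) < 1 / 2 by norm_num)).tendsto_div_nhds_zero
      refine h2.congr' ?_
      filter_upwards [Filter.eventually_gt_atTop 0] with x hx
      rw [← Real.sqrt_eq_rpow]
      have h3 : Real.sqrt x * Real.sqrt x = x := Real.mul_self_sqrt hx.le
      have h4 : Real.sqrt x ≠ 0 := (Real.sqrt_pos.2 hx).ne'
      rw [div_eq_div_iff h4 hx.ne']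
      linear_combination (-Real.log x) * h3
    have e3 : Filter.Tendsto (fun x : ℝ => 4 * (Real.log x / x)) Filter.atTop (nhds (4 * 0)) :=
      ((Real.isLittleO_log_id_atTop).tendsto_div_nhds_zero).const_mul 4
    have e4 := (e1.add e2).add e3
    rw [mul_zero, add_zero, add_zero] at e4
    refine e4.congr fun x => ?_
    ring
  have h2 := h1.eventually (ge_mem_nhds (show (0 : ℝ) < 1 / 2 by norm_num))
  obtain ⟨Q1, hQ1⟩ := Filter.eventually_atTop.1
    (tendsto_natCast_atTop_atTop.eventually (h2.and (Filter.eventually_gt_atTop 0)))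
  refine ⟨Q1, fun Q hQ => ?_⟩
  obtain ⟨h3, h4⟩ := hQ1 Q hQ
  rw [div_le_iff₀ h4] at h3
  linarith

end Pool.Agent.H1.TP.TS1
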