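import Pool.Agent.H1.TP.Core
import Pool.Agent.H1.TP.TR1

set_option autoImplicit false
set_option linter.unusedVariables false
set_option linter.unusedSectionVars false

namespace Pool.Agent.H1.TP

open Finset Equiv Polynomial

variable {I : Type} [Fintype I] [DecidableEq I]

/-- the local weights for `p = 3` -/
def w3 (g : Ty) : ℤ := if g = gT then -8 else 12

/-- both strands have the type `g` -/
def ty2 (g : Ty) : Pairing 2 := typ fun _ => g

lemma univ_Ty : (univ : Finset Ty) = {gT, gN, gX} := by decide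

lemma sum_Ty (f : Ty → ℤ) : ∑ g, f g = f gT + f gN + f gX := by
  rw [univ_Ty, sum_insert (by decide), sum_pair (by decide)]
  ring

lemma local_three (ρ : Flag I → Flag I) (hρ : ∀ x, ρ (ρ x) = x) (hne : ∀ x, ρ x ≠ x)
    (m : I → Pairing 2) (i : I) :
      ∑ σ : Perm (Bool × Fin 2), ((Perm.sign σ : ℤˣ) : ℤ) *
        Psi ρ (-2) (Function.update m i (cross σ)) =
      ∑ g : Ty, w3 g * Psi ρ (-2) (Function.update m i (ty2 g)) := by
  rw [TP10.total (fun q => Psi ρ (-2) (Function.update m i q))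
    (fun α q => tp6_antisymm ρ hρ hne (-2) m i q α)]
  have h9 := tp9_turn (fun q => Psi ρ (-2) (Function.update m i q))
    (fun g j => tp11_three ρ hρ hne m i g j)
  have hu : (univ : Finset (Finset (Fin 2))) = {∅, {0}, {1}, univ} := by decide
  have e0 : (pJ ∅ : Pairing 2) = ty2 gX := by
    unfold pJ ty2; simp
  have e1 : (pJ univ : Pairing 2) = ty2 gN := by
    unfold pJ ty2; simp
  have e2 : (pT : Pairing 2) = ty2 gT := rfl
  rw [hu, sum_insert (by decide), sum_insert (by decide), sum_pair (by decide), e0, e1, e2] at h9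
  rw [hu, sum_insert (by decide), sum_insert (by decide), sum_pair (by decide), e0, e1, sum_Ty]
  have c0 : (∅ : Finset (Fin 2)).card = 0 := rfl
  have c1 : ({0} : Finset (Fin 2)).card = 1 := rfl
  have c2 : ({1} : Finset (Fin 2)).card = 1 := rfl
  have c3 : (univ : Finset (Fin 2)).card = 2 := rfl
  have f2 : ((Nat.factorial 2 : ℕ) : ℤ) = 2 := rfl
  have w1 : w3 gT = -8 := rfl
  have w2 : w3 gN = 12 := by unfold w3; rw [if_neg (by decide)]
  have w4 : w3 gX = 12 := by unfold w3; rw [if_neg (by decide)]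
  rw [c0, c1, c2, c3, f2, w1, w2, w4]
  simp only [Nat.choose_zero_right, Nat.choose_one_right, Nat.choose_self]
  norm_num at h9 ⊢
  linarith

lemma total_zero3 (ρ : Flag I → Flag I) (hρ : ∀ x, ρ (ρ x) = x) (hne : ∀ x, ρ x ≠ x)
    (hno : ¬ CoverI ρ 2) :
    ∑ b : I → Ty, (∏ i, w3 (b i)) * Psi ρ (-2) (fun i => ty2 (b i)) = 0 := by
  classical
  rw [← sum_cross_zero ρ hρ hne hno]
  rw [push ty2 w3 (fun m => Psi ρ (-2) m)]
  rw [push (cross (c := 2)) (fun σ => ((Perm.sign σ : ℤˣ) : ℤ)) (fun m => Psi ρ (-2) m)]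
  symm
  refine tp16_replace (fun m => Psi ρ (-2) m) (fun s => ∑ a, if cross a = s then
    ((Perm.sign a : ℤˣ) : ℤ) else 0) (fun s => ∑ a, if ty2 a = s then w3 a else 0) ?_
  intro m i
  have key : ∀ {A : Type} [Fintype A] (φ : A → Pairing 2) (w : A → ℤ),
      ∑ s, (∑ a, if φ a = s then w a else 0) * Psi ρ (-2) (Function.update m i s) =
      ∑ a, w a * Psi ρ (-2) (Function.update m i (φ a)) := by
    intro A _ φ w
    simp_rw [sum_mul]
    rw [sum_comm]
    refine sum_congr rfl fun a _ => ?_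
    rw [sum_eq_single (φ a)]
    · rw [if_pos rfl]
    · intro s _ hs
      rw [if_neg (Ne.symm hs), zero_mul]
    · intro h; exact absurd (mem_univ _) h
  rw [key, key]
  exact local_three ρ hρ hne m i

/-- the value for constant types -/
lemma psi_type (ρ : Flag I → Flag I) (hρ : ∀ x, ρ (ρ x) = x) (hne : ∀ x, ρ x ≠ x) (g : I → Ty) :
    Psi ρ (-2) (fun i => ty2 (g i)) = 16 ^ Fintype.card I * 3 ^ cabs ρ g := by
  have h0 : C ((2 : ℤ) ^ cabs ρ g) * PsiP ρ (fun i => ty2 (g i)) -
      C ((2 : ℤ) ^ (4 * Fintype.card I)) * (descPochhammer ℤ 2) ^ cabs ρ g = 0 := by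
    refine poly_zero _ fun k => ?_
    have h1 := tr1_cable (c := 2) ρ hρ hne g k
    have f2 : ((Nat.factorial 2 : ℕ) : ℤ) = 2 := rfl
    rw [f2] at h1
    rw [eval_sub, eval_mul, eval_mul, eval_C, eval_C, eval_pow, PsiP_eval,
      descPochhammer_eval_eq_descFactorial, sub_eq_zero]
    exact h1
  have h2 := congrArg (eval (-2)) h0
  rw [eval_sub, eval_mul, eval_mul, eval_C, eval_C, eval_pow, PsiP_eval, eval_zero,
    sub_eq_zero, tp14_eval] at h2
  have h3 : ((-1 : ℤ) ^ 2 * (((2 + 1).factorial : ℕ) : ℤ)) = 2 * 3 := by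
    norm_num [Nat.factorial]
  rw [h3, mul_pow, pow_mul] at h2
  have h4 : (2 : ℤ) ^ cabs ρ g ≠ 0 := pow_ne_zero _ (by norm_num)
  apply mul_left_cancel₀ h4
  rw [h2]
  norm_num
  ring

/-- the three types -/
lemma three_cabs (ρ : Flag I → Flag I) (hρ : ∀ x, ρ (ρ x) = x) (hne : ∀ x, ρ x ≠ x) (g : I → Ty)
    (i : I) : (-2 : ℤ) ^ cabs ρ (Function.update g i gT) + (-2 : ℤ) ^ cabs ρ (Function.update g i gN)
      + (-2 : ℤ) ^ cabs ρ (Function.update g i gX) = 0 := by
  classical
  have inv : ∀ (h : I → Ty) (x : Flag I), cab h (cab h x) = x := by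
    rintro h ⟨i', s, b⟩
    simp [cab]
  have nef : ∀ (h : I → Ty) (x : Flag I), cab h x ≠ x := by
    rintro h ⟨i', s, b⟩ he
    unfold cab at he
    simp only [Prod.mk.injEq, true_and] at he
    obtain ⟨h1, h2⟩ := he
    rcases hh : h i' with ⟨⟨u, v⟩, huv⟩
    rw [hh] at h1 h2
    simp only at h1 h2
    cases u <;> cases v
    · exact absurd rfl huv
    all_goals cases s <;> cases b <;> simp_all
  unfold cabs
  refine tp3_three (α := Flag I) ρ (cab (Function.update g i gT)) (cab (Function.update g i gN))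
    (cab (Function.update g i gX)) hρ hne (inv _) (nef _) (inv _) (nef _) (inv _) (nef _)
    (i, false, false) (i, false, true) (i, true, false) (i, true, true) ?_ ?_ ?_ ?_ ?_ ?_ ?_ ?_ ?_
    ?_ ?_ ?_ ?_
  · simp
  · simp
  · simp
  · simp
  · simp
  · simp
  · simp [cab, gT]
  · simp [cab, gT]
  · simp [cab, gN]
  · simp [cab, gN]
  · simp [cab, gX]
  · simp [cab, gX]
  · rintro ⟨i', s, b⟩ h1 h2 h3 h4
    have hii : i' ≠ i := by
      rintro rfl
      cases s <;> cases b <;> simp_all
    simp [cab, hii]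

/-- the support of the types is in `K` -/
lemma kap_le_cabs (ρ : Flag I → Flag I) (K : Finset I) (g : I → Ty) (hg : ∀ i, i ∉ K → g i = gT) :
    kap ρ K ≤ cabs ρ g := by
  classical
  unfold kap cabs
  have : Finite (Quot fun x y : Flag I => y = ρ x ∨ y = cab g x) :=
    Finite.of_surjective (Quot.mk _) Quot.mk_surjective
  refine Nat.card_le_card_of_surjective (Quot.lift (fun a => Quot.mk (HStep ρ K) a) ?_) ?_
  · rintro ⟨i, s, b⟩ y (h | h)
    · subst h
      exact Quot.sound (Or.inl rfl)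
    · subst h
      refine Quot.sound (Or.inr ⟨rfl, ?_⟩)
      by_cases hi : i ∈ K
      · exact Or.inr hi
      · refine Or.inl ?_
        simp [cab, hg i hi, gT]
  · rintro ⟨x⟩
    exact ⟨Quot.mk _ x, rfl⟩

lemma update_ty2 (g : I → Ty) (i : I) (u : Ty) :
    (fun i' => ty2 (Function.update g i u i')) = Function.update (fun i' => ty2 (g i')) i (ty2 u) := by
  funext i'
  by_cases h : i' = i
  · subst h; simp
  · rw [Function.update_of_ne h, Function.update_of_ne h]

lemma bridge3 (ρ : Flag I → Flag I) (hρ : ∀ x, ρ (ρ x) = x) (hne : ∀ x, ρ x ≠ x)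
    (K : Finset I) (i : I) (hi : i ∉ K)
    (hbr : Quot.mk (HStep ρ K) (i, false, false) ≠ Quot.mk (HStep ρ K) (i, true, false))
    (g : I → Ty) (hg : ∀ i, i ∉ K → g i = gT) :
    (3 : ℤ) * (3 ^ cabs ρ (Function.update g i gN) + 3 ^ cabs ρ (Function.update g i gX)) =
      2 * 3 ^ cabs ρ (Function.update g i gT) := by
  have h5 := tp5_bridge (c := 2) (by norm_num) ρ hρ hne (-2) (fun i' => ty2 (g i')) i
    (γ := fun x => Quot.mk (HStep ρ K) x) (fun x => (show Quot.mk (HStep ρ K) x = Quot.mk (HStep ρ K) (ρ x) from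
      Quot.sound (Or.inl rfl)).symm) ?_ ?_
  · rw [local_three ρ hρ hne, sum_Ty, ← update_ty2, ← update_ty2, ← update_ty2, psi_type ρ hρ hne,
      psi_type ρ hρ hne, psi_type ρ hρ hne] at h5
    have w1 : w3 gT = -8 := rfl
    have w2 : w3 gN = 12 := by unfold w3; rw [if_neg (by decide)]
    have w4 : w3 gX = 12 := by unfold w3; rw [if_neg (by decide)]
    rw [w1, w2, w4] at h5
    have h6 : (4 * 16 ^ Fintype.card I : ℤ) ≠ 0 := by positivity
    apply mul_left_cancel₀ h6
    linarith
  · intro i' hi' y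
    by_cases hK : i' ∈ K
    · exact Quot.sound (Or.inr ⟨rfl, Or.inr hK⟩)
    · obtain ⟨s, b0, j⟩ := y
      refine Quot.sound (Or.inr ⟨rfl, Or.inl ?_⟩)
      simp [ty2, typ, hg i' hK, gT, fl]
  · intro b0 b1 h
    apply hbr
    rw [same_side ρ K i false false b0, h, same_side ρ K i true b1 false]

lemma arith_aux (x y : ℕ) (h : (1 : ℤ) + (-2) ^ x + (-2) ^ y = 0) :
    (x = 0 ∧ y = 1) ∨ (x = 1 ∧ y = 0) := by
  have one : ∀ n : ℕ, (-2 : ℤ) ^ n = -2 → n = 1 := by
    intro n hn
    match n, hn with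
    | 0, hn => norm_num at hn
    | 1, _ => rfl
    | n + 2, hn =>
      exfalso
      rw [pow_succ, pow_succ] at hn
      generalize (-2 : ℤ) ^ n = u at hn
      omega
  match x, y, h with
  | 0, y, h =>
    refine Or.inl ⟨rfl, one y ?_⟩
    rw [pow_zero] at h
    linarith
  | x + 1, 0, h =>
    refine Or.inr ⟨one (x + 1) ?_, rfl⟩
    rw [pow_zero] at h
    linarith
  | x + 1, y + 1, h =>
    exfalso
    rw [pow_succ, pow_succ] at h
    generalize (-2 : ℤ) ^ x = u at h
    generalize (-2 : ℤ) ^ y = v at h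
    omega

lemma arith3 (a b c : ℕ) (h : (-2 : ℤ) ^ a + (-2) ^ b + (-2) ^ c = 0) :
    (b = c ∧ a = b + 1) ∨ (a = b ∧ c = a + 1) ∨ (a = c ∧ b = a + 1) := by
  have key : ∀ a b c : ℕ, a ≤ b → a ≤ c → (-2 : ℤ) ^ a + (-2) ^ b + (-2) ^ c = 0 →
      (b = a ∧ c = a + 1) ∨ (b = a + 1 ∧ c = a) := by
    intro a b c h1 h2 h
    obtain ⟨x, rfl⟩ := Nat.exists_eq_add_of_le h1
    obtain ⟨y, rfl⟩ := Nat.exists_eq_add_of_le h2
    have h3 : (-2 : ℤ) ^ a * (1 + (-2) ^ x + (-2) ^ y) = 0 := by
      rw [pow_add, pow_add] at h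
      linarith
    rcases mul_eq_zero.1 h3 with h4 | h4
    · exact absurd h4 (pow_ne_zero _ (by norm_num))
    · rcases arith_aux x y h4 with ⟨rfl, rfl⟩ | ⟨rfl, rfl⟩
      · exact Or.inl ⟨rfl, rfl⟩
      · exact Or.inr ⟨rfl, rfl⟩
  rcases le_total a b with hab | hab
  · rcases le_total a c with hac | hac
    · have := key a b c hab hac h
      omega
    · have := key c a b hac (hac.trans hab) (by linarith)
      omega
  · rcases le_total b c with hbc | hbc
    · have := key b a c hab hbc (by linarith)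
      omega
    · have := key c a b (hbc.trans hab) hbc (by linarith)
      omega

lemma cabs_T (ρ : Flag I → Flag I) : cabs ρ (fun _ => gT) = kap ρ ∅ := by
  unfold cabs kap
  apply quot_card_congr
  · intro x y h
    rcases h with h | h
    · exact Quot.sound (Or.inl h)
    · subst h
      exact Quot.sound (Or.inr ⟨rfl, Or.inl (by simp [cab, gT])⟩)
  · intro x y h
    rcases h with h | ⟨h1, h2 | h2⟩
    · exact Quot.sound (Or.inl h)
    · obtain ⟨i1, s1, b1⟩ := x
      obtain ⟨i2, s2, b2⟩ := y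
      simp only at h1 h2
      subst h1
      subst h2
      by_cases hb : b1 = b2
      · subst hb; rfl
      · refine Quot.sound (Or.inr ?_)
        have : b2 = !b1 := by cases b1 <;> cases b2 <;> simp_all
        subst this
        simp [cab, gT]
    · exact absurd h2 (notMem_empty _)

lemma kap_insert_lt (ρ : Flag I → Flag I) (K : Finset I) (i : I)
    (h : Quot.mk (HStep ρ K) (i, false, false) ≠ Quot.mk (HStep ρ K) (i, true, false)) :
    kap ρ (insert i K) + 1 = kap ρ K := by
  classical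
  have h1 := (kap_insert ρ K i).1
  have : Finite (Quot (HStep ρ K)) := Finite.of_surjective (Quot.mk _) Quot.mk_surjective
  have hs : Function.Surjective (Quot.map id (fun x y (h : HStep ρ K x y) =>
      (show HStep ρ (insert i K) x y from h.imp_right
        (fun h => ⟨h.1, h.2.imp_right (fun h => mem_insert_of_mem h)⟩))) :
      Quot (HStep ρ K) → Quot (HStep ρ (insert i K))) := by
    rintro ⟨x⟩
    exact ⟨Quot.mk _ x, rfl⟩
  have h2 : kap ρ (insert i K) ≤ kap ρ K := Nat.card_le_card_of_surjective _ hs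
  have h3 : ¬ kap ρ K ≤ kap ρ (insert i K) := by
    intro h3
    have h4 := (hs.bijective_of_nat_card_le h3).1
    apply h
    apply h4
    exact Quot.sound (Or.inr ⟨rfl, Or.inr (mem_insert_self _ _)⟩)
  omega

lemma kap_insert_cases (ρ : Flag I → Flag I) (K : Finset I) (i : I) :
    (kap ρ (insert i K) + 1 = kap ρ K ∧
      Quot.mk (HStep ρ K) (i, false, false) ≠ Quot.mk (HStep ρ K) (i, true, false)) ∨
    (kap ρ (insert i K) = kap ρ K ∧
      Quot.mk (HStep ρ K) (i, false, false) = Quot.mk (HStep ρ K) (i, true, false)) := by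
  by_cases h : Quot.mk (HStep ρ K) (i, false, false) = Quot.mk (HStep ρ K) (i, true, false)
  · exact Or.inr ⟨(kap_insert ρ K i).2 h, h⟩
  · exact Or.inl ⟨kap_insert_lt ρ K i h, h⟩

/-- the support -/
def supp3 (g : I → Ty) : Finset I := univ.filter fun i => g i ≠ gT

lemma supp3_update_T (g : I → Ty) (i : I) (K : Finset I) (hi : i ∉ K)
    (hg : supp3 g = insert i K) : supp3 (Function.update g i gT) = K := by
  ext j
  have h1 : j ∈ supp3 g ↔ j ∈ insert i K := by rw [hg]
  simp only [supp3, mem_filter, mem_univ, true_and, mem_insert] at h1 ⊢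
  by_cases hj : j = i
  · subst hj
    simp [hi]
  · rw [Function.update_of_ne hj, h1]
    simp [hj]

lemma supp3_update (g : I → Ty) (i : I) (K : Finset I) (u : Ty) (hu : u ≠ gT)
    (hg : supp3 g = K) : supp3 (Function.update g i u) = insert i K := by
  ext j
  have h1 : j ∈ supp3 g ↔ j ∈ K := by rw [hg]
  simp only [supp3, mem_filter, mem_univ, true_and, mem_insert] at h1 ⊢
  by_cases hj : j = i
  · subst hj
    simp [hu]
  · rw [Function.update_of_ne hj, h1]
    simp [hj]

lemma off3 (g : I → Ty) (K : Finset I) (hg : supp3 g = K) (i : I) (hi : i ∉ K) : g i = gT := by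
  by_contra h
  apply hi
  rw [← hg]
  simp [supp3, h]

lemma Ty_cases (u : Ty) : u = gT ∨ u = gN ∨ u = gX := by
  revert u; decide

lemma forest_cabs (ρ : Flag I → Flag I) (hρ : ∀ x, ρ (ρ x) = x) (hne : ∀ x, ρ x ≠ x)
    (K : Finset I) (hK : kap ρ K + K.card = kap ρ ∅) (g : I → Ty) (hg : supp3 g = K) :
    cabs ρ g = kap ρ K := by
  induction K using Finset.induction generalizing g with
  | empty =>
    have : g = fun _ => gT := by
      funext i
      exact off3 g ∅ hg i (notMem_empty i)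
    rw [this, cabs_T]
  | insert i K hi ih =>
    obtain ⟨h1, h2⟩ := forest_insert ρ K i hi hK
    rw [card_insert_of_notMem hi] at hK
    have h3 := ih h1 (Function.update g i gT) (supp3_update_T g i K hi hg)
    have h4 := bridge3 ρ hρ hne K i hi h2 (Function.update g i gT)
      (off3 _ K (supp3_update_T g i K hi hg))
    have h5 := three_cabs ρ hρ hne g i
    simp only [Function.update_idem] at h4
    have hgi : g i ≠ gT := by
      have : i ∈ supp3 g := by rw [hg]; exact mem_insert_self _ _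
      simpa [supp3] using this
    rcases arith3 _ _ _ h5 with ⟨h6, h7⟩ | ⟨h6, h7⟩ | ⟨h6, h7⟩
    · rcases Ty_cases (g i) with h8 | h8 | h8
      · exact absurd h8 hgi
      · have h9 : Function.update g i gN = g := by rw [← h8, Function.update_eq_self]
        rw [h9] at h7
        omega
      · have h9 : Function.update g i gX = g := by rw [← h8, Function.update_eq_self]
        rw [h9] at h6
        omega
    · exfalso
      rw [h7, ← h6, pow_succ] at h4
      have h10 : (0 : ℤ) < 3 ^ cabs ρ (Function.update g i gT) := by positivity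
      linarith
    · exfalso
      rw [h7, ← h6, pow_succ] at h4
      have h10 : (0 : ℤ) < 3 ^ cabs ρ (Function.update g i gT) := by positivity
      linarith

lemma cycle_cabs (ρ : Flag I → Flag I) (hρ : ∀ x, ρ (ρ x) = x) (hne : ∀ x, ρ x ≠ x)
    (K : Finset I) (hK : kap ρ K + K.card = kap ρ ∅) (i : I) (hi : i ∉ K)
    (hk : kap ρ (insert i K) = kap ρ K) (g : I → Ty) (hg : supp3 g = K) :
    (3 : ℤ) ^ cabs ρ (Function.update g i gN) + 3 ^ cabs ρ (Function.update g i gX) =
      4 * 3 ^ kap ρ K := by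
  have h0 : Function.update g i gT = g := by
    rw [← off3 g K hg i hi, Function.update_eq_self]
  have h1 := forest_cabs ρ hρ hne K hK g hg
  have h5 := three_cabs ρ hρ hne g i
  rw [h0, h1] at h5
  have h2 : kap ρ (insert i K) ≤ cabs ρ (Function.update g i gN) :=
    kap_le_cabs ρ (insert i K) _ (off3 _ _ (supp3_update g i K gN (by decide) hg))
  rcases arith3 _ _ _ h5 with ⟨h6, h7⟩ | ⟨h6, h7⟩ | ⟨h6, h7⟩
  · omega
  · rw [h7, ← h6, pow_succ]; ring
  · rw [h7, ← h6, pow_succ]; ring

lemma sum_supp_insert (K : Finset I) (i : I) (hi : i ∉ K) (f : (I → Ty) → ℤ) :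
    ∑ g ∈ univ.filter (fun g : I → Ty => supp3 g = insert i K), f g =
      ∑ g ∈ univ.filter (fun g : I → Ty => supp3 g = K),
        (f (Function.update g i gN) + f (Function.update g i gX)) := by
  have h1 : ∀ g : I → Ty, f (Function.update g i gN) + f (Function.update g i gX) =
      ∑ u ∈ ({gN, gX} : Finset Ty), f (Function.update g i u) := by
    intro g
    rw [sum_pair (by decide)]
  simp_rw [h1]
  rw [← sum_product']
  symm
  refine sum_bij' (fun x _ => Function.update x.1 i x.2)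
    (fun g _ => (Function.update g i gT, g i)) ?_ ?_ ?_ ?_ ?_
  · rintro ⟨g, u⟩ hx
    rw [mem_product, mem_filter] at hx
    rw [mem_filter]
    refine ⟨mem_univ _, supp3_update g i K u ?_ hx.1.2⟩
    have h2 := hx.2
    simp only [mem_insert, mem_singleton] at h2
    rcases h2 with h2 | h2 <;> rw [h2] <;> decide
  · intro g hg
    rw [mem_filter] at hg
    rw [mem_product, mem_filter]
    refine ⟨⟨mem_univ _, supp3_update_T g i K hi hg.2⟩, ?_⟩
    have hgi : g i ≠ gT := by
      have : i ∈ supp3 g := by rw [hg.2]; exact mem_insert_self _ _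
      simpa [supp3] using this
    simp only [mem_insert, mem_singleton]
    rcases Ty_cases (g i) with h8 | h8 | h8
    · exact absurd h8 hgi
    · exact Or.inl h8
    · exact Or.inr h8
  · rintro ⟨g, u⟩ hx
    rw [mem_product, mem_filter] at hx
    simp only [Function.update_self, Function.update_idem, Prod.mk.injEq, and_true]
    rw [← off3 g K hx.1.2 i hi, Function.update_eq_self]
  · intro g hg
    simp only [Function.update_idem, Function.update_eq_self]
  · rintro ⟨g, u⟩ hx
    rfl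

lemma sum_supp_const (K : Finset I) (a : ℤ) :
    ∑ g ∈ univ.filter (fun g : I → Ty => supp3 g = K), a = 2 ^ K.card * a := by
  induction K using Finset.induction with
  | empty =>
    rw [sum_eq_single (fun _ => gT)]
    · simp
    · intro g hg hne
      rw [mem_filter] at hg
      exfalso
      apply hne
      funext i
      exact off3 g ∅ hg.2 i (notMem_empty i)
    · intro h
      exfalso
      apply h
      rw [mem_filter]
      refine ⟨mem_univ _, ?_⟩
      ext i
      simp [supp3]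
  | insert i K hi ih =>
    rw [sum_supp_insert K i hi, sum_add_distrib, ih, card_insert_of_notMem hi, pow_succ]
    ring

/-- the sum over the types with support `K` -/
noncomputable def TS (ρ : Flag I → Flag I) (K : Finset I) : ℤ :=
  ∑ g ∈ univ.filter (fun g : I → Ty => supp3 g = K), 3 ^ cabs ρ g

lemma TS_forest (ρ : Flag I → Flag I) (hρ : ∀ x, ρ (ρ x) = x) (hne : ∀ x, ρ x ≠ x)
    (K : Finset I) (hK : kap ρ K + K.card = kap ρ ∅) : TS ρ K = 2 ^ K.card * 3 ^ kap ρ K := by
  unfold TS
  rw [← sum_supp_const]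
  refine sum_congr rfl fun g hg => ?_
  rw [mem_filter] at hg
  rw [forest_cabs ρ hρ hne K hK g hg.2]

lemma exists_erase (ρ : Flag I → Flag I) (K : Finset I)
    (hK : kap ρ K + K.card = kap ρ ∅ + 1) :
    ∃ (i : I) (K' : Finset I), i ∉ K' ∧ K = insert i K' ∧ kap ρ K' + K'.card = kap ρ ∅ ∧
      kap ρ (insert i K') = kap ρ K' := by
  induction K using Finset.induction with
  | empty => simp at hK
  | insert j K hj ih =>
    rw [card_insert_of_notMem hj] at hK
    rcases kap_insert_cases ρ K j with ⟨h1, h2⟩ | ⟨h1, h2⟩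
    · obtain ⟨i, K', h3, h4, h5, h6⟩ := ih (by omega)
      have hji : j ≠ i := by
        rintro rfl
        apply hj
        rw [h4]
        exact mem_insert_self _ _
      have hjK : j ∉ K' := fun h => hj (by rw [h4]; exact mem_insert_of_mem h)
      have h7 : Quot.mk (HStep ρ K') (j, false, false) ≠ Quot.mk (HStep ρ K') (j, true, false) := by
        intro h8
        apply h2
        have h9 := congrArg (Quot.map id (fun x y (h : HStep ρ K' x y) =>
          (show HStep ρ K x y from h.imp_right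
            (fun h => ⟨h.1, h.2.imp_right (fun h => by rw [h4]; exact mem_insert_of_mem h)⟩)))) h8
        exact h9
      have h8 := kap_insert_lt ρ K' j h7
      refine ⟨i, insert j K', ?_, ?_, ?_, ?_⟩
      · rw [mem_insert]
        rintro (h | h)
        · exact hji h.symm
        · exact h3 h
      · rw [h4, Finset.insert_comm]
      · rw [card_insert_of_notMem hjK]
        omega
      · rw [Finset.insert_comm, ← h4]
        have : kap ρ K = kap ρ K' := by rw [h4]; exact h6
        omega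
    · exact ⟨j, K, hj, rfl, by omega, h1⟩

lemma TS_cycle (ρ : Flag I → Flag I) (hρ : ∀ x, ρ (ρ x) = x) (hne : ∀ x, ρ x ≠ x)
    (K : Finset I) (hK : kap ρ K + K.card = kap ρ ∅ + 1) :
    TS ρ K = 2 * (2 ^ K.card * 3 ^ kap ρ K) := by
  obtain ⟨i, K', h1, h2, h3, h4⟩ := exists_erase ρ K hK
  unfold TS
  rw [h2, sum_supp_insert K' i h1]
  have h5 : ∀ g ∈ univ.filter (fun g : I → Ty => supp3 g = K'),
      (3 : ℤ) ^ cabs ρ (Function.update g i gN) + 3 ^ cabs ρ (Function.update g i gX) =
      4 * 3 ^ kap ρ K' := by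
    intro g hg
    rw [mem_filter] at hg
    exact cycle_cabs ρ hρ hne K' h3 i h1 h4 g hg.2
  rw [sum_congr rfl h5, sum_supp_const, card_insert_of_notMem h1, h4, pow_succ]
  ring

lemma TS_dvd (ρ : Flag I → Flag I) (K : Finset I) : (3 : ℤ) ^ kap ρ K ∣ TS ρ K := by
  refine dvd_sum fun g hg => ?_
  rw [mem_filter] at hg
  exact pow_dvd_pow _ (kap_le_cabs ρ K g (off3 g K hg.2))

/-- the alternating number of sets of nullity one -/
noncomputable def tau1 (ρ : Flag I → Flag I) : ℤ :=
  ∑ K ∈ (univ : Finset (Finset I)).filter (fun K => kap ρ K + K.card = kap ρ ∅ + 1),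
    (-1 : ℤ) ^ K.card

lemma prod_w3 (g : I → Ty) : ∏ i, w3 (g i) = 12 ^ (supp3 g).card * (-8) ^ ((supp3 g)ᶜ).card := by
  classical
  rw [← Finset.prod_filter_mul_prod_filter_not univ (fun i => g i ≠ gT)]
  congr 1
  · rw [← prod_const]
    refine prod_congr rfl fun i hi => ?_
    have hi' : g i ≠ gT := by simpa [supp3] using hi
    unfold w3
    rw [if_neg hi']
  · rw [← prod_const]
    have : (supp3 g)ᶜ = univ.filter (fun i => ¬ g i ≠ gT) := by
      ext i; simp [supp3]
    rw [this]
    refine prod_congr rfl fun i hi => ?_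
    rw [mem_filter] at hi
    unfold w3
    rw [if_pos (not_not.1 hi.2)]

/-- the refinement for `p = 3` -/
theorem core_three (ρ : Flag I → Flag I) (hρ : ∀ x, ρ (ρ x) = x) (hne : ∀ x, ρ x ≠ x)
    (hτ : ¬ (9 : ℤ) ∣ tau ρ + 6 * tau1 ρ) : CoverI ρ 2 := by
  classical
  by_contra hno
  have h0 := total_zero3 ρ hρ hne hno
  have h1 : ∑ b : I → Ty, (∏ i, w3 (b i)) * Psi ρ (-2) (fun i => ty2 (b i)) =
      16 ^ Fintype.card I * ∑ K : Finset I, 12 ^ K.card * (-8) ^ (Kᶜ).card * TS ρ K := by
    rw [← sum_fiberwise univ (fun b : I → Ty => supp3 b), mul_sum]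
    refine sum_congr rfl fun K _ => ?_
    unfold TS
    rw [mul_sum, mul_sum]
    refine sum_congr rfl fun g hg => ?_
    rw [mem_filter] at hg
    rw [psi_type ρ hρ hne, prod_w3, hg.2]
    ring
  rw [h1] at h0
  have h2 : ∑ K : Finset I, (12 : ℤ) ^ K.card * (-8) ^ (Kᶜ).card * TS ρ K = 0 :=
    (mul_eq_zero.1 h0).resolve_left (by positivity)
  have e1 : ∀ K : Finset I, (12 : ℤ) ^ K.card * (-8) ^ (Kᶜ).card * 2 ^ K.card =
      (-8) ^ Fintype.card I * (-1) ^ K.card * 3 ^ K.card := by
    intro K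
    have h3 : Fintype.card I = K.card + (Kᶜ).card := (card_add_card_compl K).symm
    rw [h3, pow_add]
    have h4 : (12 : ℤ) ^ K.card * 2 ^ K.card = (-8) ^ K.card * (-1) ^ K.card * 3 ^ K.card := by
      rw [← mul_pow, ← mul_pow, ← mul_pow]; norm_num
    linear_combination (-8) ^ (Kᶜ).card * h4
  rw [← sum_filter_add_sum_filter_not (univ : Finset (Finset I))
    (fun K => kap ρ K + K.card = kap ρ ∅)] at h2
  rw [← sum_filter_add_sum_filter_not ((univ : Finset (Finset I)).filter
    (fun K => ¬ (kap ρ K + K.card = kap ρ ∅))) (fun K => kap ρ K + K.card = kap ρ ∅ + 1)] at h2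
  have f1 : ∑ K ∈ (univ : Finset (Finset I)).filter (fun K => kap ρ K + K.card = kap ρ ∅),
      (12 : ℤ) ^ K.card * (-8) ^ (Kᶜ).card * TS ρ K = (-8) ^ Fintype.card I * 3 ^ kap ρ ∅ * tau ρ := by
    unfold tau
    rw [mul_sum]
    refine sum_congr rfl fun K hK => ?_
    rw [mem_filter] at hK
    rw [TS_forest ρ hρ hne K hK.2, ← hK.2, pow_add]
    linear_combination 3 ^ kap ρ K * e1 K
  have f2 : ∑ K ∈ ((univ : Finset (Finset I)).filter
      (fun K => ¬ (kap ρ K + K.card = kap ρ ∅))).filter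
      (fun K => kap ρ K + K.card = kap ρ ∅ + 1),
      (12 : ℤ) ^ K.card * (-8) ^ (Kᶜ).card * TS ρ K =
        (-8) ^ Fintype.card I * 3 ^ kap ρ ∅ * (6 * tau1 ρ) := by
    have e2 : ((univ : Finset (Finset I)).filter
      (fun K => ¬ (kap ρ K + K.card = kap ρ ∅))).filter
      (fun K => kap ρ K + K.card = kap ρ ∅ + 1) = (univ : Finset (Finset I)).filter
        (fun K => kap ρ K + K.card = kap ρ ∅ + 1) := by
      ext K
      simp only [mem_filter, mem_univ, true_and]
      omega
    rw [e2]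
    unfold tau1
    rw [mul_sum, mul_sum]
    refine sum_congr rfl fun K hK => ?_
    rw [mem_filter] at hK
    rw [TS_cycle ρ hρ hne K hK.2]
    have h5 : (3 : ℤ) ^ kap ρ K * 3 ^ K.card = 3 ^ kap ρ ∅ * 3 := by
      rw [← pow_add, hK.2, pow_succ]
    linear_combination 2 * 3 ^ kap ρ K * e1 K + 2 * (-8) ^ Fintype.card I * (-1) ^ K.card * h5
  have f3 : (3 : ℤ) ^ (kap ρ ∅ + 2) ∣ ∑ K ∈ ((univ : Finset (Finset I)).filter
      (fun K => ¬ (kap ρ K + K.card = kap ρ ∅))).filter
      (fun K => ¬ (kap ρ K + K.card = kap ρ ∅ + 1)),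
      (12 : ℤ) ^ K.card * (-8) ^ (Kᶜ).card * TS ρ K := by
    refine dvd_sum fun K hK => ?_
    simp only [mem_filter, mem_univ, true_and] at hK
    have h6 := kap_le ρ K
    have h7 : (3 : ℤ) ^ (kap ρ ∅ + 2) ∣ 3 ^ K.card * 3 ^ kap ρ K := by
      rw [← pow_add]
      exact pow_dvd_pow _ (by omega)
    refine h7.trans ?_
    have h8 : (3 : ℤ) ^ K.card ∣ 12 ^ K.card := pow_dvd_pow_of_dvd (by norm_num) _
    exact mul_dvd_mul (h8.mul_right _) (TS_dvd ρ K)
  rw [f1, f2] at h2
  have h9 : (3 : ℤ) ^ kap ρ ∅ * 9 ∣ 3 ^ kap ρ ∅ * ((-8) ^ Fintype.card I * (tau ρ + 6 * tau1 ρ)) := by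
    have e3 : (3 : ℤ) ^ (kap ρ ∅ + 2) = 3 ^ kap ρ ∅ * 9 := by rw [pow_add]; norm_num
    rw [← e3]
    have e4 : (3 : ℤ) ^ kap ρ ∅ * ((-8) ^ Fintype.card I * (tau ρ + 6 * tau1 ρ)) =
      - ∑ K ∈ ((univ : Finset (Finset I)).filter
      (fun K => ¬ (kap ρ K + K.card = kap ρ ∅))).filter
      (fun K => ¬ (kap ρ K + K.card = kap ρ ∅ + 1)),
      (12 : ℤ) ^ K.card * (-8) ^ (Kᶜ).card * TS ρ K := by
      linear_combination h2
    rw [e4]
    exact (dvd_neg).2 f3
  have h10 := (mul_dvd_mul_iff_left (pow_ne_zero _ (by norm_num : (3 : ℤ) ≠ 0))).1 h9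
  have h11 : IsCoprime (9 : ℤ) ((-8) ^ Fintype.card I) := by
    apply IsCoprime.pow_right
    exact ⟨1, 1, by norm_num⟩
  exact hτ (h11.dvd_of_dvd_mul_left h10)

end Pool.Agent.H1.TP
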